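import Pool.Agent.PPD.CaseR

/-!
# Module PPD/Case23: no prime divisor in `[5, w]`, and `2 ∣ n` or `3 ∣ n`

PROOF. The set is the union of the sets for `e = 2` and `e = 3` (`e ∣ n`), each is contained in
`CS R x w 1 1 0 ∅ (fun _ => True) (Bad {e})` (`Adm` for the pair `e, l`), `count_gen` for `k = 0`, `lemOne`, `hc.two`:
`exp (-FF - BB) ≤ exp (C - 3/2 log log w) = exp C / (lw J) ^ (3/2) ≤ exp C * UB (3/2) J` (`log (lw J) + 1 ≥ 1`).
-/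

set_option autoImplicit false

namespace Pool.Agent.PPD

open Finset Classical Pool.Agent.PPC

theorem case_23 {R : ℕ → ℕ → Prop} {ρ : ℕ → ℕ} (hc : Cond2 R ρ) :
    ∃ C : ℝ, 0 < C ∧ ∃ s J₀ : ℕ, ∀ J ≥ J₀, ∀ x : ℕ, (8 ^ (2 ^ J)) ^ s ≤ x →
      (#((Icc 1 x).filter (fun n => (2 ∣ n ∨ 3 ∣ n) ∧
        (∀ l ∈ PS (8 ^ (2 ^ J)), ¬ l ∣ n) ∧ Adm R n)) : ℝ) ≤
        C * x * UB (3 / 2) J := by
  obtain ⟨C, hC, s, J₀, H⟩ := count_gen hc 0
  obtain ⟨C₁, H₁⟩ := lemOne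
  obtain ⟨C₂, H₂⟩ := hc.two
  refine ⟨2 * (C * (9 * Real.exp (C₁ + C₂))), by positivity, s, max J₀ 2, ?_⟩
  intro J hJ x hx
  have hJ₀ : J ≥ J₀ := le_trans (le_max_left _ _) hJ
  have hJ2 : 2 ≤ J := le_trans (le_max_right _ _) hJ
  obtain ⟨hY, hYw⟩ := scale_nat hJ2
  obtain ⟨hl1, hl0, hY1, hY3, _⟩ := scale_real hJ2
  have hlY : 0 ≤ Real.log (Real.log ((8 ^ J : ℕ) : ℝ)) := Real.log_nonneg hY1
  have e0 : Real.log (Real.log ((8 ^ (2 ^ J) : ℕ) : ℝ)) = Real.log (lw J) := rfl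
  have key : ∀ e : ℕ, (e = 2 ∨ e = 3) →
      (#(CS R x (8 ^ (2 ^ J)) 1 1 0 ∅ (fun _ => True) (Bad {e})) : ℝ) ≤
        C * x * (9 * Real.exp (C₁ + C₂) * UB (3 / 2) J) := by
    intro e he
    have hF := H₁ (8 ^ (2 ^ J)) (by omega)
    have hB := H₂ e (8 ^ (2 ^ J)) he (by omega)
    rw [e0] at hF hB
    have hF' : 1 * (Real.log (lw J) - Real.log (Real.log ((8 ^ J : ℕ) : ℝ))) - C₁ ≤
        FF (fun _ => True) (8 ^ (2 ^ J)) := by linarith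
    have hB' : 1 / 2 * (Real.log (lw J) - Real.log (Real.log ((8 ^ J : ℕ) : ℝ))) - C₂ ≤
        BB ρ (Bad {e}) (8 ^ (2 ^ J)) := by linarith
    have hexp := exp_case hJ2 hF' hB' (by norm_num) (by norm_num)
    rw [show (1 + 1 / 2 : ℝ) = 3 / 2 by norm_num] at hexp
    have h1 := H J hJ₀ 1 1 0 x ∅ (fun _ => True) (Bad {e}) (by simp) one_pos one_pos
      (fun l _ _ _ _ => by simp) (by simpa using hx)
    refine h1.trans ?_
    rw [Nat.cast_one, mul_one, div_one]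
    exact mul_le_mul_of_nonneg_left hexp (by positivity)
  have hsub : (Icc 1 x).filter (fun n => (2 ∣ n ∨ 3 ∣ n) ∧
        (∀ l ∈ PS (8 ^ (2 ^ J)), ¬ l ∣ n) ∧ Adm R n) ⊆
      CS R x (8 ^ (2 ^ J)) 1 1 0 ∅ (fun _ => True) (Bad {2}) ∪
      CS R x (8 ^ (2 ^ J)) 1 1 0 ∅ (fun _ => True) (Bad {3}) := by
    intro n hn
    simp only [mem_filter] at hn
    obtain ⟨hnx, h23, hall, hadm⟩ := hn
    have key2 : ∀ e : ℕ, e.Prime → e ∣ n →
        n ∈ CS R x (8 ^ (2 ^ J)) 1 1 0 ∅ (fun _ => True) (Bad {e}) := by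
      intro e he hen
      unfold CS
      rw [mem_filter]
      refine ⟨hnx, one_dvd _, by rw [Nat.mod_one, Nat.mod_one], ?_⟩
      intro l hl hl5 hlw _
      refine ⟨?_, ?_⟩
      · intro _ hdl
        refine hall l ?_ hdl
        unfold PS
        rw [mem_filter, mem_Icc]
        exact ⟨⟨hl5, hlw⟩, hl⟩
      · rintro ⟨p, hp, hpsq⟩ hRl
        rw [mem_singleton] at hp
        subst hp
        exact hpsq (hadm p l he hl hen hRl)
    rw [mem_union]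
    rcases h23 with h | h
    · exact Or.inl (key2 2 Nat.prime_two h)
    · exact Or.inr (key2 3 Nat.prime_three h)
  have h2 := key 2 (Or.inl rfl)
  have h3 := key 3 (Or.inr rfl)
  calc (#((Icc 1 x).filter (fun n => (2 ∣ n ∨ 3 ∣ n) ∧
        (∀ l ∈ PS (8 ^ (2 ^ J)), ¬ l ∣ n) ∧ Adm R n)) : ℝ)
      ≤ (#(CS R x (8 ^ (2 ^ J)) 1 1 0 ∅ (fun _ => True) (Bad {2})) : ℝ) +
        (#(CS R x (8 ^ (2 ^ J)) 1 1 0 ∅ (fun _ => True) (Bad {3})) : ℝ) := by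
        exact_mod_cast (card_le_card hsub).trans (card_union_le _ _)
    _ ≤ C * x * (9 * Real.exp (C₁ + C₂) * UB (3 / 2) J) +
        C * x * (9 * Real.exp (C₁ + C₂) * UB (3 / 2) J) := add_le_add h2 h3
    _ = 2 * (C * (9 * Real.exp (C₁ + C₂))) * x * UB (3 / 2) J := by ring

end Pool.Agent.PPD
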