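import Pool.Agent.PPD.CaseR

/-!
# Module PPD/CaseFew: `T` is the set of all prime divisors in `[5, w]`

PROOF. As for `CaseR`, with `b = ∏ T`, `r = 1`, `c = 0`, `E = T`, `Fd l := True`, `Bd l := Bad T l`. `lemOne`
(`FF ≥ log log w - C ≥ (log log w - log log Y) - C`, as `log log Y ≥ 0`), `lemS` with `1 - 1/2^#T ≥ 1/2` (`T` nonempty, `#T ≤ k`),
`exp_scale` with `β = 3/2`. The elements of `T` may be larger than `w` (this is used for `T = {p}`).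
-/

set_option autoImplicit false

namespace Pool.Agent.PPD

open Finset Classical Pool.Agent.PPC

theorem case_few {R : ℕ → ℕ → Prop} {ρ : ℕ → ℕ} (hc : Cond2 R ρ) (k : ℕ) :
    ∃ C : ℝ, 0 < C ∧ ∃ s J₀ : ℕ, ∀ J ≥ J₀, ∀ (T : Finset ℕ) (x : ℕ), T.Nonempty → #T ≤ k →
      (∀ p ∈ T, p.Prime ∧ 5 ≤ p) → Fine ρ (8 ^ J) (8 ^ (2 ^ J)) T →
      (8 ^ (2 ^ J)) ^ s * (∏ p ∈ T, p) ≤ x →
      (#((Icc 1 x).filter (fun n => (∏ p ∈ T, p) ∣ n ∧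
        (∀ l ∈ PS (8 ^ (2 ^ J)), l ∣ n → l ∈ T) ∧ Adm R n)) : ℝ) ≤
        C * x / (∏ p ∈ T, p : ℕ) * UB (3 / 2) J := by
  obtain ⟨C, hC, s, J₀, H⟩ := count_gen hc k
  obtain ⟨C₁, H₁⟩ := lemOne
  obtain ⟨C₂, H₂⟩ := lemS hc k
  refine ⟨C * (9 * Real.exp (C₁ + C₂)), by positivity, s, max J₀ 2, ?_⟩
  intro J hJ T x hTne hTk hT hfine hx
  have hJ₀ : J ≥ J₀ := le_trans (le_max_left _ _) hJ
  have hJ2 : 2 ≤ J := le_trans (le_max_right _ _) hJ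
  obtain ⟨hY, hYw⟩ := scale_nat hJ2
  obtain ⟨hl1, hl0, hY1, hY3, _⟩ := scale_real hJ2
  have hb0 : 0 < ∏ p ∈ T, p := prod_pos fun p hp => (hT p hp).1.pos
  have hcop : ∀ l : ℕ, l.Prime → 5 ≤ l → l ≤ 8 ^ (2 ^ J) → l ∉ T →
      l.Coprime ((∏ p ∈ T, p) * 1) := by
    intro l hl _ _ hlE
    rw [mul_one]
    exact cop_of_notMem hT hl hlE
  have hsub : (Icc 1 x).filter (fun n => (∏ p ∈ T, p) ∣ n ∧
        (∀ l ∈ PS (8 ^ (2 ^ J)), l ∣ n → l ∈ T) ∧ Adm R n) ⊆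
      CS R x (8 ^ (2 ^ J)) (∏ p ∈ T, p) 1 0 T (fun _ => True) (Bad T) := by
    intro n hn
    simp only [mem_filter] at hn
    obtain ⟨hnx, hd, hall, hadm⟩ := hn
    unfold CS
    rw [mem_filter]
    refine ⟨hnx, hd, by rw [Nat.mod_one, Nat.mod_one], ?_⟩
    intro l hl hl5 hlw hlE
    refine ⟨?_, ?_⟩
    · intro _ hdl
      refine hlE (hall l ?_ hdl)
      unfold PS
      rw [mem_filter, mem_Icc]
      exact ⟨⟨hl5, hlw⟩, hl⟩
    · rintro ⟨p, hp, hpsq⟩ hRl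
      exact hpsq (hadm p l (hT p hp).1 hl ((dvd_prod_of_mem _ hp).trans hd) hRl)
  have hF := H₁ (8 ^ (2 ^ J)) (by omega)
  have hlY : 0 ≤ Real.log (Real.log ((8 ^ J : ℕ) : ℝ)) := Real.log_nonneg hY1
  have hF' : 1 * (Real.log (lw J) - Real.log (Real.log ((8 ^ J : ℕ) : ℝ))) - C₁ ≤
      FF (fun _ => True) (8 ^ (2 ^ J)) := by
    have e : Real.log (Real.log ((8 ^ (2 ^ J) : ℕ) : ℝ)) = Real.log (lw J) := rfl
    rw [e] at hF
    linarith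
  have hB := H₂ _ _ T hY hYw hT hTk hfine
  have hB' : 1 / 2 * (Real.log (lw J) - Real.log (Real.log ((8 ^ J : ℕ) : ℝ))) - C₂ ≤
      BB ρ (Bad T) (8 ^ (2 ^ J)) := by
    have e : Real.log (Real.log ((8 ^ (2 ^ J) : ℕ) : ℝ)) = Real.log (lw J) := rfl
    rw [e] at hB
    have h1 : 0 ≤ Real.log (lw J) - Real.log (Real.log ((8 ^ J : ℕ) : ℝ)) := by
      have h2 : Real.log ((8 ^ J : ℕ) : ℝ) ≤ lw J := by
        unfold lw
        refine Real.log_le_log ?_ (by exact_mod_cast hYw)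
        exact_mod_cast (by omega : 0 < 8 ^ J)
      have := Real.log_le_log (by linarith) h2
      linarith
    have h2 : (1 : ℝ) / 2 ≤ 1 - 1 / 2 ^ #T := by
      have h3 : (2 : ℝ) ≤ 2 ^ #T := by
        calc (2 : ℝ) = 2 ^ 1 := by norm_num
          _ ≤ 2 ^ #T := pow_le_pow_right₀ (by norm_num) (card_pos.2 hTne)
      have h4 : (1 : ℝ) / 2 ^ #T ≤ 1 / 2 := one_div_le_one_div_of_le (by norm_num) h3
      linarith
    have h3 := mul_le_mul_of_nonneg_right h2 h1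
    linarith
  have hexp := exp_case hJ2 hF' hB' (by norm_num) (by norm_num)
  rw [show (1 + 1 / 2 : ℝ) = 3 / 2 by norm_num] at hexp
  have h1 := H J hJ₀ (∏ p ∈ T, p) 1 0 x T (fun _ => True) (Bad T) hTk hb0 one_pos hcop
    (by rw [mul_one]; exact hx)
  calc (#((Icc 1 x).filter (fun n => (∏ p ∈ T, p) ∣ n ∧
        (∀ l ∈ PS (8 ^ (2 ^ J)), l ∣ n → l ∈ T) ∧ Adm R n)) : ℝ)
      ≤ (#(CS R x (8 ^ (2 ^ J)) (∏ p ∈ T, p) 1 0 T (fun _ => True) (Bad T)) : ℝ) := by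
        exact_mod_cast card_le_card hsub
    _ ≤ _ := h1
    _ ≤ C * x / ((∏ p ∈ T, p : ℕ) * ((1 : ℕ) : ℝ)) *
        (9 * Real.exp (C₁ + C₂) * UB (3 / 2) J) :=
        mul_le_mul_of_nonneg_left hexp (by positivity)
    _ = C * (9 * Real.exp (C₁ + C₂)) * x / (∏ p ∈ T, p : ℕ) * UB (3 / 2) J := by
        rw [Nat.cast_one, mul_one]; ring

end Pool.Agent.PPD
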