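import Pool.Agent.PPD.CaseR

/-!
# Module PPD/CaseM: `T` has `k` elements and there is a fixed witness `D`

PROOF. As for `CaseR`, with `b = ∏ T`, `r = 1`, `c = 0`, `E = T`, `Fd l := chi D l = -1`, `Bd l := Bad T l`; `lemD` (note
`log log Y ≥ 0`, so `1/2 log log w ≥ 1/2 (log log w - log log Y)`), `lemS`, `exp_scale` with `β = 3/2 - 1/2^k`.
-/

set_option autoImplicit false

namespace Pool.Agent.PPD

open Finset Classical Pool.Agent.PPC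

theorem case_m {R : ℕ → ℕ → Prop} {ρ : ℕ → ℕ} (hc : Cond2 R ρ) (k : ℕ) :
    ∃ C : ℝ, 0 < C ∧ ∃ s J₀ : ℕ, ∀ J ≥ J₀, ∀ (T : Finset ℕ) (D : ℤ) (x : ℕ), #T = k →
      (∀ p ∈ T, p.Prime ∧ 5 ≤ p) → Fine ρ (8 ^ J) (8 ^ (2 ^ J)) T → Small D →
      (8 ^ (2 ^ J)) ^ s * (∏ p ∈ T, p) ≤ x →
      (#((Icc 1 x).filter (fun n => (∏ p ∈ T, p) ∣ n ∧ Miss D n ∧ Adm R n)) : ℝ) ≤
        C * x / (∏ p ∈ T, p : ℕ) * UB (3 / 2 - 1 / 2 ^ k) J := by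
  obtain ⟨C, hC, s, J₀, H⟩ := count_gen hc k
  obtain ⟨C₁, H₁⟩ := lemD
  obtain ⟨C₂, H₂⟩ := lemS hc k
  refine ⟨C * (9 * Real.exp (C₁ + C₂)), by positivity, s, max J₀ 2, ?_⟩
  intro J hJ T D x hTk hT hfine hD hx
  have hJ₀ : J ≥ J₀ := le_trans (le_max_left _ _) hJ
  have hJ2 : 2 ≤ J := le_trans (le_max_right _ _) hJ
  obtain ⟨hY, hYw⟩ := scale_nat hJ2
  obtain ⟨hl1, hl0, hY1, hY3, _⟩ := scale_real hJ2
  have hb0 : 0 < ∏ p ∈ T, p := prod_pos fun p hp => (hT p hp).1.pos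
  have hcop : ∀ l : ℕ, l.Prime → 5 ≤ l → l ≤ 8 ^ (2 ^ J) → l ∉ T →
      l.Coprime ((∏ p ∈ T, p) * 1) := by
    intro l hl _ _ hlE
    rw [mul_one]
    exact cop_of_notMem hT hl hlE
  have hsub : (Icc 1 x).filter (fun n => (∏ p ∈ T, p) ∣ n ∧ Miss D n ∧ Adm R n) ⊆
      CS R x (8 ^ (2 ^ J)) (∏ p ∈ T, p) 1 0 T (fun l => chi D l = -1) (Bad T) := by
    intro n hn
    rw [mem_filter] at hn
    obtain ⟨hnx, hd, hmiss, hadm⟩ := hn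
    unfold CS
    rw [mem_filter]
    refine ⟨hnx, hd, by rw [Nat.mod_one, Nat.mod_one], ?_⟩
    intro l hl hl5 hlw hlE
    refine ⟨?_, ?_⟩
    · intro hFd hdl
      exact hmiss l hl hl5 hdl hFd
    · rintro ⟨p, hp, hpsq⟩ hRl
      exact hpsq (hadm p l (hT p hp).1 hl ((dvd_prod_of_mem _ hp).trans hd) hRl)
  have hF := H₁ D (8 ^ (2 ^ J)) hD (by omega)
  have hF' : 1 / 2 * (Real.log (lw J) - Real.log (Real.log ((8 ^ J : ℕ) : ℝ))) - C₁ ≤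
      FF (fun l => chi D l = -1) (8 ^ (2 ^ J)) := by
    have : 0 ≤ Real.log (Real.log ((8 ^ J : ℕ) : ℝ)) := Real.log_nonneg hY1
    have e : Real.log (Real.log ((8 ^ (2 ^ J) : ℕ) : ℝ)) = Real.log (lw J) := rfl
    rw [e] at hF
    linarith
  have hexp := exp_case hJ2 hF' (H₂ _ _ T hY hYw hT hTk.le hfine)
    (by
      have : (1 : ℝ) / 2 ^ #T ≤ 1 := by
        rw [div_le_one (by positivity)]
        exact one_le_pow₀ (by norm_num)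
      linarith)
    (by
      have : (0 : ℝ) ≤ 1 / 2 ^ #T := by positivity
      linarith)
  have e1 : (1 / 2 + (1 - 1 / 2 ^ #T) : ℝ) = 3 / 2 - 1 / 2 ^ k := by rw [hTk]; ring
  rw [e1] at hexp
  have h1 := H J hJ₀ (∏ p ∈ T, p) 1 0 x T (fun l => chi D l = -1) (Bad T) hTk.le hb0 one_pos hcop
    (by rw [mul_one]; exact hx)
  calc (#((Icc 1 x).filter (fun n => (∏ p ∈ T, p) ∣ n ∧ Miss D n ∧ Adm R n)) : ℝ)
      ≤ (#(CS R x (8 ^ (2 ^ J)) (∏ p ∈ T, p) 1 0 T (fun l => chi D l = -1) (Bad T)) : ℝ) := by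
        exact_mod_cast card_le_card hsub
    _ ≤ _ := h1
    _ ≤ C * x / ((∏ p ∈ T, p : ℕ) * ((1 : ℕ) : ℝ)) *
        (9 * Real.exp (C₁ + C₂) * UB (3 / 2 - 1 / 2 ^ k) J) :=
        mul_le_mul_of_nonneg_left hexp (by positivity)
    _ = C * (9 * Real.exp (C₁ + C₂)) * x / (∏ p ∈ T, p : ℕ) * UB (3 / 2 - 1 / 2 ^ k) J := by
        rw [Nat.cast_one, mul_one]; ring

end Pool.Agent.PPD
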