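import Pool.Agent.PPD.Psi

/-!
# Module PPD/LemQ: half of the primes are nonresidues

PROOF. `lemQ`: for a prime `l > Y` (odd) with `l ≠ r`: `[¬ IsSquare (l : ZMod r)] = (1 - psi r l) / 2`
(`jacobiSym.legendreSym.to_jacobiSym`, `legendreSym.eq_neg_one_iff`, `legendreSym.eq_one_iff'`). So
`FF ≥ 1/2 ∑_{Y < l ≤ w} 1 / l - 1/2 ∑_{Y < l ≤ w} psi r l / l - 1` (the term `l = r` is `0`: `psi r r = 0`, it costs `1/(2r)`).
The first sum is `≥ log log w - log log Y - C` (`PPC.sum_prime_inv_ge`). The second sum is `≤ C`: for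
`l > max Y r` by `PPC.sum_inv_le` (Pool/Agent/PPC/Part.lean) with `f = psi r`, `M = r` (`ch_psi`).
If `r ≤ Y` this is all. If `r > Y`, then `¬ ExcR Y w r` gives `∑_{Y < l ≤ min w v} psi r l / l ≤ 1`, `v = 2 ^ (Nat.log 2 r / 4)`
(`psi_eq`), and the range `(max Y v, min w r]` contributes at most `∑ 1 / l ≤ log log r - log log (max Y v) + C ≤ C'`
(`r < 2^(i+1)`, `v = 2^(i/4)`, and `max Y v ≥ 14` for small `i`), `Pool.Agent.Sv.abs_sum_inv_sub_le`.
`lemD`: for a prime `l > 12` one has `chi D l ≠ 0`, so `[chi D l = -1] = (1 - chi D l) / 2`; `PPC.sum_inv_le` with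
`ch_small` on `(12, w]`, Mertens for `∑ 1 / l` (`w < 14` is a constant).
`lemOne`: Mertens (`Pool.Agent.Sv.abs_sum_inv_sub_le`).
-/

set_option autoImplicit false

namespace Pool.Agent.PPD

open Finset Classical Pool.Agent.PPC

/-- Upper Mertens bound. -/
private theorem lemQ_mertens {u v : ℕ} (hu : 14 ≤ u) (huv : u ≤ v) :
    ∑ r ∈ (Ioc u v).filter Nat.Prime, (1 : ℝ) / r ≤
      Real.log (Real.log v) - Real.log (Real.log u) + 10 := by
  have hset : (Ioc u v).filter Nat.Prime = (Ico (u + 1) (v + 1)).filter Nat.Prime := by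
    congr 1
    ext x; simp only [mem_Ioc, mem_Ico]; omega
  rw [hset]
  have h2 := (abs_le.mp (Pool.Agent.Sv.abs_sum_inv_sub_le (n := u + 1) (m := v + 1) (by omega)
    (by omega))).2
  have hu0 : (14 : ℝ) ≤ u := by exact_mod_cast hu
  have hv0 : (14 : ℝ) ≤ v := by
    have : 14 ≤ v := by omega
    exact_mod_cast this
  have hlu : 1 ≤ Real.log u :=
    log_three.trans (Real.log_le_log (by norm_num) (by linarith))
  have hlv : 1 ≤ Real.log v :=
    log_three.trans (Real.log_le_log (by norm_num) (by linarith))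
  have hlu1 : Real.log u ≤ Real.log ((u + 1 : ℕ) : ℝ) :=
    Real.log_le_log (by linarith) (by push_cast; linarith)
  have h3 : 9 / Real.log ((u + 1 : ℕ) : ℝ) ≤ 9 := by
    rw [div_le_iff₀ (by linarith)]; nlinarith
  have h4 : Real.log ((v + 1 : ℕ) : ℝ) ≤ 2 * Real.log v := by
    have h6 : ((v + 1 : ℕ) : ℝ) ≤ (v : ℝ) ^ 2 := by
      have : v + 1 ≤ v ^ 2 := by nlinarith
      exact_mod_cast this
    calc Real.log ((v + 1 : ℕ) : ℝ) ≤ Real.log ((v : ℝ) ^ 2) :=
          Real.log_le_log (by positivity) h6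
      _ = 2 * Real.log v := by rw [Real.log_pow]; norm_num
  have hlv1 : Real.log v ≤ Real.log ((v + 1 : ℕ) : ℝ) :=
    Real.log_le_log (by linarith) (by push_cast; linarith)
  have h5 : Real.log (Real.log ((v + 1 : ℕ) : ℝ)) ≤ Real.log (Real.log v) + 1 := by
    calc Real.log (Real.log ((v + 1 : ℕ) : ℝ)) ≤ Real.log (2 * Real.log v) :=
          Real.log_le_log (by linarith) h4
      _ = Real.log 2 + Real.log (Real.log v) := Real.log_mul (by norm_num) (by linarith)
      _ ≤ Real.log (Real.log v) + 1 := by have := Real.log_two_lt_d9; linarith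
  have h6 : Real.log (Real.log u) ≤ Real.log (Real.log ((u + 1 : ℕ) : ℝ)) :=
    Real.log_le_log (by linarith) hlu1
  linarith

private theorem lemQ_psi_le (r l : ℕ) : |psi r l| ≤ 1 := by
  unfold psi
  rcases jacobiSym.trichotomy (l : ℤ) r with h | h | h <;> rw [h] <;> norm_num

/-- The middle range. -/
private theorem lemQ_mid {r a : ℕ} (ha : 14 ≤ a) (hr : 0 < r) (har : a ≤ r)
    (hv : 2 ^ (Nat.log 2 r / 4) ≤ a) :
    Real.log (Real.log r) ≤ Real.log (Real.log a) + 3 := by
  have ha0 : (14 : ℝ) ≤ a := by exact_mod_cast ha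
  have hla : 1 ≤ Real.log a :=
    log_three.trans (Real.log_le_log (by norm_num) (by linarith))
  have h2 : 0 < Real.log 2 := Real.log_pos (by norm_num)
  have h2' : Real.log 2 < 1 := by have := Real.log_two_lt_d9; linarith
  set q := Nat.log 2 r / 4 with hq
  have h3 : (q : ℝ) * Real.log 2 ≤ Real.log a := by
    rw [← Real.log_pow]
    refine Real.log_le_log (by positivity) ?_
    exact_mod_cast hv
  have h4 : r < 2 ^ (4 * q + 4) := by
    refine (Nat.lt_pow_succ_log_self (b := 2) (by norm_num) r).trans_le ?_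
    exact Nat.pow_le_pow_right (by norm_num) (by omega)
  have h5 : Real.log r ≤ (4 * q + 4 : ℕ) * Real.log 2 := by
    rw [← Real.log_pow]
    refine Real.log_le_log (by exact_mod_cast hr) ?_
    exact_mod_cast h4.le
  push_cast at h5
  have h6 : Real.log r ≤ 8 * Real.log a := by nlinarith
  have hr0 : (14 : ℝ) ≤ r := by
    have : 14 ≤ r := by omega
    exact_mod_cast this
  have hlr : 1 ≤ Real.log r :=
    log_three.trans (Real.log_le_log (by norm_num) (by linarith))
  have h7 : Real.log (Real.log r) ≤ Real.log (8 * Real.log a) :=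
    Real.log_le_log (by linarith) h6
  rw [Real.log_mul (by norm_num) (by linarith)] at h7
  have h8 : Real.log 8 ≤ 3 := by
    have : (8 : ℝ) = 2 ^ 3 := by norm_num
    rw [this, Real.log_pow]
    push_cast
    linarith
  linarith

private theorem lemQ_split (f : ℕ → ℝ) {a b c : ℕ} (hab : a ≤ b) (hbc : b ≤ c) :
    ∑ l ∈ (Ioc a c).filter Nat.Prime, f l =
      ∑ l ∈ (Ioc a b).filter Nat.Prime, f l + ∑ l ∈ (Ioc b c).filter Nat.Prime, f l := by
  rw [sum_filter, sum_filter, sum_filter]
  exact (Finset.sum_Ioc_consecutive _ hab hbc).symm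

private theorem lemQ_empty (f : ℕ → ℝ) {a b : ℕ} (hab : b ≤ a) :
    ∑ l ∈ (Ioc a b).filter Nat.Prime, f l = 0 := by
  rw [Ioc_eq_empty_of_le hab, filter_empty, sum_empty]

/-- The character sum in `lemQ`. -/
private theorem lemQ_char : ∃ C : ℝ, 0 ≤ C ∧ ∀ Y w r : ℕ, 14 ≤ Y → Y ≤ w → r.Prime → 5 ≤ r →
    ¬ (Y < r ∧ ExcR Y w r) → ∑ l ∈ (Ioc Y w).filter Nat.Prime, psi r l / l ≤ C := by
  obtain ⟨C, hC0, hC⟩ := sum_inv_le
  refine ⟨C + 14, by linarith, fun Y w r hY hYw hr hr5 hexc => ?_⟩
  have hodd : r % 2 = 1 := by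
    have := hr.eq_two_or_odd
    omega
  have hch : Ch (psi r) r := ch_psi hr.one_lt hodd hr.prime.squarefree
  rcases le_or_gt r Y with hrY | hrY
  · have := hC _ _ hch Y w (by omega) (by exact_mod_cast hrY) hYw
    linarith
  · set v := 2 ^ (Nat.log 2 r / 4) with hv
    have hne : ∑ l ∈ (Ioc Y (min w v)).filter Nat.Prime, psi r l / l ≤ 1 := by
      have h1 : ¬ ExcR Y w r := fun h => hexc ⟨hrY, h⟩
      unfold ExcR at h1
      rw [not_lt] at h1
      refine le_of_eq_of_le (sum_congr rfl fun l _ => ?_) h1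
      rw [psi_eq hodd]
    set a := max Y (min w v) with ha
    have haY : Y ≤ a := le_max_left _ _
    have haw : a ≤ w := max_le hYw (min_le_left _ _)
    have h1 : ∑ l ∈ (Ioc Y a).filter Nat.Prime, psi r l / l ≤ 1 := by
      rcases le_total Y (min w v) with h | h
      · rw [ha, max_eq_right h]
        exact hne
      · rw [ha, max_eq_left h, lemQ_empty _ le_rfl]
        exact zero_le_one
    set b := min w (max a r) with hb
    have hab : a ≤ b := le_min haw (le_max_left _ _)
    have hbw : b ≤ w := min_le_left _ _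
    rw [lemQ_split _ haY haw, lemQ_split _ hab hbw]
    have h3 : ∑ l ∈ (Ioc b w).filter Nat.Prime, psi r l / l ≤ C := by
      rcases le_total w (max a r) with h | h
      · rw [hb, min_eq_left h, lemQ_empty _ le_rfl]
        exact hC0.le
      · rw [hb, min_eq_right h]
        refine hC _ _ hch (max a r) w ?_ ?_ h
        · have := le_max_left a r
          omega
        · exact_mod_cast le_max_right a r
    have h2 : ∑ l ∈ (Ioc a b).filter Nat.Prime, psi r l / l ≤ 13 := by
      rcases le_or_gt r a with har | har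
      · have : b ≤ a := by
          rw [hb, max_eq_left har]
          exact min_le_right _ _
        rw [lemQ_empty _ this]
        norm_num
      · rcases le_or_gt w v with hwv | hwv
        · have hba : b ≤ a := by
            have : a = w := by
              rw [ha, min_eq_left hwv, max_eq_right hYw]
            omega
          rw [lemQ_empty _ hba]
          norm_num
        · have hva : v ≤ a := by
            rw [ha, min_eq_right hwv.le]
            exact le_max_right _ _
          have hbr : b ≤ r := by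
            rw [hb, max_eq_right har.le]
            exact min_le_right _ _
          have h4 : ∑ l ∈ (Ioc a b).filter Nat.Prime, psi r l / l ≤
              ∑ l ∈ (Ioc a b).filter Nat.Prime, (1 : ℝ) / l := by
            refine sum_le_sum fun l _ => ?_
            exact div_le_div_of_nonneg_right ((le_abs_self _).trans (lemQ_psi_le r l))
              (Nat.cast_nonneg l)
          have h5 := lemQ_mertens (u := a) (v := b) (by omega) hab
          have h6 := lemQ_mid (r := r) (a := a) (by omega) hr.pos har.le hva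
          have h7 : Real.log (Real.log b) ≤ Real.log (Real.log r) := by
            have hb0 : (3 : ℝ) ≤ b := by
              have : 3 ≤ b := by omega
              exact_mod_cast this
            refine Real.log_le_log ?_ (Real.log_le_log (by linarith) (by exact_mod_cast hbr))
            have := log_three.trans (Real.log_le_log (by norm_num) hb0)
            linarith
          linarith
    linarith

/-- Part of the sum `FF`. -/
private theorem lemQ_sub (Fd : ℕ → Prop) {Y w : ℕ} (hY : 5 ≤ Y) :
    ∑ l ∈ (Ioc Y w).filter Nat.Prime, (if Fd l then (1 : ℝ) / l else 0) ≤ FF Fd w := by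
  rw [← sum_filter, filter_filter]
  unfold FF
  refine sum_le_sum_of_subset_of_nonneg ?_ fun l _ _ => by positivity
  intro l hl
  rw [mem_filter, mem_Ioc] at hl
  rw [mem_filter, mem_Icc]
  exact ⟨⟨by omega, hl.1.2⟩, hl.2⟩

theorem lemQ : ∃ C : ℝ, ∀ Y w r : ℕ, 14 ≤ Y → Y ≤ w → r.Prime → 5 ≤ r → ¬ (Y < r ∧ ExcR Y w r) →
    1 / 2 * (Real.log (Real.log w) - Real.log (Real.log Y)) - C ≤
      FF (fun l => ¬ IsSquare ((l : ℕ) : ZMod r)) w := by
  obtain ⟨C, hC0, hC⟩ := lemQ_char
  refine ⟨C + 6, fun Y w r hY hYw hr hr5 hexc => ?_⟩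
  have hfact : Fact r.Prime := ⟨hr⟩
  have h1 := hC Y w r hY hYw hr hr5 hexc
  have h2 := sum_prime_inv_ge hY hYw
  -- termwise comparison
  have h3 : ∑ l ∈ (Ioc Y w).filter Nat.Prime, (1 / 2 * ((1 : ℝ) / l) - 1 / 2 * (psi r l / l)) ≤
      ∑ l ∈ (Ioc Y w).filter Nat.Prime,
        ((if ¬ IsSquare ((l : ℕ) : ZMod r) then (1 : ℝ) / l else 0) + if l = r then 1 else 0) := by
    refine sum_le_sum fun l hl => ?_
    rw [mem_filter, mem_Ioc] at hl
    have hl0 : (1 : ℝ) ≤ l := by
      have : 1 ≤ l := hl.2.pos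
      exact_mod_cast this
    have hl1 : 0 ≤ (1 : ℝ) / l := by positivity
    have hl2 : (1 : ℝ) / l ≤ 1 := by
      rw [div_le_one (by linarith)]
      exact hl0
    by_cases hlr : l = r
    · rw [if_pos hlr]
      have h4 : -(1 : ℝ) ≤ psi r l / l := by
        have h5 := (abs_le.1 (lemQ_psi_le r l)).1
        rw [le_div_iff₀ (by linarith)]
        nlinarith
      have h6 : (0 : ℝ) ≤ if ¬ IsSquare ((l : ℕ) : ZMod r) then (1 : ℝ) / l else 0 := by
        split_ifs
        · exact le_refl _
        · exact hl1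
      linarith
    · rw [if_neg hlr, add_zero]
      have h0 : ((l : ℕ) : ZMod r) ≠ 0 := by
        rw [Ne, ZMod.natCast_eq_zero_iff]
        intro h
        exact hlr ((Nat.prime_dvd_prime_iff_eq hr hl.2).1 h).symm
      have h5 : psi r l = ((legendreSym r (l : ℤ) : ℤ) : ℝ) := by
        rw [jacobiSym.legendreSym.to_jacobiSym]
        rfl
      by_cases hsq : IsSquare ((l : ℕ) : ZMod r)
      · rw [if_neg (not_not.2 hsq), h5, (legendreSym.eq_one_iff' r h0).2 hsq]
        push_cast
        linarith
      · rw [if_pos hsq, h5, (legendreSym.eq_neg_one_iff' r).2 hsq]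
        have : ((-1 : ℤ) : ℝ) / l = -(1 / l) := by push_cast; ring
        rw [this]
        linarith
  rw [sum_sub_distrib, ← mul_sum, ← mul_sum, sum_add_distrib] at h3
  have h4 : ∑ l ∈ (Ioc Y w).filter Nat.Prime, (if l = r then (1 : ℝ) else 0) ≤ 1 := by
    rw [sum_ite_eq' ((Ioc Y w).filter Nat.Prime) r]
    split_ifs <;> norm_num
  have h5 : ∑ l ∈ (Ioc Y w).filter Nat.Prime,
      (if ¬ IsSquare ((l : ℕ) : ZMod r) then (1 : ℝ) / l else 0) ≤
      FF (fun l => ¬ IsSquare ((l : ℕ) : ZMod r)) w := by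
    refine le_of_eq_of_le (sum_congr rfl fun l _ => ?_)
      (lemQ_sub (fun l => ¬ IsSquare ((l : ℕ) : ZMod r)) (Y := Y) (w := w) (by omega))
    by_cases h : IsSquare ((l : ℕ) : ZMod r) <;> simp only [h, not_true, not_false_iff, if_true,
      if_false]
  linarith

/-- Comparison of `FF` with the full sum, from `14` on. -/
private theorem lemQ_small {w : ℕ} (hw5 : 5 ≤ w) (hw : w < 14) :
    Real.log (Real.log w) ≤ Real.log (Real.log 14) ∧ 0 ≤ Real.log (Real.log w) := by
  have hw5 : (3 : ℝ) ≤ w := by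
    have : 3 ≤ w := by omega
    exact_mod_cast this
  have h1 := log_three.trans (Real.log_le_log (by norm_num) hw5)
  refine ⟨Real.log_le_log (by linarith) (Real.log_le_log (by linarith) ?_),
    Real.log_nonneg h1⟩
  have : w ≤ 14 := by omega
  exact_mod_cast this

private theorem lemQ_FF_nonneg (Fd : ℕ → Prop) (w : ℕ) : 0 ≤ FF Fd w := by
  unfold FF
  exact sum_nonneg fun r _ => by positivity

private theorem lemQ_loglog14 : 0 ≤ Real.log (Real.log 14) :=
  Real.log_nonneg (log_three.trans (Real.log_le_log (by norm_num) (by norm_num)))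

theorem lemD : ∃ C : ℝ, ∀ (D : ℤ) (w : ℕ), Small D → 5 ≤ w →
    1 / 2 * Real.log (Real.log w) - C ≤ FF (fun l => chi D l = -1) w := by
  obtain ⟨C, hC0, hC⟩ := sum_inv_le
  refine ⟨C + 10 + Real.log (Real.log 14), fun D w hD hw => ?_⟩
  have h14 := lemQ_loglog14
  rcases le_or_gt 14 w with hw14 | hw14
  · have h1 := hC _ _ (ch_small hD) 14 w (by norm_num) (by norm_num) hw14
    have h2 := sum_prime_inv_ge (z := 14) le_rfl hw14
    have h3 : ∑ l ∈ (Ioc 14 w).filter Nat.Prime, (1 / 2 * ((1 : ℝ) / l) - 1 / 2 * (chi D l / l)) ≤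
        ∑ l ∈ (Ioc 14 w).filter Nat.Prime, (if chi D l = -1 then (1 : ℝ) / l else 0) := by
      refine sum_le_sum fun l hl => ?_
      rw [mem_filter, mem_Ioc] at hl
      have hne : chi D l ≠ 0 := by
        have hodd : l % 2 = 1 := by
          have := hl.2.eq_two_or_odd
          omega
        rw [chi_odd hodd]
        intro h
        have h' : jacobiSym D l = 0 := by exact_mod_cast h
        have hnz : NeZero l := ⟨hl.2.ne_zero⟩
        rw [jacobiSym.eq_zero_iff_not_coprime] at h'
        apply h'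
        have h6 : Nat.Coprime D.natAbs l := by
          rw [Nat.coprime_comm, Nat.Prime.coprime_iff_not_dvd hl.2]
          intro hd
          have h7 : D.natAbs ≤ 3 ∧ 1 ≤ D.natAbs := by
            rcases hD with rfl | rfl | rfl | rfl <;> decide
          have := Nat.le_of_dvd (by omega) hd
          omega
        rw [Int.gcd_eq_natAbs]
        simpa using h6
      rcases chi_val D l with h | h | h
      · rw [if_pos h, h]
        have : (-1 : ℝ) / l = -(1 / l) := by ring
        rw [this]
        linarith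
      · exact absurd h hne
      · rw [if_neg (by rw [h]; norm_num), h]
        linarith
    rw [sum_sub_distrib, ← mul_sum, ← mul_sum] at h3
    have h5 : ∑ l ∈ (Ioc 14 w).filter Nat.Prime, (if chi D l = -1 then (1 : ℝ) / l else 0) ≤
        FF (fun l => chi D l = -1) w := by
      refine le_of_eq_of_le (sum_congr rfl fun l _ => ?_)
        (lemQ_sub (fun l => chi D l = -1) (Y := 14) (w := w) (by norm_num))
      by_cases h : chi D l = -1 <;> simp only [h, if_true, if_false]
    have h7 : Real.log (Real.log ((14 : ℕ) : ℝ)) = Real.log (Real.log 14) := by norm_num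
    rw [h7] at h2
    linarith
  · have h1 := lemQ_small hw hw14
    have h2 := lemQ_FF_nonneg (fun l => chi D l = -1) w
    linarith

theorem lemOne : ∃ C : ℝ, ∀ w : ℕ, 5 ≤ w →
    Real.log (Real.log w) - C ≤ FF (fun _ => True) w := by
  refine ⟨10 + Real.log (Real.log 14), fun w hw => ?_⟩
  have h14 := lemQ_loglog14
  rcases le_or_gt 14 w with hw14 | hw14
  · have h2 := sum_prime_inv_ge (z := 14) le_rfl hw14
    have h5 : ∑ l ∈ (Ioc 14 w).filter Nat.Prime, (1 : ℝ) / l ≤ FF (fun _ => True) w := by
      refine le_of_eq_of_le (sum_congr rfl fun l _ => ?_)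
        (lemQ_sub (fun _ => True) (Y := 14) (w := w) (by norm_num))
      rw [if_pos trivial]
    have h7 : Real.log (Real.log ((14 : ℕ) : ℝ)) = Real.log (Real.log 14) := by norm_num
    rw [h7] at h2
    linarith
  · have h1 := lemQ_small hw hw14
    have h2 := lemQ_FF_nonneg (fun _ => True) w
    linarith

end Pool.Agent.PPD
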