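import Pool.Agent.PPD.Psi

/-!
# Module PPD/LemS: the bad primes for a fine set have at least the expected weight

PROOF. Let `j = #T`. For a prime `r > Y` (so `r ≥ 15` is odd) with `r ∉ T` one has (as in `PPC.indic_bad`, Pool/Agent/PPC/Avg.lean, where
`p < r` is only used to know `p ≠ r`)
`[Bad T r] = (1 - 2^(-j)) - 2^(-j) ∑_{∅ ≠ U ⊆ T} chi (∏ U) r`. Hence, dropping `r ≤ Y` and `r ∈ T`,
`BB ρ (Bad T) w ≥ (1 - 2^(-j)) ∑_{Y < r ≤ w} ρ r / r - 2^(-j) ∑_U ∑_{Y < r ≤ w} ρ r chi (∏ U) r / r - 4 ∑_{r ∈ T} 1 / r`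
(`ρ ≤ 2`, `|chi| ≤ 1`, the last term is `≤ 4 k / 5`). The first sum is `≥ log log w - log log Y - C` (`hc.mass`). It suffices to show
`∑_{Y < r ≤ w} ρ r chi d r / r ≤ C_k` for every nonempty `U ⊆ T`, `d = ∏ U`. Let `p = max U`, `z = 12 d + 2 ≤ 14 p^k`. All `r > z`: `≤ C` (`hc.os`,
if `z < w`). The `r` in a range `(u, min w z]` with `u ≥ Y` contribute at most `2 ∑ 1 / r ≤ 2 (log log z - log log u) + C`
(`Pool.Agent.Sv.abs_sum_inv_sub_le`).
If `p ≤ Y`: take `u = Y`, `z ≤ 14 Y^k ≤ Y^(k+1)` and `log log z - log log Y ≤ log (k + 1)`.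
If `p > Y`: let `v = 2 ^ (Nat.log 2 p / 4)`. The `r ∈ (Y, min w v]` contribute at most `1`: this is `¬ Exc ρ Y w (∏ (U \ {p})) p`,
as `chi (∏ U) r = chi (∏ (U \ {p})) r * chi p r` (`PPC.chi_mul_left`) and `chi p r = psi r p` (`psi_eq`). For the rest take
`u = max Y v`: `log z ≤ log 14 + k log p` and `log u ≥ c log p` (`p < 2^(i+1)`, `v = 2^(i/4)`, `i = Nat.log 2 p`, and `u ≥ 14` for small `i`),
so `log log z - log log u ≤ C_k`. If `z ≤ u` there is nothing to do, if `w ≤ z` the last range is empty.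
-/

set_option autoImplicit false

namespace Pool.Agent.PPD

open Finset Classical Pool.Agent.PPC

theorem LemS_chi_prime {p r : ℕ} (hr : r.Prime) (hr2 : r % 2 ≠ 0) (hp : p.Prime) (hpr : p ≠ r) :
    chi (p : ℤ) r = if IsSquare ((p : ℕ) : ZMod r) then 1 else -1 := by
  have : Fact r.Prime := ⟨hr⟩
  have h0 : ((p : ℕ) : ZMod r) ≠ 0 := by
    rw [Ne, ZMod.natCast_eq_zero_iff]
    intro h
    exact hpr ((Nat.prime_dvd_prime_iff_eq hr hp).1 h).symm
  have h1 : chi (p : ℤ) r = ((legendreSym r (p : ℤ) : ℤ) : ℝ) := by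
    rw [jacobiSym.legendreSym.to_jacobiSym]
    unfold chi
    rw [if_neg hr2]
  rw [h1]
  split_ifs with h
  · rw [(legendreSym.eq_one_iff' r h0).2 h]; norm_num
  · rw [(legendreSym.eq_neg_one_iff' r).2 h]; norm_num

theorem LemS_indic {T : Finset ℕ} {r : ℕ} (hr : r.Prime) (hr2 : r % 2 ≠ 0)
    (hT : ∀ p ∈ T, p.Prime ∧ p ≠ r) :
    (if Bad T r then (1 : ℝ) else 0) = (1 - 1 / 2 ^ #T) -
      1 / 2 ^ #T * ∑ U ∈ T.powerset.erase ∅, chi ((∏ p ∈ U, p : ℕ) : ℤ) r := by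
  have h1 : ∑ U ∈ T.powerset, chi ((∏ p ∈ U, p : ℕ) : ℤ) r = ∏ p ∈ T, (1 + chi (p : ℤ) r) := by
    rw [Finset.prod_one_add]
    exact sum_congr rfl fun U _ => chi_prod_left U hr2
  have h2 : ∑ U ∈ T.powerset, chi ((∏ p ∈ U, p : ℕ) : ℤ) r =
      1 + ∑ U ∈ T.powerset.erase ∅, chi ((∏ p ∈ U, p : ℕ) : ℤ) r := by
    rw [← Finset.add_sum_erase _ _ (Finset.empty_mem_powerset T)]
    congr 1
    rw [chi_prod_left _ hr2]; simp
  have h3 : (2 : ℝ) ^ #T ≠ 0 := by positivity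
  by_cases hB : Bad T r
  · rw [if_pos hB]
    have h4 : ∏ p ∈ T, (1 + chi (p : ℤ) r) = 0 := by
      obtain ⟨p, hp, hps⟩ := hB
      refine prod_eq_zero hp ?_
      rw [LemS_chi_prime hr hr2 (hT p hp).1 (hT p hp).2, if_neg hps]; norm_num
    have h5 : ∑ U ∈ T.powerset.erase ∅, chi ((∏ p ∈ U, p : ℕ) : ℤ) r = -1 := by
      rw [h1, h4] at h2; linarith
    rw [h5]; ring
  · rw [if_neg hB]
    have h4 : ∏ p ∈ T, (1 + chi (p : ℤ) r) = 2 ^ #T := by
      rw [← prod_const]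
      refine prod_congr rfl fun p hp => ?_
      have : IsSquare ((p : ℕ) : ZMod r) := by
        by_contra h
        exact hB ⟨p, hp, h⟩
      rw [LemS_chi_prime hr hr2 (hT p hp).1 (hT p hp).2, if_pos this]; norm_num
    have h5 : ∑ U ∈ T.powerset.erase ∅, chi ((∏ p ∈ U, p : ℕ) : ℤ) r = 2 ^ #T - 1 := by
      rw [h1, h4] at h2; linarith
    rw [h5]
    field_simp
    ring

/-- For every odd prime `r`. -/
theorem LemS_indic_ge {T : Finset ℕ} {r : ℕ} (hr : r.Prime) (hr2 : r % 2 ≠ 0)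
    (hT : ∀ p ∈ T, p.Prime) :
    (1 - 1 / 2 ^ #T) - 1 / 2 ^ #T * ∑ U ∈ T.powerset.erase ∅, chi ((∏ p ∈ U, p : ℕ) : ℤ) r -
      2 * (if r ∈ T then 1 else 0) ≤ if Bad T r then (1 : ℝ) else 0 := by
  by_cases hrT : r ∈ T
  · rw [if_pos hrT]
    have h0 : (0 : ℝ) ≤ if Bad T r then (1 : ℝ) else 0 := by split_ifs <;> norm_num
    have h1 : -(1 / 2 ^ #T * ∑ U ∈ T.powerset.erase ∅, chi ((∏ p ∈ U, p : ℕ) : ℤ) r) ≤ 1 := by
      have := err_term (T := T) (fun U => -chi ((∏ p ∈ U, p : ℕ) : ℤ) r) (C := 1) (by norm_num)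
        (fun U _ => by rcases chi_val ((∏ p ∈ U, p : ℕ) : ℤ) r with h | h | h <;> rw [h] <;> norm_num)
      rw [sum_neg_distrib, mul_neg] at this
      exact this
    have h2 : (0 : ℝ) ≤ 1 / 2 ^ #T := by positivity
    linarith
  · rw [if_neg hrT, LemS_indic hr hr2 fun p hp => ⟨hT p hp, fun h => hrT (h ▸ hp)⟩]
    linarith

theorem LemS_inv_le {z w : ℕ} (hz : 14 ≤ z) (hzw : z ≤ w) :
    ∑ r ∈ (Ioc z w).filter Nat.Prime, (1 : ℝ) / r ≤
      Real.log (Real.log w) - Real.log (Real.log z) + 10 := by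
  have hset : (Ioc z w).filter Nat.Prime = (Ico (z + 1) (w + 1)).filter Nat.Prime := by
    congr 1
    ext x; simp only [mem_Ioc, mem_Ico]; omega
  rw [hset]
  have h2 := (abs_le.mp (Pool.Agent.Sv.abs_sum_inv_sub_le (n := z + 1) (m := w + 1) (by omega)
    (by omega))).2
  have hz0 : (14 : ℝ) ≤ z := by exact_mod_cast hz
  have hw0 : (z : ℝ) ≤ w := by exact_mod_cast hzw
  have hlz : 1 ≤ Real.log z := by
    rw [Real.le_log_iff_exp_le (by linarith)]
    have := Real.exp_one_lt_d9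
    linarith
  have hlw : Real.log z ≤ Real.log w := Real.log_le_log (by linarith) hw0
  have hlz1 : Real.log z ≤ Real.log ((z + 1 : ℕ) : ℝ) :=
    Real.log_le_log (by linarith) (by push_cast; linarith)
  have h3 : 9 / Real.log ((z + 1 : ℕ) : ℝ) ≤ 9 := by
    rw [div_le_iff₀ (by linarith)]; nlinarith
  have h4 : Real.log ((w + 1 : ℕ) : ℝ) ≤ 2 * Real.log w := by
    have h6 : ((w + 1 : ℕ) : ℝ) ≤ (w : ℝ) ^ 2 := by
      have : w + 1 ≤ w ^ 2 := by nlinarith
      exact_mod_cast this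
    calc Real.log ((w + 1 : ℕ) : ℝ) ≤ Real.log ((w : ℝ) ^ 2) :=
          Real.log_le_log (by positivity) h6
      _ = 2 * Real.log w := by rw [Real.log_pow]; norm_num
  have hlw1 : Real.log w ≤ Real.log ((w + 1 : ℕ) : ℝ) :=
    Real.log_le_log (by linarith) (by push_cast; linarith)
  have h5 : Real.log (Real.log ((w + 1 : ℕ) : ℝ)) ≤ Real.log (Real.log w) + 1 := by
    calc Real.log (Real.log ((w + 1 : ℕ) : ℝ)) ≤ Real.log (2 * Real.log w) :=
          Real.log_le_log (by linarith) h4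
      _ = Real.log 2 + Real.log (Real.log w) := Real.log_mul (by norm_num) (by linarith)
      _ ≤ Real.log (Real.log w) + 1 := by have := Real.log_two_lt_d9; linarith
  have h6 : Real.log (Real.log z) ≤ Real.log (Real.log ((z + 1 : ℕ) : ℝ)) :=
    Real.log_le_log (by linarith) hlz1
  linarith

theorem LemS_split (f : ℕ → ℝ) {a b c : ℕ} (hab : a ≤ b) (hbc : b ≤ c) :
    ∑ r ∈ (Ioc a c).filter Nat.Prime, f r =
      ∑ r ∈ (Ioc a b).filter Nat.Prime, f r + ∑ r ∈ (Ioc b c).filter Nat.Prime, f r := by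
  rw [← sum_union]
  · congr 1
    ext x
    simp only [mem_filter, mem_Ioc, mem_union]
    constructor
    · rintro ⟨h, hx⟩
      rcases le_or_gt x b with h' | h'
      · exact Or.inl ⟨by omega, hx⟩
      · exact Or.inr ⟨by omega, hx⟩
    · rintro (⟨h, hx⟩ | ⟨h, hx⟩)
      · exact ⟨by omega, hx⟩
      · exact ⟨by omega, hx⟩
  · rw [disjoint_left]
    intro x h1 h2
    rw [mem_filter, mem_Ioc] at h1 h2
    omega

/-- The trivial bound for a range. -/
theorem LemS_triv {ρ : ℕ → ℕ} (hρ : ∀ r, ρ r ≤ 2) (D : ℤ) {u b : ℕ} {K : ℝ} (hK : 1 ≤ K)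
    (hu : 14 ≤ u) (hub : u ≤ b) (hlog : Real.log b ≤ K * Real.log u) :
    ∑ r ∈ (Ioc u b).filter Nat.Prime, (ρ r : ℝ) * chi D r / r ≤ 2 * Real.log K + 20 := by
  have h1 : ∑ r ∈ (Ioc u b).filter Nat.Prime, (ρ r : ℝ) * chi D r / r ≤
      ∑ r ∈ (Ioc u b).filter Nat.Prime, 2 * ((1 : ℝ) / r) := by
    refine sum_le_sum fun r _ => ?_
    rw [mul_one_div]
    refine div_le_div_of_nonneg_right ?_ (Nat.cast_nonneg _)
    have h1 : (ρ r : ℝ) ≤ 2 := by exact_mod_cast hρ r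
    have h0 : (0 : ℝ) ≤ ρ r := Nat.cast_nonneg _
    rcases chi_val D r with h | h | h <;> rw [h] <;> linarith
  rw [← mul_sum] at h1
  have h2 := LemS_inv_le hu hub
  have hu0 : (14 : ℝ) ≤ u := by exact_mod_cast hu
  have hb0 : (u : ℝ) ≤ b := by exact_mod_cast hub
  have hlu : 1 ≤ Real.log u := by
    rw [Real.le_log_iff_exp_le (by linarith)]
    have := Real.exp_one_lt_d9
    linarith
  have hlb : Real.log u ≤ Real.log b := Real.log_le_log (by linarith) hb0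
  have h3 : Real.log (Real.log b) ≤ Real.log K + Real.log (Real.log u) := by
    rw [← Real.log_mul (by linarith) (by linarith)]
    exact Real.log_le_log (by linarith) hlog
  linarith

/-- From `u` to `w`, with a number `b ≥ 12 d + 2` in between. -/
theorem LemS_two {ρ : ℕ → ℕ} (hρ : ∀ r, ρ r ≤ 2) (D : ℤ) {u b w : ℕ} {K C : ℝ} (hK : 1 ≤ K)
    (hC : 0 ≤ C) (hu : 14 ≤ u) (hub : u ≤ b) (huw : u ≤ w) (hlog : Real.log b ≤ K * Real.log u)
    (h : b ≤ w → ∑ r ∈ (Ioc b w).filter Nat.Prime, (ρ r : ℝ) * chi D r / r ≤ C) :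
    ∑ r ∈ (Ioc u w).filter Nat.Prime, (ρ r : ℝ) * chi D r / r ≤ 2 * Real.log K + 20 + C := by
  rcases le_or_gt b w with hbw | hbw
  · rw [LemS_split _ hub hbw]
    have h1 := LemS_triv hρ D hK hu hub hlog
    have h2 := h hbw
    linarith
  · have hw0 : (0 : ℝ) < w := by
      have : 0 < w := by omega
      exact_mod_cast this
    have hl : Real.log w ≤ Real.log b := Real.log_le_log hw0 (by exact_mod_cast hbw.le)
    have h1 := LemS_triv hρ D hK hu huw (hl.trans hlog)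
    linarith

theorem LemS_prod_le {U : Finset ℕ} {p k : ℕ} (hp : 1 ≤ p) (hU : ∀ q ∈ U, q ≤ p) (hk : #U ≤ k) :
    ∏ q ∈ U, q ≤ p ^ k :=
  (Finset.prod_le_pow_card U (fun q => q) p hU).trans (Nat.pow_le_pow_right hp hk)

theorem LemS_log_max {p Y : ℕ} (hY : 14 ≤ Y) (hp : 1 ≤ p) :
    Real.log p ≤ 8 * Real.log ((max Y (2 ^ (Nat.log 2 p / 4)) : ℕ) : ℝ) := by
  set i := Nat.log 2 p with hi
  have hp1 : (p : ℝ) ≤ 2 ^ (i + 1) := by
    have := Nat.lt_pow_succ_log_self (b := 2) (by norm_num) p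
    exact_mod_cast this.le
  have hlp : Real.log p ≤ (i + 1) * Real.log 2 := by
    have := Real.log_le_log (by exact_mod_cast hp) hp1
    rw [Real.log_pow] at this
    exact_mod_cast this
  have hl2 : 0 < Real.log 2 := Real.log_pos (by norm_num)
  set q := i / 4 with hq
  have hiq : i + 1 ≤ 4 * (q + 1) := by omega
  have hiq' : ((i : ℝ) + 1) ≤ 4 * (q + 1) := by exact_mod_cast hiq
  have hM1 : Real.log 14 ≤ Real.log ((max Y (2 ^ q) : ℕ) : ℝ) := by
    refine Real.log_le_log (by norm_num) ?_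
    have : 14 ≤ max Y (2 ^ q) := hY.trans (le_max_left _ _)
    exact_mod_cast this
  have hM2 : q * Real.log 2 ≤ Real.log ((max Y (2 ^ q) : ℕ) : ℝ) := by
    rw [← Real.log_pow]
    refine Real.log_le_log (by positivity) ?_
    have : 2 ^ q ≤ max Y (2 ^ q) := le_max_right _ _
    exact_mod_cast this
  rcases Nat.eq_zero_or_pos q with h0 | h0
  · have h14 : Real.log 2 ≤ Real.log 14 := Real.log_le_log (by norm_num) (by norm_num)
    rw [h0] at hiq'
    push_cast at hiq'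
    nlinarith
  · have h1 : (1 : ℝ) ≤ q := by exact_mod_cast h0
    nlinarith

/-- The bound for one character. -/
theorem LemS_char {R : ℕ → ℕ → Prop} {ρ : ℕ → ℕ} (hc : Cond2 R ρ) (k : ℕ) :
    ∃ C : ℝ, 0 ≤ C ∧ ∀ (Y w : ℕ) (T U : Finset ℕ), 14 ≤ Y → Y ≤ w →
      (∀ p ∈ T, p.Prime ∧ 5 ≤ p) → #T ≤ k → Fine ρ Y w T → U ⊆ T → U.Nonempty →
      ∑ r ∈ (Ioc Y w).filter Nat.Prime, (ρ r : ℝ) * chi ((∏ p ∈ U, p : ℕ) : ℤ) r / r ≤ C := by
  obtain ⟨C, hC⟩ := hc.os
  have hρ := hc.le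
  have hk0 : (1 : ℝ) ≤ k + 1 := by
    have : (0 : ℝ) ≤ k := Nat.cast_nonneg k
    linarith
  have hk8 : (1 : ℝ) ≤ 8 * (k + 1) := by linarith
  refine ⟨2 * Real.log (8 * (k + 1)) + 20 + |C| + 1, ?_, ?_⟩
  · have := Real.log_nonneg hk8
    positivity
  intro Y w T U hY hYw hT hTk hF hUT hUne
  have hUk : #U ≤ k := (card_le_card hUT).trans hTk
  have hU : ∀ p ∈ U, p.Prime ∧ 5 ≤ p := fun p hp => hT p (hUT hp)
  obtain ⟨p, hpU, hpmax⟩ := U.exists_max_image (fun q => q) hUne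
  have hp := hU p hpU
  have hprod : ∏ q ∈ U, q ≤ p ^ k := LemS_prod_le (by omega) hpmax hUk
  have hY0 : (14 : ℝ) ≤ Y := by exact_mod_cast hY
  have hlY : 0 < Real.log Y := Real.log_pos (by linarith)
  have hk1 : 1 ≤ k := hUne.card_pos.trans_le hUk
  rcases le_or_gt p Y with hpY | hpY
  · -- all elements of `U` are at most `Y`
    have hb1 : 12 * (∏ q ∈ U, q) + 2 ≤ Y ^ (k + 1) := by
      have h1 : ∏ q ∈ U, q ≤ Y ^ k := hprod.trans (Nat.pow_le_pow_left hpY k)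
      have h2 : 1 ≤ Y ^ k := Nat.one_le_pow _ _ (by omega)
      calc 12 * (∏ q ∈ U, q) + 2 ≤ 14 * Y ^ k := by omega
        _ ≤ Y * Y ^ k := Nat.mul_le_mul_right _ hY
        _ = Y ^ (k + 1) := by ring
    have hb2 : Y ≤ Y ^ (k + 1) := Nat.le_self_pow (by omega) Y
    have hlog : Real.log ((Y ^ (k + 1) : ℕ) : ℝ) ≤ (8 * (k + 1)) * Real.log Y := by
      push_cast
      rw [Real.log_pow]
      push_cast
      nlinarith
    have := LemS_two hρ ((∏ p ∈ U, p : ℕ) : ℤ) (C := |C|) hk8 (abs_nonneg C) hY hb2 hYw hlog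
      (fun hbw => (hC U _ w hU hUne hb1 hbw).trans (le_abs_self C))
    linarith
  · -- the maximum is above `Y`
    have hnot := hF p (hUT hpU) hpY (U.erase p) (by
      intro q hq
      rw [mem_erase] at hq
      rw [mem_filter]
      have := hpmax q hq.2
      exact ⟨hUT hq.2, by omega⟩)
    unfold Exc at hnot
    set v := 2 ^ (Nat.log 2 p / 4) with hv
    have h1 : ∑ r ∈ (Ioc Y (min w v)).filter Nat.Prime,
        (ρ r : ℝ) * chi ((∏ p ∈ U, p : ℕ) : ℤ) r / r ≤ 1 := by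
      refine le_trans (le_of_eq ?_) (not_lt.1 hnot)
      refine sum_congr rfl fun r hr => ?_
      rw [mem_filter, mem_Ioc] at hr
      have hr2 : r % 2 = 1 := by
        have := hr.2.eq_two_or_odd
        omega
      rw [psi_eq hr2, ← Finset.mul_prod_erase U (fun q => q) hpU, Nat.cast_mul, chi_mul_left]
      ring
    rcases le_or_gt w v with hwv | hwv
    · rw [min_eq_left hwv] at h1
      have := Real.log_nonneg hk8
      have := abs_nonneg C
      linarith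
    · rw [min_eq_right hwv.le] at h1
      set u := max Y v with hu
      have huY : Y ≤ u := le_max_left _ _
      have huw : u ≤ w := max_le hYw hwv.le
      have hvp : v ≤ p := by
        calc v ≤ 2 ^ Nat.log 2 p := Nat.pow_le_pow_right (by norm_num) (Nat.div_le_self _ _)
          _ ≤ p := Nat.pow_log_le_self 2 (by omega)
      have hpk : p ≤ p ^ k := Nat.le_self_pow (by omega) p
      have hub : u ≤ 14 * p ^ k := max_le (by omega) (by omega)
      have hb1 : 12 * (∏ q ∈ U, q) + 2 ≤ 14 * p ^ k := by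
        have h2 : 1 ≤ p ^ k := Nat.one_le_pow _ _ (by omega)
        omega
      have hp0 : (14 : ℝ) ≤ p := by
        have : 14 ≤ p := by omega
        exact_mod_cast this
      have hl14 : Real.log 14 ≤ Real.log p := Real.log_le_log (by norm_num) hp0
      have hlog : Real.log ((14 * p ^ k : ℕ) : ℝ) ≤ (8 * (k + 1)) * Real.log (u : ℝ) := by
        push_cast
        rw [Real.log_mul (by norm_num) (by positivity), Real.log_pow]
        have h3 := LemS_log_max (p := p) hY (by omega)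
        rw [← hv] at h3
        have h4 : ((max Y v : ℕ) : ℝ) = (u : ℝ) := rfl
        have hk2 : (0 : ℝ) ≤ k := Nat.cast_nonneg k
        calc Real.log 14 + k * Real.log p ≤ (k + 1) * Real.log p := by linarith
          _ ≤ (k + 1) * (8 * Real.log (u : ℝ)) := by
            refine mul_le_mul_of_nonneg_left ?_ (by linarith)
            exact h3
          _ = 8 * (k + 1) * Real.log (u : ℝ) := by ring
      have h5 := LemS_two hρ ((∏ p ∈ U, p : ℕ) : ℤ) (C := |C|) hk8 (abs_nonneg C)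
        (hY.trans huY) hub huw hlog
        (fun hbw => (hC U _ w hU hUne hb1 hbw).trans (le_abs_self C))
      rw [LemS_split _ huY huw]
      have h6 : ∑ r ∈ (Ioc Y u).filter Nat.Prime,
          (ρ r : ℝ) * chi ((∏ p ∈ U, p : ℕ) : ℤ) r / r ≤ 1 := by
        rcases le_total Y v with h7 | h7
        · rw [hu, max_eq_right h7]
          exact h1
        · rw [hu, max_eq_left h7]
          simp
      linarith

theorem lemS {R : ℕ → ℕ → Prop} {ρ : ℕ → ℕ} (hc : Cond2 R ρ) (k : ℕ) :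
    ∃ C : ℝ, ∀ (Y w : ℕ) (T : Finset ℕ), 14 ≤ Y → Y ≤ w → (∀ p ∈ T, p.Prime ∧ 5 ≤ p) → #T ≤ k →
      Fine ρ Y w T →
      (1 - 1 / 2 ^ #T) * (Real.log (Real.log w) - Real.log (Real.log Y)) - C ≤
        BB ρ (Bad T) w := by
  obtain ⟨C, hC0, hC⟩ := LemS_char hc k
  obtain ⟨M, hM⟩ := hc.mass
  refine ⟨|M| + C + k, ?_⟩
  intro Y w T hY hYw hT hTk hF
  have hTp : ∀ p ∈ T, p.Prime := fun p hp => (hT p hp).1
  -- restrict to `r > Y`
  have h1 : ∑ r ∈ (Ioc Y w).filter Nat.Prime, (if Bad T r then (1 : ℝ) else 0) * ((ρ r : ℝ) / r) ≤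
      BB ρ (Bad T) w := by
    unfold BB
    have h2 : ∑ r ∈ (Ioc Y w).filter Nat.Prime, (if Bad T r then (1 : ℝ) else 0) * ((ρ r : ℝ) / r) =
        ∑ r ∈ (Ioc Y w).filter (fun r => r.Prime ∧ Bad T r), (ρ r : ℝ) / r := by
      rw [← filter_filter, sum_filter (fun r => Bad T r)]
      refine sum_congr rfl fun r _ => ?_
      split_ifs <;> simp
    rw [h2]
    refine sum_le_sum_of_subset_of_nonneg ?_ fun r _ _ => by positivity
    intro r hr
    rw [mem_filter, mem_Ioc] at hr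
    rw [mem_filter, mem_Icc]
    exact ⟨⟨by omega, hr.1.2⟩, hr.2⟩
  refine le_trans ?_ h1
  have h2 : ∀ r ∈ (Ioc Y w).filter Nat.Prime,
      ((1 - 1 / 2 ^ #T) - 1 / 2 ^ #T * ∑ U ∈ T.powerset.erase ∅, chi ((∏ p ∈ U, p : ℕ) : ℤ) r -
      2 * (if r ∈ T then 1 else 0)) * ((ρ r : ℝ) / r) ≤
      (if Bad T r then (1 : ℝ) else 0) * ((ρ r : ℝ) / r) := by
    intro r hr
    rw [mem_filter, mem_Ioc] at hr
    have hr2 : r % 2 ≠ 0 := by
      have := hr.2.eq_two_or_odd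
      omega
    exact mul_le_mul_of_nonneg_right (LemS_indic_ge hr.2 hr2 hTp) (by positivity)
  refine le_trans ?_ (sum_le_sum h2)
  have h3 : ∑ r ∈ (Ioc Y w).filter Nat.Prime,
      ((1 - 1 / 2 ^ #T) - 1 / 2 ^ #T * ∑ U ∈ T.powerset.erase ∅, chi ((∏ p ∈ U, p : ℕ) : ℤ) r -
      2 * (if r ∈ T then 1 else 0)) * ((ρ r : ℝ) / r) =
      (1 - 1 / 2 ^ #T) * ∑ r ∈ (Ioc Y w).filter Nat.Prime, (ρ r : ℝ) / r -
      1 / 2 ^ #T * ∑ U ∈ T.powerset.erase ∅, ∑ r ∈ (Ioc Y w).filter Nat.Prime,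
        (ρ r : ℝ) * chi ((∏ p ∈ U, p : ℕ) : ℤ) r / r -
      ∑ r ∈ (Ioc Y w).filter Nat.Prime, 2 * (if r ∈ T then (1 : ℝ) else 0) * ((ρ r : ℝ) / r) := by
    rw [sum_comm, mul_sum, mul_sum, ← sum_sub_distrib, ← sum_sub_distrib]
    refine sum_congr rfl fun r _ => ?_
    have : ∑ U ∈ T.powerset.erase ∅, (ρ r : ℝ) * chi ((∏ p ∈ U, p : ℕ) : ℤ) r / r =
        (∑ U ∈ T.powerset.erase ∅, chi ((∏ p ∈ U, p : ℕ) : ℤ) r) * ((ρ r : ℝ) / r) := by
      rw [sum_mul]
      exact sum_congr rfl fun U _ => by ring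
    rw [this]; ring
  rw [h3]
  have h4 := err_term (T := T) (fun U => ∑ r ∈ (Ioc Y w).filter Nat.Prime,
        (ρ r : ℝ) * chi ((∏ p ∈ U, p : ℕ) : ℤ) r / r) (C := C) hC0
      (fun U hU => by
        rw [mem_erase, mem_powerset] at hU
        exact hC Y w T U hY hYw hT hTk hF hU.2 (nonempty_iff_ne_empty.2 hU.1))
  have h5 : ∑ r ∈ (Ioc Y w).filter Nat.Prime, 2 * (if r ∈ T then (1 : ℝ) else 0) * ((ρ r : ℝ) / r) ≤
      k := by
    have h6 : ∑ r ∈ (Ioc Y w).filter Nat.Prime,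
        2 * (if r ∈ T then (1 : ℝ) else 0) * ((ρ r : ℝ) / r) ≤
        ∑ r ∈ (Ioc Y w).filter Nat.Prime, (if r ∈ T then (1 : ℝ) else 0) := by
      refine sum_le_sum fun r hr => ?_
      rw [mem_filter, mem_Ioc] at hr
      split_ifs with h
      · have h7 : (ρ r : ℝ) ≤ 2 := by exact_mod_cast hc.le r
        have h8 : (5 : ℝ) ≤ r := by
          have : 5 ≤ r := by omega
          exact_mod_cast this
        rw [mul_one, ← mul_div_assoc, div_le_one (by linarith)]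
        linarith
      · simp
    refine h6.trans ?_
    rw [← sum_filter, sum_const, nsmul_eq_mul, mul_one]
    have : #(((Ioc Y w).filter Nat.Prime).filter (fun r => r ∈ T)) ≤ k := by
      refine le_trans (card_le_card ?_) hTk
      intro r hr
      rw [mem_filter] at hr
      exact hr.2
    exact_mod_cast this
  have h6 := hM Y w (by omega) hYw
  have h7 : (0 : ℝ) ≤ 1 - 1 / 2 ^ #T := by
    rw [sub_nonneg, div_le_one (by positivity)]
    exact one_le_pow₀ (by norm_num)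
  have h8 : (1 : ℝ) - 1 / 2 ^ #T ≤ 1 := by
    have : (0 : ℝ) ≤ 1 / 2 ^ #T := by positivity
    linarith
  have h9 := mul_le_mul_of_nonneg_left h6 h7
  have h10 : (1 - 1 / 2 ^ #T) * M ≤ |M| := by
    calc (1 - 1 / 2 ^ #T) * M ≤ (1 - 1 / 2 ^ #T) * |M| :=
          mul_le_mul_of_nonneg_left (le_abs_self M) h7
      _ ≤ 1 * |M| := mul_le_mul_of_nonneg_right h8 (abs_nonneg M)
      _ = |M| := one_mul _
  have h11 : (1 - 1 / 2 ^ #T) * (Real.log (Real.log w) - Real.log (Real.log Y) - M) =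
      (1 - 1 / 2 ^ #T) * (Real.log (Real.log w) - Real.log (Real.log Y)) -
      (1 - 1 / 2 ^ #T) * M := by ring
  rw [h11] at h9
  linarith

end Pool.Agent.PPD
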