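import Pool.Agent.PPD.Defs

/-!
# Module PPD/Scale: the scales `Y = 8 ^ J`, `w = 8 ^ (2 ^ J)`

PROOFS. `log 8 > 1`, `lw J = 2 ^ J log 8`, `log (lw J) = J log 2 + log (log 8) ≥ J log 2`, so
`log Y = J log 8 = 3 J log 2 ≤ 3 log (lw J)`. `Y = (2 ^ J) ^ 3 = (lw J / log 8) ^ 3`, `log 8 < 2.1`, `(log 8) ^ 3 ≤ 10`.
`exp_scale`: with `ℓ = log (lw J) ≥ 0`, `λ = log (log Y)`: `exp (C - β (ℓ - λ)) = exp C * (log Y) ^ β / (lw J) ^ β` and
`(log Y) ^ β ≤ (3 (ℓ + 1)) ^ β ≤ (3 (ℓ + 1)) ^ 2 = 9 (ℓ + 1) ^ 2`.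
-/

set_option autoImplicit false

namespace Pool.Agent.PPD

open Finset Classical Pool.Agent.PPC

theorem scale_nat {J : ℕ} (hJ : 2 ≤ J) : 14 ≤ 8 ^ J ∧ 8 ^ J ≤ 8 ^ (2 ^ J) := by
  constructor
  · calc 14 ≤ 8 ^ 2 := by norm_num
      _ ≤ 8 ^ J := Nat.pow_le_pow_right (by norm_num) hJ
  · exact Nat.pow_le_pow_right (by norm_num) Nat.lt_two_pow_self.le

private lemma lw_eq (J : ℕ) : lw J = 2 ^ J * (3 * Real.log 2) := by
  unfold lw
  push_cast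
  rw [Real.log_pow, show (8 : ℝ) = 2 ^ 3 by norm_num, Real.log_pow]
  push_cast
  ring

private lemma logY_eq (J : ℕ) : Real.log ((8 ^ J : ℕ) : ℝ) = J * (3 * Real.log 2) := by
  push_cast
  rw [Real.log_pow, show (8 : ℝ) = 2 ^ 3 by norm_num, Real.log_pow]
  push_cast
  ring

theorem scale_real {J : ℕ} (hJ : 2 ≤ J) : 1 ≤ lw J ∧ 0 ≤ Real.log (lw J) ∧
    1 ≤ Real.log ((8 ^ J : ℕ) : ℝ) ∧ Real.log ((8 ^ J : ℕ) : ℝ) ≤ 3 * Real.log (lw J) ∧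
    (lw J) ^ 3 ≤ 10 * ((8 ^ J : ℕ) : ℝ) := by
  have h2 := Real.log_two_gt_d9
  have h2' := Real.log_two_lt_d9
  have hJ' : (2 : ℝ) ≤ J := by exact_mod_cast hJ
  have hp : (1 : ℝ) ≤ 2 ^ J := one_le_pow₀ (by norm_num)
  have h1 : 1 ≤ lw J := by
    rw [lw_eq]
    nlinarith
  have hl0 : 0 ≤ Real.log (lw J) := Real.log_nonneg h1
  refine ⟨h1, hl0, ?_, ?_, ?_⟩
  · rw [logY_eq]
    nlinarith
  · rw [logY_eq, lw_eq, Real.log_mul (by positivity) (by positivity), Real.log_pow]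
    have : 0 ≤ Real.log (3 * Real.log 2) := Real.log_nonneg (by linarith)
    linarith
  · rw [lw_eq, mul_pow, ← pow_mul, mul_comm J 3, pow_mul]
    have h3 : (3 * Real.log 2) ^ 3 ≤ 10 := by
      have h4 : 3 * Real.log 2 ≤ 2.1 := by linarith
      calc (3 * Real.log 2) ^ 3 ≤ 2.1 ^ 3 := pow_le_pow_left₀ (by positivity) h4 3
        _ ≤ 10 := by norm_num
    have h5 : ((2 : ℝ) ^ 3) ^ J = ((8 ^ J : ℕ) : ℝ) := by
      push_cast
      norm_num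
    rw [h5, mul_comm]
    exact mul_le_mul_of_nonneg_right h3 (by positivity)

theorem exp_scale {J : ℕ} (hJ : 2 ≤ J) (C β : ℝ) (h0 : 0 ≤ β) (h2 : β ≤ 2) :
    Real.exp (C - β * (Real.log (lw J) - Real.log (Real.log ((8 ^ J : ℕ) : ℝ)))) ≤
      9 * Real.exp C * UB β J := by
  obtain ⟨h1, hl0, hY1, hY, _⟩ := scale_real hJ
  have e1 : Real.exp (C - β * (Real.log (lw J) - Real.log (Real.log ((8 ^ J : ℕ) : ℝ)))) =
      Real.exp C * (Real.log ((8 ^ J : ℕ) : ℝ)) ^ β / (lw J) ^ β := by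
    rw [Real.rpow_def_of_pos (by linarith), Real.rpow_def_of_pos (by linarith), ← Real.exp_add,
      ← Real.exp_sub]
    congr 1
    ring
  have h3 : (Real.log ((8 ^ J : ℕ) : ℝ)) ^ β ≤ 9 * (Real.log (lw J) + 1) ^ 2 := by
    calc (Real.log ((8 ^ J : ℕ) : ℝ)) ^ β ≤ (3 * (Real.log (lw J) + 1)) ^ β :=
          Real.rpow_le_rpow (by linarith) (by linarith) h0
      _ ≤ (3 * (Real.log (lw J) + 1)) ^ (2 : ℝ) :=
          Real.rpow_le_rpow_of_exponent_le (by linarith) h2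
      _ = 9 * (Real.log (lw J) + 1) ^ 2 := by
          rw [show (2 : ℝ) = ((2 : ℕ) : ℝ) by norm_num, Real.rpow_natCast]
          ring
  rw [e1]
  unfold UB
  have hp : 0 < (lw J) ^ β := Real.rpow_pos_of_pos (by linarith) _
  have he := Real.exp_pos C
  rw [show 9 * Real.exp C * ((Real.log (lw J) + 1) ^ 2 / lw J ^ β) =
    Real.exp C * (9 * (Real.log (lw J) + 1) ^ 2) / lw J ^ β by ring]
  exact div_le_div_of_nonneg_right (mul_le_mul_of_nonneg_left h3 he.le) hp.le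

end Pool.Agent.PPD
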