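import Pool.Agent.PPD.CountGen
import Pool.Agent.PPD.Scale
import Pool.Agent.PPD.LemS
import Pool.Agent.PPD.LemQ

/-!
# Module PPD/CaseR: `T` has `k` elements and there is a witness `r`

PROOF. `b = ∏ T`, `w = 8 ^ (2 ^ J)`, `Y = 8 ^ J`, `E = insert r T`, `Fd l := ¬ IsSquare (l : ZMod r)`, `Bd l := Bad T l`. If `n` is in the
set and `l ∉ E` is a prime in `[5, w]`, then `Fd l → ¬ l ∣ n` (`Adm` for the pair `l, r`) and `Bad T l → ¬ R l n` (`Adm` for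
some `p ∈ T`, which divides `n`, and `l`). `r ∤ b` as `r ∉ T`; so `m = n / b` has `R r (b m)`, and `m % r` is one of the
`ρ r ≤ 2` residues `c ∈ range r` with `R r (b c)` (`PPC.SFull.card_mul`, `per_mod`). So the set is contained in the union of at most two
sets `CS R x w b r c E Fd Bd`; `count_gen` for `k + 1` (`s`, `J₀`), and by `lemQ`, `lemS`, `exp_scale` with `β = 3/2 - 1/2^k`:
`exp (-FF - BB) ≤ exp (C - (3/2 - 1/2^k) (log log w - log log Y)) ≤ 9 exp C * UB (3/2 - 1/2^k) J`. (`b ≤ w ^ k` is not needed: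
the hypothesis is `w ^ s * (b r) ≤ x`; take `J₀ ≥ 2`.)
-/

set_option autoImplicit false

namespace Pool.Agent.PPD

open Finset Classical Pool.Agent.PPC

/-- A prime outside `T` is coprime to the product of `T`. -/
theorem cop_of_notMem {T : Finset ℕ} (hT : ∀ p ∈ T, p.Prime ∧ 5 ≤ p) {l : ℕ} (hl : l.Prime)
    (h : l ∉ T) : l.Coprime (∏ p ∈ T, p) := by
  rw [Nat.Prime.coprime_iff_not_dvd hl, hl.prime.dvd_finsetProd_iff]
  rintro ⟨p, hp, hd⟩
  have := (Nat.prime_dvd_prime_iff_eq hl (hT p hp).1).1 hd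
  exact h (this ▸ hp)

/-- The exponent in `count_gen`. -/
theorem exp_case {J : ℕ} (hJ : 2 ≤ J) {F B C₁ C₂ α β : ℝ}
    (hF : α * (Real.log (lw J) - Real.log (Real.log ((8 ^ J : ℕ) : ℝ))) - C₁ ≤ F)
    (hB : β * (Real.log (lw J) - Real.log (Real.log ((8 ^ J : ℕ) : ℝ))) - C₂ ≤ B)
    (h0 : 0 ≤ α + β) (h2 : α + β ≤ 2) :
    Real.exp (-F - B) ≤ 9 * Real.exp (C₁ + C₂) * UB (α + β) J := by
  refine (Real.exp_le_exp.2 ?_).trans (exp_scale hJ (C₁ + C₂) (α + β) h0 h2)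
  rw [add_mul]
  linarith

theorem case_r {R : ℕ → ℕ → Prop} {ρ : ℕ → ℕ} (hc : Cond2 R ρ) (k : ℕ) :
    ∃ C : ℝ, 0 < C ∧ ∃ s J₀ : ℕ, ∀ J ≥ J₀, ∀ (T : Finset ℕ) (r x : ℕ), #T = k →
      (∀ p ∈ T, p.Prime ∧ 5 ≤ p) → Fine ρ (8 ^ J) (8 ^ (2 ^ J)) T → r.Prime → 5 ≤ r → r ∉ T →
      ¬ (8 ^ J < r ∧ ExcR (8 ^ J) (8 ^ (2 ^ J)) r) →
      (8 ^ (2 ^ J)) ^ s * ((∏ p ∈ T, p) * r) ≤ x →
      (#((Icc 1 x).filter (fun n => (∏ p ∈ T, p) ∣ n ∧ R r n ∧ Adm R n)) : ℝ) ≤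
        C * x / ((∏ p ∈ T, p : ℕ) * r) * UB (3 / 2 - 1 / 2 ^ k) J := by
  obtain ⟨C, hC, s, J₀, H⟩ := count_gen hc (k + 1)
  obtain ⟨C₁, H₁⟩ := lemQ
  obtain ⟨C₂, H₂⟩ := lemS hc k
  refine ⟨2 * C * (9 * Real.exp (C₁ + C₂)), by positivity, s, max J₀ 2, ?_⟩
  intro J hJ T r x hTk hT hfine hr hr5 hrT hexc hx
  have hJ₀ : J ≥ J₀ := le_trans (le_max_left _ _) hJ
  have hJ2 : 2 ≤ J := le_trans (le_max_right _ _) hJ
  obtain ⟨hY, hYw⟩ := scale_nat hJ2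
  set w := 8 ^ (2 ^ J) with hw
  set b := ∏ p ∈ T, p with hb
  have hb0 : 0 < b := prod_pos fun p hp => (hT p hp).1.pos
  have hcop : ∀ l : ℕ, l.Prime → 5 ≤ l → l ≤ w → l ∉ insert r T → l.Coprime (b * r) := by
    intro l hl _ _ hlE
    rw [mem_insert, not_or] at hlE
    exact Nat.Coprime.mul_right (cop_of_notMem hT hl hlE.2) ((Nat.coprime_primes hl hr).2 hlE.1)
  have hbr : b.Coprime r := (cop_of_notMem hT hr hrT).symm
  -- the residues
  set Rs := (range r).filter (fun c => R r (b * c)) with hRs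
  have hcard : #Rs ≤ 2 := by
    rw [hRs, PPC.SFull.card_mul hc.toCond hr hr5 hbr]
    exact hc.le r
  have hsub : (Icc 1 x).filter (fun n => b ∣ n ∧ R r n ∧ Adm R n) ⊆
      Rs.biUnion (fun c => CS R x w b r c (insert r T)
        (fun l => ¬ IsSquare ((l : ℕ) : ZMod r)) (Bad T)) := by
    intro n hn
    rw [mem_filter] at hn
    obtain ⟨hnx, ⟨m, rfl⟩, hRn, hadm⟩ := hn
    rw [mem_biUnion]
    refine ⟨m % r, ?_, ?_⟩
    · rw [hRs, mem_filter, mem_range]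
      refine ⟨Nat.mod_lt _ hr.pos, ?_⟩
      rw [← PPC.SFull.per_mod hc.toCond hr hr5, Nat.mul_mod_mod,
        PPC.SFull.per_mod hc.toCond hr hr5]
      exact hRn
    · unfold CS
      rw [mem_filter]
      refine ⟨hnx, Dvd.intro _ rfl, ?_, ?_⟩
      · rw [Nat.mul_div_cancel_left _ hb0, Nat.mod_mod]
      · intro l hl hl5 hlw hlE
        refine ⟨?_, ?_⟩
        · intro hFd hd
          exact hFd (hadm l r hl hr hd hRn)
        · rintro ⟨p, hp, hpsq⟩ hRl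
          exact hpsq (hadm p l (hT p hp).1 hl ((dvd_prod_of_mem _ hp).trans (Dvd.intro _ rfl)) hRl)
  have hexp := exp_case hJ2 (H₁ _ _ r hY hYw hr hr5 hexc) (H₂ _ _ T hY hYw hT hTk.le hfine)
    (by
      have : (1 : ℝ) / 2 ^ #T ≤ 1 := by
        rw [div_le_one (by positivity)]
        exact one_le_pow₀ (by norm_num)
      linarith)
    (by
      have : (0 : ℝ) ≤ 1 / 2 ^ #T := by positivity
      linarith)
  have e1 : (1 / 2 + (1 - 1 / 2 ^ #T) : ℝ) = 3 / 2 - 1 / 2 ^ k := by rw [hTk]; ring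
  rw [e1] at hexp
  have hmain : ∀ c ∈ Rs, (#(CS R x w b r c (insert r T)
        (fun l => ¬ IsSquare ((l : ℕ) : ZMod r)) (Bad T)) : ℝ) ≤
      C * x / (b * r) * (9 * Real.exp (C₁ + C₂) * UB (3 / 2 - 1 / 2 ^ k) J) := by
    intro c _
    have h1 := H J hJ₀ b r c x (insert r T) (fun l => ¬ IsSquare ((l : ℕ) : ZMod r)) (Bad T)
      (by rw [card_insert_of_notMem hrT, hTk]) hb0 hr.pos hcop hx
    refine h1.trans (mul_le_mul_of_nonneg_left hexp (by positivity))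
  calc (#((Icc 1 x).filter (fun n => b ∣ n ∧ R r n ∧ Adm R n)) : ℝ)
      ≤ ((∑ c ∈ Rs, #(CS R x w b r c (insert r T)
        (fun l => ¬ IsSquare ((l : ℕ) : ZMod r)) (Bad T)) : ℕ) : ℝ) := by
        exact_mod_cast (card_le_card hsub).trans card_biUnion_le
    _ = ∑ c ∈ Rs, (#(CS R x w b r c (insert r T)
        (fun l => ¬ IsSquare ((l : ℕ) : ZMod r)) (Bad T)) : ℝ) := by push_cast; rfl
    _ ≤ ∑ c ∈ Rs, C * x / (b * r) * (9 * Real.exp (C₁ + C₂) * UB (3 / 2 - 1 / 2 ^ k) J) :=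
        sum_le_sum hmain
    _ = #Rs * (C * x / (b * r) * (9 * Real.exp (C₁ + C₂) * UB (3 / 2 - 1 / 2 ^ k) J)) := by
        rw [sum_const, nsmul_eq_mul]
    _ ≤ 2 * (C * x / (b * r) * (9 * Real.exp (C₁ + C₂) * UB (3 / 2 - 1 / 2 ^ k) J)) := by
        have hUB : 0 ≤ UB (3 / 2 - 1 / 2 ^ k) J := by
          unfold UB
          have := (scale_real hJ2).1
          exact div_nonneg (sq_nonneg _) (Real.rpow_nonneg (by linarith) _)
        refine mul_le_mul_of_nonneg_right ?_ (by positivity)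
        exact_mod_cast hcard
    _ = 2 * C * (9 * Real.exp (C₁ + C₂)) * x / (b * r) * UB (3 / 2 - 1 / 2 ^ k) J := by ring

end Pool.Agent.PPD
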