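import Pool.Agent.PPD.Psi

/-!
# Module PPD/CondPN2: the two relations

PROOFS. `toCond`: `PPC.cond_plane`, `PPC.cond_neo` (Pool/Agent/PPC/CondPN.lean). `zero`: `r ∣ 1` resp. `0 ≡ 1 [MOD r]` is false.
`mass`: `PPC.sum_prime_inv_ge` (for `z < 14` change the constant, or use `Pool.Agent.Sv.abs_sum_inv_sub_le` directly), and for planes
`ρ r = 1 + chi (-3) r` (`PPC.rhoP_eq`), `PPC.sum_inv_ge` for `ch_three`. `os`: for neofields this is `PPC.sum_inv_le` for
`f = chi d`, `M = 12 d ≤ z`, `PPC.ch_chi` (`d = ∏ U > 1` squarefree and coprime to 6: `PPC.prod_facts` with `T = U`); for planes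
`ρ r chi d r = chi d r + chi (-3 d) r` (`PPC.chi_mul_left`) and both parts are bounded (this is inside the proof of `PPC.avg_plane`,
Pool/Agent/PPC/Avg.lean). `two`: for `r ≥ 5` and `e = 2, 3`: `[Bad {e} r] = (1 - chi e r) / 2` (Euler, `PPC.chi_prime_eq`), so `BB` is
`1/2 ∑ ρ r / r - 1/2 ∑ ρ r chi e r / r` and `ρ r chi e r = chi e r` resp. `chi e r + chi (-3 e) r`; all these characters
(`chi 2, chi (-6), chi 3, chi (-9)`) satisfy `Ch` with `M ≤ 36` (`ch_two`), `PPC.sum_inv_le` for `r > 36` and a constant for `r ≤ 36`.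
-/

set_option autoImplicit false

namespace Pool.Agent.PPD

open Finset Classical Pool.Agent.PPC

/-- Extending a lower Mertens bound from `z ≥ 14` to `z ≥ 5`. -/
private theorem condPN2_mass (g : ℕ → ℝ) (hg : ∀ r : ℕ, 0 ≤ g r) (C : ℝ) (hC : 0 ≤ C)
    (h : ∀ z w : ℕ, 14 ≤ z → z ≤ w → Real.log (Real.log w) - Real.log (Real.log z) - C ≤
      ∑ r ∈ (Ioc z w).filter Nat.Prime, g r / r) :
    ∀ z w : ℕ, 5 ≤ z → z ≤ w →
    Real.log (Real.log w) - Real.log (Real.log z) - (C + Real.log (Real.log 14)) ≤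
      ∑ r ∈ (Ioc z w).filter Nat.Prime, g r / r := by
  intro z w hz hzw
  have h5 : (1 : ℝ) ≤ Real.log z := by
    refine log_three.trans (Real.log_le_log (by norm_num) ?_)
    have : 3 ≤ z := by omega
    exact_mod_cast this
  have h5' : 0 ≤ Real.log (Real.log z) := Real.log_nonneg h5
  have h14 : (1 : ℝ) ≤ Real.log 14 :=
    log_three.trans (Real.log_le_log (by norm_num) (by norm_num))
  have h14' : 0 ≤ Real.log (Real.log 14) := Real.log_nonneg h14
  have hnn : ∀ s : Finset ℕ, 0 ≤ ∑ r ∈ s, g r / r := fun s =>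
    sum_nonneg fun r _ => div_nonneg (hg r) (Nat.cast_nonneg r)
  rcases le_or_gt 14 z with hz14 | hz14
  · have := h z w hz14 hzw
    linarith
  · rcases le_or_gt 14 w with hw14 | hw14
    · have h1 := h 14 w le_rfl hw14
      have h2 : ∑ r ∈ (Ioc 14 w).filter Nat.Prime, g r / r ≤
          ∑ r ∈ (Ioc z w).filter Nat.Prime, g r / r := by
        refine sum_le_sum_of_subset_of_nonneg ?_ fun r _ _ =>
          div_nonneg (hg r) (Nat.cast_nonneg r)
        intro r hr
        rw [mem_filter, mem_Ioc] at hr ⊢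
        exact ⟨⟨by omega, hr.1.2⟩, hr.2⟩
      have h3 : Real.log (Real.log ((14 : ℕ) : ℝ)) = Real.log (Real.log 14) := by norm_num
      rw [h3] at h1
      linarith
    · have h1 : Real.log (Real.log w) ≤ Real.log (Real.log 14) := by
        have hw5 : (3 : ℝ) ≤ w := by
          have : 3 ≤ w := by omega
          exact_mod_cast this
        refine Real.log_le_log ?_ (Real.log_le_log (by linarith) ?_)
        · have := log_three.trans (Real.log_le_log (by norm_num) hw5)
          linarith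
        · have : w ≤ 14 := by omega
          exact_mod_cast this
      have h2 := hnn ((Ioc z w).filter Nat.Prime)
      linarith

private theorem condPN2_massP : ∃ C : ℝ, 0 ≤ C ∧ ∀ z w : ℕ, 14 ≤ z → z ≤ w →
    Real.log (Real.log w) - Real.log (Real.log z) - C ≤
      ∑ r ∈ (Ioc z w).filter Nat.Prime, (rhoP r : ℝ) / r := by
  obtain ⟨C₃, hC30, hC3⟩ := sum_inv_ge ch_three
  refine ⟨C₃ + 10, by linarith, fun z w hz hzw => ?_⟩
  have h1 := sum_prime_inv_ge hz hzw
  have h2 := hC3 z w (by omega) hzw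
  have e1 : ∑ r ∈ (Ioc z w).filter Nat.Prime, (rhoP r : ℝ) / r =
      ∑ r ∈ (Ioc z w).filter Nat.Prime, (1 : ℝ) / r +
      ∑ r ∈ (Ioc z w).filter Nat.Prime, chi (-3) r / r := by
    rw [← sum_add_distrib]
    refine sum_congr rfl fun r hr => ?_
    rw [mem_filter, mem_Ioc] at hr
    rw [rhoP_eq hr.2 (by omega)]; ring
  rw [e1]
  linarith

/-- The lower bound for the bad primes of a single prime `e = 2, 3`. -/
private theorem condPN2_two (ρ : ℕ → ℕ) (C₁ C₂ : ℝ)
    (h1 : ∀ z w : ℕ, 5 ≤ z → z ≤ w → Real.log (Real.log w) - Real.log (Real.log z) - C₁ ≤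
      ∑ r ∈ (Ioc z w).filter Nat.Prime, (ρ r : ℝ) / r) (hC₁ : 0 ≤ C₁) (hC₂ : 0 ≤ C₂)
    (h2 : ∀ e w : ℕ, (e = 2 ∨ e = 3) → 36 ≤ w →
      ∑ r ∈ (Ioc 36 w).filter Nat.Prime, (ρ r : ℝ) * chi (e : ℤ) r / r ≤ C₂) :
    ∀ e w : ℕ, (e = 2 ∨ e = 3) → 5 ≤ w →
      1 / 2 * Real.log (Real.log w) - (C₁ + C₂ + Real.log (Real.log 36)) ≤
        BB ρ (Bad {e}) w := by
  intro e w he hw
  have h36 : (1 : ℝ) ≤ Real.log 36 :=
    log_three.trans (Real.log_le_log (by norm_num) (by norm_num))
  have h36' : 0 ≤ Real.log (Real.log 36) := Real.log_nonneg h36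
  rcases le_or_gt 36 w with hw36 | hw36
  · have h3 : ∑ r ∈ (Ioc 36 w).filter (fun r => r.Prime ∧ Bad {e} r), (ρ r : ℝ) / r ≤
        BB ρ (Bad {e}) w := by
      unfold BB
      refine sum_le_sum_of_subset_of_nonneg ?_ fun r _ _ => by positivity
      intro r hr
      rw [mem_filter, mem_Ioc] at hr
      rw [mem_filter, mem_Icc]
      exact ⟨⟨by omega, hr.1.2⟩, hr.2⟩
    have hep : e.Prime := by
      rcases he with rfl | rfl
      · exact Nat.prime_two
      · exact Nat.prime_three
    have hset : ({e} : Finset ℕ).powerset.erase ∅ = {{e}} := by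
      ext U
      rw [mem_erase, mem_powerset, mem_singleton, subset_singleton_iff]
      constructor
      · rintro ⟨h1, h2 | h2⟩
        · exact absurd h2 h1
        · exact h2
      · rintro rfl
        exact ⟨singleton_ne_empty _, Or.inr rfl⟩
    have h4 := sum_bad (fun r => (ρ r : ℝ)) (T := {e}) (z := 36) (w := w)
      (fun p hp => by rw [mem_singleton] at hp; rw [hp]; exact hep)
      (fun p hp => by rw [mem_singleton] at hp; omega) (by norm_num)
    rw [hset, sum_singleton, prod_singleton, card_singleton] at h4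
    have h5 := h1 36 w (by norm_num) hw36
    have h6 := h2 e w he hw36
    have h7 : Real.log (Real.log ((36 : ℕ) : ℝ)) = Real.log (Real.log 36) := by norm_num
    rw [h7] at h5
    rw [h4] at h3
    have h8 : (1 : ℝ) - 1 / 2 ^ 1 = 1 / 2 := by norm_num
    have h9 : (1 : ℝ) / 2 ^ 1 = 1 / 2 := by norm_num
    rw [h8, h9] at h3
    linarith
  · have h3 : Real.log (Real.log w) ≤ Real.log (Real.log 36) := by
      have hw5 : (3 : ℝ) ≤ w := by
        have : 3 ≤ w := by omega
        exact_mod_cast this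
      refine Real.log_le_log ?_ (Real.log_le_log (by linarith) ?_)
      · have := log_three.trans (Real.log_le_log (by norm_num) hw5)
        linarith
      · have : w ≤ 36 := by omega
        exact_mod_cast this
    have h4 : 0 ≤ BB ρ (Bad {e}) w := by
      unfold BB
      exact sum_nonneg fun r _ => by positivity
    linarith

theorem cond2_plane : Cond2 RP rhoP where
  toCond := cond_plane
  zero := by
    intro r hr _ h
    unfold RP at h
    rw [show 0 ^ 2 + 0 + 1 = 1 from rfl, Nat.dvd_one] at h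
    exact hr.one_lt.ne' h
  mass := by
    obtain ⟨C, hC0, hC⟩ := condPN2_massP
    exact ⟨_, condPN2_mass (fun r => (rhoP r : ℝ)) (fun r => Nat.cast_nonneg _) C hC0 hC⟩
  os := by
    obtain ⟨C, hC0, hC⟩ := sum_inv_le
    refine ⟨2 * C, fun U z w hU hne hz hzw => ?_⟩
    have hU' : U ∈ U.powerset.erase ∅ := by
      rw [mem_erase, mem_powerset]
      exact ⟨hne.ne_empty, subset_rfl⟩
    obtain ⟨a1, a2, a3, -⟩ := prod_facts hU hU'
    have hM : ((12 : ℝ) * ((∏ p ∈ U, p : ℕ) : ℝ)) ≤ z := by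
      have : 12 * ∏ p ∈ U, p ≤ z := by omega
      exact_mod_cast this
    have b1 := hC _ _ (ch_chi a1 a2 a3).1 z w (by omega) hM hzw
    have b2 := hC _ _ (ch_chi a1 a2 a3).2 z w (by omega) hM hzw
    have e2 : ∑ r ∈ (Ioc z w).filter Nat.Prime,
        (rhoP r : ℝ) * chi ((∏ p ∈ U, p : ℕ) : ℤ) r / r =
        ∑ r ∈ (Ioc z w).filter Nat.Prime, chi ((∏ p ∈ U, p : ℕ) : ℤ) r / r +
        ∑ r ∈ (Ioc z w).filter Nat.Prime, chi (-3 * ((∏ p ∈ U, p : ℕ) : ℤ)) r / r := by
      rw [← sum_add_distrib]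
      refine sum_congr rfl fun r hr => ?_
      rw [mem_filter, mem_Ioc] at hr
      rw [rhoP_eq hr.2 (by omega), chi_mul_left]; ring
    rw [e2]
    linarith
  two := by
    obtain ⟨C, hC0, hC⟩ := sum_inv_le
    obtain ⟨C₁, hC10, hC1⟩ := condPN2_massP
    have h14 : 0 ≤ Real.log (Real.log 14) := Real.log_nonneg
      (log_three.trans (Real.log_le_log (by norm_num) (by norm_num)))
    refine ⟨_, condPN2_two rhoP _ (2 * C) (condPN2_mass (fun r => (rhoP r : ℝ))
      (fun r => Nat.cast_nonneg _) C₁ hC10 hC1) (by linarith) (by linarith) ?_⟩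
    intro e w he hw
    obtain ⟨t1, t2, t3, t4⟩ := ch_two
    have e2 : ∑ r ∈ (Ioc 36 w).filter Nat.Prime,
        (rhoP r : ℝ) * chi (e : ℤ) r / r =
        ∑ r ∈ (Ioc 36 w).filter Nat.Prime, chi (e : ℤ) r / r +
        ∑ r ∈ (Ioc 36 w).filter Nat.Prime, chi (-3 * (e : ℤ)) r / r := by
      rw [← sum_add_distrib]
      refine sum_congr rfl fun r hr => ?_
      rw [mem_filter, mem_Ioc] at hr
      rw [rhoP_eq hr.2 (by omega), chi_mul_left]; ring
    rw [e2]
    rcases he with rfl | rfl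
    · have b1 := hC _ _ t1 36 w (by norm_num) (by norm_num) hw
      have b2 := hC _ _ t3 36 w (by norm_num) (by norm_num) hw
      have e3 : (-3 * ((2 : ℕ) : ℤ)) = -6 := by norm_num
      have e4 : ((2 : ℕ) : ℤ) = 2 := by norm_num
      rw [e3, e4]
      linarith
    · have b1 := hC _ _ t2 36 w (by norm_num) (by norm_num) hw
      have b2 := hC _ _ t4 36 w (by norm_num) (by norm_num) hw
      have e3 : (-3 * ((3 : ℕ) : ℤ)) = -9 := by norm_num
      have e4 : ((3 : ℕ) : ℤ) = 3 := by norm_num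
      rw [e3, e4]
      linarith

theorem cond2_neo : Cond2 RN (fun _ => 1) where
  toCond := cond_neo
  zero := by
    intro r _ h5 h
    unfold RN Nat.ModEq at h
    rw [Nat.zero_mod, Nat.mod_eq_of_lt (by omega)] at h
    omega
  mass := by
    have h := condPN2_mass (fun _ => ((1 : ℕ) : ℝ)) (fun r => Nat.cast_nonneg _) 10
      (by norm_num) (fun z w hz hzw => by
        have := sum_prime_inv_ge hz hzw
        simpa using this)
    exact ⟨_, h⟩
  os := by
    obtain ⟨C, hC0, hC⟩ := sum_inv_le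
    refine ⟨C, fun U z w hU hne hz hzw => ?_⟩
    have hU' : U ∈ U.powerset.erase ∅ := by
      rw [mem_erase, mem_powerset]
      exact ⟨hne.ne_empty, subset_rfl⟩
    obtain ⟨a1, a2, a3, -⟩ := prod_facts hU hU'
    have hM : ((12 : ℝ) * ((∏ p ∈ U, p : ℕ) : ℝ)) ≤ z := by
      have : 12 * ∏ p ∈ U, p ≤ z := by omega
      exact_mod_cast this
    have b1 := hC _ _ (ch_chi a1 a2 a3).1 z w (by omega) hM hzw
    simpa using b1
  two := by
    obtain ⟨C, hC0, hC⟩ := sum_inv_le
    have h14 : 0 ≤ Real.log (Real.log 14) := Real.log_nonneg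
      (log_three.trans (Real.log_le_log (by norm_num) (by norm_num)))
    have h := condPN2_mass (fun _ => ((1 : ℕ) : ℝ)) (fun r => Nat.cast_nonneg _) 10
      (by norm_num) (fun z w hz hzw => by
        have := sum_prime_inv_ge hz hzw
        simpa using this)
    refine ⟨_, condPN2_two (fun _ => 1) _ C h (by linarith) hC0.le ?_⟩
    intro e w he hw
    obtain ⟨t1, t2, t3, t4⟩ := ch_two
    rcases he with rfl | rfl
    · have b1 := hC _ _ t1 36 w (by norm_num) (by norm_num) hw
      simpa using b1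
    · have b1 := hC _ _ t2 36 w (by norm_num) (by norm_num) hw
      simpa using b1

end Pool.Agent.PPD
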