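import Pool.Agent.PPD.Defs
import Pool.Agent.PPC.Count

/-!
# Module PPD/SumT: sums over the sets `T` and over the primes `r`

PROOFS. `sum_T`: `1 / ∏ T = ∏ 1 / p`, `PPC.sum_powersetCard_le`, `PPC.sum_inv_primes_le` (Pool/Agent/PPC/Count.lean). `sum_r`: the same
`PPC.sum_inv_primes_le`. `card_mul_le`: the multiples of `b` in `[1, x]`: `x / b` many. `card_R_le`: the integers `n ∈ [1, x]` with `R r n`: every
block of `r` consecutive integers contains `ρ r ≤ 2` of them (`hc.per`, `hc.card`; e.g. `Nat.count`-type lemmas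
or: the map `n ↦ n % r` has image in the `ρ r` residues, and every fibre has at most `x / r + 1` elements), so there are at most
`2 (x / r + 1) ≤ 4 x / r`.
-/

set_option autoImplicit false

namespace Pool.Agent.PPD

open Finset Classical Pool.Agent.PPC

theorem sum_T : ∃ C : ℝ, 1 ≤ C ∧ ∀ (J j : ℕ), 1 ≤ J →
    ∑ T ∈ (PS (8 ^ (2 ^ J))).powersetCard j, (1 : ℝ) / (∏ p ∈ T, p : ℕ) ≤
      (Real.log (lw J) + C) ^ j := by
  obtain ⟨C, hC, H⟩ := sum_inv_primes_le
  refine ⟨C + 1, by linarith, fun J j _ => ?_⟩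
  have hw : 2 ≤ 8 ^ (2 ^ J) := by
    calc 2 ≤ 8 ^ 1 := by norm_num
      _ ≤ 8 ^ (2 ^ J) := Nat.pow_le_pow_right (by norm_num) Nat.one_le_two_pow
  have h1 := H _ hw
  calc ∑ T ∈ (PS (8 ^ (2 ^ J))).powersetCard j, (1 : ℝ) / (∏ p ∈ T, p : ℕ)
      = ∑ T ∈ (PS (8 ^ (2 ^ J))).powersetCard j, ∏ p ∈ T, (1 : ℝ) / p := by
        refine sum_congr rfl fun T _ => ?_
        rw [prod_div_distrib, prod_const_one]
        push_cast
        ring
    _ ≤ (∑ p ∈ PS (8 ^ (2 ^ J)), (1 : ℝ) / p) ^ j :=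
        sum_powersetCard_le _ (fun p => (1 : ℝ) / p) (fun _ _ => by positivity) j
    _ ≤ (Real.log (lw J) + (C + 1)) ^ j := by
        refine pow_le_pow_left₀ (sum_nonneg fun _ _ => by positivity) ?_ j
        unfold PS lw
        linarith

theorem sum_r : ∃ C : ℝ, 1 ≤ C ∧ ∀ x : ℕ, 5 ≤ x →
    ∑ r ∈ (Icc 5 x).filter Nat.Prime, (1 : ℝ) / r ≤ Real.log (Real.log x) + C := by
  obtain ⟨C, hC, H⟩ := sum_inv_primes_le
  refine ⟨C + 1, by linarith, fun x hx => ?_⟩
  have := H x (by omega)
  linarith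

theorem card_mul_le (x b : ℕ) (hb : 0 < b) :
    (#((Icc 1 x).filter (fun n => b ∣ n)) : ℝ) ≤ x / b := by
  have h1 : #((Icc 1 x).filter (fun n => b ∣ n)) ≤ x / b := by
    calc #((Icc 1 x).filter (fun n => b ∣ n)) ≤ #((Icc 1 (x / b)).image (fun m => b * m)) := by
          apply card_le_card
          intro n hn
          rw [mem_filter, mem_Icc] at hn
          obtain ⟨⟨h1, h2⟩, m, rfl⟩ := hn
          rw [mem_image]
          refine ⟨m, ?_, rfl⟩
          rw [mem_Icc]
          refine ⟨?_, ?_⟩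
          · rcases Nat.eq_zero_or_pos m with h | h
            · rw [h] at h1; simp at h1
            · exact h
          · rw [Nat.le_div_iff_mul_le hb, mul_comm]
            exact h2
      _ ≤ #(Icc 1 (x / b)) := card_image_le
      _ = x / b := by simp
  calc (#((Icc 1 x).filter (fun n => b ∣ n)) : ℝ) ≤ ((x / b : ℕ) : ℝ) := by exact_mod_cast h1
    _ ≤ (x : ℝ) / b := Nat.cast_div_le

private lemma card_fibre (x r c : ℕ) (_hr : 0 < r) :
    #((Icc 1 x).filter (fun n => n % r = c)) ≤ x / r + 1 := by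
  calc #((Icc 1 x).filter (fun n => n % r = c)) ≤ #(range (x / r + 1)) := by
        refine card_le_card_of_injOn (fun n => n / r) ?_ ?_
        · intro n hn
          rw [mem_coe, mem_filter, mem_Icc] at hn
          rw [mem_coe, mem_range]
          exact Nat.lt_succ_of_le (Nat.div_le_div_right hn.1.2)
        · intro n hn m hm h
          rw [mem_coe, mem_filter] at hn hm
          have h' : n / r = m / r := h
          rw [← Nat.mod_add_div n r, ← Nat.mod_add_div m r, hn.2, hm.2, h']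
    _ = x / r + 1 := card_range _

theorem card_R_le {R : ℕ → ℕ → Prop} {ρ : ℕ → ℕ} (hc : Cond2 R ρ) {r x : ℕ} (hr : r.Prime)
    (h5 : 5 ≤ r) (hrx : r ≤ x) :
    (#((Icc 1 x).filter (fun n => R r n)) : ℝ) ≤ 4 * x / r := by
  have hper : ∀ n, R r (n % r) ↔ R r n := by
    have h1 : ∀ j n, R r (n + r * j) ↔ R r n := by
      intro j
      induction j with
      | zero => intro n; simp
      | succ j ih =>
        intro n
        rw [Nat.mul_succ, ← add_assoc, hc.per r hr h5]
        exact ih n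
    intro n
    conv_rhs => rw [← Nat.mod_add_div n r]
    exact (h1 _ _).symm
  have hsub : (Icc 1 x).filter (fun n => R r n) ⊆
      ((range r).filter (R r)).biUnion (fun c => (Icc 1 x).filter (fun n => n % r = c)) := by
    intro n hn
    rw [mem_filter] at hn
    rw [mem_biUnion]
    refine ⟨n % r, ?_, ?_⟩
    · rw [mem_filter, mem_range]
      exact ⟨Nat.mod_lt _ hr.pos, (hper n).2 hn.2⟩
    · rw [mem_filter]
      exact ⟨hn.1, rfl⟩
  have h1 : #((Icc 1 x).filter (fun n => R r n)) ≤ 2 * (x / r + 1) := by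
    calc #((Icc 1 x).filter (fun n => R r n)) ≤ _ := card_le_card hsub
      _ ≤ ∑ c ∈ (range r).filter (R r), #((Icc 1 x).filter (fun n => n % r = c)) :=
          card_biUnion_le
      _ ≤ ∑ c ∈ (range r).filter (R r), (x / r + 1) :=
          sum_le_sum fun c _ => card_fibre x r c hr.pos
      _ = ρ r * (x / r + 1) := by rw [sum_const, hc.card r hr h5, smul_eq_mul]
      _ ≤ 2 * (x / r + 1) := Nat.mul_le_mul_right _ (hc.le r)
  have hr0 : (0 : ℝ) < r := by exact_mod_cast hr.pos
  have h2 : (1 : ℝ) ≤ x / r := by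
    rw [one_le_div hr0]
    exact_mod_cast hrx
  calc (#((Icc 1 x).filter (fun n => R r n)) : ℝ) ≤ ((2 * (x / r + 1) : ℕ) : ℝ) := by
        exact_mod_cast h1
    _ = 2 * (((x / r : ℕ) : ℝ) + 1) := by push_cast; ring
    _ ≤ 2 * ((x : ℝ) / r + 1) := by
        have : ((x / r : ℕ) : ℝ) ≤ (x : ℝ) / r := Nat.cast_div_le
        linarith
    _ ≤ 4 * x / r := by
        rw [mul_div_assoc]
        linarith

end Pool.Agent.PPD
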