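import Pool.Agent.PPD.ExcSum
import Pool.Agent.PPD.SumT
import Pool.Agent.PPD.Scale

/-!
# Module PPD/ExTR: the integers with exceptional data are rare

PROOF. `ex_t`: the set is contained in the union over `j < k`, `U ∈ (PS w).powersetCard j` and the `p ∈ [1, x]` with `Exc ρ Y w (∏ U) p`, `p > Y ≥ 1`, of the
multiples of `p ∏ U` in `[1, x]`; by `card_mul_le` each of these has at most `x / (p ∏ U)` elements; `exc_sum` (`N = x`, `Y = 8 ^ J ≥ 5`), `sum_T`,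
`(log (lw J) + C) ^ j ≤ (log (lw J) + C) ^ k`. `ex_r`: union over the exceptional primes `r ≤ x`, `card_R_le`, `excR_sum`: `4 x * 40 (log x + 1) / Y`.
-/

set_option autoImplicit false

namespace Pool.Agent.PPD

open Finset Classical Pool.Agent.PPC

private lemma one_le_w (J : ℕ) : 8 ≤ 8 ^ (2 ^ J) := by
  calc 8 = 8 ^ 1 := by norm_num
    _ ≤ 8 ^ (2 ^ J) := Nat.pow_le_pow_right (by norm_num) Nat.one_le_two_pow

theorem ex_t {R : ℕ → ℕ → Prop} {ρ : ℕ → ℕ} (hc : Cond2 R ρ) (k : ℕ) :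
    ∃ C : ℝ, 1 ≤ C ∧ ∀ J ≥ 2, ∀ x : ℕ, 1 ≤ x →
      (#((Icc 1 x).filter (fun n => ∃ U ⊆ PS (8 ^ (2 ^ J)), #U < k ∧ ∃ p : ℕ, p.Prime ∧ p ∉ U ∧
        8 ^ J < p ∧ Exc ρ (8 ^ J) (8 ^ (2 ^ J)) (∏ q ∈ U, q) p ∧ p * (∏ q ∈ U, q) ∣ n)) : ℝ) ≤
        C * x * (Real.log (lw J) + C) ^ k * ((Real.log x + 1) / ((8 ^ J : ℕ) : ℝ)) := by
  obtain ⟨C₂, hC₂, H₂⟩ := sum_T
  refine ⟨40 * k + C₂, by nlinarith [Nat.cast_nonneg (α := ℝ) k], fun J hJ x hx => ?_⟩
  obtain ⟨hl1, hl0, _, _, _⟩ := scale_real hJ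
  have hY14 := (scale_nat hJ).1
  set w : ℕ := 8 ^ (2 ^ J) with hw
  set Y : ℕ := 8 ^ J with hY
  have hYpos : (0 : ℝ) < (Y : ℝ) := by exact_mod_cast (by omega : 0 < Y)
  have hlx : 0 ≤ Real.log x := Real.log_nonneg (by exact_mod_cast hx)
  set E : ℝ := 40 * (Real.log x + 1) / Y with hE
  have hE0 : 0 ≤ E := by positivity
  set F : Finset ℕ → ℕ → Finset ℕ := fun U p =>
    (Icc 1 x).filter (fun n => p * (∏ q ∈ U, q) ∣ n) with hFdef
  have hUpos : ∀ U ⊆ PS w, 0 < ∏ q ∈ U, q := by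
    intro U hU
    refine prod_pos fun q hq => ?_
    have := hU hq
    unfold PS at this
    rw [mem_filter] at this
    exact this.2.pos
  have h1 : ∀ j ∈ range k, ∀ U ∈ (PS w).powersetCard j,
      ∑ p ∈ (Icc 1 x).filter (Exc ρ Y w (∏ q ∈ U, q)), (#(F U p) : ℝ) ≤
        x * E * (1 / (∏ q ∈ U, q : ℕ)) := by
    intro j _ U hU
    rw [mem_powersetCard] at hU
    have hUp := hUpos U hU.1
    calc ∑ p ∈ (Icc 1 x).filter (Exc ρ Y w (∏ q ∈ U, q)), (#(F U p) : ℝ)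
        ≤ ∑ p ∈ (Icc 1 x).filter (Exc ρ Y w (∏ q ∈ U, q)),
            ((x : ℝ) * (1 / (∏ q ∈ U, q : ℕ))) * (1 / (p : ℝ)) := by
          apply sum_le_sum
          intro p hp
          rw [mem_filter, mem_Icc] at hp
          have hp1 : 0 < p := hp.1.1
          have h := card_mul_le x (p * ∏ q ∈ U, q) (Nat.mul_pos hp1 hUp)
          refine h.trans (le_of_eq ?_)
          have hp1' : (0 : ℝ) < p := by exact_mod_cast hp1
          have hUp' : (0 : ℝ) < (∏ q ∈ U, q : ℕ) := by exact_mod_cast hUp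
          rw [Nat.cast_mul]
          field_simp
      _ = ((x : ℝ) * (1 / (∏ q ∈ U, q : ℕ))) *
            ∑ p ∈ (Icc 1 x).filter (Exc ρ Y w (∏ q ∈ U, q)), (1 : ℝ) / p := by
          rw [mul_sum]
      _ ≤ ((x : ℝ) * (1 / (∏ q ∈ U, q : ℕ))) * E := by
          refine mul_le_mul_of_nonneg_left ?_ (by positivity)
          exact exc_sum ρ hc.le Y w _ x (by omega) hx
      _ = x * E * (1 / (∏ q ∈ U, q : ℕ)) := by ring
  have h2 : ∀ j ∈ range k, ∑ U ∈ (PS w).powersetCard j, (x : ℝ) * E * (1 / (∏ q ∈ U, q : ℕ)) ≤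
      x * E * (Real.log (lw J) + C₂) ^ k := by
    intro j hj
    rw [← mul_sum]
    refine mul_le_mul_of_nonneg_left ?_ (by positivity)
    refine (H₂ J j (by omega)).trans ?_
    exact pow_le_pow_right₀ (by linarith) (mem_range.1 hj).le
  have hcard : #((range k).biUnion fun j => ((PS w).powersetCard j).biUnion fun U =>
        ((Icc 1 x).filter (Exc ρ Y w (∏ q ∈ U, q))).biUnion fun p => F U p) ≤
      ∑ j ∈ range k, ∑ U ∈ (PS w).powersetCard j,
        ∑ p ∈ (Icc 1 x).filter (Exc ρ Y w (∏ q ∈ U, q)), #(F U p) :=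
    card_biUnion_le.trans (sum_le_sum fun j _ => card_biUnion_le.trans
      (sum_le_sum fun U _ => card_biUnion_le))
  have hC0 : (Real.log (lw J) + C₂) ^ k ≤ (Real.log (lw J) + (40 * k + C₂)) ^ k :=
    pow_le_pow_left₀ (by linarith) (by nlinarith [Nat.cast_nonneg (α := ℝ) k]) k
  refine le_trans (Nat.cast_le.2 ((card_le_card (t := (range k).biUnion fun j =>
    ((PS w).powersetCard j).biUnion fun U =>
      ((Icc 1 x).filter (Exc ρ Y w (∏ q ∈ U, q))).biUnion fun p => F U p) ?_).trans hcard)) ?_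
  · intro n hn
    simp only [mem_filter] at hn
    obtain ⟨hn1, U, hU, hUk, p, hp, hpU, hYp, hexc, hdvd⟩ := hn
    rw [mem_biUnion]
    refine ⟨#U, mem_range.2 hUk, ?_⟩
    rw [mem_biUnion]
    refine ⟨U, mem_powersetCard.2 ⟨hU, rfl⟩, ?_⟩
    rw [mem_biUnion]
    refine ⟨p, ?_, ?_⟩
    · rw [mem_filter, mem_Icc]
      rw [mem_Icc] at hn1
      have h1 : p ∣ n := (Dvd.intro _ rfl).trans hdvd
      exact ⟨⟨hp.pos, (Nat.le_of_dvd (by omega) h1).trans hn1.2⟩, hexc⟩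
    · rw [hFdef]
      simp only [mem_filter]
      exact ⟨hn1, hdvd⟩
  calc ((∑ j ∈ range k, ∑ U ∈ (PS w).powersetCard j,
        ∑ p ∈ (Icc 1 x).filter (Exc ρ Y w (∏ q ∈ U, q)), #(F U p) : ℕ) : ℝ)
      = ∑ j ∈ range k, ∑ U ∈ (PS w).powersetCard j,
        ∑ p ∈ (Icc 1 x).filter (Exc ρ Y w (∏ q ∈ U, q)), (#(F U p) : ℝ) := by push_cast; rfl
    _ ≤ ∑ j ∈ range k, ∑ U ∈ (PS w).powersetCard j, x * E * (1 / (∏ q ∈ U, q : ℕ)) :=
        sum_le_sum fun j hj => sum_le_sum fun U hU => h1 j hj U hU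
    _ ≤ ∑ j ∈ range k, x * E * (Real.log (lw J) + C₂) ^ k := sum_le_sum fun j hj => h2 j hj
    _ = k * (x * E * (Real.log (lw J) + C₂) ^ k) := by
        rw [sum_const, card_range, nsmul_eq_mul]
    _ = (40 * k) * x * (Real.log (lw J) + C₂) ^ k * ((Real.log x + 1) / Y) := by
        rw [hE]; ring
    _ ≤ (40 * k + C₂) * x * (Real.log (lw J) + (40 * k + C₂)) ^ k *
          ((Real.log x + 1) / Y) := by
        refine mul_le_mul_of_nonneg_right ?_ (by positivity)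
        refine mul_le_mul ?_ hC0 (by positivity) (by positivity)
        exact mul_le_mul_of_nonneg_right (by linarith) (by positivity)

theorem ex_r {R : ℕ → ℕ → Prop} {ρ : ℕ → ℕ} (hc : Cond2 R ρ) :
    ∀ J ≥ 2, ∀ x : ℕ, 1 ≤ x →
      (#((Icc 1 x).filter (fun n => ∃ r : ℕ, r.Prime ∧ 8 ^ J < r ∧ r ≤ x ∧
        ExcR (8 ^ J) (8 ^ (2 ^ J)) r ∧ R r n)) : ℝ) ≤
        160 * x * ((Real.log x + 1) / ((8 ^ J : ℕ) : ℝ)) := by
  intro J hJ x hx
  have hY14 := (scale_nat hJ).1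
  set w : ℕ := 8 ^ (2 ^ J) with hw
  set Y : ℕ := 8 ^ J with hY
  set ES := (Icc 1 x).filter (ExcR Y w) with hES
  set PSx := ES.filter (fun r => r.Prime ∧ Y < r) with hPSx
  have hsub : (Icc 1 x).filter (fun n => ∃ r : ℕ, r.Prime ∧ Y < r ∧ r ≤ x ∧
        ExcR Y w r ∧ R r n) ⊆
      PSx.biUnion fun r => (Icc 1 x).filter (fun n => R r n) := by
    intro n hn
    rw [mem_filter] at hn
    obtain ⟨hn1, r, hr, hYr, hrx, hexc, hrn⟩ := hn
    rw [mem_biUnion]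
    refine ⟨r, ?_, mem_filter.2 ⟨hn1, hrn⟩⟩
    rw [hPSx, mem_filter, hES, mem_filter, mem_Icc]
    exact ⟨⟨⟨hr.pos, hrx⟩, hexc⟩, hr, hYr⟩
  have hcard := (card_le_card hsub).trans card_biUnion_le
  have hcard' : (#((Icc 1 x).filter (fun n => ∃ r : ℕ, r.Prime ∧ Y < r ∧ r ≤ x ∧
        ExcR Y w r ∧ R r n)) : ℝ) ≤
      ∑ r ∈ PSx, (#((Icc 1 x).filter (fun n => R r n)) : ℝ) := by exact_mod_cast hcard
  calc _ ≤ _ := hcard'
    _ ≤ ∑ r ∈ PSx, 4 * (x : ℝ) * (1 / r) := by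
        refine sum_le_sum fun r hr => ?_
        rw [hPSx, mem_filter, hES, mem_filter, mem_Icc] at hr
        have := card_R_le hc (r := r) (x := x) hr.2.1 (by omega) hr.1.1.2
        refine this.trans (le_of_eq ?_)
        ring
    _ ≤ ∑ r ∈ ES, 4 * (x : ℝ) * (1 / r) := by
        refine sum_le_sum_of_subset_of_nonneg (filter_subset _ _) fun _ _ _ => by positivity
    _ = 4 * (x : ℝ) * ∑ r ∈ ES, (1 : ℝ) / r := by rw [mul_sum]
    _ ≤ 4 * (x : ℝ) * (40 * (Real.log x + 1) / Y) := by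
        refine mul_le_mul_of_nonneg_left ?_ (by positivity)
        exact excR_sum Y w x (by omega) hx
    _ = 160 * x * ((Real.log x + 1) / (Y : ℝ)) := by ring

end Pool.Agent.PPD
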