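import Pool.Agent.PPD.CaseFew
import Pool.Agent.PPD.SumT

/-!
# Module PPD/TotFew: sums of `CaseFew`

PROOF. `total_few`: the set is contained in the union over `1 ≤ j < k` and `T ∈ (PS w).powersetCard j` (those with `Fine T`) of the sets in
`case_few`. `card_biUnion_le`, `case_few` (`∏ T ≤ w ^ k`, `s = s₀ + k`), `sum_T`, `(log (lw J) + C) ^ j ≤ (log (lw J) + C) ^ k`.
`total_p`: the set is contained in the union over the primes `p` with `w < p`, `p² ≤ x`, `Fine {p}` of the sets in `case_few` for `T = {p}`, `k = 1`;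
`w ^ s₀ * p ≤ x` as `w ^ (2 s₀) ≤ x` and `p² ≤ x`: `(w ^ s₀ p)² ≤ x²`. `∑_p 1 / p ≤ log log x + C` (`sum_r`).
-/

set_option autoImplicit false

namespace Pool.Agent.PPD

open Finset Classical Pool.Agent.PPC

private lemma TF_UB_nonneg {J : ℕ} (hJ : 2 ≤ J) : 0 ≤ UB (3 / 2) J := by
  obtain ⟨hl1, _, _, _, _⟩ := scale_real hJ
  unfold UB
  exact div_nonneg (sq_nonneg _) (Real.rpow_nonneg (by linarith) _)

theorem total_few {R : ℕ → ℕ → Prop} {ρ : ℕ → ℕ} (hc : Cond2 R ρ) (k : ℕ) :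
    ∃ C : ℝ, 1 ≤ C ∧ ∃ s J₀ : ℕ, ∀ J ≥ J₀, ∀ x : ℕ, (8 ^ (2 ^ J)) ^ s ≤ x →
      (#((Icc 1 x).filter (fun n => Adm R n ∧ ∃ T ⊆ PS (8 ^ (2 ^ J)), T.Nonempty ∧ #T < k ∧
        (∏ p ∈ T, p) ∣ n ∧ Fine ρ (8 ^ J) (8 ^ (2 ^ J)) T ∧
        ∀ l ∈ PS (8 ^ (2 ^ J)), l ∣ n → l ∈ T)) : ℝ) ≤
        C * x * (Real.log (lw J) + C) ^ k * UB (3 / 2) J := by
  obtain ⟨C, hC, s, J₀, H⟩ := case_few hc k
  obtain ⟨C₁, hC₁, H₁⟩ := sum_T
  have hk0 : (0 : ℝ) ≤ k := Nat.cast_nonneg k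
  refine ⟨k * C + C₁, by nlinarith, s + k, max J₀ 2, ?_⟩
  intro J hJ x hx
  have hJ₀ : J ≥ J₀ := le_trans (le_max_left _ _) hJ
  have hJ2 : 2 ≤ J := le_trans (le_max_right _ _) hJ
  obtain ⟨hl1, hl0, hY1, hY3, _⟩ := scale_real hJ2
  have hUB := TF_UB_nonneg hJ2
  have HJ := H J hJ₀
  have H₁J := H₁ J
  obtain ⟨w, hw⟩ : ∃ w : ℕ, w = 8 ^ (2 ^ J) := ⟨_, rfl⟩
  simp only [← hw] at HJ H₁J hx ⊢
  have hw1 : 1 ≤ w := by rw [hw]; exact Nat.one_le_pow _ _ (by norm_num)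
  clear hw
  set S : Finset ℕ → Finset ℕ := fun T => (Icc 1 x).filter (fun n => (∏ p ∈ T, p) ∣ n ∧
        (∀ l ∈ PS w, l ∣ n → l ∈ T) ∧ Adm R n) with hS
  have hsub : (Icc 1 x).filter (fun n => Adm R n ∧ ∃ T ⊆ PS w, T.Nonempty ∧ #T < k ∧
        (∏ p ∈ T, p) ∣ n ∧ Fine ρ (8 ^ J) w T ∧ ∀ l ∈ PS w, l ∣ n → l ∈ T) ⊆
      (Ico 1 k).biUnion (fun j => (((PS w).powersetCard j).filter
        (fun T => Fine ρ (8 ^ J) w T)).biUnion S) := by
    intro n hn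
    rw [mem_filter] at hn
    obtain ⟨hnx, hadm, T, hT, hTne, hTk, hd, hfine, hall⟩ := hn
    rw [mem_biUnion]
    refine ⟨#T, ?_, ?_⟩
    · rw [mem_Ico]
      exact ⟨card_pos.2 hTne, hTk⟩
    · rw [mem_biUnion]
      refine ⟨T, ?_, ?_⟩
      · rw [mem_filter, mem_powersetCard]
        exact ⟨⟨hT, rfl⟩, hfine⟩
      · simp only [hS, mem_filter]
        exact ⟨hnx, hd, hall, hadm⟩
  have hterm : ∀ j ∈ Ico 1 k, ∀ T ∈ ((PS w).powersetCard j).filter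
        (fun T => Fine ρ (8 ^ J) w T), (#(S T) : ℝ) ≤
        C * x * UB (3 / 2) J * ((1 : ℝ) / (∏ p ∈ T, p : ℕ)) := by
    intro j hj T hT
    rw [mem_Ico] at hj
    rw [mem_filter, mem_powersetCard] at hT
    obtain ⟨⟨hTs, hTj⟩, hfine⟩ := hT
    have hTp : ∀ p ∈ T, p.Prime ∧ 5 ≤ p := by
      intro p hp
      have := hTs hp
      unfold PS at this
      rw [mem_filter, mem_Icc] at this
      exact ⟨this.2, this.1.1⟩
    have hTw : ∀ p ∈ T, p ≤ w := by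
      intro p hp
      have := hTs hp
      unfold PS at this
      rw [mem_filter, mem_Icc] at this
      exact this.1.2
    have hprod : ∏ p ∈ T, p ≤ w ^ k := by
      calc ∏ p ∈ T, p ≤ w ^ #T := prod_le_pow_card T _ w hTw
        _ ≤ w ^ k := Nat.pow_le_pow_right hw1 (by omega)
    have h1 := HJ T x (card_pos.1 (by omega)) (by omega) hTp hfine (by
      calc w ^ s * ∏ p ∈ T, p ≤ w ^ s * w ^ k := Nat.mul_le_mul_left _ hprod
        _ = w ^ (s + k) := (pow_add _ _ _).symm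
        _ ≤ x := hx)
    calc (#(S T) : ℝ) ≤ C * x / (∏ p ∈ T, p : ℕ) * UB (3 / 2) J := h1
      _ = C * x * UB (3 / 2) J * ((1 : ℝ) / (∏ p ∈ T, p : ℕ)) := by ring
  have hbase : 1 ≤ Real.log (lw J) + C₁ := by linarith
  have hj : ∀ j ∈ Ico 1 k, (#((((PS w).powersetCard j).filter
        (fun T => Fine ρ (8 ^ J) w T)).biUnion S) : ℝ) ≤
        C * x * UB (3 / 2) J * (Real.log (lw J) + C₁) ^ k := by
    intro j hj
    have hjk := (mem_Ico.1 hj).2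
    calc (#((((PS w).powersetCard j).filter
        (fun T => Fine ρ (8 ^ J) w T)).biUnion S) : ℝ)
        ≤ ((∑ T ∈ ((PS w).powersetCard j).filter
        (fun T => Fine ρ (8 ^ J) w T), #(S T) : ℕ) : ℝ) := by exact_mod_cast card_biUnion_le
      _ = ∑ T ∈ ((PS w).powersetCard j).filter
        (fun T => Fine ρ (8 ^ J) w T), (#(S T) : ℝ) := by push_cast; rfl
      _ ≤ ∑ T ∈ ((PS w).powersetCard j).filter
        (fun T => Fine ρ (8 ^ J) w T), C * x * UB (3 / 2) J * ((1 : ℝ) / (∏ p ∈ T, p : ℕ)) :=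
          sum_le_sum (hterm j hj)
      _ ≤ ∑ T ∈ (PS w).powersetCard j, C * x * UB (3 / 2) J * ((1 : ℝ) / (∏ p ∈ T, p : ℕ)) := by
          refine sum_le_sum_of_subset_of_nonneg (filter_subset _ _) fun T _ _ => ?_
          positivity
      _ = C * x * UB (3 / 2) J *
          ∑ T ∈ (PS w).powersetCard j, ((1 : ℝ) / (∏ p ∈ T, p : ℕ)) := by rw [mul_sum]
      _ ≤ C * x * UB (3 / 2) J * (Real.log (lw J) + C₁) ^ j :=
          mul_le_mul_of_nonneg_left (H₁J j (by omega)) (by positivity)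
      _ ≤ C * x * UB (3 / 2) J * (Real.log (lw J) + C₁) ^ k :=
          mul_le_mul_of_nonneg_left (pow_le_pow_right₀ hbase hjk.le) (by positivity)
  have hP : (0 : ℝ) ≤ (Real.log (lw J) + C₁) ^ k := pow_nonneg (by linarith) k
  calc (#((Icc 1 x).filter (fun n => Adm R n ∧ ∃ T ⊆ PS w, T.Nonempty ∧ #T < k ∧
        (∏ p ∈ T, p) ∣ n ∧ Fine ρ (8 ^ J) w T ∧ ∀ l ∈ PS w, l ∣ n → l ∈ T)) : ℝ)
      ≤ (#((Ico 1 k).biUnion (fun j => (((PS w).powersetCard j).filter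
        (fun T => Fine ρ (8 ^ J) w T)).biUnion S)) : ℝ) := by exact_mod_cast card_le_card hsub
    _ ≤ ((∑ j ∈ Ico 1 k, #((((PS w).powersetCard j).filter
        (fun T => Fine ρ (8 ^ J) w T)).biUnion S) : ℕ) : ℝ) := by
          exact_mod_cast card_biUnion_le
    _ = ∑ j ∈ Ico 1 k, (#((((PS w).powersetCard j).filter
        (fun T => Fine ρ (8 ^ J) w T)).biUnion S) : ℝ) := by push_cast; rfl
    _ ≤ ∑ j ∈ Ico 1 k, C * x * UB (3 / 2) J * (Real.log (lw J) + C₁) ^ k := sum_le_sum hj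
    _ = ((k - 1 : ℕ) : ℝ) * (C * x * UB (3 / 2) J * (Real.log (lw J) + C₁) ^ k) := by
          rw [sum_const, Nat.card_Ico, nsmul_eq_mul]
    _ ≤ (k : ℝ) * (C * x * UB (3 / 2) J * (Real.log (lw J) + C₁) ^ k) := by
          refine mul_le_mul_of_nonneg_right ?_ (by positivity)
          exact_mod_cast Nat.sub_le k 1
    _ = (k * C) * x * (Real.log (lw J) + C₁) ^ k * UB (3 / 2) J := by ring
    _ ≤ (k * C + C₁) * x * (Real.log (lw J) + (k * C + C₁)) ^ k * UB (3 / 2) J := by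
          have e1 : (k : ℝ) * C ≤ k * C + C₁ := by linarith
          have e2 : (Real.log (lw J) + C₁) ^ k ≤ (Real.log (lw J) + (k * C + C₁)) ^ k := by
            refine pow_le_pow_left₀ (by linarith) ?_ k
            have : 0 ≤ (k : ℝ) * C := by positivity
            linarith
          refine mul_le_mul_of_nonneg_right ?_ hUB
          refine mul_le_mul ?_ e2 hP (by positivity)
          exact mul_le_mul_of_nonneg_right e1 (by positivity)

theorem total_p {R : ℕ → ℕ → Prop} {ρ : ℕ → ℕ} (hc : Cond2 R ρ) :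
    ∃ C : ℝ, 1 ≤ C ∧ ∃ s J₀ : ℕ, ∀ J ≥ J₀, ∀ x : ℕ, (8 ^ (2 ^ J)) ^ s ≤ x →
      (#((Icc 1 x).filter (fun n => Adm R n ∧ (∀ l ∈ PS (8 ^ (2 ^ J)), ¬ l ∣ n) ∧
        ∃ p : ℕ, p.Prime ∧ 8 ^ (2 ^ J) < p ∧ p * p ≤ x ∧ p ∣ n ∧
          Fine ρ (8 ^ J) (8 ^ (2 ^ J)) {p})) : ℝ) ≤
        C * x * (Real.log (Real.log x) + C) * UB (3 / 2) J := by
  obtain ⟨C, hC, s, J₀, H⟩ := case_few hc 1
  obtain ⟨C₁, hC₁, H₁⟩ := sum_r
  refine ⟨C + C₁, by linarith, 2 * s + 1, max J₀ 2, ?_⟩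
  intro J hJ x hx
  have hJ₀ : J ≥ J₀ := le_trans (le_max_left _ _) hJ
  have hJ2 : 2 ≤ J := le_trans (le_max_right _ _) hJ
  have hUB := TF_UB_nonneg hJ2
  have HJ := H J hJ₀
  obtain ⟨w, hw⟩ : ∃ w : ℕ, w = 8 ^ (2 ^ J) := ⟨_, rfl⟩
  simp only [← hw] at HJ hx ⊢
  have hw8 : 8 ≤ w := by
    rw [hw]
    calc 8 = 8 ^ 1 := by norm_num
      _ ≤ 8 ^ (2 ^ J) := Nat.pow_le_pow_right (by norm_num) Nat.one_le_two_pow
  clear hw
  have hxw : w ≤ x := by
    calc w = w ^ 1 := (pow_one w).symm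
      _ ≤ w ^ (2 * s + 1) := Nat.pow_le_pow_right (by omega) (by omega)
      _ ≤ x := hx
  have hx2 : w ^ s * w ^ s ≤ x := by
    calc w ^ s * w ^ s = w ^ (2 * s) := by rw [← pow_add]; congr 1; ring
      _ ≤ w ^ (2 * s + 1) := Nat.pow_le_pow_right (by omega) (by omega)
      _ ≤ x := hx
  have hxlog : 0 ≤ Real.log (Real.log x) := by
    refine Real.log_nonneg ?_
    rw [Real.le_log_iff_exp_le (by exact_mod_cast (by omega : 0 < x))]
    have h3 : Real.exp 1 ≤ 3 := by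
      have := Real.exp_one_lt_d9
      linarith
    have h8 : (3 : ℝ) ≤ x := by exact_mod_cast (by omega : 3 ≤ x)
    linarith
  set S : Finset ℕ → Finset ℕ := fun T => (Icc 1 x).filter (fun n => (∏ p ∈ T, p) ∣ n ∧
        (∀ l ∈ PS w, l ∣ n → l ∈ T) ∧ Adm R n) with hS
  have hsub : (Icc 1 x).filter (fun n => Adm R n ∧ (∀ l ∈ PS w, ¬ l ∣ n) ∧
        ∃ p : ℕ, p.Prime ∧ w < p ∧ p * p ≤ x ∧ p ∣ n ∧ Fine ρ (8 ^ J) w {p}) ⊆
      (((Icc 5 x).filter Nat.Prime).filter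
        (fun p => p * p ≤ x ∧ Fine ρ (8 ^ J) w {p})).biUnion (fun p => S {p}) := by
    intro n hn
    rw [mem_filter] at hn
    obtain ⟨hnx, hadm, hall, p, hp, hwp, hpx, hpn, hfine⟩ := hn
    rw [mem_biUnion]
    refine ⟨p, ?_, ?_⟩
    · rw [mem_filter, mem_filter, mem_Icc]
      refine ⟨⟨⟨by omega, ?_⟩, hp⟩, hpx, hfine⟩
      calc p = p * 1 := (mul_one p).symm
        _ ≤ p * p := Nat.mul_le_mul_left _ hp.one_le
        _ ≤ x := hpx
    · simp only [hS, mem_filter, prod_singleton]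
      exact ⟨hnx, hpn, fun l hl hln => absurd hln (hall l hl), hadm⟩
  have hterm : ∀ p ∈ ((Icc 5 x).filter Nat.Prime).filter
        (fun p => p * p ≤ x ∧ Fine ρ (8 ^ J) w {p}), (#(S {p}) : ℝ) ≤
        C * x * UB (3 / 2) J * ((1 : ℝ) / p) := by
    intro p hp
    rw [mem_filter, mem_filter, mem_Icc] at hp
    obtain ⟨⟨⟨hp5, _⟩, hpp⟩, hpx, hfine⟩ := hp
    have hle : w ^ s * p ≤ x := by
      by_contra hcon
      have hcon' : x < w ^ s * p := by omega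
      have h1 : x * x < (w ^ s * p) * (w ^ s * p) := Nat.mul_lt_mul'' hcon' hcon'
      have h2 : (w ^ s * p) * (w ^ s * p) = (w ^ s * w ^ s) * (p * p) := by ring
      have h3 : (w ^ s * w ^ s) * (p * p) ≤ x * x := Nat.mul_le_mul hx2 hpx
      omega
    have h1 := HJ {p} x (singleton_nonempty p) (by rw [card_singleton]) (by
      intro q hq
      rw [mem_singleton] at hq
      rw [hq]
      exact ⟨hpp, hp5⟩) hfine (by rw [prod_singleton]; exact hle)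
    calc (#(S {p}) : ℝ) ≤ C * x / (∏ q ∈ ({p} : Finset ℕ), q : ℕ) * UB (3 / 2) J := h1
      _ = C * x * UB (3 / 2) J * ((1 : ℝ) / p) := by rw [prod_singleton]; ring
  calc (#((Icc 1 x).filter (fun n => Adm R n ∧ (∀ l ∈ PS w, ¬ l ∣ n) ∧
        ∃ p : ℕ, p.Prime ∧ w < p ∧ p * p ≤ x ∧ p ∣ n ∧ Fine ρ (8 ^ J) w {p})) : ℝ)
      ≤ (#((((Icc 5 x).filter Nat.Prime).filter
        (fun p => p * p ≤ x ∧ Fine ρ (8 ^ J) w {p})).biUnion (fun p => S {p})) : ℝ) := by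
          exact_mod_cast card_le_card hsub
    _ ≤ ((∑ p ∈ ((Icc 5 x).filter Nat.Prime).filter
        (fun p => p * p ≤ x ∧ Fine ρ (8 ^ J) w {p}), #(S {p}) : ℕ) : ℝ) := by
          exact_mod_cast card_biUnion_le
    _ = ∑ p ∈ ((Icc 5 x).filter Nat.Prime).filter
        (fun p => p * p ≤ x ∧ Fine ρ (8 ^ J) w {p}), (#(S {p}) : ℝ) := by push_cast; rfl
    _ ≤ ∑ p ∈ ((Icc 5 x).filter Nat.Prime).filter
        (fun p => p * p ≤ x ∧ Fine ρ (8 ^ J) w {p}), C * x * UB (3 / 2) J * ((1 : ℝ) / p) :=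
          sum_le_sum hterm
    _ ≤ ∑ p ∈ (Icc 5 x).filter Nat.Prime, C * x * UB (3 / 2) J * ((1 : ℝ) / p) := by
          refine sum_le_sum_of_subset_of_nonneg (filter_subset _ _) fun p _ _ => ?_
          positivity
    _ = C * x * UB (3 / 2) J * ∑ p ∈ (Icc 5 x).filter Nat.Prime, (1 : ℝ) / p := by
          rw [mul_sum]
    _ ≤ C * x * UB (3 / 2) J * (Real.log (Real.log x) + C₁) :=
          mul_le_mul_of_nonneg_left (H₁ x (by omega)) (by positivity)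
    _ = C * x * (Real.log (Real.log x) + C₁) * UB (3 / 2) J := by ring
    _ ≤ (C + C₁) * x * (Real.log (Real.log x) + (C + C₁)) * UB (3 / 2) J := by
          refine mul_le_mul_of_nonneg_right ?_ hUB
          refine mul_le_mul ?_ (by linarith) (by linarith) (by positivity)
          exact mul_le_mul_of_nonneg_right (by linarith) (by positivity)

end Pool.Agent.PPD
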