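import Pool.Agent.PPD.CaseM
import Pool.Agent.PPD.SumT

/-!
# Module PPD/TotM: sum of `CaseM` over `T` and `D`

PROOF. The set is contained in the union over `T ∈ (PS w).powersetCard k` (those with `Fine T`) and the four `D` with `Small D` of the
sets in `case_m`. `card_biUnion_le`, `case_m` (`∏ T ≤ w ^ k`, `s = s₀ + k`), `sum_T`.
-/

set_option autoImplicit false

namespace Pool.Agent.PPD

open Finset Classical Pool.Agent.PPC

theorem total_m {R : ℕ → ℕ → Prop} {ρ : ℕ → ℕ} (hc : Cond2 R ρ) (k : ℕ) :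
    ∃ C : ℝ, 1 ≤ C ∧ ∃ s J₀ : ℕ, ∀ J ≥ J₀, ∀ x : ℕ, (8 ^ (2 ^ J)) ^ s ≤ x →
      (#((Icc 1 x).filter (fun n => Adm R n ∧ ∃ T ⊆ PS (8 ^ (2 ^ J)), #T = k ∧
        (∏ p ∈ T, p) ∣ n ∧ Fine ρ (8 ^ J) (8 ^ (2 ^ J)) T ∧
        ∃ D : ℤ, Small D ∧ Miss D n)) : ℝ) ≤
        C * x * (Real.log (lw J) + C) ^ k * UB (3 / 2 - 1 / 2 ^ k) J := by
  obtain ⟨C₁, hC₁, s₁, J₁, H₁⟩ := case_m hc k
  obtain ⟨C₂, hC₂, H₂⟩ := sum_T
  refine ⟨4 * C₁ + C₂, by linarith, s₁ + k, J₁ + 2, fun J hJ x hx => ?_⟩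
  obtain ⟨hl1, hl0, _, _, _⟩ := scale_real (show 2 ≤ J by omega)
  set w : ℕ := 8 ^ (2 ^ J) with hw
  have hw1 : 1 ≤ w := Nat.one_le_pow _ _ (by norm_num)
  have hUB : 0 ≤ UB (3 / 2 - 1 / 2 ^ k) J := by
    unfold UB
    positivity
  set DS : Finset ℤ := {-1, 2, -2, -3} with hDS
  set TS := ((PS w).powersetCard k).filter (Fine ρ (8 ^ J) w) with hTS
  have hcase : ∀ T ∈ TS, ∀ D ∈ DS,
      (#((Icc 1 x).filter (fun n => (∏ p ∈ T, p) ∣ n ∧ Miss D n ∧ Adm R n)) : ℝ) ≤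
        C₁ * x * UB (3 / 2 - 1 / 2 ^ k) J * (1 / (∏ p ∈ T, p : ℕ)) := by
    intro T hT D hD
    rw [hTS, mem_filter, mem_powersetCard] at hT
    obtain ⟨⟨hT, hTk⟩, hF⟩ := hT
    have hTp : ∀ p ∈ T, p.Prime ∧ 5 ≤ p := by
      intro p hp
      have := hT hp
      unfold PS at this
      rw [mem_filter, mem_Icc] at this
      exact ⟨this.2, this.1.1⟩
    have hprod : (∏ p ∈ T, p) ≤ w ^ k := by
      rw [← hTk, ← prod_const]
      refine prod_le_prod (fun _ _ => Nat.zero_le _) fun p hp => ?_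
      have := hT hp
      unfold PS at this
      rw [mem_filter, mem_Icc] at this
      exact this.1.2
    have hD' : Small D := by
      rw [hDS] at hD
      simp only [mem_insert, mem_singleton] at hD
      exact hD
    have := H₁ J (by omega) T D x hTk hTp hF hD' (by
      calc w ^ s₁ * ∏ p ∈ T, p ≤ w ^ s₁ * w ^ k := Nat.mul_le_mul_left _ hprod
        _ = w ^ (s₁ + k) := (pow_add _ _ _).symm
        _ ≤ x := hx)
    calc _ ≤ _ := this
      _ = _ := by ring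
  have hsumT := H₂ J k (by omega)
  have hTSle : ∑ T ∈ TS, (1 : ℝ) / (∏ p ∈ T, p : ℕ) ≤ (Real.log (lw J) + C₂) ^ k := by
    refine le_trans ?_ hsumT
    exact sum_le_sum_of_subset_of_nonneg (filter_subset _ _) fun _ _ _ => by positivity
  have hDScard : (#DS : ℝ) ≤ 4 := by
    have : #DS ≤ 4 := by
      rw [hDS]
      exact card_le_four
    exact_mod_cast this
  refine le_trans (Nat.cast_le.2 (card_le_card (t := TS.biUnion fun T => DS.biUnion fun D =>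
        (Icc 1 x).filter (fun n => (∏ p ∈ T, p) ∣ n ∧ Miss D n ∧ Adm R n)) ?_)) ?_
  · intro n hn
    simp only [mem_filter] at hn
    obtain ⟨hn1, hadm, T, hT, hTk, hTd, hF, D, hD, hM⟩ := hn
    rw [mem_biUnion]
    refine ⟨T, ?_, ?_⟩
    · rw [hTS, mem_filter, mem_powersetCard]
      exact ⟨⟨hT, hTk⟩, hF⟩
    · rw [mem_biUnion]
      refine ⟨D, ?_, ?_⟩
      · rw [hDS]
        simp only [mem_insert, mem_singleton]
        exact hD
      · rw [mem_filter]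
        exact ⟨hn1, hTd, hM, hadm⟩
  calc (#(TS.biUnion fun T => DS.biUnion fun D =>
        (Icc 1 x).filter (fun n => (∏ p ∈ T, p) ∣ n ∧ Miss D n ∧ Adm R n)) : ℝ)
      ≤ ∑ T ∈ TS, ∑ D ∈ DS,
        (#((Icc 1 x).filter (fun n => (∏ p ∈ T, p) ∣ n ∧ Miss D n ∧ Adm R n)) : ℝ) := by
        have h1 : #(TS.biUnion fun T => DS.biUnion fun D =>
            (Icc 1 x).filter (fun n => (∏ p ∈ T, p) ∣ n ∧ Miss D n ∧ Adm R n)) ≤
            ∑ T ∈ TS, ∑ D ∈ DS,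
              #((Icc 1 x).filter (fun n => (∏ p ∈ T, p) ∣ n ∧ Miss D n ∧ Adm R n)) :=
          card_biUnion_le.trans (sum_le_sum fun T _ => card_biUnion_le)
        exact_mod_cast h1
    _ ≤ ∑ T ∈ TS, ∑ D ∈ DS, C₁ * x * UB (3 / 2 - 1 / 2 ^ k) J * (1 / (∏ p ∈ T, p : ℕ)) :=
        sum_le_sum fun T hT => sum_le_sum fun D hD => hcase T hT D hD
    _ = #DS * (C₁ * x * UB (3 / 2 - 1 / 2 ^ k) J) * ∑ T ∈ TS, (1 : ℝ) / (∏ p ∈ T, p : ℕ) := by
        rw [mul_sum]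
        refine sum_congr rfl fun T _ => ?_
        rw [sum_const, nsmul_eq_mul]
        ring
    _ ≤ 4 * (C₁ * x * UB (3 / 2 - 1 / 2 ^ k) J) * (Real.log (lw J) + C₂) ^ k := by
        have hA : 0 ≤ C₁ * x * UB (3 / 2 - 1 / 2 ^ k) J := by positivity
        apply mul_le_mul (mul_le_mul_of_nonneg_right hDScard hA) hTSle
        · exact sum_nonneg fun _ _ => by positivity
        · positivity
    _ ≤ (4 * C₁ + C₂) * x * (Real.log (lw J) + (4 * C₁ + C₂)) ^ k *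
        UB (3 / 2 - 1 / 2 ^ k) J := by
        have h2 : (Real.log (lw J) + C₂) ^ k ≤ (Real.log (lw J) + (4 * C₁ + C₂)) ^ k :=
          pow_le_pow_left₀ (by linarith) (by linarith) k
        have h3 : 4 * (C₁ * x * UB (3 / 2 - 1 / 2 ^ k) J) ≤
            (4 * C₁ + C₂) * x * UB (3 / 2 - 1 / 2 ^ k) J := by
          have : 0 ≤ C₂ * x * UB (3 / 2 - 1 / 2 ^ k) J := by positivity
          nlinarith
        calc 4 * (C₁ * x * UB (3 / 2 - 1 / 2 ^ k) J) * (Real.log (lw J) + C₂) ^ k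
            ≤ ((4 * C₁ + C₂) * x * UB (3 / 2 - 1 / 2 ^ k) J) *
              (Real.log (lw J) + (4 * C₁ + C₂)) ^ k := by
              apply mul_le_mul h3 h2 (by positivity) (by positivity)
          _ = _ := by ring

end Pool.Agent.PPD
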