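import Pool.Agent.PPD.CaseR
import Pool.Agent.PPD.SumT

/-!
# Module PPD/TotR: sum of `CaseR` over `T` and `r`

PROOF. The set is contained in the union over `T ∈ (PS w).powersetCard k` and the primes `r ∈ [5, Z]` (those with
`Fine T`, `r ∉ T`, `r` not exceptional) of the sets in `case_r`: if `r ∈ T` then `r ∣ n` and `R r n` give `R r 0` (`hc.per`,
`PPC.SFull.per_mod`), against `hc.zero`. `card_biUnion_le`, `case_r` (`∏ T ≤ w ^ k`, so with `s = s₀ + k`: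
`w ^ s₀ * (∏ T * r) ≤ w ^ (s₀ + k) * Z ≤ x`), and the sums `∑_T 1 / ∏ T ≤ (log (lw J) + C) ^ k`, `∑_r 1 / r ≤ log log x + C`
(`r ≤ Z ≤ x`; `sum_T`, `sum_r`).
-/

set_option autoImplicit false

namespace Pool.Agent.PPD

open Finset Classical Pool.Agent.PPC

theorem total_r {R : ℕ → ℕ → Prop} {ρ : ℕ → ℕ} (hc : Cond2 R ρ) (k : ℕ) :
    ∃ C : ℝ, 1 ≤ C ∧ ∃ s J₀ : ℕ, ∀ J ≥ J₀, ∀ x Z : ℕ, 1 ≤ Z → (8 ^ (2 ^ J)) ^ s * Z ≤ x →
      (#((Icc 1 x).filter (fun n => Adm R n ∧ ∃ T ⊆ PS (8 ^ (2 ^ J)), #T = k ∧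
        (∏ p ∈ T, p) ∣ n ∧ Fine ρ (8 ^ J) (8 ^ (2 ^ J)) T ∧
        ∃ r : ℕ, r.Prime ∧ 5 ≤ r ∧ r ≤ Z ∧ ¬ (8 ^ J < r ∧ ExcR (8 ^ J) (8 ^ (2 ^ J)) r) ∧ R r n)) : ℝ) ≤
        C * x * (Real.log (lw J) + C) ^ k * (Real.log (Real.log x) + C) *
          UB (3 / 2 - 1 / 2 ^ k) J := by
  obtain ⟨C₁, hC₁, s₁, J₁, H₁⟩ := case_r hc k
  obtain ⟨C₂, hC₂, H₂⟩ := sum_T
  obtain ⟨C₃, hC₃, H₃⟩ := sum_r
  refine ⟨C₁ + C₂ + C₃, by linarith, s₁ + k + 1, J₁ + 2, fun J hJ x Z hZ hx => ?_⟩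
  obtain ⟨hl1, hl0, _, _, _⟩ := scale_real (show 2 ≤ J by omega)
  set w : ℕ := 8 ^ (2 ^ J) with hw
  have hw8 : 8 ≤ w := by
    calc 8 = 8 ^ 1 := by norm_num
      _ ≤ 8 ^ (2 ^ J) := Nat.pow_le_pow_right (by norm_num) Nat.one_le_two_pow
  have hUB : 0 ≤ UB (3 / 2 - 1 / 2 ^ k) J := by
    unfold UB
    positivity
  have hx' : w ^ (s₁ + k) * (8 * Z) ≤ x := by
    calc w ^ (s₁ + k) * (8 * Z) ≤ w ^ (s₁ + k) * (w * Z) :=
          Nat.mul_le_mul_left _ (Nat.mul_le_mul_right _ hw8)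
      _ = w ^ (s₁ + k + 1) * Z := by rw [pow_succ, mul_assoc]
      _ ≤ x := hx
  have hwpos : 1 ≤ w ^ (s₁ + k) := Nat.one_le_pow _ _ (by omega)
  have h8Z : 8 * Z ≤ x := by
    calc 8 * Z = 1 * (8 * Z) := (one_mul _).symm
      _ ≤ w ^ (s₁ + k) * (8 * Z) := Nat.mul_le_mul_right _ hwpos
      _ ≤ x := hx'
  have hZx : Z ≤ x := by omega
  have hx5 : 5 ≤ x := by omega
  set RS := ((Icc 5 Z).filter Nat.Prime).filter (fun r => ¬ (8 ^ J < r ∧ ExcR (8 ^ J) w r)) with hRS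
  set TS := ((PS w).powersetCard k).filter (Fine ρ (8 ^ J) w) with hTS
  set F : Finset ℕ → ℕ → Finset ℕ := fun T r =>
    (Icc 1 x).filter (fun n => (∏ p ∈ T, p) ∣ n ∧ R r n ∧ Adm R n) with hFdef
  have hTp : ∀ T ∈ TS, ∀ p ∈ T, p.Prime ∧ 5 ≤ p := by
    intro T hT p hp
    rw [hTS, mem_filter, mem_powersetCard] at hT
    have := hT.1.1 hp
    unfold PS at this
    rw [mem_filter, mem_Icc] at this
    exact ⟨this.2, this.1.1⟩
  have hcase : ∀ T ∈ TS, ∀ r ∈ RS.filter (fun r => r ∉ T),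
      (#(F T r) : ℝ) ≤
        C₁ * x * UB (3 / 2 - 1 / 2 ^ k) J * ((1 / (∏ p ∈ T, p : ℕ)) * (1 / r)) := by
    intro T hT r hr
    have hTp' := hTp T hT
    rw [hTS, mem_filter, mem_powersetCard] at hT
    obtain ⟨⟨hT, hTk⟩, hF⟩ := hT
    have hprod : (∏ p ∈ T, p) ≤ w ^ k := by
      rw [← hTk, ← prod_const]
      refine prod_le_prod (fun _ _ => Nat.zero_le _) fun p hp => ?_
      have := hT hp
      unfold PS at this
      rw [mem_filter, mem_Icc] at this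
      exact this.1.2
    rw [mem_filter, hRS, mem_filter, mem_filter, mem_Icc] at hr
    obtain ⟨⟨⟨⟨hr5, hrZ⟩, hrp⟩, hrx⟩, hrT⟩ := hr
    have := H₁ J (by omega) T r x hTk hTp' hF hrp hr5 hrT hrx (by
      calc w ^ s₁ * ((∏ p ∈ T, p) * r) ≤ w ^ s₁ * (w ^ k * Z) :=
            Nat.mul_le_mul_left _ (Nat.mul_le_mul hprod hrZ)
        _ = w ^ (s₁ + k) * Z := by rw [pow_add]; ring
        _ ≤ w ^ (s₁ + k) * (8 * Z) := Nat.mul_le_mul_left _ (by omega)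
        _ ≤ x := hx')
    have hprodpos : (0 : ℝ) < (∏ p ∈ T, p : ℕ) := by
      exact_mod_cast prod_pos fun p hp => (hTp' p hp).1.pos
    have hrpos : (0 : ℝ) < r := by exact_mod_cast hrp.pos
    calc (#(F T r) : ℝ) ≤ _ := this
      _ = _ := by
        field_simp
  have hsumT := H₂ J k (by omega)
  have hsumR := H₃ x hx5
  have hTSle : ∑ T ∈ TS, (1 : ℝ) / (∏ p ∈ T, p : ℕ) ≤ (Real.log (lw J) + C₂) ^ k := by
    refine le_trans ?_ hsumT
    exact sum_le_sum_of_subset_of_nonneg (filter_subset _ _) fun _ _ _ => by positivity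
  have hRSle : ∀ T : Finset ℕ, ∑ r ∈ RS.filter (fun r => r ∉ T), (1 : ℝ) / r ≤
      Real.log (Real.log x) + C₃ := by
    intro T
    refine le_trans ?_ hsumR
    refine sum_le_sum_of_subset_of_nonneg ?_ fun _ _ _ => by positivity
    intro r hr
    rw [mem_filter, hRS, mem_filter, mem_filter, mem_Icc] at hr
    rw [mem_filter, mem_Icc]
    exact ⟨⟨hr.1.1.1.1, hr.1.1.1.2.trans hZx⟩, hr.1.1.2⟩
  have hR0 : 0 ≤ Real.log (Real.log x) + C₃ :=
    le_trans (sum_nonneg fun _ _ => by positivity) hsumR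
  refine le_trans (Nat.cast_le.2 (card_le_card
    (t := TS.biUnion fun T => (RS.filter (fun r => r ∉ T)).biUnion fun r => F T r) ?_)) ?_
  · intro n hn
    simp only [mem_filter] at hn
    obtain ⟨hn1, hadm, T, hT, hTk, hTd, hF, r, hrp, hr5, hrZ, hrx, hrn⟩ := hn
    have hTmem : T ∈ TS := by
      rw [hTS, mem_filter, mem_powersetCard]
      exact ⟨⟨hT, hTk⟩, hF⟩
    rw [mem_biUnion]
    refine ⟨T, hTmem, ?_⟩
    rw [mem_biUnion]
    refine ⟨r, ?_, ?_⟩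
    · rw [mem_filter, hRS, mem_filter, mem_filter, mem_Icc]
      refine ⟨⟨⟨⟨hr5, hrZ⟩, hrp⟩, hrx⟩, ?_⟩
      intro hrT
      have h1 : r ∣ n := (dvd_prod_of_mem (fun p => p) hrT).trans hTd
      have h2 : R r (n % r) := (SFull.per_mod hc.toCond hrp hr5 n).2 hrn
      rw [Nat.mod_eq_zero_of_dvd h1] at h2
      exact hc.zero r hrp hr5 h2
    · rw [hFdef]
      simp only [mem_filter]
      exact ⟨hn1, hTd, hrn, hadm⟩
  calc (#(TS.biUnion fun T => (RS.filter (fun r => r ∉ T)).biUnion fun r => F T r) : ℝ)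
      ≤ ∑ T ∈ TS, ∑ r ∈ RS.filter (fun r => r ∉ T), (#(F T r) : ℝ) := by
        have h1 : #(TS.biUnion fun T => (RS.filter (fun r => r ∉ T)).biUnion fun r => F T r) ≤
            ∑ T ∈ TS, ∑ r ∈ RS.filter (fun r => r ∉ T), #(F T r) :=
          card_biUnion_le.trans (sum_le_sum fun T _ => card_biUnion_le)
        exact_mod_cast h1
    _ ≤ ∑ T ∈ TS, ∑ r ∈ RS.filter (fun r => r ∉ T),
          C₁ * x * UB (3 / 2 - 1 / 2 ^ k) J * ((1 / (∏ p ∈ T, p : ℕ)) * (1 / r)) :=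
        sum_le_sum fun T hT => sum_le_sum fun r hr => hcase T hT r hr
    _ = ∑ T ∈ TS, (C₁ * x * UB (3 / 2 - 1 / 2 ^ k) J * (1 / (∏ p ∈ T, p : ℕ))) *
          ∑ r ∈ RS.filter (fun r => r ∉ T), (1 : ℝ) / r := by
        refine sum_congr rfl fun T _ => ?_
        rw [mul_sum]
        refine sum_congr rfl fun r _ => ?_
        ring
    _ ≤ ∑ T ∈ TS, (C₁ * x * UB (3 / 2 - 1 / 2 ^ k) J * (1 / (∏ p ∈ T, p : ℕ))) *
          (Real.log (Real.log x) + C₃) := by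
        refine sum_le_sum fun T _ => ?_
        exact mul_le_mul_of_nonneg_left (hRSle T) (by positivity)
    _ = (C₁ * x * UB (3 / 2 - 1 / 2 ^ k) J * (Real.log (Real.log x) + C₃)) *
          ∑ T ∈ TS, (1 : ℝ) / (∏ p ∈ T, p : ℕ) := by
        rw [mul_sum]
        refine sum_congr rfl fun T _ => ?_
        ring
    _ ≤ (C₁ * x * UB (3 / 2 - 1 / 2 ^ k) J * (Real.log (Real.log x) + C₃)) *
          (Real.log (lw J) + C₂) ^ k :=
        mul_le_mul_of_nonneg_left hTSle (by positivity)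
    _ ≤ ((C₁ + C₂ + C₃) * x * UB (3 / 2 - 1 / 2 ^ k) J * (Real.log (Real.log x) +
          (C₁ + C₂ + C₃))) * (Real.log (lw J) + (C₁ + C₂ + C₃)) ^ k := by
        have h2 : (Real.log (lw J) + C₂) ^ k ≤ (Real.log (lw J) + (C₁ + C₂ + C₃)) ^ k :=
          pow_le_pow_left₀ (by linarith) (by linarith) k
        have h3 : C₁ * x * UB (3 / 2 - 1 / 2 ^ k) J ≤
            (C₁ + C₂ + C₃) * x * UB (3 / 2 - 1 / 2 ^ k) J := by
          have : 0 ≤ x * UB (3 / 2 - 1 / 2 ^ k) J := by positivity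
          nlinarith
        have h4 : Real.log (Real.log x) + C₃ ≤ Real.log (Real.log x) + (C₁ + C₂ + C₃) := by
          linarith
        have h5 : 0 ≤ Real.log (Real.log x) + (C₁ + C₂ + C₃) := by linarith
        apply mul_le_mul _ h2 (by positivity) (by positivity)
        exact mul_le_mul h3 h4 hR0 (by positivity)
    _ = (C₁ + C₂ + C₃) * x * (Real.log (lw J) + (C₁ + C₂ + C₃)) ^ k *
          (Real.log (Real.log x) + (C₁ + C₂ + C₃)) * UB (3 / 2 - 1 / 2 ^ k) J := by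
        ring

end Pool.Agent.PPD
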