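import Pool.Agent.PPD.Decomp
import Pool.Agent.PPD.TotR
import Pool.Agent.PPD.TotM
import Pool.Agent.PPD.TotFew
import Pool.Agent.PPD.Case23
import Pool.Agent.PPD.ExTR

/-!
# Module PPD/CountG: the count at one scale

PROOF. `s` = the maximum of the `s` in `total_r, total_m, total_few, total_p, case_23` and `2`, `J₀` the maximum of the `J₀` and `2`. By
`decomp` (`ρ` from `hc`) the set is contained in `{1}` and the seven sets of `ex_t`, `ex_r`, `total_r`, `total_m`, `total_few`, `total_p`, `case_23`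
(`w ^ s ≤ w ^ s * Z ≤ x`, `Z ≤ x`). Put `ℓ = log (lw J) ≥ 0`, `L = lw J ≥ 1`, `θ = 3/2 - 1/2^k`. `log log x ≤ ℓ + log A` (`log x ≤ A L`, `log x ≥ L ≥ 1`).
`UB (3/2) J ≤ UB θ J`. So with a constant `C ≥ 1` larger than everything: the five last sets have at most `C x (ℓ + C)^k (ℓ + C) (ℓ + 1)² / L^θ ≤
C x (ℓ + C)^(k+3) / L^θ` elements each. `(log x + 1) / Y ≤ (A + 1) L * 10 / L³ = 10 (A + 1) / L² ≤ 10 (A + 1) / L^θ` (`scale_real`: `L³ ≤ 10 Y`; `θ ≤ 2`), so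
the two exceptional sets are also small. `1 ≤ x / L² ≤ x / L^θ`, since `x ≥ w² = exp (2 L) ≥ L²`.
-/

set_option autoImplicit false

namespace Pool.Agent.PPD

open Finset Classical Pool.Agent.PPC

private lemma to_set {x : ℕ} {P : ℕ → Prop} {inst : DecidablePred P} {B : ℝ}
    (h : (#(@filter ℕ P inst (Icc 1 x)) : ℝ) ≤ B) :
    ∃ S : Finset ℕ, (∀ n, n ∈ Icc 1 x → P n → n ∈ S) ∧ (#S : ℝ) ≤ B :=
  ⟨_, fun _ hn hP => mem_filter.2 ⟨hn, hP⟩, h⟩

private lemma piece {c M x P Q D : ℝ} (hc0 : 0 ≤ c) (hc : c ≤ M) (hx : 0 ≤ x) (hP0 : 0 ≤ P)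
    (hPQ : P ≤ Q) (hD : 0 < D) : c * x * P / D ≤ M * x * Q / D := by
  refine div_le_div_of_nonneg_right ?_ hD.le
  refine mul_le_mul (mul_le_mul_of_nonneg_right hc hx) hPQ hP0 ?_
  exact mul_nonneg (hc0.trans hc) hx

private lemma card8 {S S₀ S₁ S₂ S₃ S₄ S₅ S₆ S₇ : Finset ℕ} {B : ℝ}
    (h : ∀ n ∈ S, n ∈ S₀ ∨ n ∈ S₁ ∨ n ∈ S₂ ∨ n ∈ S₃ ∨ n ∈ S₄ ∨ n ∈ S₅ ∨ n ∈ S₆ ∨ n ∈ S₇)
    (h₀ : (#S₀ : ℝ) ≤ B) (h₁ : (#S₁ : ℝ) ≤ B) (h₂ : (#S₂ : ℝ) ≤ B) (h₃ : (#S₃ : ℝ) ≤ B)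
    (h₄ : (#S₄ : ℝ) ≤ B) (h₅ : (#S₅ : ℝ) ≤ B) (h₆ : (#S₆ : ℝ) ≤ B) (h₇ : (#S₇ : ℝ) ≤ B) :
    (#S : ℝ) ≤ 8 * B := by
  have hsub : S ⊆ S₀ ∪ (S₁ ∪ (S₂ ∪ (S₃ ∪ (S₄ ∪ (S₅ ∪ (S₆ ∪ S₇)))))) := by
    intro n hn
    simp only [mem_union]
    exact h n hn
  have e₀ := card_le_card hsub
  have e₁ := card_union_le S₀ (S₁ ∪ (S₂ ∪ (S₃ ∪ (S₄ ∪ (S₅ ∪ (S₆ ∪ S₇))))))
  have e₂ := card_union_le S₁ (S₂ ∪ (S₃ ∪ (S₄ ∪ (S₅ ∪ (S₆ ∪ S₇)))))
  have e₃ := card_union_le S₂ (S₃ ∪ (S₄ ∪ (S₅ ∪ (S₆ ∪ S₇))))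
  have e₄ := card_union_le S₃ (S₄ ∪ (S₅ ∪ (S₆ ∪ S₇)))
  have e₅ := card_union_le S₄ (S₅ ∪ (S₆ ∪ S₇))
  have e₆ := card_union_le S₅ (S₆ ∪ S₇)
  have e₇ := card_union_le S₆ S₇
  have e₈ : #S ≤ #S₀ + #S₁ + #S₂ + #S₃ + #S₄ + #S₅ + #S₆ + #S₇ := by omega
  have e₉ : (#S : ℝ) ≤ #S₀ + #S₁ + #S₂ + #S₃ + #S₄ + #S₅ + #S₆ + #S₇ := by exact_mod_cast e₈
  linarith

theorem count_G {R : ℕ → ℕ → Prop} {ρ : ℕ → ℕ} (hc : Cond2 R ρ) (k : ℕ) (hk : 1 ≤ k) :
    ∃ s J₀ : ℕ, ∀ A : ℝ, 1 ≤ A → ∃ C : ℝ, 1 ≤ C ∧ ∀ J ≥ J₀, ∀ x Z : ℕ, 1 ≤ Z →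
      (8 ^ (2 ^ J)) ^ s * Z ≤ x → Real.log x ≤ A * lw J →
      (#((Icc 1 x).filter (fun n => Adm R n ∧ ¬ IsPrimePow n ∧ Wit R Z n)) : ℝ) ≤
        C * x * (Real.log (lw J) + C) ^ (k + 3) / (lw J) ^ (3 / 2 - 1 / 2 ^ k : ℝ) := by
  obtain ⟨C₁, hC₁, H₁⟩ := ex_t hc k
  have H₂ := ex_r hc
  obtain ⟨C₃, hC₃, s₃, J₃, H₃⟩ := total_r hc k
  obtain ⟨C₄, hC₄, s₄, J₄, H₄⟩ := total_m hc k
  obtain ⟨C₅, hC₅, s₅, J₅, H₅⟩ := total_few hc k
  obtain ⟨C₆, hC₆, s₆, J₆, H₆⟩ := total_p hc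
  obtain ⟨C₇, hC₇, s₇, J₇, H₇⟩ := case_23 hc
  refine ⟨s₃ + s₄ + s₅ + s₆ + s₇ + 2, J₃ + J₄ + J₅ + J₆ + J₇ + 2, fun A hA => ?_⟩
  set M : ℝ := C₁ + C₃ + C₄ + C₅ + C₆ + C₇ + 160 + 20 * A with hM
  refine ⟨8 * M, by linarith, fun J hJ x Z hZ hx hlx => ?_⟩
  obtain ⟨hL1, hl0, hY1, hYl, hLY⟩ := scale_real (show 2 ≤ J by omega)
  have hY14 := (scale_nat (show 2 ≤ J by omega)).1
  have hw8 : 8 ≤ 8 ^ (2 ^ J) := by
    calc 8 = 8 ^ 1 := by norm_num
      _ ≤ 8 ^ (2 ^ J) := Nat.pow_le_pow_right (by norm_num) Nat.one_le_two_pow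
  have hpw : ∀ t, t ≤ s₃ + s₄ + s₅ + s₆ + s₇ + 2 → (8 ^ (2 ^ J)) ^ t * Z ≤ x := fun t ht =>
    (Nat.mul_le_mul_right _ (Nat.pow_le_pow_right (by omega) ht)).trans hx
  have hpw' : ∀ t, t ≤ s₃ + s₄ + s₅ + s₆ + s₇ + 2 → (8 ^ (2 ^ J)) ^ t ≤ x := fun t ht =>
    (Nat.le_mul_of_pos_right _ hZ).trans (hpw t ht)
  have hx2 : (8 ^ (2 ^ J)) ^ 2 ≤ x := hpw' 2 (by omega)
  have hZx : Z ≤ x := by
    have := hpw 0 (by omega)
    simpa using this
  have hx1 : 1 ≤ x := hZ.trans hZx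
  have hx64 : 64 ≤ x := by
    calc 64 = 8 ^ 2 := by norm_num
      _ ≤ (8 ^ (2 ^ J)) ^ 2 := Nat.pow_le_pow_left hw8 2
      _ ≤ x := hx2
  have hxpos : (0 : ℝ) < x := by exact_mod_cast hx1
  set L : ℝ := lw J with hL
  set ℓ : ℝ := Real.log L with hℓ
  set θ : ℝ := 3 / 2 - 1 / 2 ^ k with hθ
  have hk2 : (0 : ℝ) < 1 / 2 ^ k := by positivity
  have hk3 : (1 / 2 ^ k : ℝ) ≤ 1 := by
    rw [div_le_one (by positivity)]
    exact one_le_pow₀ (by norm_num)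
  have hθ0 : 0 ≤ θ := by rw [hθ]; linarith
  have hθ2 : θ ≤ 3 / 2 := by rw [hθ]; linarith
  have hLpos : 0 < L := by linarith
  have hD : 0 < L ^ θ := Real.rpow_pos_of_pos hLpos _
  have hD2 : L ^ θ ≤ L ^ 2 := by
    calc L ^ θ ≤ L ^ (2 : ℝ) := Real.rpow_le_rpow_of_exponent_le hL1 (by linarith)
      _ = L ^ 2 := by norm_num
  have hM1 : 1 ≤ M := by rw [hM]; linarith
  have g₁ : C₁ ≤ M := by rw [hM]; linarith
  have g₂ : (160 : ℝ) ≤ M := by rw [hM]; linarith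
  have g₃ : A + C₃ ≤ M := by rw [hM]; linarith
  have g₄ : C₄ ≤ M := by rw [hM]; linarith
  have g₅ : C₅ ≤ M := by rw [hM]; linarith
  have g₆ : A + C₆ ≤ M := by rw [hM]; linarith
  have g₇ : C₇ ≤ M := by rw [hM]; linarith
  have g₈ : 20 * A ≤ M := by rw [hM]; linarith
  clear_value M
  have hlogx : Real.log (Real.log x) ≤ ℓ + A := by
    have h1 : 1 ≤ Real.log x := by
      have h2 : Real.exp 1 ≤ x := by
        have := Real.exp_one_lt_d9
        have h3 : (64 : ℝ) ≤ x := by exact_mod_cast hx64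
        linarith
      rwa [Real.le_log_iff_exp_le hxpos]
    calc Real.log (Real.log x) ≤ Real.log (A * L) := Real.log_le_log (by linarith) hlx
      _ = Real.log A + ℓ := Real.log_mul (by linarith) hLpos.ne'
      _ ≤ ℓ + A := by
        have := Real.log_le_sub_one_of_pos (show 0 < A by linarith)
        linarith
  set T : ℝ := ℓ + M with hT
  have hT1 : 1 ≤ T := by rw [hT]; linarith
  have hTpow : ∀ a b : ℕ, a ≤ b → T ^ a ≤ T ^ b := fun a b h => pow_le_pow_right₀ hT1 h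
  -- the exceptional factor
  have hex : (Real.log x + 1) / ((8 ^ J : ℕ) : ℝ) ≤ 20 * A / L ^ θ := by
    have hYpos : (0 : ℝ) < ((8 ^ J : ℕ) : ℝ) := by exact_mod_cast (by omega : 0 < 8 ^ J)
    rw [div_le_div_iff₀ hYpos hD]
    have h0 : 1 ≤ A * L := one_le_mul_of_one_le_of_one_le hA hL1
    have h1 : Real.log x + 1 ≤ 2 * A * L := by linarith
    have h2 : (Real.log x + 1) * L ^ θ ≤ (2 * A * L) * L ^ 2 :=
      mul_le_mul h1 hD2 hD.le (by positivity)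
    calc (Real.log x + 1) * L ^ θ ≤ (2 * A * L) * L ^ 2 := h2
      _ = 2 * A * L ^ 3 := by ring
      _ ≤ 2 * A * (10 * ((8 ^ J : ℕ) : ℝ)) := mul_le_mul_of_nonneg_left hLY (by positivity)
      _ = 20 * A * ((8 ^ J : ℕ) : ℝ) := by ring
  have hUB : UB θ J ≤ T ^ 2 / L ^ θ := by
    unfold UB
    refine div_le_div_of_nonneg_right ?_ hD.le
    exact pow_le_pow_left₀ (by linarith) (by rw [hT]; linarith) 2
  have hUB0 : 0 ≤ UB θ J := by
    unfold UB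
    positivity
  have hUB' : UB (3 / 2) J ≤ T ^ 2 / L ^ θ := by
    refine le_trans ?_ hUB
    unfold UB
    refine div_le_div_of_nonneg_left (by positivity) hD ?_
    exact Real.rpow_le_rpow_of_exponent_le hL1 hθ2
  have hUB0' : 0 ≤ UB (3 / 2) J := by
    unfold UB
    positivity
  set B : ℝ := M * x * T ^ (k + 3) / L ^ θ with hB
  clear_value T
  obtain ⟨S₁, m₁, b₁⟩ := to_set (H₁ J (by omega) x hx1)
  obtain ⟨S₂, m₂, b₂⟩ := to_set (H₂ J (by omega) x hx1)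
  obtain ⟨S₃, m₃, b₃⟩ := to_set
    (H₃ J (by omega) x Z hZ (hpw _ (by omega)))
  obtain ⟨S₄, m₄, b₄⟩ := to_set (H₄ J (by omega) x (hpw' _ (by omega)))
  obtain ⟨S₅, m₅, b₅⟩ := to_set (H₅ J (by omega) x (hpw' _ (by omega)))
  obtain ⟨S₆, m₆, b₆⟩ := to_set (H₆ J (by omega) x (hpw' _ (by omega)))
  obtain ⟨S₇, m₇, b₇⟩ := to_set (H₇ J (by omega) x (hpw' _ (by omega)))
  have c₁ : (#S₁ : ℝ) ≤ B := by
    refine b₁.trans ?_
    calc C₁ * x * (ℓ + C₁) ^ k * ((Real.log x + 1) / ((8 ^ J : ℕ) : ℝ))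
        ≤ C₁ * x * (ℓ + C₁) ^ k * (20 * A / L ^ θ) :=
          mul_le_mul_of_nonneg_left hex (by positivity)
      _ = C₁ * x * ((ℓ + C₁) ^ k * (20 * A)) / L ^ θ := by ring
      _ ≤ B := by
          refine piece (by linarith) (by linarith) hxpos.le (by positivity) ?_ hD
          calc (ℓ + C₁) ^ k * (20 * A) ≤ T ^ k * T := by
                refine mul_le_mul (pow_le_pow_left₀ (by linarith) (by rw [hT]; linarith) k)
                  (by rw [hT]; linarith) (by positivity) (by positivity)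
            _ = T ^ (k + 1) := (pow_succ _ _).symm
            _ ≤ T ^ (k + 3) := hTpow _ _ (by omega)
  have c₂ : (#S₂ : ℝ) ≤ B := by
    refine b₂.trans ?_
    calc 160 * x * ((Real.log x + 1) / ((8 ^ J : ℕ) : ℝ))
        ≤ 160 * x * (20 * A / L ^ θ) :=
          mul_le_mul_of_nonneg_left hex (by positivity)
      _ = 160 * x * (20 * A) / L ^ θ := by ring
      _ ≤ B := by
          refine piece (by norm_num) (by linarith) hxpos.le (by positivity) ?_ hD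
          calc 20 * A ≤ T ^ 1 := by rw [pow_one, hT]; linarith
            _ ≤ T ^ (k + 3) := hTpow _ _ (by omega)
  have c₃ : (#S₃ : ℝ) ≤ B := by
    refine b₃.trans ?_
    by_cases hneg : 0 ≤ Real.log (Real.log x) + C₃
    · calc C₃ * x * (ℓ + C₃) ^ k * (Real.log (Real.log x) + C₃) * UB θ J
          ≤ C₃ * x * (ℓ + C₃) ^ k * (Real.log (Real.log x) + C₃) * (T ^ 2 / L ^ θ) :=
            mul_le_mul_of_nonneg_left hUB (by positivity)
        _ = C₃ * x * ((ℓ + C₃) ^ k * (Real.log (Real.log x) + C₃) * T ^ 2) / L ^ θ := by ring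
        _ ≤ B := by
            refine piece (by linarith) (by linarith) hxpos.le (by positivity) ?_ hD
            calc (ℓ + C₃) ^ k * (Real.log (Real.log x) + C₃) * T ^ 2 ≤ T ^ k * T * T ^ 2 := by
                  refine mul_le_mul_of_nonneg_right ?_ (by positivity)
                  refine mul_le_mul (pow_le_pow_left₀ (by linarith) (by rw [hT]; linarith) k)
                    (by rw [hT]; linarith) hneg (by positivity)
              _ = T ^ (k + 3) := by ring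
    · refine le_trans ?_ (show (0 : ℝ) ≤ B by positivity)
      have h1 : 0 ≤ C₃ * x * (ℓ + C₃) ^ k := by positivity
      have h2 : C₃ * x * (ℓ + C₃) ^ k * (Real.log (Real.log x) + C₃) ≤ 0 :=
        mul_nonpos_of_nonneg_of_nonpos h1 (by linarith)
      exact mul_nonpos_of_nonpos_of_nonneg h2 hUB0
  have c₄ : (#S₄ : ℝ) ≤ B := by
    refine b₄.trans ?_
    calc C₄ * x * (ℓ + C₄) ^ k * UB θ J
        ≤ C₄ * x * (ℓ + C₄) ^ k * (T ^ 2 / L ^ θ) :=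
          mul_le_mul_of_nonneg_left hUB (by positivity)
      _ = C₄ * x * ((ℓ + C₄) ^ k * T ^ 2) / L ^ θ := by ring
      _ ≤ B := by
          refine piece (by linarith) (by linarith) hxpos.le (by positivity) ?_ hD
          calc (ℓ + C₄) ^ k * T ^ 2 ≤ T ^ k * T ^ 2 := by
                refine mul_le_mul_of_nonneg_right ?_ (by positivity)
                exact pow_le_pow_left₀ (by linarith) (by rw [hT]; linarith) k
            _ = T ^ (k + 2) := (pow_add _ _ _).symm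
            _ ≤ T ^ (k + 3) := hTpow _ _ (by omega)
  have c₅ : (#S₅ : ℝ) ≤ B := by
    refine b₅.trans ?_
    calc C₅ * x * (ℓ + C₅) ^ k * UB (3 / 2) J
        ≤ C₅ * x * (ℓ + C₅) ^ k * (T ^ 2 / L ^ θ) :=
          mul_le_mul_of_nonneg_left hUB' (by positivity)
      _ = C₅ * x * ((ℓ + C₅) ^ k * T ^ 2) / L ^ θ := by ring
      _ ≤ B := by
          refine piece (by linarith) (by linarith) hxpos.le (by positivity) ?_ hD
          calc (ℓ + C₅) ^ k * T ^ 2 ≤ T ^ k * T ^ 2 := by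
                refine mul_le_mul_of_nonneg_right ?_ (by positivity)
                exact pow_le_pow_left₀ (by linarith) (by rw [hT]; linarith) k
            _ = T ^ (k + 2) := (pow_add _ _ _).symm
            _ ≤ T ^ (k + 3) := hTpow _ _ (by omega)
  have c₆ : (#S₆ : ℝ) ≤ B := by
    refine b₆.trans ?_
    by_cases hneg : 0 ≤ Real.log (Real.log x) + C₆
    · calc C₆ * x * (Real.log (Real.log x) + C₆) * UB (3 / 2) J
          ≤ C₆ * x * (Real.log (Real.log x) + C₆) * (T ^ 2 / L ^ θ) :=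
            mul_le_mul_of_nonneg_left hUB' (by positivity)
        _ = C₆ * x * ((Real.log (Real.log x) + C₆) * T ^ 2) / L ^ θ := by ring
        _ ≤ B := by
            refine piece (by linarith) (by linarith) hxpos.le (by positivity) ?_ hD
            calc (Real.log (Real.log x) + C₆) * T ^ 2 ≤ T * T ^ 2 := by
                  refine mul_le_mul_of_nonneg_right ?_ (by positivity)
                  rw [hT]; linarith
              _ = T ^ 3 := by ring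
              _ ≤ T ^ (k + 3) := hTpow _ _ (by omega)
    · refine le_trans ?_ (show (0 : ℝ) ≤ B by positivity)
      have h1 : 0 ≤ C₆ * (x : ℝ) := by positivity
      have h2 : C₆ * x * (Real.log (Real.log x) + C₆) ≤ 0 :=
        mul_nonpos_of_nonneg_of_nonpos h1 (by linarith)
      exact mul_nonpos_of_nonpos_of_nonneg h2 hUB0'
  have c₇ : (#S₇ : ℝ) ≤ B := by
    refine b₇.trans ?_
    calc C₇ * x * UB (3 / 2) J ≤ C₇ * x * (T ^ 2 / L ^ θ) :=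
          mul_le_mul_of_nonneg_left hUB' (by positivity)
      _ = C₇ * x * T ^ 2 / L ^ θ := by ring
      _ ≤ B := by
          refine piece (by linarith) (by linarith) hxpos.le (by positivity) ?_ hD
          exact hTpow _ _ (by omega)
  have c₈ : (1 : ℝ) ≤ B := by
    rw [hB, le_div_iff₀ hD, one_mul]
    have h1 : L ≤ ((8 ^ (2 ^ J) : ℕ) : ℝ) := by
      rw [hL]
      unfold lw
      have := Real.log_le_sub_one_of_pos
        (show (0 : ℝ) < ((8 ^ (2 ^ J) : ℕ) : ℝ) by exact_mod_cast (by omega : 0 < 8 ^ (2 ^ J)))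
      linarith
    have h2 : L ^ 2 ≤ x := by
      calc L ^ 2 ≤ ((8 ^ (2 ^ J) : ℕ) : ℝ) ^ 2 := pow_le_pow_left₀ hLpos.le h1 2
        _ ≤ x := by exact_mod_cast hx2
    have h3 : (1 : ℝ) ≤ T ^ (k + 3) := one_le_pow₀ hT1
    calc L ^ θ ≤ L ^ 2 := hD2
      _ ≤ x := h2
      _ ≤ M * x := le_mul_of_one_le_left hxpos.le hM1
      _ ≤ M * x * T ^ (k + 3) := le_mul_of_one_le_right (by positivity) h3
  have hfin : 8 * B ≤ 8 * M * x * (ℓ + 8 * M) ^ (k + 3) / L ^ θ := by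
    calc 8 * B = 8 * M * x * T ^ (k + 3) / L ^ θ := by rw [hB]; ring
      _ ≤ 8 * M * x * (ℓ + 8 * M) ^ (k + 3) / L ^ θ := by
        refine div_le_div_of_nonneg_right ?_ hD.le
        refine mul_le_mul_of_nonneg_left ?_ (by positivity)
        exact pow_le_pow_left₀ (by linarith) (by rw [hT]; linarith) _
  refine le_trans (card8 (S₀ := {1}) (S₁ := S₁) (S₂ := S₂) (S₃ := S₃) (S₄ := S₄) (S₅ := S₅)
    (S₆ := S₆) (S₇ := S₇) ?_ (by rw [card_singleton]; exact_mod_cast c₈) c₁ c₂ c₃ c₄ c₅ c₆ c₇) hfin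
  intro n hn
  simp only [mem_filter] at hn
  obtain ⟨hn1, hadm, hpp, hwit⟩ := hn
  by_cases hne : n = 1
  · exact Or.inl (mem_singleton.2 hne)
  · right
    rcases decomp hk (show 2 ≤ J by omega) hZx hn1 hne hadm hpp hwit with
      h | h | h | h | h | h | h
    · exact Or.inl (m₁ n hn1 h)
    · exact Or.inr (Or.inl (m₂ n hn1 h))
    · exact Or.inr (Or.inr (Or.inl (m₃ n hn1 h)))
    · exact Or.inr (Or.inr (Or.inr (Or.inl (m₄ n hn1 h))))
    · exact Or.inr (Or.inr (Or.inr (Or.inr (Or.inl (m₅ n hn1 h)))))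
    · exact Or.inr (Or.inr (Or.inr (Or.inr (Or.inr (Or.inl (m₆ n hn1 h))))))
    · exact Or.inr (Or.inr (Or.inr (Or.inr (Or.inr (Or.inr (m₇ n hn1 h))))))

end Pool.Agent.PPD
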