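import Pool.Agent.PPD.Defs
import Pool.Agent.PPC.SFull

/-!
# Module PPD/CountGen: the sieve in an arithmetic progression

PROOF. Follow Pool/Agent/PPC/SFull.lean (use its lemmas `PPC.SFull.per_mul`, `per_mod`, `card_mul`, `card_dvd`, `lay_mass'`).
Let `w = 8 ^ (2 ^ J)`, `c' = c % r`, `D = {l prime, 5 ≤ l ≤ w, l ∉ E}`,
`bad l t := (Fd l ∧ l ∣ b (c' + r t)) ∨ (Bd l ∧ R l (b (c' + r t)))`,
`ω l := (if Fd l then 1 else 0) + (if Bd l then ρ l else 0) ≤ 3 < l`.
`Good bad ω D`: for `l ∈ D`, `l` is coprime to `b r`, so `t ↦ b (c' + r t)` permutes the residues modulo `l`; the number of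
`t` with `l ∣ b (c' + r t)` is 1, the number of `t` with `R l (b (c' + r t))` is `ρ l` (`hc.per`, `hc.card`), and the two conditions
exclude each other (`R l n` with `l ∣ n` gives `R l 0`, against `hc.zero`).
`Pool.Agent.H14Trans.fundamental 3 16` with `y₀ = 8` gives `s₁, J₀`; take `s = s₁`. If `n ∈ CS ..` then `n = b m`,
`m = c' + r t`, `t = m / r ≤ x / (b r)`, and `t` satisfies `Sift bad D`; `n ↦ t` is injective. With `N = x / (b r) + 1 ≥ w ^ s₁`:
`#CS ≤ 2 N ∏_{l ∈ D} (1 - ω l / l) ≤ (4 x / (b r)) exp (-∑_{l ∈ D} ω l / l)`, and `∑_{l ∈ D} ω l / l ≥ FF + BB - ∑_{l ∈ E, l ≥ 5} 3 / l ≥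
FF + BB - 3 k / 5`. So `C = 4 exp (3 k / 5)`.
-/

set_option autoImplicit false

namespace Pool.Agent.PPD

open Finset Classical Pool.Agent.PPC Pool.Agent.H14Trans

namespace CountGen

lemma card_affine {l : ℕ} (hl : 0 < l) {P : ℕ → Prop} (hP : ∀ n, P (n % l) ↔ P n) {a0 a : ℕ}
    (ha : a.Coprime l) :
    #((range l).filter (fun t => P (a0 + a * t))) = #((range l).filter P) := by
  have hinj : Set.InjOn (fun m => (a0 + a * m) % l) (range l : Finset ℕ) := by
    intro m hm m' hm' h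
    simp only [coe_range, Set.mem_Iio] at hm hm'
    have h1 : a0 + a * m ≡ a0 + a * m' [MOD l] := h
    have h1' : a * m ≡ a * m' [MOD l] := Nat.ModEq.add_left_cancel' a0 h1
    have h2 : m ≡ m' [MOD l] := Nat.ModEq.cancel_left_of_coprime
      (by rw [Nat.Coprime, Nat.gcd_comm] at ha; exact ha) h1'
    have h3 : m % l = m' % l := h2
    rwa [Nat.mod_eq_of_lt hm, Nat.mod_eq_of_lt hm'] at h3
  have hmaps : ∀ m ∈ range l, (a0 + a * m) % l ∈ range l :=
    fun m _ => mem_range.mpr (Nat.mod_lt _ hl)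
  have himg : (range l).image (fun m => (a0 + a * m) % l) = range l := by
    apply eq_of_subset_of_card_le
    · intro x hx
      rw [mem_image] at hx
      obtain ⟨m, hm, rfl⟩ := hx
      exact hmaps m hm
    · rw [card_image_of_injOn hinj]
  refine card_bij (fun m _ => (a0 + a * m) % l) ?_ ?_ ?_
  · intro m hm
    rw [mem_filter] at hm ⊢
    exact ⟨hmaps m hm.1, (hP _).mpr hm.2⟩
  · intro m hm m' hm' h
    rw [mem_filter] at hm hm'
    exact hinj (by simpa using hm.1) (by simpa using hm'.1) h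
  · intro x hx
    rw [mem_filter] at hx
    have hx1 := hx.1
    rw [← himg, mem_image] at hx1
    obtain ⟨m, hm, rfl⟩ := hx1
    exact ⟨m, mem_filter.mpr ⟨hm, (hP _).mp hx.2⟩, rfl⟩

/-- the number of bad residues -/
noncomputable def om (ρ : ℕ → ℕ) (Fd Bd : ℕ → Prop) (l : ℕ) : ℕ :=
  (if Fd l then 1 else 0) + (if Bd l then ρ l else 0)

/-- the bad residues -/
def pr (R : ℕ → ℕ → Prop) (Fd Bd : ℕ → Prop) (l m : ℕ) : Prop :=
  (Fd l ∧ l ∣ m) ∨ (Bd l ∧ R l m)

/-- the bad relation -/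
def bd' (R : ℕ → ℕ → Prop) (Fd Bd : ℕ → Prop) (b r c l t : ℕ) : Prop :=
  pr R Fd Bd l (b * (c % r + r * t))

lemma card_or {R : ℕ → ℕ → Prop} {ρ : ℕ → ℕ} (hc : Cond2 R ρ) (Fd Bd : ℕ → Prop) {l : ℕ}
    (hl : l.Prime) (h5 : 5 ≤ l) :
    #((range l).filter (pr R Fd Bd l)) = om ρ Fd Bd l := by
  have h0 : (range l).filter (pr R Fd Bd l) = (range l).filter (fun m => Fd l ∧ l ∣ m) ∪
      (range l).filter (fun m => Bd l ∧ R l m) := by
    ext m
    simp only [mem_filter, mem_union, pr]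
    tauto
  rw [h0, card_union_of_disjoint]
  · unfold om
    congr 1
    · by_cases h : Fd l
      · simp only [h, true_and, if_true]
        exact SFull.card_dvd hl.pos
      · simp [h]
    · by_cases h : Bd l
      · simp only [h, true_and, if_true]
        exact hc.card l hl h5
      · simp [h]
  · rw [disjoint_left]
    intro m hm hm'
    rw [mem_filter, mem_range] at hm hm'
    have h0 : m = 0 := Nat.eq_zero_of_dvd_of_lt hm.2.2 hm.1
    subst h0
    exact hc.zero l hl h5 hm'.2.2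

lemma good {R : ℕ → ℕ → Prop} {ρ : ℕ → ℕ} (hc : Cond2 R ρ) (Fd Bd : ℕ → Prop) (b r c : ℕ)
    {D : Finset ℕ} (hD : ∀ l ∈ D, l.Prime ∧ 5 ≤ l ∧ l.Coprime (b * r)) :
    Good (bd' R Fd Bd b r c) (om ρ Fd Bd) D := by
  refine ⟨fun l hl => (hD l hl).1.pos, ?_, ?_, ?_⟩
  · intro l hl s
    have e : b * (c % r + r * (s + l)) = b * (c % r + r * s) + l * (b * r) := by ring
    unfold bd' pr
    rw [e, SFull.per_mul hc.toCond (hD l hl).1 (hD l hl).2.1, Nat.dvd_add_left (dvd_mul_right _ _)]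
  · intro l hl
    rw [← card_or hc Fd Bd (hD l hl).1 (hD l hl).2.1]
    have hP : ∀ n, pr R Fd Bd l (n % l) ↔ pr R Fd Bd l n := by
      intro n
      unfold pr
      rw [SFull.per_mod hc.toCond (hD l hl).1 (hD l hl).2.1, Nat.dvd_mod_iff dvd_rfl]
    have h1 := card_affine (hD l hl).1.pos hP
      (a0 := b * (c % r)) (a := b * r) (hD l hl).2.2.symm
    refine Eq.trans ?_ h1
    refine congrArg card (filter_congr fun t _ => ?_)
    have e : b * (c % r + r * t) = b * (c % r) + b * r * t := by ring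
    unfold bd'
    rw [e]
  · intro l hl q hq hlq
    exact (Nat.coprime_primes (hD l hl).1 (hD q hq).1).mpr hlq

lemma om_le {R : ℕ → ℕ → Prop} {ρ : ℕ → ℕ} (hc : Cond2 R ρ) (Fd Bd : ℕ → Prop) (l : ℕ) :
    om ρ Fd Bd l ≤ 3 := by
  have := hc.le l
  unfold om
  split_ifs <;> omega

lemma sum_om {R : ℕ → ℕ → Prop} {ρ : ℕ → ℕ} (hc : Cond2 R ρ) (Fd Bd : ℕ → Prop) (E : Finset ℕ)
    (w : ℕ) :
    FF Fd w + BB ρ Bd w - 3 / 5 * #E ≤
      ∑ l ∈ (Icc 5 w).filter (fun l => l.Prime ∧ l ∉ E), (om ρ Fd Bd l : ℝ) / l := by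
  have h1 : FF Fd w + BB ρ Bd w = ∑ l ∈ (Icc 5 w).filter Nat.Prime, (om ρ Fd Bd l : ℝ) / l := by
    unfold FF BB
    rw [← filter_filter, ← filter_filter, sum_filter (s := filter Nat.Prime (Icc 5 w)),
      sum_filter (s := filter Nat.Prime (Icc 5 w)), ← sum_add_distrib]
    refine sum_congr rfl fun l _ => ?_
    unfold om
    split_ifs <;> push_cast <;> ring
  have h2 : ∑ l ∈ (Icc 5 w).filter Nat.Prime, (om ρ Fd Bd l : ℝ) / l ≤
      ∑ l ∈ (Icc 5 w).filter (fun l => l.Prime ∧ l ∉ E), (om ρ Fd Bd l : ℝ) / l +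
      ∑ l ∈ ((Icc 5 w).filter Nat.Prime).filter (· ∈ E), (om ρ Fd Bd l : ℝ) / l := by
    rw [← sum_filter_add_sum_filter_not ((Icc 5 w).filter Nat.Prime) (· ∉ E), filter_filter]
    refine add_le_add le_rfl (le_of_eq ?_)
    refine sum_congr ?_ fun _ _ => rfl
    refine filter_congr fun l _ => ?_
    rw [not_not]
  have h3 : ∑ l ∈ ((Icc 5 w).filter Nat.Prime).filter (· ∈ E), (om ρ Fd Bd l : ℝ) / l ≤
      3 / 5 * #E := by
    calc ∑ l ∈ ((Icc 5 w).filter Nat.Prime).filter (· ∈ E), (om ρ Fd Bd l : ℝ) / l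
        ≤ ∑ l ∈ ((Icc 5 w).filter Nat.Prime).filter (· ∈ E), (3 / 5 : ℝ) := by
          refine sum_le_sum fun l hl => ?_
          rw [mem_filter, mem_filter, mem_Icc] at hl
          have h4 : (om ρ Fd Bd l : ℝ) ≤ 3 := by exact_mod_cast om_le hc Fd Bd l
          have h5 : (5 : ℝ) ≤ l := by exact_mod_cast hl.1.1.1
          exact div_le_div₀ (by norm_num) h4 (by norm_num) h5
      _ = 3 / 5 * #(((Icc 5 w).filter Nat.Prime).filter (· ∈ E)) := by
          rw [sum_const, nsmul_eq_mul]; ring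
      _ ≤ 3 / 5 * #E := by
          refine mul_le_mul_of_nonneg_left ?_ (by norm_num)
          have : #(((Icc 5 w).filter Nat.Prime).filter (· ∈ E)) ≤ #E := by
            refine card_le_card fun l hl => ?_
            rw [mem_filter] at hl
            exact hl.2
          exact_mod_cast this
  linarith

end CountGen

open CountGen in
theorem count_gen {R : ℕ → ℕ → Prop} {ρ : ℕ → ℕ} (hc : Cond2 R ρ) (k : ℕ) :
    ∃ C : ℝ, 0 < C ∧ ∃ s J₀ : ℕ, ∀ J ≥ J₀,
      ∀ (b r c x : ℕ) (E : Finset ℕ) (Fd Bd : ℕ → Prop), #E ≤ k → 0 < b → 0 < r →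
        (∀ l : ℕ, l.Prime → 5 ≤ l → l ≤ 8 ^ (2 ^ J) → l ∉ E → l.Coprime (b * r)) →
        (8 ^ (2 ^ J)) ^ s * (b * r) ≤ x →
        (#(CS R x (8 ^ (2 ^ J)) b r c E Fd Bd) : ℝ) ≤
          C * x / (b * r) * Real.exp (-FF Fd (8 ^ (2 ^ J)) - BB ρ Bd (8 ^ (2 ^ J))) := by
  obtain ⟨s₁, hs₁, H⟩ := fundamental 3 16 (by norm_num)
  obtain ⟨J₀, HJ⟩ := H 8 (by norm_num)
  refine ⟨4 * Real.exp (3 / 5 * k), by positivity, s₁, J₀,
    fun J hJ b r c x E Fd Bd hE hb hr hcop hx => ?_⟩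
  set w := 8 ^ (2 ^ J) with hw
  set D := (Icc 5 w).filter (fun l => l.Prime ∧ l ∉ E) with hD
  have hDm : ∀ l ∈ D, l.Prime ∧ 5 ≤ l ∧ l ≤ w ∧ l ∉ E := by
    intro l hl
    rw [hD, mem_filter, mem_Icc] at hl
    exact ⟨hl.2.1, hl.1.1, hl.1.2, hl.2.2⟩
  have hbr : 0 < b * r := Nat.mul_pos hb hr
  have hG : Good (bd' R Fd Bd b r c) (om ρ Fd Bd) D := good hc Fd Bd b r c fun l hl =>
    ⟨(hDm l hl).1, (hDm l hl).2.1, hcop l (hDm l hl).1 (hDm l hl).2.1 (hDm l hl).2.2.1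
      (hDm l hl).2.2.2⟩
  obtain ⟨_, hN⟩ := HJ J hJ (bd' R Fd Bd b r c) (om ρ Fd Bd) D hG
      (fun l hl => by
        have := om_le hc Fd Bd l
        have := (hDm l hl).2.1
        omega)
      (fun l hl => (hDm l hl).2.2.1)
      (fun i _ => SFull.lay_mass' (by norm_num) fun r hr => (hDm r hr).1)
  have hxd : w ^ s₁ ≤ x / (b * r) := (Nat.le_div_iff_mul_le hbr).mpr hx
  have hub := (hN (x / (b * r) + 1) (hxd.trans (Nat.le_succ _))).2
  have hcard : #(CS R x w b r c E Fd Bd) ≤ #((range (x / (b * r) + 1)).filter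
      (Sift (bd' R Fd Bd b r c) D)) := by
    have hrec : ∀ n ∈ CS R x w b r c E Fd Bd, b * (c % r + r * (n / b / r)) = n := by
      intro n hn
      rw [CS, mem_filter] at hn
      obtain ⟨_, hbn, hmod, _⟩ := hn
      rw [← hmod, Nat.mod_add_div, Nat.mul_div_cancel' hbn]
    refine card_le_card_of_injOn (fun n => n / b / r) ?_ ?_
    · intro n hn
      have hn1 := hrec n hn
      rw [mem_coe, CS, mem_filter, mem_Icc] at hn
      obtain ⟨hn0, hbn, hmod, hl⟩ := hn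
      rw [mem_coe, mem_filter, mem_range]
      refine ⟨?_, ?_⟩
      · refine Nat.lt_succ_of_le ?_
        show n / b / r ≤ x / (b * r)
        rw [Nat.div_div_eq_div_mul]
        exact Nat.div_le_div_right hn0.2
      · intro l hlD hbad
        obtain ⟨h1, h2, h3, h4⟩ := hDm l hlD
        have h5 := hl l h1 h2 h3 h4
        have hbad' : pr R Fd Bd l (b * (c % r + r * (n / b / r))) := hbad
        rw [hn1] at hbad'
        rcases hbad' with h | h
        · exact h5.1 h.1 h.2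
        · exact h5.2 h.1 h.2
    · intro n hn n' hn' h
      have h' : n / b / r = n' / b / r := h
      rw [← hrec n hn, ← hrec n' hn', h']
  have hprod : ∏ l ∈ D, (1 - (om ρ Fd Bd l : ℝ) / l) ≤
      Real.exp (-∑ l ∈ D, (om ρ Fd Bd l : ℝ) / l) := by
    rw [← sum_neg_distrib, Real.exp_sum]
    refine prod_le_prod (fun l hl => ?_) (fun l _ => ?_)
    · obtain ⟨h1, h2, _⟩ := hDm l hl
      have h4 := om_le hc Fd Bd l
      have h6 : (0 : ℝ) < l := by exact_mod_cast h1.pos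
      rw [sub_nonneg, div_le_one h6]
      exact_mod_cast (by omega : om ρ Fd Bd l ≤ l)
    · have := Real.add_one_le_exp (-((om ρ Fd Bd l : ℝ) / l)); linarith
  have hsum := sum_om hc Fd Bd E w
  have hEk : (#E : ℝ) ≤ k := by exact_mod_cast hE
  have hexp : Real.exp (-∑ l ∈ D, (om ρ Fd Bd l : ℝ) / l) ≤
      Real.exp (3 / 5 * k) * Real.exp (-FF Fd w - BB ρ Bd w) := by
    rw [← Real.exp_add]
    refine Real.exp_le_exp.mpr ?_
    linarith
  have hN2 : (((x / (b * r) + 1 : ℕ)) : ℝ) ≤ 2 * (x / (b * r)) := by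
    have h1 : 1 ≤ x / (b * r) := le_trans (Nat.one_le_pow _ _ (by positivity)) hxd
    have h2 : ((x / (b * r) : ℕ) : ℝ) ≤ (x : ℝ) / (b * r) := by
      have := @Nat.cast_div_le ℝ _ _ _ x (b * r)
      push_cast at this
      exact this
    have h3 : (1 : ℝ) ≤ ((x / (b * r) : ℕ) : ℝ) := by exact_mod_cast h1
    push_cast at h2 h3 ⊢
    linarith
  calc (#(CS R x w b r c E Fd Bd) : ℝ)
      ≤ (#((range (x / (b * r) + 1)).filter (Sift (bd' R Fd Bd b r c) D)) : ℝ) := by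
        exact_mod_cast hcard
    _ ≤ 2 * (x / (b * r) + 1 : ℕ) * ∏ l ∈ D, (1 - (om ρ Fd Bd l : ℝ) / l) := hub
    _ ≤ 2 * (x / (b * r) + 1 : ℕ) * (Real.exp (3 / 5 * k) * Real.exp (-FF Fd w - BB ρ Bd w)) :=
        mul_le_mul_of_nonneg_left (hprod.trans hexp) (by positivity)
    _ ≤ 2 * (2 * (x / (b * r))) * (Real.exp (3 / 5 * k) * Real.exp (-FF Fd w - BB ρ Bd w)) :=
        mul_le_mul_of_nonneg_right (mul_le_mul_of_nonneg_left hN2 (by norm_num)) (by positivity)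
    _ = 4 * Real.exp (3 / 5 * k) * x / (b * r) * Real.exp (-FF Fd w - BB ρ Bd w) := by ring

end Pool.Agent.PPD
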