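import Pool.Agent.PPD.Defs
import Pool.Agent.PPC.Count

/-!
# Module PPD/Decomp: the decomposition

PROOF. `Y = 8 ^ J`, `w = 8 ^ (2 ^ J)`, `Q = (PS w).filter (· ∣ n)`, `n ≠ 1`. Note `14 ≤ Y ≤ w` (`J ≥ 2`).
(a) `#Q ≥ k`: choose `T ⊆ Q` with `#T = k` (`exists_subset_card_eq`), `∏ T ∣ n` (`PPC.prod_dvd_of_primes`). If `T` is not `Fine` there are `p ∈ T`, `Y < p` and
`U ⊆ T.filter (· < p)` with `Exc ..`: `p ∉ U`, `#U < k`, `p ∏ U ∣ n` (the primes of `insert p U`), first alternative. If `T` is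
`Fine`: by `hwit` there is a `D` (fourth alternative) or a prime `r ≤ Z` with `R r n`; if `Y < r` and `r` is exceptional then the second alternative
holds (`r ≤ Z ≤ x`), otherwise the third.
(b) `1 ≤ #Q < k`: `T = Q`; if it is not `Fine`, the first alternative as in (a), otherwise the fifth.
(c) `Q = ∅`: no prime in `[5, w]` divides `n`. If `2 ∣ n` or `3 ∣ n`, the seventh alternative. Otherwise let `p` be the smallest prime factor of `n`
(`Nat.minFac`), `p ≥ 5`, so `p > w`. `n` is not a power of `p`, so `n = p ^ a m` with `m > 1` coprime to `p` (`Nat.exists_eq_pow_mul_and_not_dvd`), `m` has a prime factor `q > p`, and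
`p * p ≤ p q ≤ n ≤ x`. If `{p}` is `Fine`: sixth alternative. Otherwise `Exc ρ Y w 1 p` (`U = ∅`, `#U = 0 < k`): first alternative.
-/

set_option autoImplicit false

namespace Pool.Agent.PPD

open Finset Classical Pool.Agent.PPC

theorem not_fine_first {ρ : ℕ → ℕ} {k Y w n : ℕ} {T : Finset ℕ}
    (hT : ∀ q ∈ T, q.Prime ∧ q ∣ n) (hTU : ∀ p ∈ T, T.filter (· < p) ⊆ PS w) (hc : #T ≤ k)
    (hnf : ¬ Fine ρ Y w T) :
    ∃ U ⊆ PS w, #U < k ∧ ∃ p : ℕ, p.Prime ∧ p ∉ U ∧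
        Y < p ∧ Exc ρ Y w (∏ q ∈ U, q) p ∧ p * (∏ q ∈ U, q) ∣ n := by
  unfold Fine at hnf
  push Not at hnf
  obtain ⟨p, hp, hY, U, hU, hE⟩ := hnf
  have hpU : p ∉ U := fun h => by
    have := hU h
    rw [mem_filter] at this
    exact lt_irrefl _ this.2
  have hUT : U ⊆ T := fun q hq => (mem_filter.1 (hU hq)).1
  have hlt : #U < #T := card_lt_card ⟨hUT, fun h => hpU (h hp)⟩
  refine ⟨U, hU.trans (hTU p hp), by omega, p, (hT p hp).1, hpU, hY, hE, ?_⟩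
  rw [← prod_insert (f := fun q : ℕ => q) hpU]
  refine prod_dvd_of_primes fun q hq => ?_
  rcases mem_insert.1 hq with rfl | hq
  · exact hT _ hp
  · exact hT _ (hUT hq)

theorem exists_two_primes {n x w : ℕ} (hn : n ∈ Icc 1 x) (hn1 : n ≠ 1) (hpp : ¬ IsPrimePow n)
    (h2 : ¬ 2 ∣ n) (h3 : ¬ 3 ∣ n) (hw : ∀ l ∈ PS w, ¬ l ∣ n) :
    ∃ p : ℕ, p.Prime ∧ w < p ∧ p * p ≤ x ∧ p ∣ n := by
  rw [mem_Icc] at hn
  have hp : (n.minFac).Prime := Nat.minFac_prime hn1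
  have hpn : n.minFac ∣ n := Nat.minFac_dvd n
  set p := n.minFac with hpdef
  have hp2 : p ≠ 2 := fun h => h2 (h ▸ hpn)
  have hp3 : p ≠ 3 := fun h => h3 (h ▸ hpn)
  have hp4 : p ≠ 4 := fun h => by rw [h] at hp; exact absurd hp (by norm_num)
  have hp5 : 5 ≤ p := by have := hp.two_le; omega
  have hwp : w < p := by
    by_contra hle
    refine hw p ?_ hpn
    unfold PS
    rw [mem_filter, mem_Icc]
    exact ⟨⟨hp5, by omega⟩, hp⟩
  obtain ⟨q, hq, hqn, hqp⟩ : ∃ q : ℕ, q.Prime ∧ q ∣ n ∧ q ≠ p := by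
    by_contra hcon
    push Not at hcon
    have hpow := Nat.eq_prime_pow_of_unique_prime_dvd (n := n) (p := p) (by omega)
      (fun {d} hd hdn => hcon d hd hdn)
    refine hpp ((isPrimePow_nat_iff n).2 ⟨p, n.primeFactorsList.length, hp, ?_, hpow.symm⟩)
    rcases Nat.eq_zero_or_pos n.primeFactorsList.length with h0 | h0
    · rw [h0, pow_zero] at hpow
      exact absurd hpow hn1
    · exact h0
  refine ⟨p, hp, hwp, ?_, hpn⟩
  have hle : p ≤ q := Nat.minFac_le_of_dvd hq.two_le hqn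
  have hcop : Nat.Coprime p q := (Nat.coprime_primes hp hq).2 (Ne.symm hqp)
  have hdvd : p * q ∣ n := hcop.mul_dvd_of_dvd_of_dvd hpn hqn
  calc p * p ≤ p * q := Nat.mul_le_mul le_rfl hle
    _ ≤ n := Nat.le_of_dvd (by omega) hdvd
    _ ≤ x := hn.2

theorem decomp {R : ℕ → ℕ → Prop} {ρ : ℕ → ℕ} {k J x Z n : ℕ} (hk : 1 ≤ k) (hJ : 2 ≤ J)
    (hZ : Z ≤ x) (hn : n ∈ Icc 1 x) (hn1 : n ≠ 1) (hadm : Adm R n) (hpp : ¬ IsPrimePow n)
    (hwit : Wit R Z n) :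
    (∃ U ⊆ PS (8 ^ (2 ^ J)), #U < k ∧ ∃ p : ℕ, p.Prime ∧ p ∉ U ∧
        8 ^ J < p ∧ Exc ρ (8 ^ J) (8 ^ (2 ^ J)) (∏ q ∈ U, q) p ∧ p * (∏ q ∈ U, q) ∣ n) ∨
    (∃ r : ℕ, r.Prime ∧ 8 ^ J < r ∧ r ≤ x ∧ ExcR (8 ^ J) (8 ^ (2 ^ J)) r ∧ R r n) ∨
    (Adm R n ∧ ∃ T ⊆ PS (8 ^ (2 ^ J)), #T = k ∧
        (∏ p ∈ T, p) ∣ n ∧ Fine ρ (8 ^ J) (8 ^ (2 ^ J)) T ∧
        ∃ r : ℕ, r.Prime ∧ 5 ≤ r ∧ r ≤ Z ∧ ¬ (8 ^ J < r ∧ ExcR (8 ^ J) (8 ^ (2 ^ J)) r) ∧ R r n) ∨
    (Adm R n ∧ ∃ T ⊆ PS (8 ^ (2 ^ J)), #T = k ∧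
        (∏ p ∈ T, p) ∣ n ∧ Fine ρ (8 ^ J) (8 ^ (2 ^ J)) T ∧
        ∃ D : ℤ, Small D ∧ Miss D n) ∨
    (Adm R n ∧ ∃ T ⊆ PS (8 ^ (2 ^ J)), T.Nonempty ∧ #T < k ∧
        (∏ p ∈ T, p) ∣ n ∧ Fine ρ (8 ^ J) (8 ^ (2 ^ J)) T ∧
        ∀ l ∈ PS (8 ^ (2 ^ J)), l ∣ n → l ∈ T) ∨
    (Adm R n ∧ (∀ l ∈ PS (8 ^ (2 ^ J)), ¬ l ∣ n) ∧
        ∃ p : ℕ, p.Prime ∧ 8 ^ (2 ^ J) < p ∧ p * p ≤ x ∧ p ∣ n ∧
          Fine ρ (8 ^ J) (8 ^ (2 ^ J)) {p}) ∨
    ((2 ∣ n ∨ 3 ∣ n) ∧ (∀ l ∈ PS (8 ^ (2 ^ J)), ¬ l ∣ n) ∧ Adm R n) := by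
  set Y := 8 ^ J with hY
  set w := 8 ^ (2 ^ J) with hw
  set Q := (PS w).filter (· ∣ n) with hQ
  have hQp : ∀ q ∈ Q, q.Prime ∧ q ∣ n := fun q hq => by
    rw [hQ, mem_filter] at hq
    have h1 := hq.1
    unfold PS at h1
    rw [mem_filter] at h1
    exact ⟨h1.2, hq.2⟩
  have hQs : Q ⊆ PS w := filter_subset _ _
  rcases le_or_gt k #Q with hkQ | hkQ
  · -- case (a)
    obtain ⟨T, hTQ, hTk⟩ := exists_subset_card_eq hkQ
    have hTp : ∀ q ∈ T, q.Prime ∧ q ∣ n := fun q hq => hQp q (hTQ hq)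
    by_cases hF : Fine ρ Y w T
    · have hdvd : (∏ p ∈ T, p) ∣ n := prod_dvd_of_primes hTp
      rcases hwit with ⟨D, hD, hM⟩ | ⟨r, hr, hr5, hrZ, hR⟩
      · right; right; right; left
        exact ⟨hadm, T, hTQ.trans hQs, hTk, hdvd, hF, D, hD, hM⟩
      · by_cases hex : Y < r ∧ ExcR Y w r
        · right; left
          exact ⟨r, hr, hex.1, hrZ.trans hZ, hex.2, hR⟩
        · right; right; left
          exact ⟨hadm, T, hTQ.trans hQs, hTk, hdvd, hF, r, hr, hr5, hrZ, hex, hR⟩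
    · left
      exact not_fine_first hTp (fun p _ => (filter_subset _ _).trans (hTQ.trans hQs)) hTk.le hF
  · rcases Q.eq_empty_or_nonempty with hQe | hQn
    · -- case (c)
      have hno : ∀ l ∈ PS w, ¬ l ∣ n := fun l hl hln => by
        have : l ∈ Q := by
          rw [hQ, mem_filter]
          exact ⟨hl, hln⟩
        rw [hQe] at this
        exact absurd this (notMem_empty l)
      by_cases h23 : 2 ∣ n ∨ 3 ∣ n
      · right; right; right; right; right; right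
        exact ⟨h23, hno, hadm⟩
      · push Not at h23
        obtain ⟨p, hp, hwp, hpx, hpn⟩ := exists_two_primes hn hn1 hpp h23.1 h23.2 hno
        by_cases hF : Fine ρ Y w {p}
        · right; right; right; right; right; left
          exact ⟨hadm, hno, p, hp, hwp, hpx, hpn, hF⟩
        · left
          refine not_fine_first (T := {p}) ?_ ?_ ?_ hF
          · intro q hq
            rw [mem_singleton] at hq
            subst hq
            exact ⟨hp, hpn⟩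
          · intro q hq u hu
            rw [mem_singleton] at hq
            rw [mem_filter, mem_singleton] at hu
            exfalso
            have h1 := hu.1
            have h2 := hu.2
            omega
          · rw [card_singleton]; exact hk
    · -- case (b)
      by_cases hF : Fine ρ Y w Q
      · right; right; right; right; left
        refine ⟨hadm, Q, hQs, hQn, hkQ, prod_dvd_of_primes hQp, hF, fun l hl hln => ?_⟩
        rw [hQ, mem_filter]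
        exact ⟨hl, hln⟩
      · left
        exact not_fine_first hQp (fun p _ => (filter_subset _ _).trans hQs) hkQ.le hF

end Pool.Agent.PPD
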