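import Pool.Agent.PPC.CondPN
import Pool.Agent.PPC.SieveDefs

/-!
# PPD: almost all orders are prime powers. Definitions

See `BLUEPRINT.md`.
-/

set_option autoImplicit false

namespace Pool.Agent.PPD

open Finset Classical Pool.Agent.PPC

/-- The real character with denominator `m`. -/
noncomputable def psi (m n : ℕ) : ℝ := (jacobiSym (n : ℤ) m : ℝ)

/-- The sum of `1 / l` over the primes `l ∈ [5, w]` with `Fd l`. -/
noncomputable def FF (Fd : ℕ → Prop) (w : ℕ) : ℝ :=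
  ∑ l ∈ (Icc 5 w).filter (fun l => l.Prime ∧ Fd l), (1 : ℝ) / l

/-- The sum of `ρ l / l` over the primes `l ∈ [5, w]` with `Bd l`. -/
noncomputable def BB (ρ : ℕ → ℕ) (Bd : ℕ → Prop) (w : ℕ) : ℝ :=
  ∑ l ∈ (Icc 5 w).filter (fun l => l.Prime ∧ Bd l), (ρ l : ℝ) / l

/-- Four more facts about the relation `R r n`. -/
structure Cond2 (R : ℕ → ℕ → Prop) (ρ : ℕ → ℕ) : Prop extends Cond R ρ where
  zero : ∀ r : ℕ, r.Prime → 5 ≤ r → ¬ R r 0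
  mass : ∃ C : ℝ, ∀ z w : ℕ, 5 ≤ z → z ≤ w →
    Real.log (Real.log w) - Real.log (Real.log z) - C ≤
      ∑ r ∈ (Ioc z w).filter Nat.Prime, (ρ r : ℝ) / r
  os : ∃ C : ℝ, ∀ (U : Finset ℕ) (z w : ℕ), (∀ p ∈ U, p.Prime ∧ 5 ≤ p) → U.Nonempty →
    12 * (∏ p ∈ U, p) + 2 ≤ z → z ≤ w →
    ∑ r ∈ (Ioc z w).filter Nat.Prime, (ρ r : ℝ) * chi ((∏ p ∈ U, p : ℕ) : ℤ) r / r ≤ C
  two : ∃ C : ℝ, ∀ e w : ℕ, (e = 2 ∨ e = 3) → 5 ≤ w →
    1 / 2 * Real.log (Real.log w) - C ≤ BB ρ (Bad {e}) w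

/-- `p` is exceptional for the character `chi d`: the characters `chi d r * (p / r)` are biased
towards `1` on the primes `r` between `Y` and about `p ^ (1 / 4)`. -/
def Exc (ρ : ℕ → ℕ) (Y w d p : ℕ) : Prop :=
  1 < ∑ r ∈ (Ioc Y (min w (2 ^ (Nat.log 2 p / 4)))).filter Nat.Prime,
    (ρ r : ℝ) * chi (d : ℤ) r * psi r p / r

/-- `r` is exceptional: the characters `(l / r)` are biased towards `1` on the primes `l` between
`Y` and about `r ^ (1 / 4)`. -/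
def ExcR (Y w r : ℕ) : Prop :=
  1 < ∑ l ∈ (Ioc Y (min w (2 ^ (Nat.log 2 r / 4)))).filter Nat.Prime, chi (l : ℤ) r / l

/-- No prime in `T` above `Y` is exceptional for a product of smaller elements of `T`. -/
def Fine (ρ : ℕ → ℕ) (Y w : ℕ) (T : Finset ℕ) : Prop :=
  ∀ p ∈ T, Y < p → ∀ U ⊆ T.filter (· < p), ¬ Exc ρ Y w (∏ q ∈ U, q) p

/-- The four discriminants which occur as fixed witnesses. -/
def Small (D : ℤ) : Prop := D = -1 ∨ D = 2 ∨ D = -2 ∨ D = -3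

/-- No prime divisor `l ≥ 5` of `n` has `chi D l = -1`. -/
def Miss (D : ℤ) (n : ℕ) : Prop := ∀ l : ℕ, l.Prime → 5 ≤ l → l ∣ n → chi D l ≠ -1

/-- `n` has a witness: a fixed one or a prime `r ≤ Z` with `R r n`. -/
def Wit (R : ℕ → ℕ → Prop) (Z n : ℕ) : Prop :=
  (∃ D : ℤ, Small D ∧ Miss D n) ∨ ∃ r : ℕ, r.Prime ∧ 5 ≤ r ∧ r ≤ Z ∧ R r n

/-- The counting set of the sieve. -/
noncomputable def CS (R : ℕ → ℕ → Prop) (x w b r c : ℕ) (E : Finset ℕ) (Fd Bd : ℕ → Prop) :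
    Finset ℕ :=
  (Icc 1 x).filter (fun n => b ∣ n ∧ (n / b) % r = c % r ∧
    ∀ l : ℕ, l.Prime → 5 ≤ l → l ≤ w → l ∉ E → (Fd l → ¬ l ∣ n) ∧ (Bd l → ¬ R l n))

/-- The logarithm of the sieve level `w = 8 ^ (2 ^ J)`. -/
noncomputable def lw (J : ℕ) : ℝ := Real.log ((8 ^ (2 ^ J) : ℕ) : ℝ)

/-- `(log log w + 1) ^ 2 / (log w) ^ θ`. -/
noncomputable def UB (θ : ℝ) (J : ℕ) : ℝ := (Real.log (lw J) + 1) ^ 2 / (lw J) ^ θ

/-- The primes in `[5, w]`. -/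
def PS (w : ℕ) : Finset ℕ := (Icc 5 w).filter Nat.Prime

end Pool.Agent.PPD
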