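import Pool.Agent.PPD.Psi

/-!
# Module PPD/SM2: second moment of character sums over a dyadic block, second form

PROOF. As for `SM1`: the sum is `∑_{l, l'} 1 / (l l') ∑_n chi l n chi l' n` (primes in `(Y, v]`). `l = l'`: at most
`2 ^ i ∑ 1 / l² ≤ 2 ^ i / Y`. `l ≠ l'`: `chi l n * chi l' n = chi (l l') n` (`PPC.chi_mul_left`), `l l'` is squarefree, coprime to
`6`, `> 1`, so `PPC.ch_chi` bounds the partial sums by `12 l l'` and the sum over the block by `24 l l'`; every pair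
contributes at most `24`, at most `v²` pairs.
-/

set_option autoImplicit false

namespace Pool.Agent.PPD

open Finset Classical Pool.Agent.PPC

lemma sum_inv_sq_Ioc (Y v : ℕ) (hY : 1 ≤ Y) :
    ∑ l ∈ Ioc Y v, (1 : ℝ) / (l : ℝ) ^ 2 ≤ 1 / Y := by
  rcases le_total v Y with h | h
  · rw [Ioc_eq_empty (not_lt.2 h), sum_empty]
    positivity
  · have hY0 : (0 : ℝ) < Y := by exact_mod_cast hY
    have key : ∀ v, Y ≤ v → ∑ l ∈ Ioc Y v, (1 : ℝ) / (l : ℝ) ^ 2 ≤ 1 / Y - 1 / v := by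
      intro v hv
      induction v, hv using Nat.le_induction with
      | base => simp
      | succ v hv ih =>
        have hs : Ioc Y (v + 1) = insert (v + 1) (Ioc Y v) := by
          ext l; simp only [mem_Ioc, mem_insert]; omega
        rw [hs, sum_insert (by simp)]
        have hv0 : (0 : ℝ) < v := by exact_mod_cast (show 0 < v by omega)
        have h1 : (1 : ℝ) / ((v + 1 : ℕ) : ℝ) ^ 2 ≤ 1 / v - 1 / ((v + 1 : ℕ) : ℝ) := by
          push_cast
          rw [div_sub_div _ _ (ne_of_gt hv0) (by positivity), div_le_div_iff₀ (by positivity)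
            (by positivity)]
          nlinarith
        linarith
    have := key v h
    have h2 : (0 : ℝ) ≤ 1 / v := by positivity
    linarith

lemma Ch.block {f : ℕ → ℝ} {M : ℝ} (h : Ch f M) {a b : ℕ} (hab : a ≤ b) :
    |∑ n ∈ Ico a b, f n| ≤ 2 * M := by
  rw [sum_Ico_eq_sub _ hab]
  have h1 := h.bd b
  have h2 := h.bd a
  rw [abs_le] at *
  constructor <;> linarith [h1.1, h1.2, h2.1, h2.2]

theorem sm2 (Y v i : ℕ) (hY : 5 ≤ Y) :
    ∑ n ∈ Ico (2 ^ i) (2 ^ (i + 1)),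
      (∑ l ∈ (Ioc Y v).filter Nat.Prime, chi (l : ℤ) n / l) ^ 2 ≤
      2 ^ i / Y + 24 * (v : ℝ) ^ 2 := by
  set P := (Ioc Y v).filter Nat.Prime with hP
  set B := Ico (2 ^ i) (2 ^ (i + 1)) with hB
  have hmem : ∀ l ∈ P, Y < l ∧ l ≤ v ∧ l.Prime := by
    intro l hl
    rw [hP, mem_filter, mem_Ioc] at hl
    exact ⟨hl.1.1, hl.1.2, hl.2⟩
  have hab : (2 : ℕ) ^ i ≤ 2 ^ (i + 1) := Nat.pow_le_pow_right (by norm_num) (by omega)
  have hcard : #B = 2 ^ i := by
    rw [hB, Nat.card_Ico, pow_succ]; omega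
  -- expansion
  have e1 : ∑ n ∈ B, (∑ l ∈ P, chi (l : ℤ) n / l) ^ 2 =
      ∑ l ∈ P, ∑ l' ∈ P, (1 / ((l : ℝ) * l')) * ∑ n ∈ B, chi (l : ℤ) n * chi (l' : ℤ) n := by
    have : ∀ n ∈ B, (∑ l ∈ P, chi (l : ℤ) n / l) ^ 2 =
        ∑ l ∈ P, ∑ l' ∈ P, (1 / ((l : ℝ) * l')) * (chi (l : ℤ) n * chi (l' : ℤ) n) := by
      intro n _
      rw [sq, sum_mul_sum]
      refine sum_congr rfl fun l _ => sum_congr rfl fun l' _ => ?_
      rw [div_mul_div_comm]
      ring
    rw [sum_congr rfl this, sum_comm]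
    refine sum_congr rfl fun l _ => ?_
    rw [sum_comm]
    refine sum_congr rfl fun l' _ => ?_
    rw [mul_sum]
  rw [e1]
  -- bound of each term
  have hchi : ∀ (D : ℤ) n, |chi D n| ≤ 1 := by
    intro D n
    rcases chi_val D n with h | h | h <;> rw [h] <;> norm_num
  have hterm : ∀ l ∈ P, ∀ l' ∈ P,
      (1 / ((l : ℝ) * l')) * ∑ n ∈ B, chi (l : ℤ) n * chi (l' : ℤ) n ≤
        24 + (if l' = l then 2 ^ i * (1 / (l : ℝ) ^ 2) else 0) := by
    intro l hl l' hl'
    obtain ⟨h1, h2, h3⟩ := hmem l hl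
    obtain ⟨h1', h2', h3'⟩ := hmem l' hl'
    have hl0 : (0 : ℝ) < l := by exact_mod_cast h3.pos
    have hl0' : (0 : ℝ) < l' := by exact_mod_cast h3'.pos
    by_cases e : l' = l
    · subst e
      rw [if_pos rfl]
      have hs : ∑ n ∈ B, chi (l' : ℤ) n * chi (l' : ℤ) n ≤ 2 ^ i := by
        calc ∑ n ∈ B, chi (l' : ℤ) n * chi (l' : ℤ) n ≤ ∑ _n ∈ B, (1 : ℝ) := by
              refine sum_le_sum fun n _ => ?_
              have := hchi l' n
              rw [← abs_mul_abs_self]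
              nlinarith [abs_nonneg (chi (l' : ℤ) n)]
          _ = 2 ^ i := by
              rw [sum_const, hcard, nsmul_eq_mul, mul_one]
              push_cast
              rfl
      have h5 : (0 : ℝ) ≤ 1 / ((l' : ℝ) * l') := by positivity
      have h6 := mul_le_mul_of_nonneg_left hs h5
      have h7 : (1 / ((l' : ℝ) * l')) * 2 ^ i = 2 ^ i * (1 / (l' : ℝ) ^ 2) := by
        rw [sq]; ring
      linarith
    · rw [if_neg e, add_zero]
      have hcop : Nat.Coprime l l' := (Nat.coprime_primes h3 h3').2 (Ne.symm e)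
      have hsq : Squarefree (l * l') :=
        (Nat.squarefree_mul hcop).2 ⟨h3.squarefree, h3'.squarefree⟩
      have c6 : ∀ {p : ℕ}, p.Prime → Y < p → Nat.Coprime p 6 := by
        intro p hp hYp
        rw [show (6 : ℕ) = 2 * 3 by norm_num]
        refine Nat.Coprime.mul_right ?_ ?_
        · exact (Nat.coprime_primes hp Nat.prime_two).2 (by omega)
        · exact (Nat.coprime_primes hp Nat.prime_three).2 (by omega)
      have h6 : Nat.Coprime (l * l') 6 := Nat.Coprime.mul_left (c6 h3 h1) (c6 h3' h1')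
      have hgt : 1 < l * l' := by nlinarith [h3.two_le, h3'.two_le]
      have hc := (ch_chi hgt hsq h6).1
      have e2 : ∑ n ∈ B, chi (l : ℤ) n * chi (l' : ℤ) n =
          ∑ n ∈ B, chi (((l * l' : ℕ) : ℤ)) n := by
        refine sum_congr rfl fun n _ => ?_
        rw [← chi_mul_left]
        push_cast
        rfl
      rw [e2]
      have hb := (abs_le.1 (Ch.block hc hab)).2
      rw [← hB] at hb
      have h5 : (0 : ℝ) ≤ 1 / ((l : ℝ) * l') := by positivity
      have h7 := mul_le_mul_of_nonneg_left hb h5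
      refine h7.trans (le_of_eq ?_)
      push_cast
      field_simp
      ring
  have hPle : (#P : ℝ) ≤ v := by
    have : #P ≤ v := by
      calc #P ≤ #(Ioc Y v) := card_filter_le _ _
        _ = v - Y := Nat.card_Ioc _ _
        _ ≤ v := Nat.sub_le _ _
    exact_mod_cast this
  calc ∑ l ∈ P, ∑ l' ∈ P, (1 / ((l : ℝ) * l')) * ∑ n ∈ B, chi (l : ℤ) n * chi (l' : ℤ) n
      ≤ ∑ l ∈ P, ∑ l' ∈ P, (24 + (if l' = l then 2 ^ i * (1 / (l : ℝ) ^ 2) else 0)) :=
        sum_le_sum fun l hl => sum_le_sum fun l' hl' => hterm l hl l' hl'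
    _ = 24 * (#P : ℝ) ^ 2 + 2 ^ i * ∑ l ∈ P, (1 / (l : ℝ) ^ 2) := by
        have : ∀ l ∈ P, ∑ l' ∈ P, (24 + (if l' = l then 2 ^ i * (1 / (l : ℝ) ^ 2) else 0)) =
            24 * (#P : ℝ) + 2 ^ i * (1 / (l : ℝ) ^ 2) := by
          intro l hl
          rw [sum_add_distrib, sum_const, nsmul_eq_mul, sum_ite_eq' P l, if_pos hl]
          ring
        rw [sum_congr rfl this, sum_add_distrib, sum_const, nsmul_eq_mul, ← mul_sum]
        ring
    _ ≤ 24 * (v : ℝ) ^ 2 + 2 ^ i * (1 / Y) := by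
        have h1 : (#P : ℝ) ^ 2 ≤ (v : ℝ) ^ 2 := pow_le_pow_left₀ (Nat.cast_nonneg _) hPle 2
        have h2 : ∑ l ∈ P, ((1 : ℝ) / (l : ℝ) ^ 2) ≤ 1 / (Y : ℝ) := by
          refine (sum_le_sum_of_subset_of_nonneg (filter_subset _ _) ?_).trans
            (sum_inv_sq_Ioc Y v (by omega))
          intro l _ _
          positivity
        have h3 := mul_le_mul_of_nonneg_left h2 (show (0 : ℝ) ≤ 2 ^ i by positivity)
        linarith
    _ = 2 ^ i / Y + 24 * (v : ℝ) ^ 2 := by ring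

end Pool.Agent.PPD
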