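import Pool.Agent.PPD.SM1
import Pool.Agent.PPD.SM2

/-!
# Module PPD/ExcSum: exceptional numbers are rare

PROOF. `exc_sum`: split the `p` by `i = Nat.log 2 p`, `2^i ≤ p < 2^(i+1)`, `i ≤ Nat.log 2 N ≤ log N / log 2`. In the
block `i` put `v = min w (2^(i/4))`, so `v^4 ≤ 2^i`. If `v ≤ Y` the sum in `Exc` is empty and there are no exceptional `p`.
If `v > Y`: the sum in `Exc` is `> 1`, so the number of exceptional `p` in the block is at most the sum of the squares,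
`≤ 4 2^i / Y + 8 v²` (`sm1` with `a r = ρ r * chi d r`, `|chi| ≤ 1` by `PPC.chi_val`), and as `1/p ≤ 1/2^i` the block
contributes at most `4/Y + 8 v²/2^i ≤ 4/Y + 8/v² ≤ 4/Y + 8/Y² ≤ 6/Y` (`v^4 ≤ 2^i`, `v > Y ≥ 5`). There are at most
`log N / log 2 + 1 ≤ 2 (log N + 1)` blocks. `excR_sum`: the same with `sm2`: `1/Y + 24/Y² ≤ 6/Y` per block.
(`p ≥ 1` as it lies in `Icc 1 N`.)
-/

set_option autoImplicit false

namespace Pool.Agent.PPD

open Finset Classical Pool.Agent.PPC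

/-- Dyadic decomposition. -/
theorem ExcSum_dyadic (P : ℕ → Prop) (B : ℝ) (hB : 0 ≤ B)
    (h : ∀ i : ℕ, (#((Ico (2 ^ i) (2 ^ (i + 1))).filter P) : ℝ) ≤ B * 2 ^ i) (N : ℕ) (hN : 1 ≤ N) :
    ∑ p ∈ (Icc 1 N).filter P, (1 : ℝ) / p ≤ 2 * (Real.log N + 1) * B := by
  have hsub : (Icc 1 N).filter P ⊆
      (range (Nat.log 2 N + 1)).biUnion (fun i => (Ico (2 ^ i) (2 ^ (i + 1))).filter P) := by
    intro p hp
    rw [mem_filter, mem_Icc] at hp
    rw [mem_biUnion]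
    refine ⟨Nat.log 2 p, ?_, ?_⟩
    · rw [mem_range]
      exact Nat.lt_succ_of_le (Nat.log_mono_right hp.1.2)
    · rw [mem_filter, mem_Ico]
      exact ⟨⟨Nat.pow_log_le_self 2 (by omega), Nat.lt_pow_succ_log_self (by norm_num) p⟩, hp.2⟩
  have h1 : ∑ p ∈ (Icc 1 N).filter P, (1 : ℝ) / p ≤
      ∑ i ∈ range (Nat.log 2 N + 1), ∑ p ∈ (Ico (2 ^ i) (2 ^ (i + 1))).filter P, (1 : ℝ) / p := by
    refine (sum_le_sum_of_subset_of_nonneg hsub fun p _ _ => by positivity).trans ?_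
    refine le_of_eq (sum_biUnion ?_)
    intro i _ j _ hij
    rw [Function.onFun, disjoint_left]
    intro p hp hq
    rw [mem_filter, mem_Ico] at hp hq
    rcases lt_or_gt_of_ne hij with hlt | hlt
    · have : 2 ^ (i + 1) ≤ 2 ^ j := Nat.pow_le_pow_right (by norm_num) hlt
      omega
    · have : 2 ^ (j + 1) ≤ 2 ^ i := Nat.pow_le_pow_right (by norm_num) hlt
      omega
  have h2 : ∀ i ∈ range (Nat.log 2 N + 1),
      ∑ p ∈ (Ico (2 ^ i) (2 ^ (i + 1))).filter P, (1 : ℝ) / p ≤ B := by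
    intro i _
    have h3 : ∑ p ∈ (Ico (2 ^ i) (2 ^ (i + 1))).filter P, (1 : ℝ) / p ≤
        ∑ _p ∈ (Ico (2 ^ i) (2 ^ (i + 1))).filter P, (1 : ℝ) / 2 ^ i := by
      refine sum_le_sum fun p hp => ?_
      rw [mem_filter, mem_Ico] at hp
      refine one_div_le_one_div_of_le (by positivity) ?_
      exact_mod_cast hp.1.1
    rw [sum_const, nsmul_eq_mul] at h3
    refine h3.trans ?_
    rw [mul_one_div, div_le_iff₀ (by positivity)]
    exact h i
  refine h1.trans ((sum_le_sum h2).trans ?_)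
  rw [sum_const, card_range, nsmul_eq_mul]
  refine mul_le_mul_of_nonneg_right ?_ hB
  have hl2 := Real.log_two_gt_d9
  have h4 : ((Nat.log 2 N : ℕ) : ℝ) * Real.log 2 ≤ Real.log N := by
    have h5 : (2 : ℝ) ^ Nat.log 2 N ≤ N := by exact_mod_cast Nat.pow_log_le_self 2 (by omega)
    have h6 := Real.log_le_log (by positivity) h5
    rwa [Real.log_pow] at h6
  have h7 : (0 : ℝ) ≤ Nat.log 2 N := Nat.cast_nonneg _
  push_cast
  nlinarith

theorem ExcSum_pow_bd (Y v i w : ℕ) (hv : v = min w (2 ^ (i / 4))) (hYv : Y < v) (hY : 5 ≤ Y) :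
    (v : ℝ) ^ 2 ≤ (1 / 5) * (2 ^ i / Y) := by
  have h1 : v ^ 4 ≤ 2 ^ i := by
    calc v ^ 4 ≤ (2 ^ (i / 4)) ^ 4 := Nat.pow_le_pow_left (by omega) 4
      _ = 2 ^ (i / 4 * 4) := by rw [← pow_mul]
      _ ≤ 2 ^ i := Nat.pow_le_pow_right (by norm_num) (Nat.div_mul_le_self i 4)
  have h2 : (v : ℝ) ^ 4 ≤ 2 ^ i := by exact_mod_cast h1
  have h3 : (5 : ℝ) * Y ≤ (v : ℝ) ^ 2 := by
    have h4 : (Y : ℝ) ≤ v := by exact_mod_cast hYv.le
    have h5 : (5 : ℝ) ≤ v := by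
      have : 5 ≤ v := by omega
      exact_mod_cast this
    nlinarith
  have hY0 : (0 : ℝ) < Y := by
    have : 0 < Y := by omega
    exact_mod_cast this
  rw [← mul_div_assoc, le_div_iff₀ hY0]
  have h6 : (0 : ℝ) ≤ (v : ℝ) ^ 2 := by positivity
  nlinarith

theorem ExcSum_card_le_of_sq (P : ℕ → Prop) (S : ℕ → ℝ) (i : ℕ) {B : ℝ}
    (hP : ∀ n ∈ Ico (2 ^ i) (2 ^ (i + 1)), P n → 1 < S n)
    (hS : ∑ n ∈ Ico (2 ^ i) (2 ^ (i + 1)), S n ^ 2 ≤ B) :
    (#((Ico (2 ^ i) (2 ^ (i + 1))).filter P) : ℝ) ≤ B := by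
  refine le_trans ?_ hS
  have h1 : (#((Ico (2 ^ i) (2 ^ (i + 1))).filter P) : ℝ) =
      ∑ _n ∈ (Ico (2 ^ i) (2 ^ (i + 1))).filter P, (1 : ℝ) := by simp
  rw [h1]
  refine le_trans (sum_le_sum (g := fun n => S n ^ 2) fun n hn => ?_)
    (sum_le_sum_of_subset_of_nonneg (filter_subset _ _) fun _ _ _ => sq_nonneg _)
  rw [mem_filter] at hn
  have := hP n hn.1 hn.2
  nlinarith

theorem ExcSum_log_block {i n : ℕ} (hn : n ∈ Ico (2 ^ i) (2 ^ (i + 1))) : Nat.log 2 n = i := by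
  rw [mem_Ico] at hn
  exact Nat.log_eq_of_pow_le_of_lt_pow hn.1 hn.2

theorem exc_sum (ρ : ℕ → ℕ) (hρ : ∀ r, ρ r ≤ 2) (Y w d N : ℕ) (hY : 5 ≤ Y) (hN : 1 ≤ N) :
    ∑ p ∈ (Icc 1 N).filter (Exc ρ Y w d), (1 : ℝ) / p ≤ 40 * (Real.log N + 1) / Y := by
  have hY0 : (0 : ℝ) < Y := by
    have : 0 < Y := by omega
    exact_mod_cast this
  have hlog : 0 ≤ Real.log N := Real.log_natCast_nonneg N
  refine (ExcSum_dyadic (Exc ρ Y w d) (6 / Y) (by positivity) ?_ N hN).trans ?_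
  · intro i
    have ha : ∀ r : ℕ, |(ρ r : ℝ) * chi (d : ℤ) r| ≤ 2 := by
      intro r
      have h1 : (ρ r : ℝ) ≤ 2 := by exact_mod_cast hρ r
      have h0 : (0 : ℝ) ≤ ρ r := Nat.cast_nonneg _
      rcases chi_val (d : ℤ) r with h | h | h <;> rw [h]
      · rw [mul_neg_one, abs_neg, abs_of_nonneg h0]; exact h1
      · simp
      · rw [mul_one, abs_of_nonneg h0]; exact h1
    have hsq := sm1 (fun r => (ρ r : ℝ) * chi (d : ℤ) r) ha Y (min w (2 ^ (i / 4))) i hY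
    have hexc : ∀ n ∈ Ico (2 ^ i) (2 ^ (i + 1)), Exc ρ Y w d n →
        1 < ∑ r ∈ (Ioc Y (min w (2 ^ (i / 4)))).filter Nat.Prime,
          (ρ r : ℝ) * chi (d : ℤ) r * psi r n / r := by
      intro n hn h
      unfold Exc at h
      rwa [ExcSum_log_block hn] at h
    by_cases hYv : Y < min w (2 ^ (i / 4))
    · refine (ExcSum_card_le_of_sq _ _ i hexc hsq).trans ?_
      have := ExcSum_pow_bd Y _ i w rfl hYv hY
      have e1 : (4 : ℝ) * 2 ^ i / Y = 4 * (2 ^ i / Y) := by ring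
      have e2 : (6 : ℝ) / Y * 2 ^ i = 6 * (2 ^ i / Y) := by ring
      rw [e1, e2]
      have h0 : (0 : ℝ) ≤ 2 ^ i / Y := by positivity
      linarith
    · have h0 : (Ico (2 ^ i) (2 ^ (i + 1))).filter (Exc ρ Y w d) = ∅ := by
        rw [filter_eq_empty_iff]
        intro n hn h
        have := hexc n hn h
        rw [Ioc_eq_empty hYv] at this
        simp at this
        linarith
      rw [h0, card_empty, Nat.cast_zero]
      positivity
  · rw [show (2 : ℝ) * (Real.log N + 1) * (6 / Y) = 12 * (Real.log N + 1) / Y by ring]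
    exact div_le_div_of_nonneg_right (by linarith) hY0.le

theorem excR_sum (Y w N : ℕ) (hY : 5 ≤ Y) (hN : 1 ≤ N) :
    ∑ r ∈ (Icc 1 N).filter (ExcR Y w), (1 : ℝ) / r ≤ 40 * (Real.log N + 1) / Y := by
  have hY0 : (0 : ℝ) < Y := by
    have : 0 < Y := by omega
    exact_mod_cast this
  have hlog : 0 ≤ Real.log N := Real.log_natCast_nonneg N
  refine (ExcSum_dyadic (ExcR Y w) (6 / Y) (by positivity) ?_ N hN).trans ?_
  · intro i
    have hsq := sm2 Y (min w (2 ^ (i / 4))) i hY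
    have hexc : ∀ n ∈ Ico (2 ^ i) (2 ^ (i + 1)), ExcR Y w n →
        1 < ∑ l ∈ (Ioc Y (min w (2 ^ (i / 4)))).filter Nat.Prime, chi (l : ℤ) n / l := by
      intro n hn h
      unfold ExcR at h
      rwa [ExcSum_log_block hn] at h
    by_cases hYv : Y < min w (2 ^ (i / 4))
    · refine (ExcSum_card_le_of_sq _ _ i hexc hsq).trans ?_
      have := ExcSum_pow_bd Y _ i w rfl hYv hY
      have e2 : (6 : ℝ) / Y * 2 ^ i = 6 * (2 ^ i / Y) := by ring
      rw [e2]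
      have h0 : (0 : ℝ) ≤ 2 ^ i / Y := by positivity
      linarith
    · have h0 : (Ico (2 ^ i) (2 ^ (i + 1))).filter (ExcR Y w) = ∅ := by
        rw [filter_eq_empty_iff]
        intro n hn h
        have := hexc n hn h
        rw [Ioc_eq_empty hYv] at this
        simp at this
        linarith
      rw [h0, card_empty, Nat.cast_zero]
      positivity
  · rw [show (2 : ℝ) * (Real.log N + 1) * (6 / Y) = 12 * (Real.log N + 1) / Y by ring]
    exact div_le_div_of_nonneg_right (by linarith) hY0.le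

end Pool.Agent.PPD
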