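import Pool.Agent.PPD.Defs

/-!
# PPD, second part: orders with few prime factors. Definitions

See `BLUEPRINT2.md`.
-/

set_option autoImplicit false

namespace Pool.Agent.PPD

open Finset Classical Pool.Agent.PPC

/-- The multiplicative correction factor of the sieve. -/
noncomputable def hh (m : ℕ) : ℝ := Real.exp (∑ p ∈ m.primeFactors, (2 : ℝ) / p)

/-- `z ^ ω(m)` times the correction factor. -/
noncomputable def fz (z : ℝ) (m : ℕ) : ℝ := z ^ (#m.primeFactors) * hh m

/-- No prime `l ≥ 5` with `l ^ 2 ≤ x` satisfies `R l n`. -/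
def Free (R : ℕ → ℕ → Prop) (x n : ℕ) : Prop := ∀ l : ℕ, l.Prime → 5 ≤ l → l * l ≤ x → ¬ R l n

end Pool.Agent.PPD
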