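import Pool.Agent.PPD.FSum

/-!
# Module PPD/FDyad: a sum over dyadic blocks

PROOF. Split the `m ≤ x / 2` by `j = Nat.log 2 (x / m)`, `1 ≤ j ≤ Nat.log 2 x`: then `2^j ≤ x / m < 2^(j+1)`, `m ≤ x / 2^j`, `log (x / m) ≥ j log 2`. The block contributes at most
`2^(j+1) / (j log 2) ∑_{m ≤ x / 2^j} fz z m ≤ C x / j * (log ⌊x / 2^j⌋ + 1)^(z-1)` (`fz_sum`; `2^(j+1) * (x / 2^j : ℕ) ≤ 2 x`). Let `L = Nat.log 2 x`. `⌊x / 2^j⌋ ≥ 2^(L - j)`, so
`(log ⌊x / 2^j⌋ + 1)^(z-1) ≤ ((L - j) log 2 + 1)^(z-1)` (`z - 1 ≤ 0`). For `j ≤ L / 2` this is `≤ C (log x)^(z-1)` and `∑ 1 / j ≤ log L + 1 ≤ log log x + C`. For `j > L / 2`: `1 / j ≤ 2 / L ≤ C / log x`, and with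
`i = L - j`: `∑_{i ≤ L} (i log 2 + 1)^(z-1) ≤ C (log x)^z` (`C` depends on `z`; compare with the integral, or: `(i+1)^(z-1) ≤ ((i+1)^z - i^z)/z`), giving `C (log x)^(z-1)` again.
-/

set_option autoImplicit false

namespace Pool.Agent.PPD

open Finset Classical Pool.Agent.PPC

theorem fdyad_step {z t : ℝ} (h0 : 0 < z) (h1 : z ≤ 1) (ht : 1 ≤ t) :
    z * t ^ (z - 1) ≤ t ^ z - (t - 1) ^ z := by
  have htp : 0 < t := by linarith
  have h := _root_.rpow_one_add_le_one_add_mul_self (s := -(1 / t)) (p := z)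
    (by have : 1 / t ≤ 1 := by rw [div_le_one htp]; exact ht
        linarith) h0.le h1
  have h2 : (t - 1) ^ z = t ^ z * (1 + -(1 / t)) ^ z := by
    rw [← Real.mul_rpow htp.le (by
      have : 1 / t ≤ 1 := by rw [div_le_one htp]; exact ht
      linarith)]
    congr 1
    field_simp
    ring
  have h3 : t ^ (z - 1) = t ^ z * (1 / t) := by
    rw [Real.rpow_sub_one htp.ne', one_div, div_eq_mul_inv]
  rw [h2, h3]
  have h4 : 0 < t ^ z := Real.rpow_pos_of_pos htp z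
  nlinarith

theorem fdyad_sum_rpow {z : ℝ} (h0 : 0 < z) (h1 : z ≤ 1) (n : ℕ) :
    ∑ i ∈ Icc 1 n, (i : ℝ) ^ (z - 1) ≤ (n : ℝ) ^ z / z := by
  induction n with
  | zero => simp [Real.zero_rpow h0.ne']
  | succ n ih =>
    rw [Finset.sum_Icc_succ_top (by omega)]
    have h := fdyad_step (t := ((n + 1 : ℕ) : ℝ)) h0 h1 (by push_cast; linarith [(Nat.cast_nonneg n : (0 : ℝ) ≤ n)])
    have h2 : (((n + 1 : ℕ) : ℝ) - 1) = n := by push_cast; ring
    rw [h2] at h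
    have h3 : ((n + 1 : ℕ) : ℝ) ^ (z - 1) ≤ (((n + 1 : ℕ) : ℝ) ^ z - (n : ℝ) ^ z) / z := by
      rw [le_div_iff₀ h0]
      linarith
    have h4 : (((n + 1 : ℕ) : ℝ) ^ z - (n : ℝ) ^ z) / z =
      ((n + 1 : ℕ) : ℝ) ^ z / z - (n : ℝ) ^ z / z := by ring
    linarith

theorem fdyad_T {z : ℝ} (h0 : 0 < z) (h1 : z ≤ 1) (L : ℕ) :
    ∑ j ∈ Icc 1 L, (1 / (j : ℝ)) * (((L + 1 - j : ℕ) : ℝ)) ^ (z - 1) ≤
      ((L : ℝ) + 1) ^ (z - 1) * (∑ j ∈ Icc 1 L, 1 / (j : ℝ) + 1 / z) := by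
  have hM : (0 : ℝ) < (L : ℝ) + 1 := by positivity
  have hterm : ∀ j ∈ Icc 1 L, (1 / (j : ℝ)) * (((L + 1 - j : ℕ) : ℝ)) ^ (z - 1) ≤
      ((L : ℝ) + 1) ^ (z - 1) * (1 / (j : ℝ)) +
        (1 / ((L : ℝ) + 1)) * (((L + 1 - j : ℕ) : ℝ)) ^ (z - 1) := by
    intro j hj
    rw [mem_Icc] at hj
    have hj0 : (0 : ℝ) < j := by exact_mod_cast hj.1
    have hk : (((L + 1 - j : ℕ) : ℝ)) = (L : ℝ) + 1 - j := by
      rw [Nat.cast_sub (by omega)]
      push_cast
      ring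
    have hk1 : (1 : ℝ) ≤ (L : ℝ) + 1 - j := by
      have : (j : ℝ) ≤ L := by exact_mod_cast hj.2
      linarith
    rw [hk]
    set k : ℝ := (L : ℝ) + 1 - j with hkd
    have hkp : 0 < k := by linarith
    have e1 : k ^ (z - 1) = k ^ z / k := Real.rpow_sub_one hkp.ne' z
    have e2 : ((L : ℝ) + 1) ^ (z - 1) = ((L : ℝ) + 1) ^ z / ((L : ℝ) + 1) :=
      Real.rpow_sub_one hM.ne' z
    have e3 : k ^ z ≤ ((L : ℝ) + 1) ^ z :=
      Real.rpow_le_rpow hkp.le (by linarith) h0.le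
    have e4 : (1 / (j : ℝ)) * (k ^ z / k) =
        k ^ z / ((L : ℝ) + 1) * (1 / (j : ℝ)) + (1 / ((L : ℝ) + 1)) * (k ^ z / k) := by
      have : (L : ℝ) + 1 = k + j := by rw [hkd]; ring
      rw [this]
      have : k + j ≠ 0 := by positivity
      field_simp
    rw [e1, e2, e4]
    have : k ^ z / ((L : ℝ) + 1) ≤ ((L : ℝ) + 1) ^ z / ((L : ℝ) + 1) := by gcongr
    have h5 : k ^ z / ((L : ℝ) + 1) * (1 / (j : ℝ)) ≤
        ((L : ℝ) + 1) ^ z / ((L : ℝ) + 1) * (1 / (j : ℝ)) := by gcongr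
    linarith
  have hrefl : ∑ j ∈ Icc 1 L, (((L + 1 - j : ℕ) : ℝ)) ^ (z - 1) =
      ∑ i ∈ Icc 1 L, (i : ℝ) ^ (z - 1) := by
    refine Finset.sum_nbij' (fun j => L + 1 - j) (fun j => L + 1 - j) ?_ ?_ ?_ ?_ ?_
    · intro j hj
      rw [mem_Icc] at hj ⊢
      omega
    · intro j hj
      rw [mem_Icc] at hj ⊢
      omega
    · intro j hj
      rw [mem_Icc] at hj
      show L + 1 - (L + 1 - j) = j
      omega
    · intro j hj
      rw [mem_Icc] at hj
      show L + 1 - (L + 1 - j) = j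
      omega
    · intro j hj
      rfl
  calc ∑ j ∈ Icc 1 L, (1 / (j : ℝ)) * (((L + 1 - j : ℕ) : ℝ)) ^ (z - 1)
      ≤ ∑ j ∈ Icc 1 L, (((L : ℝ) + 1) ^ (z - 1) * (1 / (j : ℝ)) +
        (1 / ((L : ℝ) + 1)) * (((L + 1 - j : ℕ) : ℝ)) ^ (z - 1)) := Finset.sum_le_sum hterm
    _ = ((L : ℝ) + 1) ^ (z - 1) * ∑ j ∈ Icc 1 L, (1 / (j : ℝ)) +
        (1 / ((L : ℝ) + 1)) * ∑ i ∈ Icc 1 L, (i : ℝ) ^ (z - 1) := by
      rw [Finset.sum_add_distrib, ← Finset.mul_sum, ← Finset.mul_sum, hrefl]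
    _ ≤ ((L : ℝ) + 1) ^ (z - 1) * ∑ j ∈ Icc 1 L, (1 / (j : ℝ)) +
        (1 / ((L : ℝ) + 1)) * (((L : ℝ) + 1) ^ z / z) := by
      have h := fdyad_sum_rpow h0 h1 L
      have h2 : (L : ℝ) ^ z / z ≤ ((L : ℝ) + 1) ^ z / z := by
        gcongr
        linarith
      gcongr
      exact h.trans h2
    _ = ((L : ℝ) + 1) ^ (z - 1) * (∑ j ∈ Icc 1 L, 1 / (j : ℝ) + 1 / z) := by
      rw [Real.rpow_sub_one hM.ne' z]
      field_simp

theorem fdyad_harm (L : ℕ) : ∑ j ∈ Icc 1 L, 1 / (j : ℝ) ≤ 1 + Real.log L := by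
  have h := harmonic_le_one_add_log L
  rw [harmonic_eq_sum_Icc] at h
  push_cast at h
  simpa [one_div] using h

theorem dyad_sum {z : ℝ} (h0 : 0 < z) (h1 : z ≤ 1) : ∃ C : ℝ, 1 ≤ C ∧ ∀ x : ℕ, 3 ≤ x →
    ∑ m ∈ Icc 1 (x / 2), fz z m * (((x / m : ℕ) : ℝ) / Real.log ((x / m : ℕ) : ℝ)) ≤
      C * x * (Real.log x) ^ (z - 1) * (Real.log (Real.log x) + C) := by
  obtain ⟨C0, hC0, hsum⟩ := fz_sum h0 h1
  have hfpos := (fz_facts h0 h1).1
  have ha0 : 0 < Real.log 2 := Real.log_pos (by norm_num)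
  have ha1 : Real.log 2 < 1 := by
    have := Real.log_two_lt_d9
    linarith
  have ha2 : 1 / 2 < Real.log 2 := by
    have := Real.log_two_gt_d9
    linarith
  set a := Real.log 2 with had
  set K : ℝ := 2 * C0 / a * 2 with hK
  have hKpos : 0 < K := by positivity
  refine ⟨max 1 (max K (2 + 1 / z)), le_max_left _ _, ?_⟩
  intro x hx
  set C : ℝ := max 1 (max K (2 + 1 / z)) with hC
  have hC1 : 1 ≤ C := le_max_left _ _
  have hCK : K ≤ C := (le_max_left _ _).trans (le_max_right _ _)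
  have hC3 : 2 + 1 / z ≤ C := (le_max_right _ _).trans (le_max_right _ _)
  set L := Nat.log 2 x with hL
  have hx0 : x ≠ 0 := by omega
  have hL1 : 1 ≤ L := by
    rw [hL]
    exact Nat.log_pos (by norm_num) (by omega)
  have hLx : 2 ^ L ≤ x := Nat.pow_log_le_self 2 hx0
  have hxL : x < 2 ^ (L + 1) := Nat.lt_pow_succ_log_self (by norm_num) x
  have hxr : (0 : ℝ) < x := by exact_mod_cast (by omega : 0 < x)
  have hlogx1 : 1 < Real.log x := by
    have h3 : Real.log 3 ≤ Real.log x := Real.log_le_log (by norm_num) (by exact_mod_cast hx)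
    have h4 : (1 : ℝ) < Real.log 3 := by
      have := Real.exp_one_lt_d9
      rw [Real.lt_log_iff_exp_lt (by norm_num)]
      linarith
    linarith
  have hlogxL : Real.log x ≤ (L : ℝ) + 1 := by
    have h3 : Real.log x ≤ Real.log ((2 : ℝ) ^ (L + 1)) :=
      Real.log_le_log hxr (by exact_mod_cast hxL.le)
    rw [Real.log_pow] at h3
    push_cast at h3
    have h4 : ((L : ℝ) + 1) * a ≤ ((L : ℝ) + 1) * 1 := by gcongr
    linarith
  have hLlog : (L : ℝ) * a ≤ Real.log x := by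
    have h3 : Real.log ((2 : ℝ) ^ L) ≤ Real.log x :=
      Real.log_le_log (by positivity) (by exact_mod_cast hLx)
    rwa [Real.log_pow] at h3
  -- the blocks
  have hmaps : ∀ m ∈ Icc 1 (x / 2), Nat.log 2 (x / m) ∈ Icc 1 L := by
    intro m hm
    rw [mem_Icc] at hm ⊢
    have h2 : 2 ≤ x / m := by
      rw [Nat.le_div_iff_mul_le (by omega)]
      omega
    exact ⟨Nat.log_pos (by norm_num) h2, Nat.log_mono_right (Nat.div_le_self x m)⟩
  rw [← Finset.sum_fiberwise_of_maps_to hmaps]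
  have hblock : ∀ j ∈ Icc 1 L,
      ∑ m ∈ (Icc 1 (x / 2)).filter (fun m => Nat.log 2 (x / m) = j),
        fz z m * (((x / m : ℕ) : ℝ) / Real.log ((x / m : ℕ) : ℝ)) ≤
      K * x * ((1 / (j : ℝ)) * (((L + 1 - j : ℕ) : ℝ)) ^ (z - 1)) := by
    intro j hj
    rw [mem_Icc] at hj
    have hj0 : (0 : ℝ) < j := by exact_mod_cast hj.1
    have h2j : (0 : ℝ) < 2 ^ j := by positivity
    have hb1 : ∀ m ∈ (Icc 1 (x / 2)).filter (fun m => Nat.log 2 (x / m) = j),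
        fz z m * (((x / m : ℕ) : ℝ) / Real.log ((x / m : ℕ) : ℝ)) ≤
          (2 ^ (j + 1) / (j * a)) * fz z m := by
      intro m hm
      rw [mem_filter, mem_Icc] at hm
      have hy2 : 2 ≤ x / m := by
        rw [Nat.le_div_iff_mul_le (by omega)]
        omega
      have hlo : 2 ^ j ≤ x / m := by
        rw [← hm.2]
        exact Nat.pow_log_le_self 2 (by omega)
      have hhi : x / m < 2 ^ (j + 1) := by
        rw [← hm.2]
        exact Nat.lt_pow_succ_log_self (by norm_num) _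
      have hlog : (j : ℝ) * a ≤ Real.log ((x / m : ℕ) : ℝ) := by
        have : Real.log ((2 : ℝ) ^ j) ≤ Real.log ((x / m : ℕ) : ℝ) :=
          Real.log_le_log (by positivity) (by exact_mod_cast hlo)
        rwa [Real.log_pow] at this
      have hja : 0 < (j : ℝ) * a := by positivity
      rw [mul_comm]
      have hf := hfpos m
      have : ((x / m : ℕ) : ℝ) / Real.log ((x / m : ℕ) : ℝ) ≤ 2 ^ (j + 1) / (j * a) := by
        apply div_le_div₀ (by positivity) _ hja hlog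
        exact_mod_cast hhi.le
      exact mul_le_mul_of_nonneg_right this hf.le
    have hsub : (Icc 1 (x / 2)).filter (fun m => Nat.log 2 (x / m) = j) ⊆ Icc 1 (x / 2 ^ j) := by
      intro m hm
      rw [mem_filter, mem_Icc] at hm
      have hy2 : 2 ≤ x / m := by
        rw [Nat.le_div_iff_mul_le (by omega)]
        omega
      have hlo : 2 ^ j ≤ x / m := by
        rw [← hm.2]
        exact Nat.pow_log_le_self 2 (by omega)
      rw [mem_Icc]
      refine ⟨hm.1.1, ?_⟩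
      rw [Nat.le_div_iff_mul_le (by positivity)]
      rw [Nat.le_div_iff_mul_le (by omega)] at hlo
      linarith [mul_comm m (2 ^ j)]
    have hY1 : 2 ^ (L - j) ≤ x / 2 ^ j := by
      rw [Nat.le_div_iff_mul_le (by positivity), ← pow_add]
      have : L - j + j = L := by omega
      rw [this]
      exact hLx
    have hY1' : 1 ≤ x / 2 ^ j := le_trans Nat.one_le_two_pow hY1
    have hs := hsum (x / 2 ^ j) hY1'
    have hw : (Real.log ((x / 2 ^ j : ℕ) : ℝ) + 1) ^ (z - 1) ≤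
        2 * (((L + 1 - j : ℕ) : ℝ)) ^ (z - 1) := by
      have hlog : ((L - j : ℕ) : ℝ) * a ≤ Real.log ((x / 2 ^ j : ℕ) : ℝ) := by
        have : Real.log ((2 : ℝ) ^ (L - j)) ≤ Real.log ((x / 2 ^ j : ℕ) : ℝ) :=
          Real.log_le_log (by positivity) (by exact_mod_cast hY1)
        rwa [Real.log_pow] at this
      have hk : ((L + 1 - j : ℕ) : ℝ) = ((L - j : ℕ) : ℝ) + 1 := by
        have : L + 1 - j = (L - j) + 1 := by omega
        rw [this]
        push_cast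
        ring
      have hkpos : (0 : ℝ) < ((L + 1 - j : ℕ) : ℝ) := by
        rw [hk]
        positivity
      have hge : a * ((L + 1 - j : ℕ) : ℝ) ≤ Real.log ((x / 2 ^ j : ℕ) : ℝ) + 1 := by
        rw [hk]
        nlinarith
      calc (Real.log ((x / 2 ^ j : ℕ) : ℝ) + 1) ^ (z - 1)
          ≤ (a * ((L + 1 - j : ℕ) : ℝ)) ^ (z - 1) :=
            Real.rpow_le_rpow_of_nonpos (by positivity) hge (by linarith)
        _ = a ^ (z - 1) * (((L + 1 - j : ℕ) : ℝ)) ^ (z - 1) :=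
            Real.mul_rpow ha0.le hkpos.le
        _ ≤ 2 * (((L + 1 - j : ℕ) : ℝ)) ^ (z - 1) := by
            have h5 : a ^ (z - 1) ≤ a ^ (-1 : ℝ) :=
              Real.rpow_le_rpow_of_exponent_ge ha0 ha1.le (by linarith)
            have h6 : a ^ (-1 : ℝ) ≤ 2 := by
              rw [Real.rpow_neg_one, inv_le_comm₀ ha0 (by norm_num)]
              linarith
            have h7 : 0 ≤ (((L + 1 - j : ℕ) : ℝ)) ^ (z - 1) := by positivity
            exact mul_le_mul_of_nonneg_right (h5.trans h6) h7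
    have hYx : (2 : ℝ) ^ (j + 1) * ((x / 2 ^ j : ℕ) : ℝ) ≤ 2 * x := by
      have h8 : 2 ^ j * (x / 2 ^ j) ≤ x := Nat.mul_div_le x (2 ^ j)
      have h9 : (2 : ℝ) ^ j * ((x / 2 ^ j : ℕ) : ℝ) ≤ x := by exact_mod_cast h8
      rw [pow_succ]
      linarith
    have hja : 0 < (j : ℝ) * a := by positivity
    calc ∑ m ∈ (Icc 1 (x / 2)).filter (fun m => Nat.log 2 (x / m) = j),
          fz z m * (((x / m : ℕ) : ℝ) / Real.log ((x / m : ℕ) : ℝ))
        ≤ ∑ m ∈ (Icc 1 (x / 2)).filter (fun m => Nat.log 2 (x / m) = j),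
          (2 ^ (j + 1) / (j * a)) * fz z m := Finset.sum_le_sum hb1
      _ ≤ ∑ m ∈ Icc 1 (x / 2 ^ j), (2 ^ (j + 1) / (j * a)) * fz z m := by
          apply Finset.sum_le_sum_of_subset_of_nonneg hsub
          intro m _ _
          have := hfpos m
          positivity
      _ = (2 ^ (j + 1) / (j * a)) * ∑ m ∈ Icc 1 (x / 2 ^ j), fz z m := by
          rw [Finset.mul_sum]
      _ ≤ (2 ^ (j + 1) / (j * a)) * (C0 * ((x / 2 ^ j : ℕ) : ℝ) *
            (Real.log ((x / 2 ^ j : ℕ) : ℝ) + 1) ^ (z - 1)) := by gcongr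
      _ ≤ (2 ^ (j + 1) / (j * a)) * (C0 * ((x / 2 ^ j : ℕ) : ℝ) *
            (2 * (((L + 1 - j : ℕ) : ℝ)) ^ (z - 1))) := by gcongr
      _ = (2 ^ (j + 1) * ((x / 2 ^ j : ℕ) : ℝ)) *
            (C0 / (j * a) * (2 * (((L + 1 - j : ℕ) : ℝ)) ^ (z - 1))) := by
          field_simp
      _ ≤ (2 * x) * (C0 / (j * a) * (2 * (((L + 1 - j : ℕ) : ℝ)) ^ (z - 1))) := by
          gcongr
      _ = K * x * ((1 / (j : ℝ)) * (((L + 1 - j : ℕ) : ℝ)) ^ (z - 1)) := by
          rw [hK]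
          field_simp
  have hLr : (0 : ℝ) < L := by exact_mod_cast hL1
  have hlogL : Real.log L ≤ Real.log (Real.log x) + 1 := by
    have h3 : (L : ℝ) ≤ Real.log x * 2 := by nlinarith
    have h4 : Real.log L ≤ Real.log (Real.log x * 2) := Real.log_le_log hLr h3
    rw [Real.log_mul (by linarith) (by norm_num)] at h4
    linarith
  have hll : 0 < Real.log (Real.log x) := Real.log_pos hlogx1
  calc ∑ j ∈ Icc 1 L, ∑ m ∈ (Icc 1 (x / 2)).filter (fun m => Nat.log 2 (x / m) = j),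
        fz z m * (((x / m : ℕ) : ℝ) / Real.log ((x / m : ℕ) : ℝ))
      ≤ ∑ j ∈ Icc 1 L, K * x * ((1 / (j : ℝ)) * (((L + 1 - j : ℕ) : ℝ)) ^ (z - 1)) :=
        Finset.sum_le_sum hblock
    _ = K * x * ∑ j ∈ Icc 1 L, (1 / (j : ℝ)) * (((L + 1 - j : ℕ) : ℝ)) ^ (z - 1) := by
        rw [Finset.mul_sum]
    _ ≤ K * x * (((L : ℝ) + 1) ^ (z - 1) * (∑ j ∈ Icc 1 L, 1 / (j : ℝ) + 1 / z)) := by
        have := fdyad_T h0 h1 L
        gcongr
    _ ≤ K * x * ((Real.log x) ^ (z - 1) * ((Real.log (Real.log x) + 1) + 1 + 1 / z)) := by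
        have h5 : ((L : ℝ) + 1) ^ (z - 1) ≤ (Real.log x) ^ (z - 1) :=
          Real.rpow_le_rpow_of_nonpos (by linarith) hlogxL (by linarith)
        have h6 := fdyad_harm L
        have h7 : ∑ j ∈ Icc 1 L, 1 / (j : ℝ) + 1 / z ≤
            (Real.log (Real.log x) + 1) + 1 + 1 / z := by linarith
        have h8 : 0 ≤ ∑ j ∈ Icc 1 L, 1 / (j : ℝ) + 1 / z := by positivity
        have h9 : 0 ≤ (Real.log x) ^ (z - 1) := Real.rpow_nonneg (by linarith) _
        have h10 := mul_le_mul h5 h7 h8 h9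
        exact mul_le_mul_of_nonneg_left h10 (by positivity)
    _ = K * x * (Real.log x) ^ (z - 1) * (Real.log (Real.log x) + (2 + 1 / z)) := by ring
    _ ≤ C * x * (Real.log x) ^ (z - 1) * (Real.log (Real.log x) + C) := by
        have h9 : 0 ≤ (Real.log x) ^ (z - 1) := Real.rpow_nonneg (by linarith) _
        have h10 : 0 ≤ Real.log (Real.log x) + (2 + 1 / z) := by positivity
        gcongr

end Pool.Agent.PPD
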