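import Pool.Agent.PPD.FDefs
import Pool.Agent.PPC.Part
import Pool.Agent.PPC.Count

/-!
# Module PPD/FEuler: logarithmic mean of `fz z`

PROOF. `fz z m = ∏_{p ∣ m} z exp (2 / p)` is multiplicative, `fz z (p ^ a) = z exp (2 / p)` for `a ≥ 1`. The sum over `m ≤ Y` of `fz z m / m` is at most the Euler product over the primes
`p ≤ Y`: `∏ (1 + z exp (2/p) / (p - 1))` (Mathlib: `EulerProduct.summable_and_hasSum_factoredNumbers_prod_filter_prime_tsum` or the version for `smoothNumbers`; or induction on the primes,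
splitting off the power of the new prime). `1 + t ≤ exp t`, `z exp (2/p) / (p - 1) ≤ z / p + 20 / p²` (`exp t ≤ 1 + 2 t` for `0 ≤ t ≤ 1`, `1/(p-1) ≤ 1/p + 2/p²`), and
`∑_{p ≤ Y} 1 / p ≤ log log Y + C` (`Pool.Agent.Sv.abs_sum_inv_sub_le`, or `PPC.sum_inv_primes_le` in Pool/Agent/PPC/Count.lean). So the product is at most `exp (z log log Y + C) = C' (log Y) ^ z`.
-/

set_option autoImplicit false

namespace Pool.Agent.PPD

open Finset Classical Pool.Agent.PPC

theorem fz_pos' {z : ℝ} (h0 : 0 < z) (m : ℕ) : 0 < fz z m := by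
  unfold fz hh
  positivity

theorem fz_one' (z : ℝ) : fz z 1 = 1 := by
  simp [fz, hh]

theorem fz_mul' (z : ℝ) {m n : ℕ} (h : Nat.Coprime m n) : fz z (m * n) = fz z m * fz z n := by
  unfold fz hh
  rw [h.primeFactors_mul, card_union_of_disjoint h.disjoint_primeFactors,
    sum_union h.disjoint_primeFactors, pow_add, Real.exp_add]
  ring

theorem fz_pow' (z : ℝ) {p : ℕ} (hp : p.Prime) {n : ℕ} (hn : n ≠ 0) :
    fz z (p ^ n) = z * Real.exp (2 / p) := by
  unfold fz hh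
  rw [Nat.primeFactors_prime_pow hn hp]
  simp

theorem fz_facts {z : ℝ} (h0 : 0 < z) (h1 : z ≤ 1) : (∀ m : ℕ, 0 < fz z m) ∧ fz z 1 = 1 ∧
    ∀ d m : ℕ, IsPrimePow d → m ≠ 0 → fz z (d * m) ≤ 3 * fz z m := by
  refine ⟨fz_pos' h0, fz_one' z, ?_⟩
  intro d m hd hm
  obtain ⟨p, k, hp, hk, rfl⟩ := hd
  have hp' : p.Prime := hp.nat_prime
  have hfp : (p ^ k * m).primeFactors = insert p m.primeFactors := by
    rw [Nat.primeFactors_mul (pow_ne_zero _ hp'.ne_zero) hm,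
      Nat.primeFactors_prime_pow hk.ne' hp']
    rfl
  have hpos := fz_pos' h0 m
  by_cases h : p ∈ m.primeFactors
  · have e : fz z (p ^ k * m) = fz z m := by
      unfold fz hh
      rw [hfp, insert_eq_of_mem h]
    rw [e]
    linarith
  · have e : fz z (p ^ k * m) = (z * Real.exp (2 / p)) * fz z m := by
      unfold fz hh
      rw [hfp, card_insert_of_notMem h, sum_insert h, pow_succ, Real.exp_add]
      ring
    rw [e]
    refine mul_le_mul_of_nonneg_right ?_ hpos.le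
    have h2 : (2 : ℝ) ≤ p := by exact_mod_cast hp'.two_le
    have h3 : (2 : ℝ) / p ≤ 1 := by
      rw [div_le_one (by linarith)]
      exact h2
    have h4 : Real.exp (2 / p) ≤ Real.exp 1 := Real.exp_le_exp.2 h3
    have h5 := Real.exp_one_lt_d9
    have h6 : 0 < Real.exp (2 / (p : ℝ)) := Real.exp_pos _
    nlinarith

theorem feuler_term {z : ℝ} (h0 : 0 < z) (h1 : z ≤ 1) {p : ℕ} (hp : p.Prime) :
    z * Real.exp (2 / p) / ((p : ℝ) - 1) ≤ z * (1 / p) + 20 * (1 / (p : ℝ) ^ 2) := by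
  have h2 : (2 : ℝ) ≤ p := by exact_mod_cast hp.two_le
  have hpp : (0 : ℝ) < p := by linarith
  have h3 : (2 : ℝ) / p ≤ 1 := by
    rw [div_le_one (by linarith)]
    exact h2
  have h30 : 0 ≤ (2 : ℝ) / p := by positivity
  have h4 : Real.exp (2 / p) ≤ 1 + 2 * (2 / p) := by
    have := Real.abs_exp_sub_one_sub_id_le (x := (2 : ℝ) / p) (by rw [abs_of_nonneg h30]; exact h3)
    rw [abs_le] at this
    nlinarith [this.2]
  rw [div_le_iff₀ (by linarith)]
  set u : ℝ := 1 / p with hu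
  have hu0 : 0 < u := by positivity
  have hpu : (p : ℝ) = 1 / u := by rw [hu]; field_simp
  have hu2 : u ≤ 1 / 2 := by
    rw [hu]
    exact one_div_le_one_div_of_le (by norm_num) h2
  have e1 : (2 : ℝ) / p = 2 * u := by rw [hu]; ring
  have e2 : (1 : ℝ) / (p : ℝ) ^ 2 = u ^ 2 := by rw [hu]; ring
  have e3 : (z * u + 20 * u ^ 2) * ((p : ℝ) - 1) = z + 20 * u - z * u - 20 * u ^ 2 := by
    rw [hpu]
    field_simp
    ring
  rw [e2, e3]
  rw [e1] at h4 ⊢
  have h5 : z * Real.exp (2 * u) ≤ z * (1 + 2 * (2 * u)) := mul_le_mul_of_nonneg_left h4 h0.le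
  nlinarith

theorem feuler_tsum (z : ℝ) {p : ℕ} (hp : p.Prime) :
    HasSum (fun n : ℕ => fz z (p ^ n) / ((p ^ n : ℕ) : ℝ))
      (1 + z * Real.exp (2 / p) / ((p : ℝ) - 1)) := by
  have h2 : (2 : ℝ) ≤ p := by exact_mod_cast hp.two_le
  have hpp : (0 : ℝ) < p := by linarith
  have hg : HasSum (fun n : ℕ => ((p : ℝ)⁻¹) ^ n) (1 - (p : ℝ)⁻¹)⁻¹ :=
    hasSum_geometric_of_lt_one (by positivity) (inv_lt_one_of_one_lt₀ (by linarith))
  have h1 : HasSum (fun n : ℕ => fz z (p ^ (n + 1)) / ((p ^ (n + 1) : ℕ) : ℝ))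
      (z * Real.exp (2 / p) / ((p : ℝ) - 1)) := by
    have := hg.mul_left (z * Real.exp (2 / p) * (p : ℝ)⁻¹)
    have e : z * Real.exp (2 / p) * (p : ℝ)⁻¹ * (1 - (p : ℝ)⁻¹)⁻¹ =
        z * Real.exp (2 / p) / ((p : ℝ) - 1) := by
      have h3 : (p : ℝ) - 1 ≠ 0 := by linarith
      have h4 : (1 - (p : ℝ)⁻¹) ≠ 0 := by
        have : (p : ℝ)⁻¹ ≤ 1 / 2 := by
          rw [inv_eq_one_div]
          exact one_div_le_one_div_of_le (by norm_num) h2
        linarith
      field_simp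
    rw [e] at this
    have e2 : (fun n : ℕ => fz z (p ^ (n + 1)) / ((p ^ (n + 1) : ℕ) : ℝ)) =
        fun n : ℕ => z * Real.exp (2 / p) * (p : ℝ)⁻¹ * ((p : ℝ)⁻¹) ^ n := by
      funext n
      rw [fz_pow' z hp (Nat.succ_ne_zero n)]
      push_cast
      rw [pow_succ, inv_pow, div_eq_mul_inv, mul_inv]
      ring
    rw [e2]
    exact this
  rw [← hasSum_nat_add_iff' 1]
  simpa [fz_one'] using h1

theorem feuler_prod {z : ℝ} (h0 : 0 < z) (Y : ℕ) :
    ∑ m ∈ Icc 1 Y, fz z m / m ≤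
      ∏ p ∈ (Icc 1 Y).filter Nat.Prime, (1 + z * Real.exp (2 / p) / ((p : ℝ) - 1)) := by
  have key := EulerProduct.summable_and_hasSum_factoredNumbers_prod_filter_prime_tsum
    (f := fun m : ℕ => fz z m / (m : ℝ)) (by simp [fz_one'])
    (by
      intro m n h
      rw [fz_mul' z h]
      push_cast
      ring)
    (by
      intro p hp
      have := (feuler_tsum z hp).summable
      exact this.norm) (Icc 1 Y)
  have hprod : ∏ p ∈ (Icc 1 Y).filter Nat.Prime, ∑' n : ℕ, fz z (p ^ n) / ((p ^ n : ℕ) : ℝ) =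
      ∏ p ∈ (Icc 1 Y).filter Nat.Prime, (1 + z * Real.exp (2 / p) / ((p : ℝ) - 1)) := by
    refine prod_congr rfl fun p hp => ?_
    exact (feuler_tsum z (mem_filter.1 hp).2).tsum_eq
  have hs := key.2
  rw [hprod] at hs
  have hmem : ∀ m ∈ Icc 1 Y, m ∈ Nat.factoredNumbers (Icc 1 Y) := by
    intro m hm
    rw [mem_Icc] at hm
    rw [Nat.mem_factoredNumbers']
    intro p hp hpm
    rw [mem_Icc]
    exact ⟨hp.pos, (Nat.le_of_dvd hm.1 hpm).trans hm.2⟩
  have h1 : ∑ m ∈ Icc 1 Y, fz z m / (m : ℝ) =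
      ∑ m ∈ (Icc 1 Y).attach.map ⟨fun m => (⟨m.1, hmem m.1 m.2⟩ : Nat.factoredNumbers (Icc 1 Y)),
        fun a b h => by
          apply Subtype.ext
          exact congrArg (fun t : Nat.factoredNumbers (Icc 1 Y) => (t : ℕ)) h⟩,
        fz z m / ((m : ℕ) : ℝ) := by
    rw [sum_map]
    simp only [Function.Embedding.coeFn_mk]
    exact (sum_attach (Icc 1 Y) (fun m => fz z m / (m : ℝ))).symm
  rw [h1]
  refine sum_le_hasSum _ (fun m _ => ?_) hs
  have := fz_pos' h0 (m : ℕ)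
  positivity

theorem fz_log {z : ℝ} (h0 : 0 < z) (h1 : z ≤ 1) : ∃ C : ℝ, 0 < C ∧ ∀ Y : ℕ, 2 ≤ Y →
    ∑ m ∈ Icc 1 Y, fz z m / m ≤ C * (Real.log Y) ^ z := by
  obtain ⟨C1, hC1, H1⟩ := sum_inv_primes_le
  have hsum : Summable (fun n : ℕ => 1 / (n : ℝ) ^ 2) :=
    Real.summable_one_div_nat_pow.2 (by norm_num)
  set C2 : ℝ := ∑' n : ℕ, 1 / (n : ℝ) ^ 2 with hC2
  refine ⟨Real.exp (C1 + 1 + 20 * C2), Real.exp_pos _, fun Y hY => ?_⟩
  have hlY : 0 < Real.log Y := Real.log_pos (by exact_mod_cast (by omega : 1 < Y))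
  refine (feuler_prod h0 Y).trans ?_
  have p1 : ∏ p ∈ (Icc 1 Y).filter Nat.Prime, (1 + z * Real.exp (2 / p) / ((p : ℝ) - 1)) ≤
      ∏ p ∈ (Icc 1 Y).filter Nat.Prime, Real.exp (z * (1 / p) + 20 * (1 / (p : ℝ) ^ 2)) := by
    refine prod_le_prod (fun p hp => ?_) (fun p hp => ?_)
    · have h2 : (2 : ℝ) ≤ p := by exact_mod_cast (mem_filter.1 hp).2.two_le
      have h3 : 0 ≤ z * Real.exp (2 / p) / ((p : ℝ) - 1) :=
        div_nonneg (mul_nonneg h0.le (Real.exp_pos _).le) (by linarith)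
      linarith
    · have := feuler_term h0 h1 (mem_filter.1 hp).2
      have h4 := Real.add_one_le_exp (z * (1 / p) + 20 * (1 / (p : ℝ) ^ 2))
      linarith
  refine p1.trans ?_
  rw [← Real.exp_sum, Real.rpow_def_of_pos hlY, ← Real.exp_add]
  refine Real.exp_le_exp.2 ?_
  rw [sum_add_distrib, ← mul_sum, ← mul_sum]
  have q1 : ∑ p ∈ (Icc 1 Y).filter Nat.Prime, (1 / (p : ℝ) ^ 2) ≤ C2 :=
    hsum.sum_le_tsum _ (fun _ _ => by positivity)
  have q2 : ∑ p ∈ (Icc 1 Y).filter Nat.Prime, (1 / (p : ℝ)) ≤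
      Real.log (Real.log Y) + C1 + 1 := by
    have hsub : (Icc 1 Y).filter Nat.Prime ⊆ ((Icc 5 Y).filter Nat.Prime) ∪ {2, 3} := by
      intro p hp
      rw [mem_filter, mem_Icc] at hp
      rw [mem_union, mem_filter, mem_Icc, mem_insert, mem_singleton]
      by_cases h5 : 5 ≤ p
      · exact Or.inl ⟨⟨h5, hp.1.2⟩, hp.2⟩
      · right
        have h6 := hp.2.two_le
        have h7 : p ≠ 4 := by
          rintro rfl
          exact absurd hp.2 (by norm_num)
        omega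
    have := H1 Y hY
    calc ∑ p ∈ (Icc 1 Y).filter Nat.Prime, (1 / (p : ℝ))
        ≤ ∑ p ∈ ((Icc 5 Y).filter Nat.Prime) ∪ {2, 3}, (1 / (p : ℝ)) :=
          sum_le_sum_of_subset_of_nonneg hsub (fun _ _ _ => by positivity)
      _ ≤ ∑ p ∈ (Icc 5 Y).filter Nat.Prime, (1 / (p : ℝ)) + ∑ p ∈ ({2, 3} : Finset ℕ), (1 / (p : ℝ)) := by
          rw [← sum_union_inter]
          have : 0 ≤ ∑ p ∈ (Icc 5 Y).filter Nat.Prime ∩ {2, 3}, (1 / (p : ℝ)) :=
            sum_nonneg fun _ _ => by positivity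
          linarith
      _ ≤ _ := by
          rw [sum_pair (by norm_num)]
          norm_num
          norm_num at this
          linarith
  have q3 : z * ∑ p ∈ (Icc 1 Y).filter Nat.Prime, (1 / (p : ℝ)) ≤
      z * (Real.log (Real.log Y) + C1 + 1) := mul_le_mul_of_nonneg_left q2 h0.le
  nlinarith

end Pool.Agent.PPD
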