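import Pool.Agent.PPD.CountG

/-!
# Module PPD/FinalG: the theorem for general `x`

PROOF. Follow `PPC.density` (Pool/Agent/PPC/Density.lean). For `ε ≥ 3/2` trivial. For `ε < 3/2` choose `k ≥ 1` with `1 / 2^k ≤ ε / 2`; `δ' = min δ (1/2)`;
`count_G` gives `s, J₀`; take `S ≥ s / δ'` an integer, `S ≥ s + 1`, and `A = 2 S`. For `x < (8 ^ (2 ^ J₀)) ^ S` the claim holds with a large constant. Otherwise
`Pool.Agent.TotGap.exists_scale` gives `J ≥ J₀` with `w ^ S ≤ x < (w²) ^ S`, so `log x ≤ 2 S log w = A lw J`. Put `Z = ⌊x ^ (1 - δ')⌋₊ ≥ 1`. Then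
`w ^ s ≤ (x ^ (1/S)) ^ s ≤ x ^ δ'`, so `w ^ s Z ≤ x`. `Wit R ⌊x ^ (1 - δ)⌋₊ n → Wit R Z n` (`x ^ (1 - δ) ≤ x ^ (1 - δ')`).
`(log (lw J) + C) ^ (k + 3) ≤ C₂ (lw J) ^ (ε / 2)`, and `lw J ≥ log x / A`.
-/

set_option autoImplicit false

namespace Pool.Agent.PPD

open Finset Classical Pool.Agent.PPC

private lemma log2_pos : 0 < Real.log 2 := Real.log_pos (by norm_num)

private lemma log2_le {x : ℕ} (hx : 2 ≤ x) : Real.log 2 ≤ Real.log x :=
  Real.log_le_log (by norm_num) (by exact_mod_cast hx)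

private lemma triv_bound {A x L M : ℝ} (hA : A ≤ x) (hx : 0 ≤ x) (hL : 0 < L) (hM : L ≤ M) :
    A ≤ M * x / L := by
  rw [le_div_iff₀ hL]
  calc A * L ≤ x * L := mul_le_mul_of_nonneg_right hA hL.le
    _ ≤ x * M := mul_le_mul_of_nonneg_left hM hx
    _ = M * x := mul_comm _ _

private lemma cnt_le {P : ℕ → Prop} {inst : DecidablePred P} (x : ℕ) :
    (#(@filter ℕ P inst (Icc 1 x)) : ℝ) ≤ x := by
  have : #(@filter ℕ P inst (Icc 1 x)) ≤ x := (card_filter_le _ _).trans (by simp)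
  exact_mod_cast this

private lemma wit_mono {R : ℕ → ℕ → Prop} {Z Z' n : ℕ} (h : Z ≤ Z') (hw : Wit R Z n) :
    Wit R Z' n := by
  rcases hw with h1 | ⟨r, hr, h5, hrZ, hrn⟩
  · exact Or.inl h1
  · exact Or.inr ⟨r, hr, h5, hrZ.trans h, hrn⟩

theorem final_G {R : ℕ → ℕ → Prop} {ρ : ℕ → ℕ} (hc : Cond2 R ρ) {ε δ : ℝ} (hε : 0 < ε)
    (hδ : 0 < δ) :
    ∃ C : ℝ, ∀ x : ℕ, 2 ≤ x →
      (#((Icc 1 x).filter (fun n => Adm R n ∧ ¬ IsPrimePow n ∧
        Wit R ⌊(x : ℝ) ^ (1 - δ)⌋₊ n)) : ℝ) ≤ C * x / (Real.log x) ^ (3 / 2 - ε) := by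
  rcases le_or_gt (3 / 2) ε with h1 | h1
  · refine ⟨(Real.log 2) ^ (3 / 2 - ε), fun x hx => ?_⟩
    have hL : 0 < Real.log x := log2_pos.trans_le (log2_le hx)
    exact triv_bound (cnt_le x) (Nat.cast_nonneg x) (Real.rpow_pos_of_pos hL _)
      (Real.rpow_le_rpow_of_nonpos log2_pos (log2_le hx) (by linarith))
  · obtain ⟨k, hk1, hk⟩ : ∃ k : ℕ, 1 ≤ k ∧ (1 / 2 ^ k : ℝ) ≤ ε / 2 := by
      obtain ⟨n, hn⟩ := exists_pow_lt_of_lt_one (y := (1 / 2 : ℝ)) (half_pos hε) (by norm_num)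
      refine ⟨n + 1, by omega, ?_⟩
      have h2 : (1 / 2 ^ (n + 1) : ℝ) = (1 / 2) ^ n * (1 / 2) := by
        rw [← pow_succ, one_div_pow]
      rw [h2]
      have h3 : (0 : ℝ) < (1 / 2) ^ n := by positivity
      nlinarith
    obtain ⟨s, J₀, hcount⟩ := count_G hc k hk1
    set δ' : ℝ := min δ (1 / 2) with hδ'
    have hδ'0 : 0 < δ' := lt_min hδ (by norm_num)
    have hδ'1 : δ' ≤ 1 / 2 := min_le_right _ _
    have hδ'δ : δ' ≤ δ := min_le_left _ _
    set S : ℕ := ⌈(s : ℝ) / δ'⌉₊ + s + 1 with hS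
    have hS1 : 1 ≤ S := by omega
    have hSpos : (0 : ℝ) < S := by exact_mod_cast hS1
    have hsS : (s : ℝ) / S ≤ δ' := by
      rw [div_le_iff₀ hSpos]
      have h2 : (s : ℝ) / δ' ≤ S := by
        have h3 := Nat.le_ceil ((s : ℝ) / δ')
        have h4 : ((⌈(s : ℝ) / δ'⌉₊ : ℕ) : ℝ) ≤ S := by
          exact_mod_cast (by omega : ⌈(s : ℝ) / δ'⌉₊ ≤ S)
        exact h3.trans h4
      rw [div_le_iff₀ hδ'0] at h2
      linarith
    have hA1 : (1 : ℝ) ≤ 2 * S := by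
      have : (1 : ℝ) ≤ S := by exact_mod_cast hS1
      linarith
    obtain ⟨C₁, hC₁, hcount⟩ := hcount (2 * S) hA1
    set X₀ : ℕ := (8 ^ (2 ^ J₀)) ^ S with hX₀
    have hX₀8 : 8 ≤ X₀ := by
      calc 8 = (8 ^ 1) ^ 1 := by norm_num
        _ ≤ (8 ^ (2 ^ J₀)) ^ 1 := Nat.pow_le_pow_left (Nat.pow_le_pow_right (by norm_num)
            Nat.one_le_two_pow) _
        _ ≤ X₀ := Nat.pow_le_pow_right (by positivity) hS1
    have hkpos : (0 : ℝ) < ((k + 3 : ℕ) : ℝ) := by exact_mod_cast (by omega : 0 < k + 3)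
    set η : ℝ := ε / (2 * ((k + 3 : ℕ) : ℝ)) with hη
    have hηpos : 0 < η := by positivity
    set C₂ : ℝ := (1 / η + C₁) ^ (k + 3) with hC₂
    have hC₂pos : 0 < C₂ := by positivity
    set M : ℝ := C₁ * C₂ * (2 * S) ^ (3 / 2 - ε) with hM
    have hMpos : 0 ≤ M := by positivity
    have hlX : 0 < Real.log X₀ := Real.log_pos (by exact_mod_cast (by omega : 1 < X₀))
    have hNpos : 0 ≤ (Real.log X₀) ^ (3 / 2 - ε) := (Real.rpow_pos_of_pos hlX _).le
    refine ⟨M + (Real.log X₀) ^ (3 / 2 - ε), fun x hx => ?_⟩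
    have hL : 0 < Real.log x := log2_pos.trans_le (log2_le hx)
    have hLp : 0 < (Real.log x) ^ (3 / 2 - ε) := Real.rpow_pos_of_pos hL _
    have hxpos : (0 : ℝ) < x := by exact_mod_cast (by omega : 0 < x)
    have hx1 : (1 : ℝ) ≤ x := by exact_mod_cast (by omega : 1 ≤ x)
    rcases lt_or_ge x X₀ with hxX | hxX
    · refine triv_bound (cnt_le x) (Nat.cast_nonneg x) hLp ?_
      have : (Real.log x) ^ (3 / 2 - ε) ≤ (Real.log X₀) ^ (3 / 2 - ε) :=
        Real.rpow_le_rpow hL.le (Real.log_le_log hxpos (by exact_mod_cast hxX.le)) (by linarith)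
      linarith
    · obtain ⟨J, hJ, hwx, hxw⟩ := Pool.Agent.TotGap.exists_scale (a := 8) (by norm_num)
        hS1 hxX
      have hw8 : (8 : ℕ) ≤ 8 ^ (2 ^ J) := by
        calc 8 = 8 ^ 1 := by norm_num
          _ ≤ 8 ^ (2 ^ J) := Nat.pow_le_pow_right (by norm_num) Nat.one_le_two_pow
      set t : ℝ := lw J with ht
      have ht1 : 1 ≤ t := by
        rw [ht]
        unfold lw
        rw [Real.le_log_iff_exp_le (by exact_mod_cast (by omega : 0 < 8 ^ (2 ^ J)))]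
        have h3 : Real.exp 1 ≤ 8 := by
          have := Real.exp_one_lt_d9
          linarith
        exact h3.trans (by exact_mod_cast hw8)
      have htpos : 0 < t := by linarith
      have hlogx : Real.log x ≤ 2 * S * t := by
        have h4 : (x : ℝ) ≤ ((8 ^ (2 ^ J) : ℕ) : ℝ) ^ (2 * S) := by
          have h5 : x ≤ (8 ^ (2 ^ J)) ^ (2 * S) := by
            refine hxw.le.trans (le_of_eq ?_)
            rw [← pow_mul, ← pow_mul]
            congr 1
            ring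
          exact_mod_cast h5
        have h6 := Real.log_le_log hxpos h4
        rw [Real.log_pow] at h6
        rw [ht]
        unfold lw
        push_cast at h6 ⊢
        linarith
      -- the bound for the witnesses
      set Z : ℕ := ⌊(x : ℝ) ^ (1 - δ')⌋₊ with hZ
      have hZ1 : 1 ≤ Z := by
        rw [hZ, Nat.one_le_floor_iff]
        exact Real.one_le_rpow hx1 (by linarith)
      have hwZ : (8 ^ (2 ^ J)) ^ s * Z ≤ x := by
        have h2 : (((8 ^ (2 ^ J) : ℕ) : ℝ)) ^ s ≤ (x : ℝ) ^ δ' := by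
          have h3 : (((8 ^ (2 ^ J) : ℕ) : ℝ)) ^ S ≤ x := by exact_mod_cast hwx
          have hw0 : (0 : ℝ) ≤ ((8 ^ (2 ^ J) : ℕ) : ℝ) := Nat.cast_nonneg _
          calc (((8 ^ (2 ^ J) : ℕ) : ℝ)) ^ s
              = ((((8 ^ (2 ^ J) : ℕ) : ℝ)) ^ S) ^ ((s : ℝ) / S) := by
                rw [← Real.rpow_natCast _ S, ← Real.rpow_mul hw0, mul_div_cancel₀ _ hSpos.ne',
                  Real.rpow_natCast]
            _ ≤ (x : ℝ) ^ ((s : ℝ) / S) :=
                Real.rpow_le_rpow (by positivity) h3 (by positivity)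
            _ ≤ (x : ℝ) ^ δ' := Real.rpow_le_rpow_of_exponent_le hx1 hsS
        have h4 : ((Z : ℕ) : ℝ) ≤ (x : ℝ) ^ (1 - δ') := Nat.floor_le (by positivity)
        have h5 : (((8 ^ (2 ^ J) : ℕ) : ℝ)) ^ s * (Z : ℝ) ≤ x := by
          calc (((8 ^ (2 ^ J) : ℕ) : ℝ)) ^ s * (Z : ℝ) ≤ (x : ℝ) ^ δ' * (x : ℝ) ^ (1 - δ') :=
                mul_le_mul h2 h4 (by positivity) (by positivity)
            _ = x := by
                rw [← Real.rpow_add hxpos]
                simp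
        exact_mod_cast h5
      have hZZ : ⌊(x : ℝ) ^ (1 - δ)⌋₊ ≤ Z :=
        Nat.floor_le_floor (Real.rpow_le_rpow_of_exponent_le hx1 (by linarith))
      have hcx := hcount J hJ x Z hZ1 hwZ hlogx
      have hnum : (Real.log t + C₁) ^ (k + 3) ≤ C₂ * t ^ (ε / 2) := by
        have h7 : Real.log t ≤ t ^ η / η := Real.log_le_rpow_div htpos.le hηpos
        have h8 : (1 : ℝ) ≤ t ^ η := Real.one_le_rpow ht1 hηpos.le
        have h9 : Real.log t + C₁ ≤ (1 / η + C₁) * t ^ η := by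
          have : C₁ ≤ C₁ * t ^ η := le_mul_of_one_le_right (by linarith) h8
          have h10 : t ^ η / η = 1 / η * t ^ η := by ring
          rw [add_mul]
          linarith
        have h11 : 0 ≤ Real.log t + C₁ := by
          have := Real.log_nonneg ht1
          linarith
        calc (Real.log t + C₁) ^ (k + 3) ≤ ((1 / η + C₁) * t ^ η) ^ (k + 3) :=
              pow_le_pow_left₀ h11 h9 _
          _ = C₂ * (t ^ η) ^ (k + 3) := by rw [mul_pow]
          _ = C₂ * t ^ (ε / 2) := by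
            rw [← Real.rpow_natCast (t ^ η) (k + 3), ← Real.rpow_mul htpos.le]
            congr 2
            rw [hη]
            field_simp
      have hden : t ^ (3 / 2 - ε / 2) ≤ t ^ (3 / 2 - 1 / 2 ^ k : ℝ) :=
        Real.rpow_le_rpow_of_exponent_le ht1 (by linarith)
      have htε : 0 < t ^ (3 / 2 - ε / 2) := Real.rpow_pos_of_pos htpos _
      have hA : (#((Icc 1 x).filter (fun n => Adm R n ∧ ¬ IsPrimePow n ∧ Wit R Z n)) : ℝ) ≤
          C₁ * C₂ * x / t ^ (3 / 2 - ε) := by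
        calc (#((Icc 1 x).filter (fun n => Adm R n ∧ ¬ IsPrimePow n ∧ Wit R Z n)) : ℝ) ≤
            C₁ * x * (Real.log t + C₁) ^ (k + 3) / t ^ (3 / 2 - 1 / 2 ^ k : ℝ) := hcx
          _ ≤ C₁ * x * (C₂ * t ^ (ε / 2)) / t ^ (3 / 2 - ε / 2) := by
            apply div_le_div₀ (by positivity) _ htε hden
            exact mul_le_mul_of_nonneg_left hnum (by positivity)
          _ = C₁ * C₂ * x / t ^ (3 / 2 - ε) := by
            have h12 : t ^ (3 / 2 - ε / 2) = t ^ (3 / 2 - ε) * t ^ (ε / 2) := by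
              rw [← Real.rpow_add htpos]
              congr 1
              ring
            rw [h12]
            have h13 : 0 < t ^ (ε / 2) := Real.rpow_pos_of_pos htpos _
            have h14 : 0 < t ^ (3 / 2 - ε) := Real.rpow_pos_of_pos htpos _
            field_simp
      have hB : (Real.log x) ^ (3 / 2 - ε) ≤ (2 * S) ^ (3 / 2 - ε) * t ^ (3 / 2 - ε) := by
        rw [← Real.mul_rpow (by positivity) htpos.le]
        exact Real.rpow_le_rpow hL.le hlogx (by linarith)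
      have hC : C₁ * C₂ * x / t ^ (3 / 2 - ε) ≤ M * x / (Real.log x) ^ (3 / 2 - ε) := by
        rw [div_le_div_iff₀ (Real.rpow_pos_of_pos htpos _) hLp]
        calc C₁ * C₂ * x * (Real.log x) ^ (3 / 2 - ε)
            ≤ C₁ * C₂ * x * ((2 * S) ^ (3 / 2 - ε) * t ^ (3 / 2 - ε)) :=
              mul_le_mul_of_nonneg_left hB (by positivity)
          _ = M * x * t ^ (3 / 2 - ε) := by rw [hM]; ring
      have hsub : (#((Icc 1 x).filter (fun n => Adm R n ∧ ¬ IsPrimePow n ∧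
          Wit R ⌊(x : ℝ) ^ (1 - δ)⌋₊ n)) : ℝ) ≤
          (#((Icc 1 x).filter (fun n => Adm R n ∧ ¬ IsPrimePow n ∧ Wit R Z n)) : ℝ) := by
        refine Nat.cast_le.2 (card_le_card ?_)
        intro n hn
        rw [mem_filter] at hn ⊢
        exact ⟨hn.1, hn.2.1, hn.2.2.1, wit_mono hZZ hn.2.2.2⟩
      refine (hsub.trans (hA.trans hC)).trans ?_
      apply div_le_div_of_nonneg_right _ hLp.le
      exact mul_le_mul_of_nonneg_right (by linarith) hxpos.le

end Pool.Agent.PPD
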