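import Pool.Agent.PPD.FLog
import Pool.Agent.PPD.FinalG

/-!
# Module PPD/FFew: admissible integers with few prime factors

PROOF. `free_few`: (Rankin) for `n ≤ x` with `ω(n) ≤ c log log x`: `1 ≤ c ^ (ω(n) - c log log x)`, so the count is at most `(log x)^(-c log c) ∑_{Free} c ^ ω(n)`, and
`∑_{Free} c ^ ω(n) ≤ √x + (2 / log x) ∑_{Free} c ^ ω(n) log n ≤ C x (log x)^(c-2) (log log x + C)` (`free_log` with `z = c`, `√x ≤ C x (log x)^(c-2)`). The exponent of `log x` is
`-(2 - c + c log c) < -(1 + η)`, and `log log x + C ≤ C' (log x)^ε`. Small `x`: large constant (for `x = 2`, `log log x < 0`: the bound `count ≤ x` is enough for all small `x`).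
`few_adm`: an `n` in the set with `Wit R ⌊x ^ (1 - 1/2)⌋₊ n` is counted by `final_G` with `δ = 1/2`, `ε = 1/2 - η` (exponent `1 + η`); otherwise there is no prime `r ≥ 5`, `r * r ≤ x`, with
`R r n` (`r ≤ √x`), so `Free R x n`.
-/

set_option autoImplicit false

namespace Pool.Agent.PPD

open Finset Classical Pool.Agent.PPC

theorem free_few {R : ℕ → ℕ → Prop} {ρ : ℕ → ℕ} (hc : Cond2 R ρ) {c η : ℝ} (h0 : 0 < c)
    (h1 : c < 1) (hη : η < 1 - c + c * Real.log c) :
    ∃ C : ℝ, ∀ x : ℕ, 2 ≤ x →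
      (#((Icc 1 x).filter (fun n => Free R x n ∧
        (#n.primeFactors : ℝ) ≤ c * Real.log (Real.log x))) : ℝ) ≤
          C * x / (Real.log x) ^ (1 + η) := by
  obtain ⟨C1, hC1, H⟩ := free_log hc h0 h1.le
  set ε : ℝ := 1 - c + c * Real.log c - η with hε
  have hε0 : 0 < ε := by linarith
  have hlc : c * Real.log c ≤ 0 := mul_nonpos_of_nonneg_of_nonpos h0.le (Real.log_nonpos h0.le h1.le)
  have hη1 : η < 1 := by linarith
  have hl2 : 0 < Real.log 2 := Real.log_pos (by norm_num)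
  refine ⟨16 + 2 * C1 * (1 / ε + C1) + (Real.log 2) ^ (1 + η), fun x hx => ?_⟩
  have hA0 : 0 ≤ 2 * C1 * (1 / ε + C1) := by
    have : 0 < 1 / ε := by positivity
    nlinarith
  have hB0 : 0 < (Real.log 2) ^ (1 + η) := Real.rpow_pos_of_pos hl2 _
  rcases Nat.eq_or_lt_of_le hx with h2 | hx3
  · -- `x = 2`
    subst h2
    have hcard : (#((Icc 1 2).filter (fun n => Free R 2 n ∧
        (#n.primeFactors : ℝ) ≤ c * Real.log (Real.log ((2 : ℕ) : ℝ)))) : ℝ) ≤ 2 := by
      have := card_filter_le (Icc 1 2) (fun n => Free R 2 n ∧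
        (#n.primeFactors : ℝ) ≤ c * Real.log (Real.log ((2 : ℕ) : ℝ)))
      rw [Nat.card_Icc] at this
      exact_mod_cast this
    refine hcard.trans ?_
    push_cast
    rw [le_div_iff₀ hB0]
    nlinarith
  · have hx0 : (0 : ℝ) < x := by exact_mod_cast (by omega : 0 < x)
    have hL1 : 1 ≤ Real.log (x : ℝ) := by
      rw [Real.le_log_iff_exp_le hx0]
      have h3 : (3 : ℝ) ≤ x := by exact_mod_cast hx3
      have := Real.exp_one_lt_d9
      linarith
    have Hx := H x hx3
    set L := Real.log (x : ℝ) with hL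
    have hL0 : 0 < L := by linarith
    have hLL : 0 ≤ Real.log L := Real.log_nonneg hL1
    set S := (Icc 1 x).filter (fun n => Free R x n ∧
        (#n.primeFactors : ℝ) ≤ c * Real.log L) with hS
    -- small integers
    have s1 : (#(S.filter (fun n => n * n ≤ x)) : ℝ) ≤ Real.sqrt x := by
      have hsub : S.filter (fun n => n * n ≤ x) ⊆ Icc 1 (Nat.sqrt x) := by
        intro n hn
        rw [mem_filter, hS, mem_filter, mem_Icc] at hn
        rw [mem_Icc]
        exact ⟨hn.1.1.1, Nat.le_sqrt.2 hn.2⟩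
      have h3 := card_le_card hsub
      rw [Nat.card_Icc] at h3
      have h4 : (#(S.filter (fun n => n * n ≤ x)) : ℝ) ≤ (Nat.sqrt x : ℝ) := by
        exact_mod_cast (by omega : #(S.filter (fun n => n * n ≤ x)) ≤ Nat.sqrt x)
      exact h4.trans Real.nat_sqrt_le_real_sqrt
    -- large integers
    set S2 := S.filter (fun n => ¬ n * n ≤ x) with hS2
    have s2 : (#S2 : ℝ) * (L ^ (c * Real.log c) * (L / 2)) ≤
        C1 * x * L ^ (c - 1) * (Real.log L + C1) := by
      refine le_trans ?_ Hx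
      rw [← nsmul_eq_mul, ← sum_const]
      calc ∑ n ∈ S2, L ^ (c * Real.log c) * (L / 2)
          ≤ ∑ n ∈ S2, c ^ (#n.primeFactors) * Real.log n := by
            refine sum_le_sum fun n hn => ?_
            rw [hS2, mem_filter, hS, mem_filter, mem_Icc] at hn
            obtain ⟨⟨⟨hn1, hn2⟩, hn3, hn4⟩, hn5⟩ := hn
            have hn0 : (0 : ℝ) < n := by exact_mod_cast hn1
            have g1 : L ^ (c * Real.log c) ≤ c ^ (#n.primeFactors) := by
              rw [← Real.rpow_natCast]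
              have e : L ^ (c * Real.log c) = c ^ (c * Real.log L) := by
                rw [Real.rpow_def_of_pos hL0, Real.rpow_def_of_pos h0]
                congr 1
                ring
              rw [e]
              exact Real.rpow_le_rpow_of_exponent_ge h0 h1.le hn4
            have g2 : L / 2 ≤ Real.log n := by
              have : Real.log x ≤ Real.log ((n : ℝ) * n) := by
                apply Real.log_le_log hx0
                exact_mod_cast (by omega : x ≤ n * n)
              rw [Real.log_mul hn0.ne' hn0.ne'] at this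
              rw [hL]
              linarith
            exact mul_le_mul g1 g2 (by positivity) (pow_nonneg h0.le _)
        _ ≤ ∑ n ∈ (Icc 1 x).filter (Free R x), c ^ (#n.primeFactors) * Real.log n := by
            refine sum_le_sum_of_subset_of_nonneg ?_ ?_
            · intro n hn
              rw [hS2, mem_filter, hS, mem_filter] at hn
              rw [mem_filter]
              exact ⟨hn.1.1, hn.1.2.1⟩
            · intro n _ _
              exact mul_nonneg (pow_nonneg h0.le _) (Real.log_natCast_nonneg n)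
    have s3 : Real.log L + C1 ≤ L ^ ε * (1 / ε + C1) := by
      have g1 : Real.log L ≤ L ^ ε / ε := Real.log_le_rpow_div hL0.le hε0
      have g2 : 1 ≤ L ^ ε := Real.one_le_rpow hL1 hε0.le
      have e : L ^ ε * (1 / ε + C1) = L ^ ε / ε + L ^ ε * C1 := by ring
      rw [e]
      nlinarith
    have s4 : (#S2 : ℝ) * L ^ (1 + η) ≤ 2 * C1 * (1 / ε + C1) * x := by
      have hP0 : 0 < L ^ (c - 1 + ε) := Real.rpow_pos_of_pos hL0 _
      have e1 : L ^ (c * Real.log c) * (L / 2) = L ^ (1 + η) * L ^ (c - 1 + ε) / 2 := by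
        rw [← Real.rpow_add hL0]
        have : 1 + η + (c - 1 + ε) = c * Real.log c + 1 := by rw [hε]; ring
        rw [this, Real.rpow_add hL0, Real.rpow_one]
        ring
      have e2 : L ^ (c - 1 + ε) = L ^ (c - 1) * L ^ ε := Real.rpow_add hL0 _ _
      have g1 : (#S2 : ℝ) * (L ^ (1 + η) * L ^ (c - 1 + ε) / 2) ≤
          C1 * x * L ^ (c - 1 + ε) * (1 / ε + C1) := by
        rw [← e1, e2]
        refine s2.trans ?_
        have h5 : 0 ≤ C1 * x * L ^ (c - 1) := by
          have := (Real.rpow_pos_of_pos hL0 (c - 1)).le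
          have := hx0.le
          positivity
        calc _ ≤ C1 * x * L ^ (c - 1) * (L ^ ε * (1 / ε + C1)) := mul_le_mul_of_nonneg_left s3 h5
          _ = _ := by ring
      have g2 : ((#S2 : ℝ) * L ^ (1 + η)) * L ^ (c - 1 + ε) ≤
          (2 * C1 * (1 / ε + C1) * x) * L ^ (c - 1 + ε) := by nlinarith
      exact le_of_mul_le_mul_right g2 hP0
    have hD : 0 < L ^ (1 + η) := Real.rpow_pos_of_pos hL0 _
    have s5 : Real.sqrt x * L ^ (1 + η) ≤ 16 * x := by
      have g1 : L ^ (1 + η) ≤ L ^ (2 : ℝ) := Real.rpow_le_rpow_of_exponent_le hL1 (by linarith)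
      have g2 : L ≤ 4 * (x : ℝ) ^ (1 / 4 : ℝ) := by
        have := Real.log_le_rpow_div hx0.le (by norm_num : (0 : ℝ) < 1 / 4)
        rw [hL]
        linarith
      have g3 : L ^ (2 : ℝ) ≤ 16 * Real.sqrt x := by
        rw [Real.rpow_two]
        have h6 : (0 : ℝ) ≤ (x : ℝ) ^ (1 / 4 : ℝ) := Real.rpow_nonneg hx0.le _
        have h7 : ((x : ℝ) ^ (1 / 4 : ℝ)) ^ 2 = Real.sqrt x := by
          rw [Real.sqrt_eq_rpow, ← Real.rpow_natCast, ← Real.rpow_mul hx0.le]
          norm_num
        nlinarith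
      have h8 : 0 ≤ Real.sqrt x := Real.sqrt_nonneg _
      have h9 : Real.sqrt x * Real.sqrt x = x := Real.mul_self_sqrt hx0.le
      nlinarith
    have hsplit : (#S : ℝ) = #(S.filter (fun n => n * n ≤ x)) + #S2 := by
      rw [hS2]
      exact_mod_cast (card_filter_add_card_filter_not (s := S) (fun n => n * n ≤ x)).symm
    rw [le_div_iff₀ hD, hsplit, add_mul]
    have s6 : (#(S.filter (fun n => n * n ≤ x)) : ℝ) * L ^ (1 + η) ≤ 16 * x :=
      (mul_le_mul_of_nonneg_right s1 hD.le).trans s5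
    nlinarith

theorem few_adm {R : ℕ → ℕ → Prop} {ρ : ℕ → ℕ} (hc : Cond2 R ρ) {c η : ℝ} (h0 : 0 < c)
    (h1 : c < 1) (hη : η < 1 - c + c * Real.log c) (hη2 : η < 1 / 2) :
    ∃ C : ℝ, ∀ x : ℕ, 2 ≤ x →
      (#((Icc 1 x).filter (fun n => Adm R n ∧ ¬ IsPrimePow n ∧
        (#n.primeFactors : ℝ) ≤ c * Real.log (Real.log x))) : ℝ) ≤
          C * x / (Real.log x) ^ (1 + η) := by
  obtain ⟨C1, H1⟩ := free_few hc h0 h1 hη
  obtain ⟨C2, H2⟩ := final_G hc (ε := 1 / 2 - η) (δ := 1 / 2) (by linarith) (by norm_num)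
  refine ⟨C1 + C2, fun x hx => ?_⟩
  have h3 := H1 x hx
  have h4 := H2 x hx
  have e : (3 : ℝ) / 2 - (1 / 2 - η) = 1 + η := by ring
  rw [e] at h4
  have hsub : (Icc 1 x).filter (fun n => Adm R n ∧ ¬ IsPrimePow n ∧
        (#n.primeFactors : ℝ) ≤ c * Real.log (Real.log x)) ⊆
      (Icc 1 x).filter (fun n => Free R x n ∧
        (#n.primeFactors : ℝ) ≤ c * Real.log (Real.log x)) ∪
      (Icc 1 x).filter (fun n => Adm R n ∧ ¬ IsPrimePow n ∧
        Wit R ⌊(x : ℝ) ^ (1 - (1 / 2 : ℝ))⌋₊ n) := by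
    intro n hn
    rw [mem_filter] at hn
    obtain ⟨hn1, hn2, hn3, hn4⟩ := hn
    rw [mem_union, mem_filter, mem_filter]
    by_cases hw : Wit R ⌊(x : ℝ) ^ (1 - (1 / 2 : ℝ))⌋₊ n
    · exact Or.inr ⟨hn1, hn2, hn3, hw⟩
    · left
      refine ⟨hn1, ?_, hn4⟩
      intro l hl h5 hlx hR
      apply hw
      refine Or.inr ⟨l, hl, h5, ?_, hR⟩
      apply Nat.le_floor
      have e2 : (1 : ℝ) - 1 / 2 = 1 / 2 := by norm_num
      rw [e2, ← Real.sqrt_eq_rpow]
      apply Real.le_sqrt_of_sq_le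
      exact_mod_cast (by rw [pow_two]; exact hlx : l ^ 2 ≤ x)
  have hcard := (card_le_card hsub).trans (card_union_le _ _)
  have hcard' : (#((Icc 1 x).filter (fun n => Adm R n ∧ ¬ IsPrimePow n ∧
        (#n.primeFactors : ℝ) ≤ c * Real.log (Real.log x))) : ℝ) ≤
      #((Icc 1 x).filter (fun n => Free R x n ∧
        (#n.primeFactors : ℝ) ≤ c * Real.log (Real.log x))) +
      #((Icc 1 x).filter (fun n => Adm R n ∧ ¬ IsPrimePow n ∧
        Wit R ⌊(x : ℝ) ^ (1 - (1 / 2 : ℝ))⌋₊ n)) := by exact_mod_cast hcard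
  have e3 : (C1 + C2) * x / (Real.log x) ^ (1 + η) =
      C1 * x / (Real.log x) ^ (1 + η) + C2 * x / (Real.log x) ^ (1 + η) := by ring
  rw [e3]
  linarith

end Pool.Agent.PPD
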