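import Pool.Agent.PPD.FDefs
import Pool.Agent.PPD.CountGen
import Pool.Agent.PPD.Scale
import Pool.Agent.PPD.SumT

/-!
# Module PPD/FHigh: higher prime powers

PROOF. `Λ(d) ≠ 0` and `d` not prime: `d = q ^ a`, `a ≥ 2`. (1) `∑_{d ≤ x, not prime} Λ(d) d^(-3/4) ≤ C`: `Λ(q^a) = log q`, `∑_{a ≥ 2} q^(-3a/4) ≤ C q^(-3/2)`, `∑_q log q q^(-3/2) < ∞`
(`log q ≤ C q^(1/4)`). (2) `d² ≤ x`: `count_gen` with `k = 1`, `b = d`, `r = 1`, `c = 0`, `E = {q}`, `Fd = False`, `Bd = True` and `hc.mass` (`z = 5`):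
`#{..} ≤ C x / d * exp (-BB) ≤ C x / (d lw J)`; scale: `S ≥ max (2 s) 2`, `w ^ S ≤ x < (w²) ^ S` (`Pool.Agent.TotGap.exists_scale`, as in Pool/Agent/PPC/Density.lean), `w ^ s * d ≤ x` as
`(w ^ s)² ≤ x`, `d² ≤ x`; the primes `l ≤ w` satisfy `l * l ≤ x`; `log x ≤ 2 S lw J`. So these `d` contribute `≤ C x / log x ∑ Λ(d)/d`. Small `x`: large constant.
(3) `d² > x`: `#{..} ≤ x / d` (`card_mul_le`), `1/d = d^(-3/4) d^(-1/4) ≤ d^(-3/4) x^(-1/8)`: contribution `≤ C x^(7/8) ≤ C x / log x`.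
-/

set_option autoImplicit false

namespace Pool.Agent.PPD

open Finset Classical Pool.Agent.PPC

/-- The counting set of the module. -/
noncomputable def HS (R : ℕ → ℕ → Prop) (x d : ℕ) : Finset ℕ :=
  (Icc 1 x).filter (fun n => d ∣ n ∧ Free R x n)

private lemma hs_triv (R : ℕ → ℕ → Prop) (x d : ℕ) (hd : 0 < d) :
    (#(HS R x d) : ℝ) ≤ x / d := by
  refine le_trans ?_ (card_mul_le x d hd)
  have : #(HS R x d) ≤ #((Icc 1 x).filter (fun n => d ∣ n)) := by
    apply card_le_card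
    intro n hn
    simp only [HS, mem_filter] at hn ⊢
    exact ⟨hn.1, hn.2.1⟩
  exact_mod_cast this

private lemma ff_false (w : ℕ) : FF (fun _ => False) w = 0 := by
  unfold FF
  apply sum_eq_zero
  intro l hl
  simp at hl

private lemma bb_true {R : ℕ → ℕ → Prop} {ρ : ℕ → ℕ} (hc : Cond2 R ρ) :
    ∃ C : ℝ, ∀ (Bd : ℕ → Prop) (w : ℕ), (∀ l, Bd l) → 5 ≤ w →
      Real.log (Real.log w) - C ≤ BB ρ Bd w := by
  obtain ⟨C, hC⟩ := hc.mass
  refine ⟨Real.log (Real.log (5 : ℕ)) + C, fun Bd w hBd hw => ?_⟩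
  have h1 := hC 5 w le_rfl hw
  have h2 : ∑ r ∈ (Ioc 5 w).filter Nat.Prime, (ρ r : ℝ) / r ≤ BB ρ Bd w := by
    unfold BB
    apply sum_le_sum_of_subset_of_nonneg
    · intro r hr
      rw [mem_filter, mem_Ioc] at hr
      rw [mem_filter, mem_Icc]
      exact ⟨⟨hr.1.1.le, hr.1.2⟩, hr.2, hBd r⟩
    · intro i _ _
      positivity
  have h3 := h1.trans h2
  linarith

private lemma hs_small {R : ℕ → ℕ → Prop} {ρ : ℕ → ℕ} (hc : Cond2 R ρ) :
    ∃ C : ℝ, 0 < C ∧ ∀ x d : ℕ, 2 ≤ x → IsPrimePow d → d * d ≤ x →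
      (#(HS R x d) : ℝ) ≤ C * x / (d * Real.log x) := by
  obtain ⟨C₁, hC₁, s, J₀, H⟩ := count_gen hc 1
  obtain ⟨C₂, hC₂⟩ := bb_true hc
  set S := 2 * s + 2 with hS
  set X₀ : ℕ := (8 ^ (2 ^ J₀)) ^ S with hX₀
  have hX₀8 : 8 ≤ X₀ := by
    calc 8 = (8 ^ 1) ^ 1 := by norm_num
      _ ≤ (8 ^ (2 ^ J₀)) ^ 1 := Nat.pow_le_pow_left (Nat.pow_le_pow_right (by norm_num)
          Nat.one_le_two_pow) _
      _ ≤ X₀ := Nat.pow_le_pow_right (by positivity) (by omega)
  have hlX : 0 < Real.log X₀ := Real.log_pos (by exact_mod_cast (by omega : 1 < X₀))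
  set M : ℝ := C₁ * Real.exp C₂ * (2 * S) with hM
  have hM0 : 0 < M := by
    rw [hM, hS]
    positivity
  refine ⟨M + Real.log X₀, by positivity, fun x d hx hd hdx => ?_⟩
  have hd0 : 0 < d := hd.pos
  have hdr : (0 : ℝ) < d := by exact_mod_cast hd0
  have hL : 0 < Real.log x := Real.log_pos (by exact_mod_cast (by omega : 1 < x))
  have hx0 : (0 : ℝ) ≤ x := Nat.cast_nonneg x
  rcases lt_or_ge x X₀ with hxX | hxX
  · refine (hs_triv R x d hd0).trans ?_
    rw [div_le_div_iff₀ hdr (by positivity)]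
    have h1 : Real.log x ≤ Real.log X₀ :=
      Real.log_le_log (by exact_mod_cast (by omega : 0 < x)) (by exact_mod_cast hxX.le)
    calc (x : ℝ) * (d * Real.log x) = (x * d) * Real.log x := by ring
      _ ≤ (x * d) * (M + Real.log X₀) := by
        apply mul_le_mul_of_nonneg_left _ (by positivity)
        linarith
      _ = (M + Real.log X₀) * x * d := by ring
  · obtain ⟨J, hJ, hwx, hxw⟩ := Pool.Agent.TotGap.exists_scale (a := 8) (by norm_num)
      (by omega : 1 ≤ S) hxX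
    set w : ℕ := 8 ^ (2 ^ J) with hw
    have hw8 : (8 : ℕ) ≤ w := by
      calc 8 = 8 ^ 1 := by norm_num
        _ ≤ 8 ^ (2 ^ J) := Nat.pow_le_pow_right (by norm_num) Nat.one_le_two_pow
    obtain ⟨q, a, hq, ha, rfl⟩ := (isPrimePow_nat_iff _).mp hd
    set d : ℕ := q ^ a with hdd
    have hcop : ∀ l : ℕ, l.Prime → 5 ≤ l → l ≤ w → l ∉ ({q} : Finset ℕ) → l.Coprime (d * 1) := by
      intro l hl _ _ hlq
      rw [mul_one, hdd]
      apply Nat.Coprime.pow_right
      rw [Nat.coprime_primes hl hq]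
      simpa using hlq
    have hle : w ^ s * (d * 1) ≤ x := by
      have h1 : (w ^ s * (d * 1)) * (w ^ s * (d * 1)) ≤ x * x := by
        have h2 : w ^ s * w ^ s ≤ x := by
          rw [← pow_add]
          refine le_trans (Nat.pow_le_pow_right (by omega) ?_) hwx
          omega
        calc (w ^ s * (d * 1)) * (w ^ s * (d * 1)) = (w ^ s * w ^ s) * (d * d) := by ring
          _ ≤ x * x := Nat.mul_le_mul h2 hdx
      exact Nat.mul_self_le_mul_self_iff.mp h1
    have h3 := H J hJ d 1 0 x {q} (fun _ => False) (fun _ => True) (by simp) hd0 one_pos hcop hle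
    have hsub : HS R x d ⊆ CS R x w d 1 0 {q} (fun _ => False) (fun _ => True) := by
      intro n hn
      simp only [HS, mem_filter, mem_Icc] at hn
      simp only [CS, mem_filter, mem_Icc]
      refine ⟨hn.1, hn.2.1, by omega, fun l hl h5 hlw _ => ⟨fun h => h.elim, fun _ => ?_⟩⟩
      apply hn.2.2 l hl h5
      calc l * l ≤ w * w := Nat.mul_le_mul hlw hlw
        _ = w ^ 2 := by ring
        _ ≤ w ^ S := Nat.pow_le_pow_right (by omega) (by omega)
        _ ≤ x := hwx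
    have h4 : (#(HS R x d) : ℝ) ≤
        C₁ * x / (d * (1 : ℕ)) * Real.exp (-FF (fun _ => False) w - BB ρ (fun _ => True) w) :=
      le_trans (by exact_mod_cast card_le_card hsub) h3
    set t : ℝ := Real.log (w : ℝ) with ht
    have ht1 : 1 ≤ t := by
      rw [ht, Real.le_log_iff_exp_le (by exact_mod_cast (by omega : 0 < w))]
      have h3 : Real.exp 1 ≤ 8 := by
        have := Real.exp_one_lt_d9
        linarith
      exact h3.trans (by exact_mod_cast hw8)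
    have htpos : 0 < t := by linarith
    have hlogx : Real.log x ≤ 2 * S * t := by
      have h5 : (x : ℝ) ≤ (w : ℝ) ^ (2 * S) := by
        have h5 : x ≤ w ^ (2 * S) := by
          refine hxw.le.trans (le_of_eq ?_)
          rw [hw, ← pow_mul, ← pow_mul]
          congr 1
          ring
        exact_mod_cast h5
      have h6 := Real.log_le_log (by exact_mod_cast (by omega : 0 < x)) h5
      rw [Real.log_pow] at h6
      push_cast at h6
      rw [ht]
      linarith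
    have h7 : Real.exp (-FF (fun _ => False) w - BB ρ (fun _ => True) w) ≤
        Real.exp C₂ / t := by
      have h8 : Real.exp C₂ / t = Real.exp (C₂ - Real.log t) := by
        rw [Real.exp_sub, Real.exp_log htpos]
      rw [ff_false, h8]
      apply Real.exp_le_exp.mpr
      have := hC₂ (fun _ => True) w (fun _ => trivial) (by omega)
      rw [← ht] at this
      linarith
    calc (#(HS R x d) : ℝ) ≤ C₁ * x / (d * (1 : ℕ)) * (Real.exp C₂ / t) :=
          h4.trans (mul_le_mul_of_nonneg_left h7 (by positivity))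
      _ = (C₁ * Real.exp C₂ * x / d) * (1 / t) := by
          push_cast
          ring
      _ ≤ (C₁ * Real.exp C₂ * x / d) * (2 * S / Real.log x) := by
          apply mul_le_mul_of_nonneg_left _ (by positivity)
          rw [div_le_div_iff₀ htpos hL]
          linarith
      _ = M * x / (d * Real.log x) := by
          rw [hM]
          field_simp
      _ ≤ (M + Real.log X₀) * x / (d * Real.log x) := by
          apply div_le_div_of_nonneg_right _ (by positivity)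
          apply mul_le_mul_of_nonneg_right _ hx0
          linarith

private lemma hs_all {R : ℕ → ℕ → Prop} {ρ : ℕ → ℕ} (hc : Cond2 R ρ) :
    ∃ C : ℝ, 0 < C ∧ ∀ x d : ℕ, 2 ≤ x → IsPrimePow d →
      (#(HS R x d) : ℝ) ≤ C * x / Real.log x * (d : ℝ) ^ (-(3 / 4) : ℝ) := by
  obtain ⟨C, hC, H⟩ := hs_small hc
  refine ⟨C + 8, by positivity, fun x d hx hd => ?_⟩
  have hd0 : 0 < d := hd.pos
  have hdr : (0 : ℝ) < d := by exact_mod_cast hd0
  have hd1 : (1 : ℝ) ≤ d := by exact_mod_cast hd0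
  have hL : 0 < Real.log x := Real.log_pos (by exact_mod_cast (by omega : 1 < x))
  have hx0 : (0 : ℝ) < x := by exact_mod_cast (by omega : 0 < x)
  have hsplit : (1 : ℝ) / d = (d : ℝ) ^ (-(3 / 4) : ℝ) * (d : ℝ) ^ (-(1 / 4) : ℝ) := by
    rw [← Real.rpow_add hdr, one_div, ← Real.rpow_neg_one]
    norm_num
  have hp : 0 < (d : ℝ) ^ (-(3 / 4) : ℝ) := Real.rpow_pos_of_pos hdr _
  rcases le_or_gt (d * d) x with hdx | hdx
  · refine (H x d hx hd hdx).trans ?_
    have h1 : (d : ℝ) ^ (-(1 / 4) : ℝ) ≤ 1 :=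
      Real.rpow_le_one_of_one_le_of_nonpos hd1 (by norm_num)
    calc C * x / (d * Real.log x) = C * x / Real.log x * (1 / d) := by field_simp
      _ = C * x / Real.log x * ((d : ℝ) ^ (-(3 / 4) : ℝ) * (d : ℝ) ^ (-(1 / 4) : ℝ)) := by
        rw [hsplit]
      _ ≤ C * x / Real.log x * ((d : ℝ) ^ (-(3 / 4) : ℝ) * 1) := by
        apply mul_le_mul_of_nonneg_left _ (by positivity)
        exact mul_le_mul_of_nonneg_left h1 hp.le
      _ = C * x / Real.log x * (d : ℝ) ^ (-(3 / 4) : ℝ) := by rw [mul_one]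
      _ ≤ (C + 8) * x / Real.log x * (d : ℝ) ^ (-(3 / 4) : ℝ) := by
        apply mul_le_mul_of_nonneg_right _ hp.le
        apply div_le_div_of_nonneg_right _ hL.le
        apply mul_le_mul_of_nonneg_right _ hx0.le
        linarith
  · refine (hs_triv R x d hd0).trans ?_
    have h1 : (d : ℝ) ^ (-(1 / 4) : ℝ) ≤ (x : ℝ) ^ (-(1 / 8) : ℝ) := by
      have h2 : (x : ℝ) ≤ (d : ℝ) ^ (2 : ℝ) := by
        rw [Real.rpow_two, sq]
        exact_mod_cast hdx.le
      calc (d : ℝ) ^ (-(1 / 4) : ℝ) = ((d : ℝ) ^ (2 : ℝ)) ^ (-(1 / 8) : ℝ) := by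
            rw [← Real.rpow_mul hdr.le]
            norm_num
        _ ≤ (x : ℝ) ^ (-(1 / 8) : ℝ) :=
          Real.rpow_le_rpow_of_nonpos hx0 h2 (by norm_num)
    have h3 : (x : ℝ) ^ (-(1 / 8) : ℝ) ≤ 8 / Real.log x := by
      have h4 : Real.log x ≤ (x : ℝ) ^ (1 / 8 : ℝ) / (1 / 8 : ℝ) :=
        Real.log_le_rpow_div hx0.le (by norm_num)
      have h5 : 0 < (x : ℝ) ^ (1 / 8 : ℝ) := Real.rpow_pos_of_pos hx0 _
      rw [Real.rpow_neg hx0.le, ← one_div, div_le_div_iff₀ h5 hL]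
      linarith
    calc (x : ℝ) / d = x * (1 / d) := by ring
      _ = x * ((d : ℝ) ^ (-(3 / 4) : ℝ) * (d : ℝ) ^ (-(1 / 4) : ℝ)) := by rw [hsplit]
      _ ≤ x * ((d : ℝ) ^ (-(3 / 4) : ℝ) * (8 / Real.log x)) := by
        apply mul_le_mul_of_nonneg_left _ hx0.le
        exact mul_le_mul_of_nonneg_left (h1.trans h3) hp.le
      _ = 8 * x / Real.log x * (d : ℝ) ^ (-(3 / 4) : ℝ) := by ring
      _ ≤ (C + 8) * x / Real.log x * (d : ℝ) ^ (-(3 / 4) : ℝ) := by
        apply mul_le_mul_of_nonneg_right _ hp.le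
        apply div_le_div_of_nonneg_right _ hL.le
        apply mul_le_mul_of_nonneg_right _ hx0.le
        linarith

/-- The majorant of the double sum over the prime powers. -/
private noncomputable def gg (z : ℕ × ℕ) : ℝ :=
  (32 * (1 / (z.1 : ℝ) ^ (9 / 8 : ℝ))) * ((2 : ℝ) ^ (-(3 / 4) : ℝ)) ^ z.2

private lemma gg_summable : Summable gg := by
  apply Summable.mul_of_nonneg (f := fun n : ℕ => 32 * (1 / (n : ℝ) ^ (9 / 8 : ℝ)))
    (g := fun n : ℕ => ((2 : ℝ) ^ (-(3 / 4) : ℝ)) ^ n)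
  · apply Summable.mul_left
    exact Real.summable_one_div_nat_rpow.mpr (by norm_num)
  · apply summable_geometric_of_lt_one (by positivity)
    exact Real.rpow_lt_one_of_one_lt_of_neg (by norm_num) (by norm_num)
  · intro n
    positivity
  · intro n
    positivity

private lemma gg_nonneg (z : ℕ × ℕ) : 0 ≤ gg z := by
  unfold gg
  positivity

private lemma term_le {q a : ℕ} (hq : q.Prime) (ha : 2 ≤ a) :
    ArithmeticFunction.vonMangoldt (q ^ a) * ((q ^ a : ℕ) : ℝ) ^ (-(3 / 4) : ℝ) ≤ gg (q, a) := by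
  have hq0 : (0 : ℝ) < q := by exact_mod_cast hq.pos
  have hq2 : (2 : ℝ) ≤ q := by exact_mod_cast hq.two_le
  rw [ArithmeticFunction.vonMangoldt_apply_pow (by omega),
    ArithmeticFunction.vonMangoldt_apply_prime hq]
  have h1 : Real.log q ≤ (q : ℝ) ^ (1 / 8 : ℝ) / (1 / 8 : ℝ) :=
    Real.log_le_rpow_div hq0.le (by norm_num)
  have h2 : ((q ^ a : ℕ) : ℝ) ^ (-(3 / 4) : ℝ) = (q : ℝ) ^ (-(3 / 4) * a : ℝ) := by
    push_cast
    rw [← Real.rpow_natCast, ← Real.rpow_mul hq0.le]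
    congr 1
    ring
  have ha' : (2 : ℝ) ≤ a := by exact_mod_cast ha
  have h3 : (q : ℝ) ^ (-(3 / 4) * a : ℝ) = (q : ℝ) ^ (-(5 / 4) : ℝ) *
      (q : ℝ) ^ (5 / 4 - 3 / 4 * a : ℝ) := by
    rw [← Real.rpow_add hq0]
    congr 1
    ring
  have h4 : (q : ℝ) ^ (5 / 4 - 3 / 4 * a : ℝ) ≤ (2 : ℝ) ^ (5 / 4 - 3 / 4 * a : ℝ) :=
    Real.rpow_le_rpow_of_nonpos (by norm_num) hq2 (by linarith)
  have h5 : (2 : ℝ) ^ (5 / 4 - 3 / 4 * a : ℝ) =
      (2 : ℝ) ^ (5 / 4 : ℝ) * ((2 : ℝ) ^ (-(3 / 4) : ℝ)) ^ a := by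
    rw [← Real.rpow_natCast ((2 : ℝ) ^ (-(3 / 4) : ℝ)), ← Real.rpow_mul (by norm_num),
      ← Real.rpow_add (by norm_num)]
    congr 1
    ring
  have h6 : (2 : ℝ) ^ (5 / 4 : ℝ) ≤ 4 := by
    calc (2 : ℝ) ^ (5 / 4 : ℝ) ≤ (2 : ℝ) ^ (2 : ℝ) :=
          Real.rpow_le_rpow_of_exponent_le (by norm_num) (by norm_num)
      _ = 4 := by norm_num
  have h7 : (q : ℝ) ^ (1 / 8 : ℝ) * (q : ℝ) ^ (-(5 / 4) : ℝ) = 1 / (q : ℝ) ^ (9 / 8 : ℝ) := by
    rw [← Real.rpow_add hq0, one_div ((q : ℝ) ^ (9 / 8 : ℝ)), ← Real.rpow_neg hq0.le]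
    norm_num
  have hp : 0 < ((2 : ℝ) ^ (-(3 / 4) : ℝ)) ^ a := by positivity
  have hq5 : 0 < (q : ℝ) ^ (-(5 / 4) : ℝ) := by positivity
  have hq8 : 0 < (q : ℝ) ^ (1 / 8 : ℝ) := by positivity
  unfold gg
  rw [h2, h3]
  calc Real.log q * ((q : ℝ) ^ (-(5 / 4) : ℝ) * (q : ℝ) ^ (5 / 4 - 3 / 4 * a : ℝ))
      ≤ ((q : ℝ) ^ (1 / 8 : ℝ) / (1 / 8 : ℝ)) *
        ((q : ℝ) ^ (-(5 / 4) : ℝ) * (4 * ((2 : ℝ) ^ (-(3 / 4) : ℝ)) ^ a)) := by
        apply mul_le_mul h1 _ (by positivity) (by positivity)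
        apply mul_le_mul_of_nonneg_left _ hq5.le
        refine h4.trans ?_
        rw [h5]
        exact mul_le_mul_of_nonneg_right h6 hp.le
    _ = 32 * ((q : ℝ) ^ (1 / 8 : ℝ) * (q : ℝ) ^ (-(5 / 4) : ℝ)) *
        ((2 : ℝ) ^ (-(3 / 4) : ℝ)) ^ a := by ring
    _ = (32 * (1 / (q : ℝ) ^ (9 / 8 : ℝ))) * ((2 : ℝ) ^ (-(3 / 4) : ℝ)) ^ a := by
        rw [h7]

private lemma sum_high : ∃ C : ℝ, 0 < C ∧ ∀ x : ℕ,
    ∑ d ∈ (Icc 1 x).filter (fun d => ¬ d.Prime), ArithmeticFunction.vonMangoldt d *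
      (d : ℝ) ^ (-(3 / 4) : ℝ) ≤ C := by
  refine ⟨∑' z, gg z + 1, by
    have : 0 ≤ ∑' z, gg z := tsum_nonneg gg_nonneg
    linarith, fun x => ?_⟩
  set s := (Icc 1 x).filter (fun d => ¬ d.Prime) with hs
  have h1 : ∑ d ∈ s, ArithmeticFunction.vonMangoldt d * (d : ℝ) ^ (-(3 / 4) : ℝ) =
      ∑ d ∈ s.filter IsPrimePow, ArithmeticFunction.vonMangoldt d *
        (d : ℝ) ^ (-(3 / 4) : ℝ) := by
    symm
    apply sum_filter_of_ne
    intro d _ hd
    by_contra hpp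
    apply hd
    rw [ArithmeticFunction.vonMangoldt_apply, if_neg hpp, zero_mul]
  set φ : ℕ → ℕ × ℕ := fun d => (d.minFac, d.factorization d.minFac) with hφ
  have hrep : ∀ d ∈ s.filter IsPrimePow, ∃ q a : ℕ, q.Prime ∧ 2 ≤ a ∧ d = q ^ a ∧
      φ d = (q, a) := by
    intro d hd
    rw [mem_filter, hs, mem_filter] at hd
    obtain ⟨q, a, hq, ha, rfl⟩ := (isPrimePow_nat_iff _).mp hd.2
    refine ⟨q, a, hq, ?_, rfl, ?_⟩
    · rcases Nat.lt_or_ge a 2 with h | h
      · exfalso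
        have : a = 1 := by omega
        subst this
        apply hd.1.2
        simpa using hq
      · exact h
    · simp only [hφ, Prod.mk.injEq]
      have h2 : (q ^ a).minFac = q := hq.pow_minFac (by omega)
      rw [h2]
      refine ⟨rfl, ?_⟩
      rw [hq.factorization_pow]
      simp
  have hinj : Set.InjOn φ (s.filter IsPrimePow : Finset ℕ) := by
    intro d hd e he hde
    obtain ⟨q, a, _, _, h1, h2⟩ := hrep d hd
    obtain ⟨q', a', _, _, h1', h2'⟩ := hrep e he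
    rw [h2, h2'] at hde
    simp only [Prod.mk.injEq] at hde
    rw [h1, h1', hde.1, hde.2]
  rw [h1]
  calc ∑ d ∈ s.filter IsPrimePow, ArithmeticFunction.vonMangoldt d * (d : ℝ) ^ (-(3 / 4) : ℝ)
      ≤ ∑ d ∈ s.filter IsPrimePow, gg (φ d) := by
        apply sum_le_sum
        intro d hd
        obtain ⟨q, a, hq, ha, h1, h2⟩ := hrep d hd
        rw [h2, h1]
        exact term_le hq ha
    _ = ∑ z ∈ (s.filter IsPrimePow).image φ, gg z := (sum_image hinj).symm
    _ ≤ ∑' z, gg z := gg_summable.sum_le_tsum _ (fun z _ => gg_nonneg z)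
    _ ≤ ∑' z, gg z + 1 := by linarith

theorem high_pow {R : ℕ → ℕ → Prop} {ρ : ℕ → ℕ} (hc : Cond2 R ρ) :
    ∃ C : ℝ, 0 < C ∧ ∀ x : ℕ, 2 ≤ x →
      ∑ d ∈ (Icc 1 x).filter (fun d => ¬ d.Prime), ArithmeticFunction.vonMangoldt d *
        (#((Icc 1 x).filter (fun n => d ∣ n ∧ Free R x n)) : ℝ) ≤ C * x / Real.log x := by
  obtain ⟨C, hC, H⟩ := hs_all hc
  obtain ⟨K, hK, HK⟩ := sum_high
  refine ⟨C * K, by positivity, fun x hx => ?_⟩
  have hL : 0 < Real.log x := Real.log_pos (by exact_mod_cast (by omega : 1 < x))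
  calc ∑ d ∈ (Icc 1 x).filter (fun d => ¬ d.Prime), ArithmeticFunction.vonMangoldt d *
        (#((Icc 1 x).filter (fun n => d ∣ n ∧ Free R x n)) : ℝ)
      ≤ ∑ d ∈ (Icc 1 x).filter (fun d => ¬ d.Prime), (C * x / Real.log x) *
        (ArithmeticFunction.vonMangoldt d * (d : ℝ) ^ (-(3 / 4) : ℝ)) := by
        apply sum_le_sum
        intro d _
        by_cases hd : IsPrimePow d
        · have h1 := H x d hx hd
          have h0 : 0 ≤ ArithmeticFunction.vonMangoldt d :=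
            ArithmeticFunction.vonMangoldt_nonneg
          calc ArithmeticFunction.vonMangoldt d *
                (#((Icc 1 x).filter (fun n => d ∣ n ∧ Free R x n)) : ℝ)
              ≤ ArithmeticFunction.vonMangoldt d *
                (C * x / Real.log x * (d : ℝ) ^ (-(3 / 4) : ℝ)) :=
                mul_le_mul_of_nonneg_left h1 h0
            _ = _ := by ring
        · rw [ArithmeticFunction.vonMangoldt_apply, if_neg hd]
          simp
    _ = (C * x / Real.log x) * ∑ d ∈ (Icc 1 x).filter (fun d => ¬ d.Prime),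
        ArithmeticFunction.vonMangoldt d * (d : ℝ) ^ (-(3 / 4) : ℝ) := by rw [mul_sum]
    _ ≤ (C * x / Real.log x) * K := by
        apply mul_le_mul_of_nonneg_left (HK x) (by positivity)
    _ = C * K * x / Real.log x := by ring

end Pool.Agent.PPD
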