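import Pool.Agent.PPD.FSieveX
import Pool.Agent.PPD.FDyad
import Pool.Agent.PPD.FHigh

/-!
# Module PPD/FLog: the weighted count of free integers

PROOF. `g(n) = z ^ ω(n) ≤ 1` (`0 < z ≤ 1`). `∑_{n ≤ x, Free} g(n) log n = ∑_{d ≤ x} Λ(d) ∑_{n ≤ x, d ∣ n, Free} g(n)` (`ArithmeticFunction.vonMangoldt_sum`). The `d` which are not prime contribute at most
`C x / log x` (`high_pow`, `g ≤ 1`), and `1 / log x ≤ (log x)^(z-1) * C`. For `d = q` prime, `n = m q`, `g(m q) ≤ g(m)` (`ω(m) ≤ ω(m q)`, `z ≤ 1`), `m ≤ x / 2`, `q ≤ x / m`, `Λ(q) = log q ≤ log (x / m)`,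
and `Free R x (m q)` implies `Free R (x / m) (m q)`: `∑_m g(m) log (x/m) * #{q ≤ x / m prime, Free R (x/m) (m q)} ≤ C ∑_m g(m) hh(m) (x/m) / log (x/m)` (`sieve_X`, `X = x / m ≥ 2`), and
`g(m) hh(m) = fz z m`: `dyad_sum`.
-/

set_option autoImplicit false

namespace Pool.Agent.PPD

open Finset Classical Pool.Agent.PPC

theorem free_log {R : ℕ → ℕ → Prop} {ρ : ℕ → ℕ} (hc : Cond2 R ρ) {z : ℝ} (h0 : 0 < z)
    (h1 : z ≤ 1) : ∃ C : ℝ, 1 ≤ C ∧ ∀ x : ℕ, 3 ≤ x →
      ∑ n ∈ (Icc 1 x).filter (Free R x), z ^ (#n.primeFactors) * Real.log n ≤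
        C * x * (Real.log x) ^ (z - 1) * (Real.log (Real.log x) + C) := by
  obtain ⟨C1, hC1, H1⟩ := high_pow hc
  obtain ⟨C2, hC2, H2⟩ := sieve_X hc
  obtain ⟨C3, hC3, H3⟩ := dyad_sum h0 h1
  refine ⟨C1 + C2 * C3 + C3, by nlinarith, fun x hx => ?_⟩
  have hg1 : ∀ n : ℕ, z ^ (#n.primeFactors) ≤ 1 := fun n => pow_le_one₀ h0.le h1
  have hg0 : ∀ n : ℕ, 0 ≤ z ^ (#n.primeFactors) := fun n => pow_nonneg h0.le _
  set S := (Icc 1 x).filter (Free R x) with hS
  -- step 1: expand the logarithm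
  have e1 : ∑ n ∈ S, z ^ (#n.primeFactors) * Real.log n =
      ∑ d ∈ Icc 1 x, ArithmeticFunction.vonMangoldt d *
        ∑ n ∈ S.filter (fun n => d ∣ n), z ^ (#n.primeFactors) := by
    have h : ∀ n ∈ S, z ^ (#n.primeFactors) * Real.log n =
        ∑ d ∈ (Icc 1 x).filter (fun d => d ∣ n),
          ArithmeticFunction.vonMangoldt d * z ^ (#n.primeFactors) := by
      intro n hn
      have hn1 : 1 ≤ n ∧ n ≤ x := by simpa using (mem_filter.1 hn).1
      rw [← ArithmeticFunction.vonMangoldt_sum, ← Finset.sum_mul, mul_comm]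
      congr 1
      refine Finset.sum_congr ?_ (fun _ _ => rfl)
      ext d
      simp only [Nat.mem_divisors, mem_filter, mem_Icc]
      constructor
      · rintro ⟨h, h'⟩
        exact ⟨⟨Nat.pos_of_dvd_of_pos h hn1.1, (Nat.le_of_dvd hn1.1 h).trans hn1.2⟩, h⟩
      · rintro ⟨-, h⟩
        exact ⟨h, by omega⟩
    rw [Finset.sum_congr rfl h]
    simp_rw [Finset.mul_sum]
    refine Finset.sum_comm' ?_
    intro n d
    simp only [mem_filter]
    tauto
  -- step 2: the `d` which are not prime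
  have p1 : ∑ d ∈ (Icc 1 x).filter (fun d => ¬ d.Prime), ArithmeticFunction.vonMangoldt d *
        ∑ n ∈ S.filter (fun n => d ∣ n), z ^ (#n.primeFactors) ≤ C1 * x / Real.log x := by
    refine (Finset.sum_le_sum fun d _ => ?_).trans (H1 x (by omega))
    refine mul_le_mul_of_nonneg_left ?_ ArithmeticFunction.vonMangoldt_nonneg
    calc ∑ n ∈ S.filter (fun n => d ∣ n), z ^ (#n.primeFactors)
        ≤ ∑ n ∈ S.filter (fun n => d ∣ n), (1 : ℝ) := sum_le_sum fun n _ => hg1 n
      _ = (#(S.filter (fun n => d ∣ n)) : ℝ) := by simp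
      _ = _ := by
        rw [hS, filter_filter]
        congr 2
        ext n
        simp only [mem_filter]
        tauto
  -- step 3: the primes
  have e2 : ∀ q ∈ (Icc 1 x).filter (fun d => d.Prime), ArithmeticFunction.vonMangoldt q *
        ∑ n ∈ S.filter (fun n => q ∣ n), z ^ (#n.primeFactors) =
      ∑ m ∈ (Icc 1 (x / 2)).filter (fun m => m * q ≤ x ∧ Free R x (m * q)),
        Real.log q * z ^ (#(m * q).primeFactors) := by
    intro q hq
    have hqp : q.Prime := (mem_filter.1 hq).2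
    rw [ArithmeticFunction.vonMangoldt_apply_prime hqp, Finset.mul_sum]
    symm
    refine Finset.sum_nbij (fun m => m * q) ?_ ?_ ?_ ?_
    · intro m hm
      simp only [mem_filter, mem_Icc] at hm
      simp only [hS, mem_filter, mem_Icc]
      exact ⟨⟨⟨Nat.mul_pos hm.1.1 hqp.pos, hm.2.1⟩, hm.2.2⟩, Dvd.intro_left m rfl⟩
    · intro a _ b _ hab
      exact Nat.eq_of_mul_eq_mul_right hqp.pos hab
    · intro n hn
      simp only [hS, coe_filter, Set.mem_setOf_eq, mem_filter, mem_Icc] at hn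
      obtain ⟨⟨⟨h2, h3⟩, h4⟩, ⟨m, rfl⟩⟩ := hn
      have hm0 : 0 < m := Nat.pos_of_mul_pos_left h2 |> fun _ => by
        rcases Nat.eq_zero_or_pos m with h | h
        · subst h; simp at h2
        · exact h
      refine ⟨m, ?_, Nat.mul_comm _ _⟩
      simp only [coe_filter, Set.mem_setOf_eq, mem_Icc]
      refine ⟨⟨hm0, ?_⟩, by rw [Nat.mul_comm]; exact h3, by rw [Nat.mul_comm]; exact h4⟩
      rw [Nat.le_div_iff_mul_le (by norm_num)]
      calc m * 2 ≤ m * q := Nat.mul_le_mul_left _ hqp.two_le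
        _ = q * m := Nat.mul_comm _ _
        _ ≤ x := h3
    · intro m _
      rfl
  have e3 : ∑ q ∈ (Icc 1 x).filter (fun d => d.Prime),
      ∑ m ∈ (Icc 1 (x / 2)).filter (fun m => m * q ≤ x ∧ Free R x (m * q)),
        Real.log q * z ^ (#(m * q).primeFactors) =
      ∑ m ∈ Icc 1 (x / 2), ∑ q ∈ (Icc 1 (x / m)).filter (fun q => q.Prime ∧ Free R x (m * q)),
        Real.log q * z ^ (#(m * q).primeFactors) := by
    refine Finset.sum_comm' ?_
    intro q m
    simp only [mem_filter, mem_Icc]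
    constructor
    · rintro ⟨⟨⟨a1, a2⟩, a3⟩, ⟨b1, b2⟩, b3, b4⟩
      refine ⟨⟨⟨a1, ?_⟩, a3, b4⟩, b1, b2⟩
      rw [Nat.le_div_iff_mul_le b1, Nat.mul_comm]
      exact b3
    · rintro ⟨⟨⟨a1, a2⟩, a3, b4⟩, b1, b2⟩
      rw [Nat.le_div_iff_mul_le b1, Nat.mul_comm] at a2
      exact ⟨⟨⟨a1, (Nat.le_mul_of_pos_left q b1).trans a2⟩, a3⟩, ⟨b1, b2⟩, a2, b4⟩
  have p2 : ∀ m ∈ Icc 1 (x / 2),
      ∑ q ∈ (Icc 1 (x / m)).filter (fun q => q.Prime ∧ Free R x (m * q)),
        Real.log q * z ^ (#(m * q).primeFactors) ≤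
      C2 * (fz z m * (((x / m : ℕ) : ℝ) / Real.log ((x / m : ℕ) : ℝ))) := by
    intro m hm
    rw [mem_Icc] at hm
    have hX : 2 ≤ x / m := by
      rw [Nat.le_div_iff_mul_le hm.1]
      have := hm.2
      rw [Nat.le_div_iff_mul_le (by norm_num)] at this
      omega
    set X := x / m with hXd
    have hXx : X ≤ x := Nat.div_le_self _ _
    have hlX : 0 < Real.log (X : ℝ) := Real.log_pos (by exact_mod_cast (by omega : 1 < X))
    have hb : ∀ q ∈ (Icc 1 X).filter (fun q => q.Prime ∧ Free R x (m * q)),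
        Real.log q * z ^ (#(m * q).primeFactors) ≤ Real.log X * z ^ (#m.primeFactors) := by
      intro q hq
      simp only [mem_filter, mem_Icc] at hq
      have hq0 : 0 < q := hq.1.1
      refine mul_le_mul ?_ ?_ (hg0 _) hlX.le
      · exact Real.log_le_log (by exact_mod_cast hq0) (by exact_mod_cast hq.1.2)
      · refine pow_le_pow_of_le_one h0.le h1 (card_le_card ?_)
        exact Nat.primeFactors_mono (Dvd.intro _ rfl)
          (Nat.mul_ne_zero (by omega) (by omega))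
    have hcard : (#((Icc 1 X).filter (fun q => q.Prime ∧ Free R x (m * q))) : ℝ) ≤
        C2 * X * hh m / (Real.log X) ^ 2 := by
      refine le_trans ?_ (H2 m X hm.1 hX)
      exact_mod_cast card_le_card (by
        intro q hq
        simp only [mem_filter] at hq ⊢
        exact ⟨hq.1, hq.2.1, fun l hl h5 hlX => hq.2.2 l hl h5 (hlX.trans hXx)⟩)
    calc ∑ q ∈ (Icc 1 X).filter (fun q => q.Prime ∧ Free R x (m * q)),
          Real.log q * z ^ (#(m * q).primeFactors)
        ≤ ∑ q ∈ (Icc 1 X).filter (fun q => q.Prime ∧ Free R x (m * q)),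
          Real.log X * z ^ (#m.primeFactors) := sum_le_sum hb
      _ = (#((Icc 1 X).filter (fun q => q.Prime ∧ Free R x (m * q))) : ℝ) *
          (Real.log X * z ^ (#m.primeFactors)) := by rw [sum_const, nsmul_eq_mul]
      _ ≤ (C2 * X * hh m / (Real.log X) ^ 2) * (Real.log X * z ^ (#m.primeFactors)) :=
          mul_le_mul_of_nonneg_right hcard (mul_nonneg hlX.le (hg0 _))
      _ = _ := by
          unfold fz
          field_simp
  have p3 : ∑ q ∈ (Icc 1 x).filter (fun d => d.Prime), ArithmeticFunction.vonMangoldt q *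
        ∑ n ∈ S.filter (fun n => q ∣ n), z ^ (#n.primeFactors) ≤
      C2 * (C3 * x * (Real.log x) ^ (z - 1) * (Real.log (Real.log x) + C3)) := by
    rw [Finset.sum_congr rfl e2, e3]
    refine (sum_le_sum p2).trans ?_
    rw [← Finset.mul_sum]
    exact mul_le_mul_of_nonneg_left (H3 x hx) hC2.le
  -- conclusion
  have hx0 : (0 : ℝ) < x := by exact_mod_cast (by omega : 0 < x)
  have hlx : 1 ≤ Real.log (x : ℝ) := by
    rw [Real.le_log_iff_exp_le hx0]
    have h3 : (3 : ℝ) ≤ x := by exact_mod_cast hx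
    have := Real.exp_one_lt_d9
    linarith
  have hll : 0 ≤ Real.log (Real.log (x : ℝ)) := Real.log_nonneg hlx
  have hinv : (Real.log (x : ℝ))⁻¹ ≤ (Real.log x) ^ (z - 1) := by
    rw [← Real.rpow_neg_one]
    exact Real.rpow_le_rpow_of_exponent_le hlx (by linarith)
  have hA0 : 0 ≤ (Real.log (x : ℝ)) ^ (z - 1) := Real.rpow_nonneg (by linarith) _
  rw [e1, ← Finset.sum_filter_add_sum_filter_not (Icc 1 x) (fun d => d.Prime)]
  set A := (Real.log (x : ℝ)) ^ (z - 1) with hA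
  set L := Real.log (Real.log (x : ℝ)) with hL
  have q1 : C1 * x / Real.log x ≤ C1 * x * A := by
    rw [div_eq_mul_inv]
    exact mul_le_mul_of_nonneg_left hinv (mul_nonneg hC1.le hx0.le)
  have hxA : 0 ≤ x * A := mul_nonneg hx0.le hA0
  have q2 : C1 * x * A ≤ C1 * (x * A) * (L + C3) := by
    have : C1 * x * A = C1 * (x * A) * 1 := by ring
    rw [this]
    exact mul_le_mul_of_nonneg_left (by linarith) (mul_nonneg hC1.le hxA)
  have q3 : (C1 + C2 * C3) * (x * A) * (L + C3) ≤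
      (C1 + C2 * C3 + C3) * (x * A) * (L + (C1 + C2 * C3 + C3)) := by
    have h23 : 0 ≤ C2 * C3 := mul_nonneg hC2.le (by linarith)
    refine mul_le_mul (mul_le_mul_of_nonneg_right (by linarith) hxA) (by linarith)
      (by linarith) (mul_nonneg (by linarith) hxA)
  calc _ ≤ C2 * (C3 * x * A * (L + C3)) + C1 * x / Real.log x := add_le_add p3 p1
    _ ≤ C2 * (C3 * x * A * (L + C3)) + C1 * (x * A) * (L + C3) := by linarith
    _ = (C1 + C2 * C3) * (x * A) * (L + C3) := by ring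
    _ ≤ _ := q3
    _ = _ := by ring

end Pool.Agent.PPD
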