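import Pool.Agent.PPD.FDefs
import Pool.Agent.PPC.SFull
import Pool.Agent.PPD.Scale

/-!
# Module PPD/FSieve: the sieve for `q` and `m q`

PROOF. As `PPD/CountGen` and `PPC/SFull`: `w = 8 ^ (2 ^ J)`, `D = {l prime, 5 ≤ l ≤ w}`, `bad l q := l ∣ q ∨ R l (m q)`, `ω l := 1 + (if l ∣ m then 0 else ρ l) ≤ 3`.
`Good`: for `l ∤ m` the map `q ↦ m q` permutes the residues modulo `l` and `R l (m q)` with `l ∣ q` is impossible (`hc.zero`); for `l ∣ m`, `R l (m q) ↔ R l 0` is false.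
`Pool.Agent.H14Trans.fundamental 3 16`, `y₀ = 8`, `N = X + 1`: the count is at most `2 (X + 1) exp (-∑ ω l / l)`, and `∑ ω l / l ≥ ∑ 1 / l + ∑ ρ l / l - ∑_{l ∣ m} 2 / l ≥
2 log log w - C - ∑_{p ∣ m} 2 / p` (Mertens: `Pool.Agent.Sv.abs_sum_inv_sub_le`; `hc.mass` with `z = 5`).
-/

set_option autoImplicit false

namespace Pool.Agent.PPD

open Finset Classical Pool.Agent.PPC Pool.Agent.H14Trans

namespace FSieve

/-- the number of bad residues -/
noncomputable def om (ρ : ℕ → ℕ) (m l : ℕ) : ℕ := 1 + (if l ∣ m then 0 else ρ l)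

/-- the bad relation -/
def bd (R : ℕ → ℕ → Prop) (m l q : ℕ) : Prop := l ∣ q ∨ (¬ l ∣ m ∧ R l (m * q))

lemma good {R : ℕ → ℕ → Prop} {ρ : ℕ → ℕ} (hc : Cond2 R ρ) (m : ℕ)
    {D : Finset ℕ} (hD : ∀ l ∈ D, l.Prime ∧ 5 ≤ l) :
    Good (bd R m) (om ρ m) D := by
  refine ⟨fun l hl => (hD l hl).1.pos, ?_, ?_, ?_⟩
  · intro l hl s
    have e : m * (s + l) = m * s + l * m := by ring
    unfold bd
    rw [e, SFull.per_mul hc.toCond (hD l hl).1 (hD l hl).2, Nat.dvd_add_self_right]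
  · intro l hl
    obtain ⟨h1, h5⟩ := hD l hl
    by_cases hm : l ∣ m
    · have e : (range l).filter (bd R m l) = (range l).filter (fun q => l ∣ q) :=
        filter_congr fun q _ => by simp [bd, hm]
      rw [e, SFull.card_dvd h1.pos]
      simp [om, hm]
    · have e : (range l).filter (bd R m l) = (range l).filter (fun q => l ∣ q) ∪
          (range l).filter (fun q => R l (m * q)) := by
        ext q
        simp only [mem_filter, mem_union, bd, hm, not_false_eq_true, true_and]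
        tauto
      rw [e, card_union_of_disjoint, SFull.card_dvd h1.pos,
        SFull.card_mul hc.toCond h1 h5 ((Nat.Prime.coprime_iff_not_dvd h1).mpr hm).symm]
      · simp [om, hm]
      · rw [disjoint_left]
        intro q hq hq'
        rw [mem_filter, mem_range] at hq hq'
        have h0 : q = 0 := Nat.eq_zero_of_dvd_of_lt hq.2 hq.1
        subst h0
        exact hc.zero l h1 h5 (by simpa using hq'.2)
  · intro l hl q hq hlq
    exact (Nat.coprime_primes (hD l hl).1 (hD q hq).1).mpr hlq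

lemma om_le {R : ℕ → ℕ → Prop} {ρ : ℕ → ℕ} (hc : Cond2 R ρ) (m l : ℕ) :
    om ρ m l ≤ 3 := by
  have := hc.le l
  unfold om
  split_ifs <;> omega

lemma sum_one {w : ℕ} (hw : 5 ≤ w) :
    Real.log (Real.log w) - (Real.log (Real.log 5) + 9 / Real.log 5) ≤
      ∑ l ∈ (Icc 5 w).filter Nat.Prime, (1 : ℝ) / l := by
  have h1 := (abs_le.mp (Pool.Agent.Sv.abs_sum_inv_sub_le (n := 5) (m := w + 1) (by norm_num)
    (by omega))).1
  have e : (Ico 5 (w + 1)).filter Nat.Prime = (Icc 5 w).filter Nat.Prime := by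
    ext x
    simp only [mem_filter, mem_Ico, mem_Icc]
    constructor
    · rintro ⟨h, h'⟩; exact ⟨by omega, h'⟩
    · rintro ⟨h, h'⟩; exact ⟨by omega, h'⟩
  rw [e] at h1
  have hlogw : 1 < Real.log w := lt_of_lt_of_le SFull.log5
    (Real.log_le_log (by norm_num) (by exact_mod_cast hw))
  have h4 : Real.log (Real.log w) ≤ Real.log (Real.log ((w + 1 : ℕ) : ℝ)) := by
    refine Real.log_le_log (by linarith) (Real.log_le_log ?_ ?_)
    · have : 0 < w := by omega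
      exact_mod_cast this
    · push_cast; linarith
  have e5 : ((5 : ℕ) : ℝ) = 5 := by norm_num
  rw [e5] at h1
  linarith

lemma sum_om {R : ℕ → ℕ → Prop} {ρ : ℕ → ℕ} (hc : Cond2 R ρ) {C : ℝ}
    (hC : ∀ z w : ℕ, 5 ≤ z → z ≤ w →
      Real.log (Real.log w) - Real.log (Real.log z) - C ≤
        ∑ r ∈ (Ioc z w).filter Nat.Prime, (ρ r : ℝ) / r) {m : ℕ} (hm : 1 ≤ m) {w : ℕ}
    (hw : 5 ≤ w) :
    2 * Real.log (Real.log w) - (2 * Real.log (Real.log 5) + 9 / Real.log 5 + C) -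
      ∑ p ∈ m.primeFactors, (2 : ℝ) / p ≤
      ∑ l ∈ (Icc 5 w).filter Nat.Prime, (om ρ m l : ℝ) / l := by
  have h1 := sum_one hw
  have h2 := hC 5 w le_rfl hw
  have e5 : ((5 : ℕ) : ℝ) = 5 := by norm_num
  rw [e5] at h2
  have h3 : ∑ r ∈ (Ioc 5 w).filter Nat.Prime, (ρ r : ℝ) / r ≤
      ∑ r ∈ (Icc 5 w).filter Nat.Prime, (ρ r : ℝ) / r := by
    refine sum_le_sum_of_subset_of_nonneg ?_ fun _ _ _ => by positivity
    intro x hx
    rw [mem_filter, mem_Ioc] at hx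
    rw [mem_filter, mem_Icc]
    exact ⟨by omega, hx.2⟩
  have h4 : ∑ l ∈ (Icc 5 w).filter Nat.Prime, (om ρ m l : ℝ) / l =
      ∑ l ∈ (Icc 5 w).filter Nat.Prime, (1 : ℝ) / l +
      ∑ l ∈ (Icc 5 w).filter Nat.Prime, (ρ l : ℝ) / l -
      ∑ l ∈ ((Icc 5 w).filter Nat.Prime).filter (· ∣ m), (ρ l : ℝ) / l := by
    rw [sum_filter (s := (Icc 5 w).filter Nat.Prime), ← sum_add_distrib, ← sum_sub_distrib]
    refine sum_congr rfl fun l _ => ?_
    unfold om
    split_ifs <;> push_cast <;> ring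
  have h5 : ∑ l ∈ ((Icc 5 w).filter Nat.Prime).filter (· ∣ m), (ρ l : ℝ) / l ≤
      ∑ p ∈ m.primeFactors, (2 : ℝ) / p := by
    calc ∑ l ∈ ((Icc 5 w).filter Nat.Prime).filter (· ∣ m), (ρ l : ℝ) / l
        ≤ ∑ l ∈ ((Icc 5 w).filter Nat.Prime).filter (· ∣ m), (2 : ℝ) / l := by
          refine sum_le_sum fun l _ => ?_
          have : (ρ l : ℝ) ≤ 2 := by exact_mod_cast hc.le l
          exact div_le_div_of_nonneg_right this (by positivity)
      _ ≤ ∑ p ∈ m.primeFactors, (2 : ℝ) / p := by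
          refine sum_le_sum_of_subset_of_nonneg ?_ fun _ _ _ => by positivity
          intro x hx
          rw [mem_filter, mem_filter] at hx
          exact Nat.mem_primeFactors.mpr ⟨hx.1.2, hx.2, by omega⟩
  linarith

end FSieve

open FSieve in
theorem sieve_m {R : ℕ → ℕ → Prop} {ρ : ℕ → ℕ} (hc : Cond2 R ρ) :
    ∃ C : ℝ, 0 < C ∧ ∃ s J₀ : ℕ, ∀ J ≥ J₀, ∀ m X : ℕ, 1 ≤ m → (8 ^ (2 ^ J)) ^ s ≤ X →
      (#((Icc 1 X).filter (fun q => ∀ l : ℕ, l.Prime → 5 ≤ l → l ≤ 8 ^ (2 ^ J) →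
        ¬ l ∣ q ∧ ¬ R l (m * q))) : ℝ) ≤ C * X * hh m / (lw J) ^ 2 := by
  obtain ⟨C, hC⟩ := hc.mass
  obtain ⟨s₁, hs₁, H⟩ := fundamental 3 16 (by norm_num)
  obtain ⟨J₀, HJ⟩ := H 8 (by norm_num)
  set A : ℝ := 2 * Real.log (Real.log 5) + 9 / Real.log 5 + C with hA
  refine ⟨4 * Real.exp A, by positivity, s₁, J₀, fun J hJ m X hm hX => ?_⟩
  have hlw : lw J = Real.log ((8 ^ (2 ^ J) : ℕ) : ℝ) := rfl
  rw [hlw]
  set w := 8 ^ (2 ^ J) with hw
  have hw8 : 8 ≤ w := Nat.le_self_pow (by positivity) _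
  set D := (Icc 5 w).filter Nat.Prime with hD
  have hDm : ∀ l ∈ D, l.Prime ∧ 5 ≤ l ∧ l ≤ w := by
    intro l hl
    rw [hD, mem_filter, mem_Icc] at hl
    exact ⟨hl.2, hl.1.1, hl.1.2⟩
  have hG : Good (bd R m) (om ρ m) D := good hc m fun l hl => ⟨(hDm l hl).1, (hDm l hl).2.1⟩
  obtain ⟨_, hN⟩ := HJ J hJ (bd R m) (om ρ m) D hG
      (fun l hl => by
        have := om_le hc m l
        have := (hDm l hl).2.1
        omega)
      (fun l hl => (hDm l hl).2.2)
      (fun i _ => SFull.lay_mass' (by norm_num) fun r hr => (hDm r hr).1)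
  have hub := (hN (X + 1) (hX.trans (Nat.le_succ X))).2
  have hcard : #((Icc 1 X).filter (fun q => ∀ l : ℕ, l.Prime → 5 ≤ l → l ≤ w →
        ¬ l ∣ q ∧ ¬ R l (m * q))) ≤ #((range (X + 1)).filter (Sift (bd R m) D)) := by
    refine card_le_card ?_
    intro q hq
    simp only [mem_filter, mem_Icc, mem_range] at hq ⊢
    refine ⟨by omega, ?_⟩
    intro l hl hbad
    obtain ⟨h1, h2, h3⟩ := hDm l hl
    have h4 := hq.2 l h1 h2 h3
    rcases hbad with h | h
    · exact h4.1 h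
    · exact h4.2 h.2
  have hprod : ∏ l ∈ D, (1 - (om ρ m l : ℝ) / l) ≤
      Real.exp (-∑ l ∈ D, (om ρ m l : ℝ) / l) := by
    rw [← sum_neg_distrib, Real.exp_sum]
    refine prod_le_prod (fun l hl => ?_) (fun l _ => ?_)
    · obtain ⟨h1, h2, _⟩ := hDm l hl
      have h4 := om_le hc m l
      have h6 : (0 : ℝ) < l := by exact_mod_cast h1.pos
      rw [sub_nonneg, div_le_one h6]
      exact_mod_cast (by omega : om ρ m l ≤ l)
    · have := Real.add_one_le_exp (-((om ρ m l : ℝ) / l)); linarith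
  have hsum := sum_om hc hC hm (w := w) (by omega)
  have hlogw : 1 < Real.log w := lt_of_lt_of_le SFull.log5
    (Real.log_le_log (by norm_num) (by exact_mod_cast (by omega : 5 ≤ w)))
  have hexp : Real.exp (-∑ l ∈ D, (om ρ m l : ℝ) / l) ≤
      Real.exp A * hh m / (Real.log w) ^ 2 := by
    have e2 : (Real.log w) ^ 2 = Real.exp (2 * Real.log (Real.log w)) := by
      rw [two_mul, Real.exp_add, Real.exp_log (by linarith)]
      ring
    rw [e2, hh, ← Real.exp_add, ← Real.exp_sub]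
    refine Real.exp_le_exp.mpr ?_
    linarith
  have hX1 : 1 ≤ X := le_trans (Nat.one_le_pow _ _ (by omega)) hX
  have hX1' : (1 : ℝ) ≤ X := by exact_mod_cast hX1
  have hhh : 0 < hh m := Real.exp_pos _
  calc (#((Icc 1 X).filter (fun q => ∀ l : ℕ, l.Prime → 5 ≤ l → l ≤ w →
        ¬ l ∣ q ∧ ¬ R l (m * q))) : ℝ)
      ≤ (#((range (X + 1)).filter (Sift (bd R m) D)) : ℝ) := by exact_mod_cast hcard
    _ ≤ 2 * (X + 1 : ℕ) * ∏ l ∈ D, (1 - (om ρ m l : ℝ) / l) := hub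
    _ ≤ 2 * (X + 1 : ℕ) * (Real.exp A * hh m / (Real.log w) ^ 2) :=
        mul_le_mul_of_nonneg_left (hprod.trans hexp) (by positivity)
    _ ≤ (4 * X) * (Real.exp A * hh m / (Real.log w) ^ 2) := by
        refine mul_le_mul_of_nonneg_right ?_ (by positivity)
        push_cast
        linarith
    _ = 4 * Real.exp A * X * hh m / (Real.log w) ^ 2 := by ring

end Pool.Agent.PPD
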