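import Pool.Agent.PPD.FSieve

/-!
# Module PPD/FSieveX: the number of primes `q ≤ X` such that `m q` is free

PROOF. As in `PPC.density` (Pool/Agent/PPC/Density.lean): `S = max s 3`; for `X ≥ X₀ = (8 ^ (2 ^ J₀)) ^ S`, `Pool.Agent.TotGap.exists_scale` gives `J ≥ J₀` with `w ^ S ≤ X < (w²) ^ S`, so
`log X ≤ 2 S lw J`. A prime `q` in the set with `q > w` is in the set of `sieve_m` (`l ≤ w` gives `l * l ≤ X`, and `l ∤ q`); the `q ≤ w` are at most `w ≤ X ^ (1/3) ≤ C X / (log X)²`; `hh m ≥ 1`.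
For `2 ≤ X < X₀` use a large constant.
-/

set_option autoImplicit false

namespace Pool.Agent.PPD

open Finset Classical Pool.Agent.PPC

theorem hh_ge_one (m : ℕ) : 1 ≤ hh m := by
  unfold hh
  exact Real.one_le_exp (sum_nonneg fun _ _ => by positivity)

theorem sieve_X {R : ℕ → ℕ → Prop} {ρ : ℕ → ℕ} (hc : Cond2 R ρ) :
    ∃ C : ℝ, 0 < C ∧ ∀ m X : ℕ, 1 ≤ m → 2 ≤ X →
      (#((Icc 1 X).filter (fun q => q.Prime ∧ Free R X (m * q))) : ℝ) ≤
        C * X * hh m / (Real.log X) ^ 2 := by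
  obtain ⟨C, hC, s, J₀, H⟩ := sieve_m hc
  set S := max s 3 with hS
  have hS3 : 3 ≤ S := le_max_right _ _
  have hSs : s ≤ S := le_max_left _ _
  set X₀ : ℕ := (8 ^ (2 ^ (max J₀ 2))) ^ S with hX₀
  have hX₀8 : 8 ≤ X₀ := by
    calc 8 = (8 ^ 1) ^ 1 := by norm_num
      _ ≤ (8 ^ (2 ^ (max J₀ 2))) ^ 1 := Nat.pow_le_pow_left (Nat.pow_le_pow_right (by norm_num)
          Nat.one_le_two_pow) _
      _ ≤ X₀ := Nat.pow_le_pow_right (by positivity) (by omega)
  refine ⟨(C * (2 * S) ^ 2 + (2 * S) ^ 2) + (Real.log X₀) ^ 2 + 1, by positivity, ?_⟩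
  intro m X hm hX
  have hhm := hh_ge_one m
  have hX1 : (1 : ℝ) < X := by exact_mod_cast (by omega : 1 < X)
  have hL : 0 < Real.log X := Real.log_pos hX1
  have hcard : (#((Icc 1 X).filter (fun q => q.Prime ∧ Free R X (m * q))) : ℝ) ≤ X := by
    have : #((Icc 1 X).filter (fun q => q.Prime ∧ Free R X (m * q))) ≤ X :=
      (card_filter_le _ _).trans (by simp)
    exact_mod_cast this
  rw [le_div_iff₀ (by positivity)]
  rcases lt_or_ge X X₀ with hXX | hXX
  · have h1 : Real.log X ≤ Real.log X₀ :=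
      Real.log_le_log (by linarith) (by exact_mod_cast hXX.le)
    have h2 : (Real.log X) ^ 2 ≤ (Real.log X₀) ^ 2 := pow_le_pow_left₀ hL.le h1 2
    calc (#((Icc 1 X).filter (fun q => q.Prime ∧ Free R X (m * q))) : ℝ) * (Real.log X) ^ 2
        ≤ X * (Real.log X₀) ^ 2 := mul_le_mul hcard h2 (by positivity) (by positivity)
      _ ≤ X * (Real.log X₀) ^ 2 * hh m := le_mul_of_one_le_right (by positivity) hhm
      _ = (Real.log X₀) ^ 2 * X * hh m := by ring
      _ ≤ ((C * (2 * S) ^ 2 + (2 * S) ^ 2) + (Real.log X₀) ^ 2 + 1) * X * hh m := by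
          have : 0 ≤ C * (2 * S) ^ 2 + (2 * S) ^ 2 + 1 := by positivity
          apply mul_le_mul_of_nonneg_right _ (by linarith)
          apply mul_le_mul_of_nonneg_right _ (by linarith)
          linarith
  · obtain ⟨J, hJ, hwx, hxw⟩ := Pool.Agent.TotGap.exists_scale (a := 8) (by norm_num)
      (by omega : 1 ≤ S) hXX
    have hJ₀ : J ≥ J₀ := le_trans (le_max_left _ _) hJ
    have hJ2 : 2 ≤ J := le_trans (le_max_right _ _) hJ
    obtain ⟨hl1, hl0, _⟩ := scale_real hJ2
    set w := 8 ^ (2 ^ J) with hw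
    have hw8 : 8 ≤ w := by
      calc 8 = 8 ^ 1 := by norm_num
        _ ≤ w := Nat.pow_le_pow_right (by norm_num) Nat.one_le_two_pow
    have hw3 : w ^ 3 ≤ X := (Nat.pow_le_pow_right (by omega) hS3).trans hwx
    have hw2 : w * w ≤ X := by
      calc w * w ≤ w * w * w := Nat.le_mul_of_pos_right _ (by omega)
        _ = w ^ 3 := by ring
        _ ≤ X := hw3
    have hlogX : Real.log X ≤ 2 * S * lw J := by
      have h4 : (X : ℝ) ≤ ((8 ^ (2 ^ J) : ℕ) : ℝ) ^ (2 * S) := by
        have h5 : X ≤ (8 ^ (2 ^ J)) ^ (2 * S) := by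
          refine hxw.le.trans (le_of_eq ?_)
          rw [← pow_mul, ← pow_mul]
          congr 1
          ring
        exact_mod_cast h5
      have h6 := Real.log_le_log (by linarith) h4
      rw [Real.log_pow] at h6
      unfold lw
      push_cast at h6 ⊢
      linarith
    have hsub : (Icc 1 X).filter (fun q => q.Prime ∧ Free R X (m * q)) ⊆
        (Icc 1 X).filter (fun q => ∀ l : ℕ, l.Prime → 5 ≤ l → l ≤ w →
          ¬ l ∣ q ∧ ¬ R l (m * q)) ∪ Icc 1 w := by
      intro q hq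
      simp only [mem_filter] at hq
      obtain ⟨hqX, hqp, hfree⟩ := hq
      rw [mem_union]
      rcases le_or_gt q w with h | h
      · right
        rw [mem_Icc] at hqX ⊢
        exact ⟨hqX.1, h⟩
      · left
        simp only [mem_filter]
        refine ⟨hqX, fun l hl h5 hlw => ⟨?_, ?_⟩⟩
        · intro hd
          have := (Nat.prime_dvd_prime_iff_eq hl hqp).1 hd
          omega
        · exact hfree l hl h5 ((Nat.mul_le_mul hlw hlw).trans hw2)
    have h1 : (#((Icc 1 X).filter (fun q => q.Prime ∧ Free R X (m * q))) : ℝ) ≤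
        C * X * hh m / (lw J) ^ 2 + w := by
      have h2 := H J hJ₀ m X hm ((Nat.pow_le_pow_right (by omega) hSs).trans hwx)
      have h3 : #((Icc 1 X).filter (fun q => q.Prime ∧ Free R X (m * q))) ≤
          #((Icc 1 X).filter (fun q => ∀ l : ℕ, l.Prime → 5 ≤ l → l ≤ w →
          ¬ l ∣ q ∧ ¬ R l (m * q))) + w := by
        refine ((card_le_card hsub).trans (card_union_le _ _)).trans ?_
        simp
      calc (#((Icc 1 X).filter (fun q => q.Prime ∧ Free R X (m * q))) : ℝ) ≤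
          (#((Icc 1 X).filter (fun q => ∀ l : ℕ, l.Prime → 5 ≤ l → l ≤ w →
          ¬ l ∣ q ∧ ¬ R l (m * q))) : ℝ) + w := by exact_mod_cast h3
        _ ≤ _ := by linarith
    have hB : (w : ℝ) * (lw J) ^ 2 ≤ X := by
      -- `lw J = log w ≤ w`
      have h7 : (0 : ℝ) < w := by exact_mod_cast (by omega : 0 < w)
      have h8 : lw J ≤ w := by
        have := Real.log_le_sub_one_of_pos h7
        unfold lw
        linarith
      have h9 : (lw J) ^ 2 ≤ (w : ℝ) ^ 2 := pow_le_pow_left₀ (by linarith) h8 2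
      calc (w : ℝ) * (lw J) ^ 2 ≤ w * (w : ℝ) ^ 2 := mul_le_mul_of_nonneg_left h9 h7.le
        _ = (w : ℝ) ^ 3 := by ring
        _ ≤ X := by exact_mod_cast hw3
    have hL2 : (Real.log X) ^ 2 ≤ (2 * S) ^ 2 * (lw J) ^ 2 := by
      rw [← mul_pow]
      exact pow_le_pow_left₀ hL.le hlogX 2
    have hlw2 : 0 < (lw J) ^ 2 := by positivity
    calc (#((Icc 1 X).filter (fun q => q.Prime ∧ Free R X (m * q))) : ℝ) * (Real.log X) ^ 2
        ≤ (C * X * hh m / (lw J) ^ 2 + w) * ((2 * S) ^ 2 * (lw J) ^ 2) :=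
          mul_le_mul h1 hL2 (by positivity) (by positivity)
      _ = (2 * S) ^ 2 * (C * X * hh m) + (2 * S) ^ 2 * (w * (lw J) ^ 2) := by
          field_simp
      _ ≤ (2 * S) ^ 2 * (C * X * hh m) + (2 * S) ^ 2 * X := by
          have := mul_le_mul_of_nonneg_left hB (by positivity : (0 : ℝ) ≤ (2 * S) ^ 2)
          linarith
      _ ≤ (2 * S) ^ 2 * (C * X * hh m) + (2 * S) ^ 2 * (X * hh m) := by
          have : (X : ℝ) ≤ X * hh m := le_mul_of_one_le_right (by positivity) hhm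
          have := mul_le_mul_of_nonneg_left this (by positivity : (0 : ℝ) ≤ (2 * S) ^ 2)
          linarith
      _ = (C * (2 * S) ^ 2 + (2 * S) ^ 2) * X * hh m := by ring
      _ ≤ ((C * (2 * S) ^ 2 + (2 * S) ^ 2) + (Real.log X₀) ^ 2 + 1) * X * hh m := by
          have : 0 ≤ (Real.log X₀) ^ 2 + 1 := by positivity
          apply mul_le_mul_of_nonneg_right _ (by linarith)
          apply mul_le_mul_of_nonneg_right _ (by linarith)
          linarith

end Pool.Agent.PPD
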