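import Pool.Agent.PPD.FEuler
import Mathlib.NumberTheory.Chebyshev

/-!
# Module PPD/FSum: mean of `fz z`

PROOF. Let `f = fz z`. `∑_{m ≤ Y} f(m) log m = ∑_{m ≤ Y} f(m) ∑_{d ∣ m} Λ(d) = ∑_{d ≤ Y} Λ(d) ∑_{m' ≤ Y/d} f(d m') ≤ 3 ∑_{m' ≤ Y} f(m') ∑_{d ≤ Y/m'} Λ(d) ≤
C Y ∑_{m' ≤ Y} f(m') / m' ≤ C Y (log Y) ^ z` (`ArithmeticFunction.vonMangoldt_sum`, `fz_facts`; `Λ(d) ≠ 0` only for prime powers; `Chebyshev.psi_le_const_mul_self` in
Mathlib/NumberTheory/Chebyshev.lean; `fz_log`). The `m ≤ √Y` contribute at most `√Y ∑ f(m)/m ≤ C √Y (log Y) ^ z` to `∑ f(m)`; for `m > √Y`, `1 ≤ 2 log m / log Y`. So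
`∑_{m ≤ Y} f(m) ≤ C √Y (log Y)^z + C Y (log Y)^(z-1) ≤ C' Y (log Y + 1)^(z-1)` for `Y ≥ 2`; for `Y = 1` the sum is `1`.
-/

set_option autoImplicit false

namespace Pool.Agent.PPD

open Finset Classical Pool.Agent.PPC

theorem FSum_switch (Y : ℕ) (F : ℕ → ℕ → ℝ) :
    ∑ m ∈ Icc 1 Y, ∑ d ∈ m.divisors, F d (m / d) =
      ∑ e ∈ Icc 1 Y, ∑ d ∈ Icc 1 (Y / e), F d e := by
  rw [Finset.sum_sigma', Finset.sum_sigma']
  refine Finset.sum_bij' (fun x _ => ⟨x.1 / x.2, x.2⟩) (fun x _ => ⟨x.2 * x.1, x.2⟩) ?_ ?_ ?_ ?_ ?_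
  · rintro ⟨m, d⟩ h
    simp only [mem_sigma, mem_Icc, Nat.mem_divisors] at h ⊢
    obtain ⟨⟨h1, h2⟩, ⟨e, rfl⟩, h3⟩ := h
    have hd : 0 < d := Nat.pos_of_ne_zero (fun h => by simp [h] at h3)
    have he : 0 < e := Nat.pos_of_ne_zero (fun h => by simp [h] at h3)
    rw [Nat.mul_div_cancel_left _ hd]
    refine ⟨⟨he, le_trans (Nat.le_mul_of_pos_left _ hd) h2⟩, hd, ?_⟩
    rw [Nat.le_div_iff_mul_le he]; exact h2
  · rintro ⟨e, d⟩ h
    simp only [mem_sigma, mem_Icc, Nat.mem_divisors] at h ⊢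
    obtain ⟨⟨h1, h2⟩, h3, h4⟩ := h
    rw [Nat.le_div_iff_mul_le (by omega)] at h4
    exact ⟨⟨Nat.mul_pos h3 h1, h4⟩, dvd_mul_right _ _, (Nat.mul_pos h3 h1).ne'⟩
  · rintro ⟨m, d⟩ h
    simp only [mem_sigma, mem_Icc, Nat.mem_divisors] at h
    simp only [Nat.mul_div_cancel' h.2.1]
  · rintro ⟨e, d⟩ h
    simp only [mem_sigma, mem_Icc] at h
    simp only [Nat.mul_div_cancel_left _ (show 0 < d by omega)]
  · rintro ⟨m, d⟩ h
    rfl

theorem fz_sum {z : ℝ} (h0 : 0 < z) (h1 : z ≤ 1) : ∃ C : ℝ, 0 < C ∧ ∀ Y : ℕ, 1 ≤ Y →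
    ∑ m ∈ Icc 1 Y, fz z m ≤ C * Y * (Real.log Y + 1) ^ (z - 1) := by
  obtain ⟨hpos, hone, hmul⟩ := fz_facts h0 h1
  obtain ⟨C1, hC1, hlog⟩ := fz_log h0 h1
  obtain ⟨K, hK0, hK⟩ : ∃ K : ℝ, 0 < K ∧ ∀ n : ℕ, ∑ d ∈ Icc 1 n, ArithmeticFunction.vonMangoldt d ≤ K * n := by
    refine ⟨Real.log 4 + 4, by have := Real.log_pos (show (1:ℝ) < 4 by norm_num); positivity, fun n => ?_⟩
    have := Chebyshev.psi_le_const_mul_self (x := (n : ℝ)) (Nat.cast_nonneg n)
    rw [Chebyshev.psi, Nat.floor_natCast] at this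
    exact this
  have hT : ∀ Y : ℕ, ∑ m ∈ Icc 1 Y, fz z m * Real.log m ≤ 3 * K * Y * ∑ m ∈ Icc 1 Y, fz z m / m := by
    intro Y
    calc ∑ m ∈ Icc 1 Y, fz z m * Real.log m
        = ∑ m ∈ Icc 1 Y, ∑ d ∈ m.divisors, fz z (d * (m / d)) * ArithmeticFunction.vonMangoldt d := by
          refine Finset.sum_congr rfl fun m hm => ?_
          rw [← ArithmeticFunction.vonMangoldt_sum, Finset.mul_sum]
          refine Finset.sum_congr rfl fun d hd => ?_
          rw [Nat.mul_div_cancel' (Nat.dvd_of_mem_divisors hd)]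
      _ = ∑ e ∈ Icc 1 Y, ∑ d ∈ Icc 1 (Y / e), fz z (d * e) * ArithmeticFunction.vonMangoldt d :=
          FSum_switch Y (fun d e => fz z (d * e) * ArithmeticFunction.vonMangoldt d)
      _ ≤ ∑ e ∈ Icc 1 Y, 3 * K * Y * (fz z e / e) := by
          refine Finset.sum_le_sum fun e he => ?_
          rw [mem_Icc] at he
          have he0 : (0 : ℝ) < e := by exact_mod_cast he.1
          calc ∑ d ∈ Icc 1 (Y / e), fz z (d * e) * ArithmeticFunction.vonMangoldt d
              ≤ ∑ d ∈ Icc 1 (Y / e), 3 * fz z e * ArithmeticFunction.vonMangoldt d := by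
                refine Finset.sum_le_sum fun d hd => ?_
                by_cases hp : IsPrimePow d
                · exact mul_le_mul_of_nonneg_right (hmul d e hp (by omega))
                    ArithmeticFunction.vonMangoldt_nonneg
                · rw [ArithmeticFunction.vonMangoldt_eq_zero_iff.2 hp]; simp
            _ = 3 * fz z e * ∑ d ∈ Icc 1 (Y / e), ArithmeticFunction.vonMangoldt d := by
                rw [Finset.mul_sum]
            _ ≤ 3 * fz z e * (K * (Y / e : ℕ)) :=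
                mul_le_mul_of_nonneg_left (hK _) (by have := hpos e; positivity)
            _ ≤ 3 * fz z e * (K * ((Y : ℝ) / e)) := by
                have := hpos e
                refine mul_le_mul_of_nonneg_left ?_ (by positivity)
                exact mul_le_mul_of_nonneg_left Nat.cast_div_le hK0.le
            _ = 3 * K * Y * (fz z e / e) := by ring
      _ = 3 * K * Y * ∑ m ∈ Icc 1 Y, fz z m / m := by rw [Finset.mul_sum]
  refine ⟨1 + C1 * (2 + 18 * K), by positivity, fun Y hY => ?_⟩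
  rcases Nat.eq_or_lt_of_le hY with h | h2
  · subst h
    have : (0 : ℝ) ≤ C1 * (2 + 18 * K) := by positivity
    simp [hone]
    exact this
  have hY2 : (2 : ℝ) ≤ Y := by exact_mod_cast h2
  have hY0 : (0 : ℝ) < Y := by linarith
  set l := Real.log Y with hl
  have hl1 : 1 / 2 ≤ l := by
    have h3 : Real.log 2 ≤ l := Real.log_le_log (by norm_num) hY2
    have := Real.log_two_gt_d9
    linarith
  have hl0 : 0 < l := by linarith
  set L := ∑ m ∈ Icc 1 Y, fz z m / m with hLdef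
  have hL : L ≤ C1 * l ^ z := hlog Y h2
  have hL0 : 0 ≤ L := Finset.sum_nonneg fun m _ => by have := hpos m; positivity
  set s := Real.sqrt Y with hs
  have hs0 : 0 < s := Real.sqrt_pos.2 hY0
  have hss : s * s = Y := Real.mul_self_sqrt hY0.le
  have hsl : l + 1 ≤ 2 * s := by
    have h3 : l = 2 * Real.log s := by
      rw [hl, ← hss, Real.log_mul hs0.ne' hs0.ne']; ring
    have h4 := Real.log_le_sub_one_of_pos hs0
    linarith
  -- the splitting
  have hsplit : ∑ m ∈ Icc 1 Y, fz z m ≤ s * L + 2 / l * ∑ m ∈ Icc 1 Y, fz z m * Real.log m := by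
    rw [hLdef, Finset.mul_sum, Finset.mul_sum, ← Finset.sum_add_distrib]
    refine Finset.sum_le_sum fun m hm => ?_
    rw [mem_Icc] at hm
    have hm0 : (0 : ℝ) < m := by exact_mod_cast hm.1
    have hm1 : (1 : ℝ) ≤ m := by exact_mod_cast hm.1
    have hf := hpos m
    by_cases hms : (m : ℝ) ≤ s
    · have h5 : fz z m ≤ s * (fz z m / m) := by
        rw [mul_div_assoc', le_div_iff₀ hm0]
        nlinarith
      have h6 : 0 ≤ 2 / l * (fz z m * Real.log m) := by
        have := Real.log_nonneg hm1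
        positivity
      linarith
    · have h5 : l ≤ 2 * Real.log m := by
        have h3 : l = 2 * Real.log s := by
          rw [hl, ← hss, Real.log_mul hs0.ne' hs0.ne']; ring
        have h4 := Real.log_le_log hs0 (le_of_not_ge hms)
        linarith
      have h6 : fz z m ≤ 2 / l * (fz z m * Real.log m) := by
        rw [div_mul_eq_mul_div, le_div_iff₀ hl0]
        nlinarith
      have h7 : 0 ≤ s * (fz z m / m) := by positivity
      linarith
  have hpow : l ^ z ≤ (l + 1) * (l + 1) ^ (z - 1) := by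
    calc l ^ z ≤ (l + 1) ^ z := Real.rpow_le_rpow hl0.le (by linarith) h0.le
      _ = (l + 1) ^ (1 + (z - 1)) := by ring_nf
      _ = (l + 1) ^ (1 : ℝ) * (l + 1) ^ (z - 1) := Real.rpow_add (by linarith) _ _
      _ = (l + 1) * (l + 1) ^ (z - 1) := by rw [Real.rpow_one]
  set P := (l + 1) ^ (z - 1) with hP
  have hP0 : 0 < P := Real.rpow_pos_of_pos (by linarith) _
  have hLP : L ≤ C1 * ((l + 1) * P) := hL.trans (mul_le_mul_of_nonneg_left hpow hC1.le)
  have hA : s * L ≤ C1 * 2 * Y * P := by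
    calc s * L ≤ s * (C1 * ((l + 1) * P)) := mul_le_mul_of_nonneg_left hLP hs0.le
      _ = C1 * P * s * (l + 1) := by ring
      _ ≤ C1 * P * s * (2 * s) := mul_le_mul_of_nonneg_left hsl (by positivity)
      _ = C1 * 2 * (s * s) * P := by ring
      _ = C1 * 2 * Y * P := by rw [hss]
  have hB : 2 / l * ∑ m ∈ Icc 1 Y, fz z m * Real.log m ≤ C1 * (18 * K) * Y * P := by
    calc 2 / l * ∑ m ∈ Icc 1 Y, fz z m * Real.log m ≤ 2 / l * (3 * K * Y * L) :=
          mul_le_mul_of_nonneg_left (hT Y) (by positivity)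
      _ ≤ 2 / l * (3 * K * Y * (C1 * ((l + 1) * P))) :=
          mul_le_mul_of_nonneg_left (mul_le_mul_of_nonneg_left hLP (by positivity)) (by positivity)
      _ = 6 * K * Y * C1 * P * ((l + 1) / l) := by ring
      _ ≤ 6 * K * Y * C1 * P * 3 := by
          refine mul_le_mul_of_nonneg_left ?_ (by positivity)
          rw [div_le_iff₀ hl0]; linarith
      _ = C1 * (18 * K) * Y * P := by ring
  calc ∑ m ∈ Icc 1 Y, fz z m ≤ s * L + 2 / l * ∑ m ∈ Icc 1 Y, fz z m * Real.log m := hsplit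
    _ ≤ C1 * 2 * Y * P + C1 * (18 * K) * Y * P := add_le_add hA hB
    _ ≤ (1 + C1 * (2 + 18 * K)) * Y * P := by
        have : 0 ≤ Y * P := by positivity
        nlinarith

end Pool.Agent.PPD
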