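import Pool.Agent.PPD.FFew

/-!
# Module PPD/FWrap: from `Adm` to orders

PROOF. The squares in `[2, x]` are at most `√x ≤ C x / (log x) ^ (1 + η)` (cf. Pool/Agent/PPD/Wrap.lean and the private lemmas `card_sq_le`, `log_rpow_le` in Pool/Agent/PPC/Density.lean); the other `n`
with `P n` satisfy `Adm R n`: `few_adm`.
-/

set_option autoImplicit false

namespace Pool.Agent.PPD

open Finset Classical Pool.Agent.PPC

private lemma fw_card_sq_le (x : ℕ) :
    (#((Icc 2 x).filter IsSquare) : ℝ) ≤ Real.sqrt x := by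
  have h1 : #((Icc 2 x).filter IsSquare) ≤ Nat.sqrt x := by
    calc #((Icc 2 x).filter IsSquare) ≤ #((Icc 1 (Nat.sqrt x)).image (fun m => m * m)) := by
          apply card_le_card
          intro n hn
          rw [mem_filter, mem_Icc] at hn
          obtain ⟨⟨h2, h3⟩, m, rfl⟩ := hn
          rw [mem_image]
          refine ⟨m, ?_, rfl⟩
          rw [mem_Icc]
          constructor
          · by_contra h
            have : m = 0 := by omega
            subst this
            omega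
          · exact Nat.le_sqrt.mpr h3
      _ ≤ #(Icc 1 (Nat.sqrt x)) := card_image_le
      _ = Nat.sqrt x := by simp
  calc (#((Icc 2 x).filter IsSquare) : ℝ) ≤ (Nat.sqrt x : ℝ) := by exact_mod_cast h1
    _ ≤ Real.sqrt x := Real.nat_sqrt_le_real_sqrt

private lemma fw_log_rpow_le (a : ℝ) : ∃ C : ℝ, ∀ x : ℕ, 2 ≤ x →
    (Real.log x) ^ a ≤ C * Real.sqrt x := by
  have hl2 : 0 < Real.log 2 := Real.log_pos (by norm_num)
  rcases le_or_gt a 0 with ha | ha
  · refine ⟨(Real.log 2) ^ a, fun x hx => ?_⟩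
    have hx1 : (1 : ℝ) ≤ x := by exact_mod_cast (by omega : 1 ≤ x)
    have hs1 : 1 ≤ Real.sqrt x := by
      rw [← Real.sqrt_one]
      exact Real.sqrt_le_sqrt hx1
    have h2 : Real.log 2 ≤ Real.log x := Real.log_le_log (by norm_num) (by exact_mod_cast hx)
    have h3 : (Real.log x) ^ a ≤ (Real.log 2) ^ a := Real.rpow_le_rpow_of_nonpos hl2 h2 ha
    have h4 : 0 < (Real.log 2) ^ a := Real.rpow_pos_of_pos hl2 _
    nlinarith
  · refine ⟨(2 * a) ^ a, fun x hx => ?_⟩
    have hx0 : (0 : ℝ) ≤ x := Nat.cast_nonneg x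
    have hL : 0 ≤ Real.log x := Real.log_nonneg (by exact_mod_cast (by omega : 1 ≤ x))
    have h1 : Real.log x ≤ 2 * a * (x : ℝ) ^ (1 / (2 * a)) := by
      have h := Real.log_le_rpow_div hx0 (by positivity : (0 : ℝ) < 1 / (2 * a))
      have e : (x : ℝ) ^ (1 / (2 * a)) / (1 / (2 * a)) = 2 * a * (x : ℝ) ^ (1 / (2 * a)) := by
        field_simp
      rw [e] at h
      exact h
    calc (Real.log x) ^ a ≤ (2 * a * (x : ℝ) ^ (1 / (2 * a))) ^ a :=
          Real.rpow_le_rpow hL h1 ha.le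
      _ = (2 * a) ^ a * ((x : ℝ) ^ (1 / (2 * a))) ^ a :=
          Real.mul_rpow (by positivity) (Real.rpow_nonneg hx0 _)
      _ = (2 * a) ^ a * Real.sqrt x := by
          rw [← Real.rpow_mul hx0, Real.sqrt_eq_rpow]
          congr 2
          field_simp

theorem wrap_few {R : ℕ → ℕ → Prop} {ρ : ℕ → ℕ} (hc : Cond2 R ρ) {P : ℕ → Prop}
    (hP : ∀ n : ℕ, 2 ≤ n → ¬ IsSquare n → P n → Adm R n) {c η : ℝ} (h0 : 0 < c)
    (h1 : c < 1) (hη : η < 1 - c + c * Real.log c) (hη2 : η < 1 / 2) :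
    ∃ C : ℝ, ∀ x : ℕ, 2 ≤ x →
      (#((Icc 2 x).filter (fun n => P n ∧ ¬ IsPrimePow n ∧
        (#n.primeFactors : ℝ) ≤ c * Real.log (Real.log x))) : ℝ) ≤
          C * x / (Real.log x) ^ (1 + η) := by
  obtain ⟨C, hC⟩ := few_adm hc h0 h1 hη hη2
  obtain ⟨C', hC'⟩ := fw_log_rpow_le (1 + η)
  refine ⟨C + C', fun x hx => ?_⟩
  have hL : 0 < Real.log x := Real.log_pos (by exact_mod_cast (by omega : 1 < x))
  have hLp : 0 < (Real.log x) ^ (1 + η) := Real.rpow_pos_of_pos hL _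
  have h2 : #((Icc 2 x).filter (fun n => P n ∧ ¬ IsPrimePow n ∧
        (#n.primeFactors : ℝ) ≤ c * Real.log (Real.log x))) ≤
      #((Icc 1 x).filter (fun n => Adm R n ∧ ¬ IsPrimePow n ∧
        (#n.primeFactors : ℝ) ≤ c * Real.log (Real.log x))) + #((Icc 2 x).filter IsSquare) := by
    refine (card_le_card ?_).trans (card_union_le _ _)
    intro n hn
    rw [mem_filter, mem_Icc] at hn
    rw [mem_union, mem_filter, mem_filter, mem_Icc, mem_Icc]
    by_cases hsq : IsSquare n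
    · exact Or.inr ⟨hn.1, hsq⟩
    · exact Or.inl ⟨⟨by omega, hn.1.2⟩, hP n hn.1.1 hsq hn.2.1, hn.2.2⟩
  have h3 : (#((Icc 2 x).filter (fun n => P n ∧ ¬ IsPrimePow n ∧
        (#n.primeFactors : ℝ) ≤ c * Real.log (Real.log x))) : ℝ) ≤
      #((Icc 1 x).filter (fun n => Adm R n ∧ ¬ IsPrimePow n ∧
        (#n.primeFactors : ℝ) ≤ c * Real.log (Real.log x))) +
      #((Icc 2 x).filter IsSquare) := by exact_mod_cast h2
  have h4 : Real.sqrt x ≤ C' * x / (Real.log x) ^ (1 + η) := by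
    rw [le_div_iff₀ hLp]
    calc Real.sqrt x * (Real.log x) ^ (1 + η)
        ≤ Real.sqrt x * (C' * Real.sqrt x) :=
          mul_le_mul_of_nonneg_left (hC' x hx) (Real.sqrt_nonneg _)
      _ = C' * (Real.sqrt x * Real.sqrt x) := by ring
      _ = C' * x := by rw [Real.mul_self_sqrt (Nat.cast_nonneg x)]
  have h5 := hC x hx
  have h6 := fw_card_sq_le x
  have h7 : (C + C') * x / (Real.log x) ^ (1 + η) =
      C * x / (Real.log x) ^ (1 + η) + C' * x / (Real.log x) ^ (1 + η) := by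
    rw [add_mul, add_div]
  rw [h7]
  linarith

end Pool.Agent.PPD
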