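import Pool.Agent.PPD.Jac

/-!
# Module PPD/RecipN: fixed witnesses for neofields

PROOF. If `n % 3 = 1` then `RN 3 n` and `D = -3` by `miss_three`. Otherwise write `n - 1 = 4 ^ j u` with `¬ 4 ∣ u` (`n ≥ 2`; `Nat.exists_eq_pow_mul_and_not_dvd`); by hypothesis `u % 4 = 1` or `2`.
Let `l ≥ 5` be a prime divisor of `n` (odd, coprime to `u`, as `u ∣ n - 1`); `4 ^ j u ≡ -1 (mod l)`, so `jacobiSym u l = jacobiSym (-1) l` (`jacobiSym 4 l = 1`). Every prime `r ∣ u` has `RN r n`
and does not divide `l`.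
(1) `u % 4 = 1`: `jacobiSym l u = 1` (`jac_one`), reciprocity (`jacobiSym.quadratic_reciprocity_one_mod_four`): `jacobiSym u l = 1`, so `chi (-1) l = 1`: `D = -1`.
(2) `u = 2 u'`, `u' % 4 = 1`: `jacobiSym u' l = jacobiSym l u' = 1`, `jacobiSym 2 l * jacobiSym u' l = jacobiSym (-1) l`, so `jacobiSym (-2) l = 1`: `D = -2`.
(3) `u = 2 u'`, `u' % 4 = 3`: `jacobiSym l u' = 1`. If `l % 4 = 1` then `jacobiSym u' l = 1`, `jacobiSym 2 l = jacobiSym (-1) l = 1`. If `l % 4 = 3` then `jacobiSym u' l = -1`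
(`jacobiSym.quadratic_reciprocity_three_mod_four`) and `jacobiSym 2 l * (-1) = jacobiSym (-1) l = -1`. So `chi 2 l = 1`: `D = 2`.
-/

set_option autoImplicit false

namespace Pool.Agent.PPD

open Finset Classical Pool.Agent.PPC

private lemma chi_odd {D : ℤ} {l : ℕ} (h : l % 2 = 1) : chi D l = (jacobiSym D l : ℝ) := by
  unfold chi
  rw [if_neg (by omega)]

/-- `4 ^ j u = n - 1`, `l ∣ n`: `(u / l) = (-1 / l)`. -/
private lemma rn_key {n j u l : ℕ} (hn : n = 4 ^ j * u + 1) (hl : l.Prime) (h5 : 5 ≤ l)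
    (hln : l ∣ n) : jacobiSym (u : ℤ) l = jacobiSym (-1) l := by
  have hodd : l % 2 = 1 := by
    rcases hl.eq_two_or_odd with h | h
    · omega
    · exact h
  have h2l : IsCoprime (2 : ℤ) (l : ℤ) := by
    rw [Int.isCoprime_iff_gcd_eq_one]
    have : Nat.Coprime 2 l := by
      rw [Nat.coprime_two_left]
      exact Nat.odd_iff.2 hodd
    exact_mod_cast this
  have hsq : jacobiSym (((4 ^ j : ℕ) : ℤ)) l = 1 := by
    have h4 : ((4 ^ j : ℕ) : ℤ) = (2 ^ j) ^ 2 := by
      push_cast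
      rw [← pow_mul, mul_comm j 2, pow_mul]
      norm_num
    rw [h4]
    apply jacobiSym.sq_one'
    exact Int.isCoprime_iff_gcd_eq_one.1 (h2l.pow_left)
  have h1 : jacobiSym (((4 ^ j * u : ℕ) : ℤ)) l = jacobiSym (-1) l := by
    rw [jacobiSym.mod_left (((4 ^ j * u : ℕ) : ℤ)) l, jacobiSym.mod_left (-1) l]
    congr 1
    have h2 : ((l : ℕ) : ℤ) ∣ ((4 ^ j * u : ℕ) : ℤ) - (-1) := by
      have h3 : (((4 ^ j * u : ℕ) : ℤ) - (-1)) = ((n : ℕ) : ℤ) := by
        rw [hn]; push_cast; ring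
      rw [h3]
      exact_mod_cast hln
    exact ((Int.modEq_iff_dvd).2 h2).symm
  rw [← h1]
  push_cast at hsq ⊢
  rw [jacobiSym.mul_left, hsq, one_mul]

theorem recip_neo {n : ℕ} (hn : 2 ≤ n) (hadm : Adm RN n)
    (h : (¬ ∃ j u : ℕ, n = 4 ^ j * u + 1 ∧ u % 4 = 3) ∨ n % 3 = 1) :
    ∃ D : ℤ, Small D ∧ Miss D n := by
  by_cases h3 : n % 3 = 1
  · refine ⟨-3, by unfold Small; simp, miss_three hadm ?_⟩
    unfold RN Nat.ModEq
    omega
  have h' : ¬ ∃ j u : ℕ, n = 4 ^ j * u + 1 ∧ u % 4 = 3 := h.resolve_right h3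
  obtain ⟨j, u, hu4, hu⟩ := Nat.exists_eq_pow_mul_and_not_dvd (show n - 1 ≠ 0 by omega) 4
    (by norm_num)
  have hnu : n = 4 ^ j * u + 1 := by omega
  have hun : u ∣ n - 1 := by rw [hu]; exact dvd_mul_left _ _
  have hu3 : u % 4 ≠ 3 := fun h => h' ⟨j, u, hnu, h⟩
  have hu0 : u % 4 ≠ 0 := fun h => hu4 (Nat.dvd_of_mod_eq_zero h)
  -- Jacobi symbols of prime divisors of `n` modulo divisors of `u`
  have hjac : ∀ l m : ℕ, l.Prime → l ∣ n → m ∣ u → jacobiSym (l : ℤ) m = 1 := by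
    intro l m hl hln hm
    have hm0 : m ≠ 0 := by
      rintro rfl
      rw [zero_dvd_iff] at hm
      rw [hm] at hu0
      simp at hu0
    apply jac_one hm0
    intro r hr hrm
    have hrn : r ∣ n - 1 := (hrm.trans hm).trans hun
    refine ⟨?_, ?_⟩
    · intro hrl
      have : r = l := (Nat.prime_dvd_prime_iff_eq hr hl).1 hrl
      rw [this] at hrn
      have h1 : l ∣ n - (n - 1) := Nat.dvd_sub hln hrn
      have h2 : n - (n - 1) = 1 := by omega
      rw [h2] at h1
      exact hl.one_lt.ne' (Nat.dvd_one.1 h1)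
    · apply hadm l r hl hr hln
      unfold RN
      exact ((Nat.modEq_iff_dvd' (by omega)).2 hrn).symm
  have hlodd : ∀ l : ℕ, l.Prime → 5 ≤ l → l % 2 = 1 := by
    intro l hl h5
    rcases hl.eq_two_or_odd with h | h
    · omega
    · exact h
  -- products
  have hprod : ∀ l : ℕ, l.Prime → 5 ≤ l → ∀ a b : ℤ,
      jacobiSym (a * b) l = jacobiSym a l * jacobiSym b l := fun l _ _ a b =>
    jacobiSym.mul_left a b l
  rcases (show u % 4 = 1 ∨ u % 4 = 2 by omega) with hu1 | hu2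
  · refine ⟨-1, by unfold Small; simp, ?_⟩
    intro l hl h5 hln
    have hodd := hlodd l hl h5
    rw [chi_odd hodd, ← rn_key hnu hl h5 hln,
      jacobiSym.quadratic_reciprocity_one_mod_four hu1 (Nat.odd_iff.2 hodd),
      hjac l u hl hln dvd_rfl]
    norm_num
  · obtain ⟨v, hv⟩ : 2 ∣ u := by omega
    have hvu : v ∣ u := ⟨2, by rw [hv]; ring⟩
    rcases (show v % 4 = 1 ∨ v % 4 = 3 by omega) with hv1 | hv3
    · refine ⟨-2, by unfold Small; simp, ?_⟩
      intro l hl h5 hln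
      have hodd := hlodd l hl h5
      have hkey := rn_key hnu hl h5 hln
      have h1 : jacobiSym (v : ℤ) l = 1 := by
        rw [jacobiSym.quadratic_reciprocity_one_mod_four hv1 (Nat.odd_iff.2 hodd),
          hjac l v hl hln hvu]
      have h2 : jacobiSym 2 l = jacobiSym (-1) l := by
        rw [← hkey, hv]
        push_cast
        rw [jacobiSym.mul_left, h1, mul_one]
      have h4 : jacobiSym (-2) l = jacobiSym (-1) l * jacobiSym (-1) l := by
        rw [show (-2 : ℤ) = (-1) * 2 by norm_num, jacobiSym.mul_left, h2]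
      rw [chi_odd hodd, h4]
      intro h6
      have h7 : (jacobiSym (-1) l * jacobiSym (-1) l : ℤ) = -1 := by exact_mod_cast h6
      nlinarith [mul_self_nonneg (jacobiSym (-1) l)]
    · refine ⟨2, by unfold Small; simp, ?_⟩
      intro l hl h5 hln
      have hodd := hlodd l hl h5
      have hkey := rn_key hnu hl h5 hln
      have h0 : jacobiSym (l : ℤ) v = 1 := hjac l v hl hln hvu
      have h2 : jacobiSym 2 l * jacobiSym (v : ℤ) l = jacobiSym (-1) l := by
        rw [← hkey, hv]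
        push_cast
        rw [jacobiSym.mul_left]
      have hm1 : jacobiSym (-1) l = ZMod.χ₄ l := jacobiSym.at_neg_one (Nat.odd_iff.2 hodd)
      rw [chi_odd hodd]
      rcases (show l % 4 = 1 ∨ l % 4 = 3 by omega) with hl1 | hl3
      · have h1 : jacobiSym (v : ℤ) l = 1 := by
          rw [← jacobiSym.quadratic_reciprocity_one_mod_four hl1 (Nat.odd_iff.2 (by omega)), h0]
        rw [h1, mul_one, hm1, ZMod.χ₄_nat_one_mod_four hl1] at h2
        rw [h2]
        norm_num
      · have h1 : jacobiSym (v : ℤ) l = -1 := by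
          rw [jacobiSym.quadratic_reciprocity_three_mod_four hv3 hl3, h0]
        rw [h1, hm1, ZMod.χ₄_nat_three_mod_four hl3] at h2
        have h5 : jacobiSym 2 l = 1 := by linarith
        rw [h5]
        norm_num

end Pool.Agent.PPD
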