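import Pool.Agent.PPD.RecipP
import Pool.Agent.PPD.RecipN

/-!
# Module PPD/Final2: the exceptional families

PROOF. `jacobiSym 2 m = -1` for `m % 8 = 3, 5`, against `jac_one` if `2 ∣ n` and `m ∣ n² + n + 1` resp. `m = n - 1`. The rest is
`recip_plane`, `recip_neo` and `Nat.minFac`.
-/

set_option autoImplicit false

namespace Pool.Agent.PPD

open Finset Classical Pool.Agent.PPC

theorem miss_neg_one {n : ℕ} (h : ∀ p : ℕ, p.Prime → p ∣ n → p % 4 = 1) : Miss (-1) n := by
  intro l hl h5 hln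
  have hl1 := h l hl hln
  have hchi : chi (-1) l = (jacobiSym (-1) l : ℝ) := by
    unfold chi
    rw [if_neg (by omega)]
  have hm1 : jacobiSym (-1) l = ZMod.χ₄ l := jacobiSym.at_neg_one (Nat.odd_iff.2 (by omega))
  rw [hchi, hm1, ZMod.χ₄_nat_one_mod_four hl1]
  norm_num

theorem two_absurd {m : ℕ} (hm : m % 8 = 3 ∨ m % 8 = 5)
    (h : ∀ r : ℕ, r.Prime → r ∣ m → IsSquare ((2 : ℕ) : ZMod r)) : False := by
  have h1 : jacobiSym ((2 : ℕ) : ℤ) m = 1 := by
    apply jac_one (by omega)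
    intro r hr hrm
    refine ⟨?_, h r hr hrm⟩
    intro hr2
    have : r = 2 := (Nat.prime_dvd_prime_iff_eq hr Nat.prime_two).1 hr2
    subst this
    omega
  have h2 : jacobiSym (2 : ℤ) m = ZMod.χ₈ m := jacobiSym.at_two (Nat.odd_iff.2 (by omega))
  have h3 : ZMod.χ₈ (m : ZMod 8) = -1 := by
    have h4 : (m : ZMod 8) = ((m % 8 : ℕ) : ZMod 8) := by rw [ZMod.natCast_mod]
    rw [h4]
    rcases hm with h5 | h5 <;> rw [h5] <;> decide
  rw [Nat.cast_ofNat, h2, h3] at h1
  norm_num at h1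

theorem plane_cond {n : ℕ} (_hn : 2 ≤ n) (hadm : Adm RP n) (δ : ℝ)
    (h : ¬ ((8 ∣ n ∨ n % 4 = 3) ∧ n % 3 ≠ 1 ∧
      ∀ r : ℕ, r.Prime → r ∣ n ^ 2 + n + 1 → (n : ℝ) ^ (1 - δ) < r)) :
    (∃ D : ℤ, Small D ∧ Miss D n) ∨
      ∃ r : ℕ, r.Prime ∧ 5 ≤ r ∧ (r : ℝ) ≤ (n : ℝ) ^ (1 - δ) ∧ RP r n := by
  by_cases h1 : n % 4 = 1 ∨ n % 4 = 2 ∨ n % 3 = 1
  · exact Or.inl (recip_plane hadm h1)
  · have h3 : n % 3 ≠ 1 := by tauto
    have h4 : n % 4 = 0 ∨ n % 4 = 3 := by omega
    have h8 : 8 ∣ n ∨ n % 4 = 3 := by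
      rcases h4 with h4 | h4
      · left
        by_contra h8
        have h9 : n % 8 = 4 := by omega
        have hv : (n ^ 2 + n + 1) % 8 = 5 := by
          rw [Nat.add_mod, Nat.add_mod (n ^ 2), Nat.pow_mod, h9]
        exact two_absurd (Or.inr hv)
          (fun r hr hrv => hadm 2 r Nat.prime_two hr (by omega) hrv)
      · exact Or.inr h4
    right
    by_contra hcon
    apply h
    refine ⟨h8, h3, fun r hr hrv => ?_⟩
    by_contra hlt
    push Not at hlt
    apply hcon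
    refine ⟨r, hr, ?_, hlt, hrv⟩
    by_contra h5
    have hr2 := hr.two_le
    have h6 : r = 2 ∨ r = 3 := by
      have : r ≠ 4 := by rintro rfl; exact absurd hr (by norm_num)
      omega
    rcases h6 with rfl | rfl
    · have h7 : (n ^ 2 + n + 1) % 2 = 1 := by
        rcases Nat.mod_two_eq_zero_or_one n with h8 | h8 <;>
          rw [Nat.add_mod, Nat.add_mod (n ^ 2), Nat.pow_mod, h8]
      omega
    · have h7 : (n ^ 2 + n + 1) % 3 ≠ 0 := by
        have h8 : n % 3 = 0 ∨ n % 3 = 2 := by omega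
        rcases h8 with h8 | h8 <;> rw [Nat.add_mod, Nat.add_mod (n ^ 2), Nat.pow_mod, h8] <;>
          norm_num
      omega

theorem neo_cond {n : ℕ} (hn : 2 ≤ n) (hadm : Adm RN n)
    (h4 : n % 4 = 1 → ∀ p : ℕ, p.Prime → p ∣ n → p % 4 = 1)
    (h : ¬ (8 ∣ n ∧ (n - 1).Prime)) :
    (∃ D : ℤ, Small D ∧ Miss D n) ∨
      ∃ r : ℕ, r.Prime ∧ 5 ≤ r ∧ (r : ℝ) ≤ (n : ℝ) ^ (1 - 1 / 2 : ℝ) ∧ RN r n := by
  have hmod : n % 4 < 4 := Nat.mod_lt _ (by norm_num)
  by_cases h1 : n % 4 = 1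
  · exact Or.inl ⟨-1, Or.inl rfl, miss_neg_one (h4 h1)⟩
  by_cases h0 : n % 4 = 0
  · by_cases h3 : n % 3 = 1
    · exact Or.inl (recip_neo hn hadm (Or.inr h3))
    · by_cases h8 : 8 ∣ n
      · right
        have hnp : ¬ (n - 1).Prime := fun hp => h ⟨h8, hp⟩
        have hr : (n - 1).minFac.Prime := Nat.minFac_prime (by omega)
        have hrd : (n - 1).minFac ∣ n - 1 := Nat.minFac_dvd _
        have hsq : (n - 1).minFac ^ 2 ≤ n - 1 := Nat.minFac_sq_le_self (by omega) hnp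
        refine ⟨(n - 1).minFac, hr, ?_, ?_, ?_⟩
        · by_contra h5
          have hr2 := hr.two_le
          have h6 : (n - 1).minFac = 2 ∨ (n - 1).minFac = 3 := by
            have : (n - 1).minFac ≠ 4 := by
              intro h7
              rw [h7] at hr
              exact absurd hr (by norm_num)
            omega
          rcases h6 with h6 | h6 <;> rw [h6] at hrd <;> omega
        · have h5 : (((n - 1).minFac : ℕ) : ℝ) ^ 2 ≤ n := by
            have : (n - 1).minFac ^ 2 ≤ n := by omega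
            exact_mod_cast this
          rw [show (1 - 1 / 2 : ℝ) = 1 / 2 by norm_num, ← Real.sqrt_eq_rpow]
          exact Real.le_sqrt_of_sq_le h5
        · show n ≡ 1 [MOD (n - 1).minFac]
          exact ((Nat.modEq_iff_dvd' (by omega)).2 hrd).symm
      · exfalso
        refine two_absurd (m := n - 1) (by omega) (fun r hr hrv =>
          hadm 2 r Nat.prime_two hr (by omega) ?_)
        show n ≡ 1 [MOD r]
        exact ((Nat.modEq_iff_dvd' (by omega)).2 hrv).symm
  · left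
    apply recip_neo hn hadm
    left
    rintro ⟨j, u, hju, hu⟩
    cases j with
    | zero => omega
    | succ j =>
      have : n % 4 = 1 := by
        rw [hju, pow_succ, mul_comm (4 ^ j) 4, mul_assoc]
        omega
      exact h1 this

end Pool.Agent.PPD
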