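import Pool.Agent.PPD.Psi

/-!
# Module PPD/Jac: Jacobi symbols of squares, and the witness 3

PROOF. `jac_one`: `jacobiSym l m` is the product of the Legendre symbols `(l / r)` over the prime factors `r` of `m` (`jacobiSym` is defined like this,
`Nat.primeFactorsList`); each is `1`, as `l` is a square modulo `r` and not `0` (`legendreSym.eq_one_iff'`, `r ∤ l`).
`miss_three`: a prime `l ≥ 5` with `l ∣ n` is a square modulo `3`, so `l % 3 = 1` (`2` is not a square modulo `3`, `3 ∤ l`), and `chi (-3) l = 1`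
(`PPC.rhoP_eq`, Pool/Agent/PPC/Avg.lean: `rhoP l = 1 + chi (-3) l`).
-/

set_option autoImplicit false

namespace Pool.Agent.PPD

open Finset Classical Pool.Agent.PPC

theorem jac_one {l m : ℕ} (hm : m ≠ 0) (h : ∀ r : ℕ, r.Prime → r ∣ m → ¬ r ∣ l ∧
    IsSquare ((l : ℕ) : ZMod r)) : jacobiSym (l : ℤ) m = 1 := by
  induction m using Nat.recOnMul with
  | zero => exact absurd rfl hm
  | one => exact jacobiSym.one_right _
  | prime p hp =>
    have : Fact p.Prime := ⟨hp⟩
    obtain ⟨h1, h2⟩ := h p hp dvd_rfl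
    rw [← jacobiSym.legendreSym.to_jacobiSym]
    refine (legendreSym.eq_one_iff p ?_).2 (by simpa using h2)
    rw [Int.cast_natCast]
    intro h3
    exact h1 ((ZMod.natCast_eq_zero_iff _ _).1 h3)
  | mul a b ha hb =>
    have ha0 : a ≠ 0 := by
      rintro rfl
      simp at hm
    have hb0 : b ≠ 0 := by
      rintro rfl
      simp at hm
    have : NeZero a := ⟨ha0⟩
    have : NeZero b := ⟨hb0⟩
    rw [jacobiSym.mul_right, ha ha0 (fun r hr hra => h r hr (hra.mul_right b)),
      hb hb0 (fun r hr hrb => h r hr (hrb.mul_left a)), one_mul]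

theorem miss_three {R : ℕ → ℕ → Prop} {n : ℕ} (hadm : Adm R n) (h : R 3 n) : Miss (-3) n := by
  intro l hl h5 hln
  have h1 := hadm l 3 hl Nat.prime_three hln h
  have h2 := rhoP_eq hl h5
  have h3 : ¬ 3 ∣ l := by
    intro h3
    have := (Nat.prime_dvd_prime_iff_eq Nat.prime_three hl).1 h3
    omega
  have h4 : l % 3 = 1 := by
    by_contra h4
    have h5 : l % 3 = 2 := by omega
    have h6 : ((l : ℕ) : ZMod 3) = 2 := by
      have : ((l : ℕ) : ZMod 3) = ((l % 3 : ℕ) : ZMod 3) := by simp
      rw [this, h5]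
      rfl
    rw [h6] at h1
    revert h1
    decide
  have h7 : rhoP l = 2 := by
    unfold rhoP
    rw [if_pos h4]
  rw [h7] at h2
  intro h8
  rw [h8] at h2
  norm_num at h2

end Pool.Agent.PPD
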