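import Pool.Agent.PPC.NeoMann

/-!
# Module PPD/Neo4: characters of order 4

For a non-square order `n` of a planar neofield with `n % 4 = 1` every prime divisor of `n` is `1` modulo `4`.

PROOF. `sum_pair`: as `NDS.sum_sq`. `char4`: the dual group of `A` has order `n - 1`, divisible by `4`; a subgroup of order `4`
either contains an element of order `4` or two different characters `χ, χ'` of order `2` with `χ χ' ≠ 1`; in the second case
`c = ∑ χ(x) χ'(y)` is an integer and `c² = n` by `sum_pair`. `adm4`: let `χ` have order `4`, `c = ∑ χ (x y)`, a Gaussian integer. If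
`p ∣ n`, `p % 4 = 3`, then `(x, y) ↦ (x^p, y^p)` permutes `D`, so `c = ∑ χ (x y)^3 = ∑ χ (x y)^(-1)` and `c² = n`
by `NDS.sum_sq`. `c = a + b i`: `a² - b² = n`, `a b = 0`, so `n = a²`.
-/

set_option autoImplicit false

namespace Pool.Agent.PPD

open Finset Pool.Agent.PPC

theorem sum_pair {A : Type} [CommGroup A] [Fintype A] {n : ℕ} {e : A} {D : Finset (A × A)}
    (h : NDS n e D) (α β : A →* ℂ) (h1 : ∑ a, α a = 0) (h2 : ∑ a, β a = 0)
    (h3 : ∑ a, α a * β a = 0) :
    (∑ s ∈ D, α s.1 * β s.2) * (∑ s ∈ D, α s.1⁻¹ * β s.2⁻¹) = n := by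
  classical
  rw [sum_mul_sum, ← sum_product' D D (fun s r => (α s.1 * β s.2) * (α r.1⁻¹ * β r.2⁻¹))]
  rw [← Finset.sum_fiberwise (D ×ˢ D) (fun p : (A × A) × (A × A) => p.1 / p.2)
    (fun p => (α p.1.1 * β p.1.2) * (α p.2.1⁻¹ * β p.2.2⁻¹))]
  have h3' : ∀ g : A × A, ∑ p ∈ D ×ˢ D with p.1 / p.2 = g,
      (α p.1.1 * β p.1.2) * (α p.2.1⁻¹ * β p.2.2⁻¹) =
      ((if g = 1 then #D else if g.1 ≠ 1 ∧ g.2 ≠ 1 ∧ g.1 ≠ g.2 then 1 else 0 : ℕ) : ℂ) *
        (α g.1 * β g.2) := by
    intro g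
    rw [← h.card_ratio g]
    have h4 : ((D ×ˢ D).filter fun p : (A × A) × (A × A) => p.1 / p.2 = g) =
        ((D ×ˢ D).filter fun s : (A × A) × (A × A) => s.1 = g * s.2) :=
      filter_congr fun p _ => div_eq_iff_eq_mul
    rw [← h4, ← nsmul_eq_mul, ← sum_const]
    refine sum_congr rfl fun p hp => ?_
    rw [← (mem_filter.1 hp).2, mul_mul_mul_comm, ← map_mul, ← map_mul, ← div_eq_mul_inv,
      ← div_eq_mul_inv]
    rfl
  rw [sum_congr rfl fun g _ => h3' g]
  have h4 : ∀ g : A × A, ((if g = 1 then #D else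
      if g.1 ≠ 1 ∧ g.2 ≠ 1 ∧ g.1 ≠ g.2 then 1 else 0 : ℕ) : ℂ) * (α g.1 * β g.2) =
      (if g = 1 then (#D : ℂ) else 0) +
      if g.1 ≠ 1 then α g.1 * (if g.2 ≠ 1 ∧ g.1 ≠ g.2 then β g.2 else 0) else 0 := by
    intro g
    by_cases hg : g = 1
    · rw [if_pos hg, if_pos hg, hg]
      simp
    · rw [if_neg hg, if_neg hg, zero_add]
      by_cases h5 : g.1 ≠ 1
      · by_cases h6 : g.2 ≠ 1 ∧ g.1 ≠ g.2
        · rw [if_pos ⟨h5, h6⟩, if_pos h5, if_pos h6, Nat.cast_one, one_mul]
        · rw [if_neg (fun h7 => h6 h7.2), if_pos h5, if_neg h6, Nat.cast_zero, zero_mul, mul_zero]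
      · rw [if_neg (fun h7 => h5 h7.1), if_neg h5, Nat.cast_zero, zero_mul]
  rw [sum_congr rfl fun g _ => h4 g, sum_add_distrib, sum_ite_eq' univ (1 : A × A),
    if_pos (mem_univ _), Fintype.sum_prod_type]
  have h5 : ∀ a : A, ∑ b : A, (if a ≠ 1 then α a * (if b ≠ 1 ∧ a ≠ b then β b else 0) else 0) =
      (α a * (-1 - β a)) - if a = 1 then (-2 : ℂ) else 0 := by
    intro a
    by_cases ha : a = 1
    · subst ha
      simp
      norm_num
    · simp only [ne_eq, ha, not_false_eq_true, if_true, if_false, sub_zero]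
      rw [← mul_sum]
      congr 1
      have h6 : ∀ b : A, (if ¬ b = 1 ∧ ¬ a = b then β b else 0) =
          β b - (if b = 1 then (1 : ℂ) else 0) - (if b = a then β a else 0) := by
        intro b
        by_cases hb : b = 1
        · subst hb
          simp [Ne.symm ha]
        · by_cases hab : b = a
          · subst hab
            simp [hb]
          · simp [hb, hab, Ne.symm hab]
      rw [sum_congr rfl fun b _ => h6 b, sum_sub_distrib, sum_sub_distrib, h2, sum_ite_eq',
        sum_ite_eq', if_pos (mem_univ _), if_pos (mem_univ _)]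
      ring
  rw [sum_congr rfl fun a _ => h5 a, sum_sub_distrib, sum_ite_eq', if_pos (mem_univ _)]
  have h6 : ∑ a, α a * (-1 - β a) = 0 := by
    have h7 : ∀ a : A, α a * (-1 - β a) = - α a - α a * β a := fun a => by ring
    rw [sum_congr rfl fun a _ => h7 a, sum_sub_distrib, sum_neg_distrib, h1, h3]
    ring
  rw [h6, ← h.card_D]
  push_cast
  ring

/-- The multiplicative homomorphism of an additive character. -/
noncomputable def toHom {A : Type} [CommGroup A] (χ : AddChar (Additive A) ℂ) : A →* ℂ where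
  toFun := fun a => χ (Additive.ofMul a)
  map_one' := by rw [ofMul_one, AddChar.map_zero_eq_one]
  map_mul' := fun a b => by rw [ofMul_mul, AddChar.map_add_eq_mul]

theorem toHom_apply {A : Type} [CommGroup A] (χ : AddChar (Additive A) ℂ) (a : A) :
    toHom χ a = χ (Additive.ofMul a) := rfl

theorem sum_toHom {A : Type} [CommGroup A] [Fintype A] {χ : AddChar (Additive A) ℂ} (h : χ ≠ 1) :
    ∑ a, toHom χ a = 0 := by
  have h1 : ∑ x, χ x = 0 := AddChar.sum_eq_zero_iff_ne_zero.2 h
  rw [← h1]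
  exact Fintype.sum_equiv Additive.ofMul _ _ fun a => rfl

theorem char4 {A : Type} [CommGroup A] {n : ℕ} {e : A} {D : Finset (A × A)}
    (h : NDS n e D) (hn : ¬ IsSquare n) (h4 : 4 ∣ n - 1) :
    ∃ χ : AddChar (Additive A) ℂ, orderOf χ = 4 := by
  classical
  have hfin := h.fin
  cases nonempty_fintype A
  have hcardA : Nat.card A = n - 1 := by have := h.card; omega
  have hcard : 2 ^ 2 ∣ Nat.card (AddChar (Additive A) ℂ) := by
    rw [Nat.card_eq_fintype_card, AddChar.card_eq, Fintype.card_additive,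
      ← Nat.card_eq_fintype_card, hcardA]
    exact h4
  have : Fact (Nat.Prime 2) := ⟨Nat.prime_two⟩
  obtain ⟨K, hK⟩ := Sylow.exists_subgroup_card_pow_prime 2 hcard
  by_contra hcon
  push Not at hcon
  have hsq : ∀ g ∈ K, g ^ 2 = 1 := by
    intro g hg
    have h1 : orderOf g ∣ 4 := by
      have h2 : orderOf (⟨g, hg⟩ : K) ∣ Nat.card K := orderOf_dvd_natCard _
      rw [hK, Subgroup.orderOf_mk] at h2
      exact h2
    have h2 : orderOf g ≠ 4 := hcon g
    have h3 : orderOf g ∣ 2 := by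
      have h5 : orderOf g ≤ 4 := Nat.le_of_dvd (by norm_num) h1
      have h6 : 0 < orderOf g := Nat.pos_of_dvd_of_pos h1 (by norm_num)
      interval_cases h7 : orderOf g
      · norm_num
      · norm_num
      · norm_num at h1
      · exact absurd rfl h2
    exact orderOf_dvd_iff_pow_eq_one.1 h3
  have hKfin : Finite K := Nat.finite_of_card_ne_zero (by rw [hK]; norm_num)
  have hex : ∃ a b : K, a ≠ 1 ∧ b ≠ 1 ∧ a ≠ b := by
    by_contra hcon2
    push Not at hcon2
    cases nonempty_fintype K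
    have h1 : Fintype.card K ≤ 2 := by
      by_cases h2 : ∃ a : K, a ≠ 1
      · obtain ⟨a, ha⟩ := h2
        have h3 : (univ : Finset K) ⊆ {1, a} := by
          intro b _
          rw [mem_insert, mem_singleton]
          by_cases hb : b = 1
          · exact Or.inl hb
          · exact Or.inr (hcon2 a b ha hb).symm
        calc Fintype.card K = #(univ : Finset K) := rfl
          _ ≤ #({1, a} : Finset K) := card_le_card h3
          _ ≤ 2 := card_le_two
      · push Not at h2
        have h3 : (univ : Finset K) ⊆ {1} := by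
          intro b _
          rw [mem_singleton]
          exact h2 b
        calc Fintype.card K = #(univ : Finset K) := rfl
          _ ≤ #({1} : Finset K) := card_le_card h3
          _ ≤ 2 := by simp
    rw [Nat.card_eq_fintype_card] at hK
    omega
  obtain ⟨⟨χ, hχ⟩, ⟨χ', hχ'⟩, ha, hb, hab⟩ := hex
  have ha' : χ ≠ 1 := fun h0 => ha (Subtype.ext h0)
  have hb' : χ' ≠ 1 := fun h0 => hb (Subtype.ext h0)
  have hab' : χ ≠ χ' := fun h0 => hab (Subtype.ext h0)
  have hs := hsq χ hχ
  have hs' := hsq χ' hχ'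
  have hmul : χ * χ' ≠ 1 := by
    intro h0
    apply hab'
    have h1 : χ * χ = 1 := by rw [← sq]; exact hs
    have h2 : χ * χ = χ * χ' := by rw [h1, h0]
    exact mul_left_cancel h2
  have hval : ∀ ψ : AddChar (Additive A) ℂ, ψ ^ 2 = 1 → ∀ a : A,
      ∃ z : ℤ, toHom ψ a = z ∧ toHom ψ a⁻¹ = z := by
    intro ψ hψ a
    have h2 := congrArg (fun φ : AddChar (Additive A) ℂ => φ (Additive.ofMul a)) hψ
    have h3 : toHom ψ a * toHom ψ a = 1 := by
      rw [toHom_apply, ← sq]
      exact h2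
    have h5 : toHom ψ a * toHom ψ a⁻¹ = 1 := by rw [← map_mul, mul_inv_cancel, map_one]
    have h6 : toHom ψ a⁻¹ = toHom ψ a := by
      have h7 : toHom ψ a ≠ 0 := left_ne_zero_of_mul_eq_one h3
      exact mul_left_cancel₀ h7 (h5.trans h3.symm)
    rcases mul_self_eq_one_iff.1 h3 with h7 | h7
    · exact ⟨1, by rw [h7]; norm_num, by rw [h6, h7]; norm_num⟩
    · exact ⟨-1, by rw [h7]; norm_num, by rw [h6, h7]; norm_num⟩
  have h1 := sum_pair h (toHom χ) (toHom χ') (sum_toHom ha') (sum_toHom hb') (by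
    rw [← sum_toHom hmul]
    refine sum_congr rfl fun a _ => ?_
    rfl)
  choose f hf hf' using hval χ hs
  choose g hg hg' using hval χ' hs'
  have h2 : ∑ s ∈ D, toHom χ s.1 * toHom χ' s.2 = ((∑ s ∈ D, f s.1 * g s.2 : ℤ) : ℂ) := by
    push_cast
    exact sum_congr rfl fun s _ => by rw [hf, hg]
  have h3 : ∑ s ∈ D, toHom χ s.1⁻¹ * toHom χ' s.2⁻¹ = ((∑ s ∈ D, f s.1 * g s.2 : ℤ) : ℂ) := by
    push_cast
    exact sum_congr rfl fun s _ => by rw [hf', hg']
  rw [h2, h3] at h1
  have h5 : (∑ s ∈ D, f s.1 * g s.2) * (∑ s ∈ D, f s.1 * g s.2) = (n : ℤ) := by exact_mod_cast h1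
  apply hn
  refine ⟨(∑ s ∈ D, f s.1 * g s.2).natAbs, ?_⟩
  have h6 := congrArg Int.natAbs h5
  rw [Int.natAbs_mul, Int.natAbs_natCast] at h6
  exact h6.symm

theorem adm4 {A : Type} [CommGroup A] {n : ℕ} {e : A} {D : Finset (A × A)}
    (h : NDS n e D) (hn : ¬ IsSquare n) (h4 : n % 4 = 1) {p : ℕ} (hp : p.Prime) (hpn : p ∣ n) :
    p % 4 = 1 := by
  classical
  have hfin := h.fin
  cases nonempty_fintype A
  have hcardA : Nat.card A = n - 1 := by have := h.card; omega
  by_contra hp4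
  have hp3 : p % 4 = 3 := by
    obtain ⟨m, rfl⟩ := hpn
    have h1 : p % 4 < 4 := Nat.mod_lt _ (by norm_num)
    have h2 : (p % 4) * (m % 4) % 4 = 1 := by rw [← Nat.mul_mod]; exact h4
    have h3 : m % 4 < 4 := Nat.mod_lt _ (by norm_num)
    interval_cases h5 : p % 4 <;> interval_cases h6 : m % 4 <;> omega
  obtain ⟨χ, hχ⟩ := char4 h hn (by omega)
  have hχ4 : χ ^ 4 = 1 := by rw [← hχ]; exact pow_orderOf_eq_one χ
  have hχ1 : χ ≠ 1 := by rintro rfl; rw [orderOf_one] at hχ; omega
  have hχ2 : χ ^ 2 ≠ 1 := by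
    intro h0
    have := orderOf_dvd_of_pow_eq_one h0
    rw [hχ] at this
    omega
  have hpow : ∀ a : A, (toHom χ a) ^ 4 = 1 := by
    intro a
    have h2 := congrArg (fun φ : AddChar (Additive A) ℂ => φ (Additive.ofMul a)) hχ4
    exact h2
  have hsum := h.sum_sq (toHom χ) (sum_toHom hχ1) (by
    rw [← sum_toHom hχ2]
    refine sum_congr rfl fun a _ => ?_
    rfl)
  -- the permutation
  have hcop : Nat.Coprime (Nat.card A) p := by
    refine Nat.Coprime.symm ((Nat.Prime.coprime_iff_not_dvd hp).2 ?_)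
    rw [hcardA]
    intro hd
    have h1 : p ∣ 1 := by
      have h5 : n = n - 1 + 1 := by omega
      rw [h5] at hpn
      exact (Nat.dvd_add_right hd).1 hpn
    exact hp.one_lt.ne' (Nat.dvd_one.1 h1)
  have hinj : Function.Injective (fun s : A × A => s ^ p) := by
    rintro ⟨a, b⟩ ⟨a', b'⟩ hab
    have h1 := congrArg Prod.fst hab
    have h2 := congrArg Prod.snd hab
    have h3 : Function.Injective (fun a : A => a ^ p) := (powCoprime hcop).injective
    exact Prod.ext (h3 h1) (h3 h2)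
  have hperm : ∀ F : A × A → ℂ, ∑ s ∈ D, F (s ^ p) = ∑ s ∈ D, F s := by
    intro F
    have h1 : D.image (fun s : A × A => s ^ p) = D := by
      refine Finset.eq_of_subset_of_card_le ?_ ?_
      · intro s hs
        obtain ⟨r, hr, rfl⟩ := mem_image.1 hs
        exact h.pow_mem hp hpn (x := r.1) (y := r.2) hr
      · rw [card_image_of_injective _ hinj]
    conv_rhs => rw [← h1]
    rw [sum_image fun a _ b _ hab => hinj hab]
  have hconj : ∑ s ∈ D, toHom χ (s.1⁻¹ * s.2⁻¹) = ∑ s ∈ D, toHom χ (s.1 * s.2) := by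
    rw [← hperm (fun s => toHom χ (s.1 * s.2))]
    refine sum_congr rfl fun s _ => ?_
    show toHom χ (s.1⁻¹ * s.2⁻¹) = toHom χ ((s ^ p).1 * (s ^ p).2)
    have h8 : toHom χ ((s ^ p).1 * (s ^ p).2) = (toHom χ (s.1 * s.2)) ^ p := by
      rw [Prod.pow_fst, Prod.pow_snd, ← mul_pow, map_pow]
    rw [h8]
    obtain ⟨k, hk⟩ : ∃ k, p = 4 * k + 3 := ⟨p / 4, by omega⟩
    have h9 : (toHom χ (s.1 * s.2)) ^ p = (toHom χ (s.1 * s.2)) ^ 3 := by
      rw [hk, pow_add, pow_mul, hpow, one_pow, one_mul]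
    rw [h9]
    have h6 : toHom χ (s.1⁻¹ * s.2⁻¹) * toHom χ (s.1 * s.2) = 1 := by
      rw [← map_mul, ← mul_inv, inv_mul_cancel, map_one]
    have h7 : toHom χ (s.1 * s.2) ≠ 0 := right_ne_zero_of_mul_eq_one h6
    refine mul_right_cancel₀ h7 (h6.trans ?_)
    rw [← pow_succ]
    exact (hpow _).symm
  rw [hconj] at hsum
  -- Gaussian integers
  have hval : ∀ s : A × A, ∃ a b : ℤ, toHom χ (s.1 * s.2) = a + b * Complex.I := by
    intro s
    have h1 := hpow (s.1 * s.2)
    have h2 : (toHom χ (s.1 * s.2) ^ 2 - 1) * (toHom χ (s.1 * s.2) ^ 2 + 1) = 0 := by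
      ring_nf
      rw [h1]
      ring
    rcases mul_eq_zero.1 h2 with h3 | h3
    · have h5 : (toHom χ (s.1 * s.2) - 1) * (toHom χ (s.1 * s.2) + 1) = 0 := by
        rw [← h3]; ring
      rcases mul_eq_zero.1 h5 with h6 | h6
      · exact ⟨1, 0, by push_cast; linear_combination h6⟩
      · exact ⟨-1, 0, by push_cast; linear_combination h6⟩
    · have h5 : (toHom χ (s.1 * s.2) - Complex.I) * (toHom χ (s.1 * s.2) + Complex.I) = 0 := by
        have hI := Complex.I_mul_I
        linear_combination h3 - hI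
      rcases mul_eq_zero.1 h5 with h6 | h6
      · exact ⟨0, 1, by push_cast; linear_combination h6⟩
      · exact ⟨0, -1, by push_cast; linear_combination h6⟩
  choose f g hfg using hval
  have hc : ∑ s ∈ D, toHom χ (s.1 * s.2) =
      ((∑ s ∈ D, f s : ℤ) : ℂ) + ((∑ s ∈ D, g s : ℤ) : ℂ) * Complex.I := by
    rw [sum_congr rfl fun s _ => hfg s, sum_add_distrib, ← sum_mul]
    push_cast
    rfl
  rw [hc] at hsum
  set a := ∑ s ∈ D, f s
  set b := ∑ s ∈ D, g s
  have hre := congrArg Complex.re hsum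
  have him := congrArg Complex.im hsum
  simp at hre him
  have hre' : a * a - b * b = (n : ℤ) := by exact_mod_cast hre
  have him' : a * b + b * a = 0 := by exact_mod_cast him
  have hn0 : (0 : ℤ) < n := by
    have : 0 < n := by omega
    exact_mod_cast this
  have hab : a * b = 0 := by linarith
  rcases mul_eq_zero.1 hab with h0 | h0
  · rw [h0] at hre'
    nlinarith [mul_self_nonneg b]
  · rw [h0] at hre'
    apply hn
    refine ⟨a.natAbs, ?_⟩
    have h5 : a * a = (n : ℤ) := by linarith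
    have h6 := congrArg Int.natAbs h5
    rw [Int.natAbs_mul, Int.natAbs_natCast] at h6
    exact h6.symm

end Pool.Agent.PPD
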