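import Pool.Agent.PPD.Defs

/-!
# Module PPD/Psi: characters

PROOFS. `psi_eq`: definitions (`chi D r` is `jacobiSym D r` for odd `r`). `ch_psi`: `jacobiSym.zero_left`
(as `m ≠ 1`), `jacobiSym.one_left`, `jacobiSym.mul_left`, `jacobiSym.trichotomy`; the partial sums by
`PPC.sum_bound` with `q = m`: periodicity by `jacobiSym.mod_left`; an `a` with `psi m a = -1`: let `p ∣ m` be a prime,
`m = p e`, `p` odd and coprime to `e`; `a ≡ u (mod p)`, `u` a nonresidue (`FiniteField.exists_nonsquare`),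
`a ≡ 1 (mod e)` (`Nat.chineseRemainder`), exactly as in `PPC.exists_a` (Pool/Agent/PPC/Chi.lean). `a` is coprime to `m` as
`psi m a ≠ 0` (`jacobiSym.eq_zero_iff`). `psi_mul_right`: `jacobiSym.mul_right`. `ch_small`: `PPC.ch_of_neg` with
`a = 3` for `D = -1, 2`, `a = 5` for `D = -2` (`(-1/3) = (2/3) = (-2/5) = -1`), `PPC.ch_three`, and `Ch` is monotone in `M`
(`Ch.mono`). `ch_two`: `ch_of_neg` with `a = 3, 5, 13, 7`
(`(2/3) = (3/5) = (-6/13) = (-9/7) = -1`; compute by `norm_num` as in `PPC.ch_three`).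
-/

set_option autoImplicit false

namespace Pool.Agent.PPD

open Finset Classical Pool.Agent.PPC

theorem psi_eq {p r : ℕ} (hr : r % 2 = 1) : psi r p = chi (p : ℤ) r := by
  rw [chi_odd hr]
  rfl

theorem psi_per (m n : ℕ) : psi m (n + m) = psi m n := by
  unfold psi
  rw [jacobiSym.mod_left' (a₂ := (n : ℤ))]
  push_cast
  exact Int.add_emod_right _ _

theorem psi_mul (m a b : ℕ) : psi m (a * b) = psi m a * psi m b := by
  unfold psi
  rw [Nat.cast_mul, jacobiSym.mul_left]
  push_cast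
  rfl

theorem psi_val (m n : ℕ) : psi m n = -1 ∨ psi m n = 0 ∨ psi m n = 1 := by
  unfold psi
  rcases jacobiSym.trichotomy (n : ℤ) m with h | h | h <;> rw [h] <;> simp

/-- A number with symbol `-1`. -/
theorem exists_neg {m : ℕ} (h1 : 1 < m) (h2 : m % 2 = 1) (hsq : Squarefree m) :
    ∃ a : ℕ, jacobiSym (a : ℤ) m = -1 := by
  obtain ⟨p, hp, hpd⟩ := Nat.exists_prime_and_dvd (show m ≠ 1 by omega)
  obtain ⟨e, rfl⟩ := hpd
  have : Fact p.Prime := ⟨hp⟩
  have hpe : p.Coprime e := Nat.coprime_of_squarefree_mul hsq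
  have he0 : e ≠ 0 := by rintro rfl; simp at h1
  have hchar : ringChar (ZMod p) ≠ 2 := by
    rw [ZMod.ringChar_zmod_n]
    rintro rfl
    omega
  obtain ⟨u, hu⟩ := FiniteField.exists_nonsquare hchar
  obtain ⟨k, hk1, hke⟩ := Nat.chineseRemainder hpe u.val 1
  refine ⟨k, ?_⟩
  rw [jacobiSym.mul_right' _ hp.ne_zero he0]
  have h1 : jacobiSym (k : ℤ) p = -1 := by
    rw [← jacobiSym.legendreSym.to_jacobiSym, legendreSym.eq_neg_one_iff]
    have h2 : (((k : ℤ)) : ZMod p) = u := by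
      rw [Int.cast_natCast, (ZMod.natCast_eq_natCast_iff _ _ _).2 hk1, ZMod.natCast_zmod_val]
    rw [h2]
    exact hu
  have h2 : jacobiSym (k : ℤ) e = 1 := by
    rw [jacobiSym.mod_left' (a₂ := 1), jacobiSym.one_left]
    have : ((k : ℕ) : ℤ) % (e : ℤ) = ((1 : ℕ) : ℤ) % (e : ℤ) := by
      exact_mod_cast hke
    exact_mod_cast this
  rw [h1, h2]
  norm_num

theorem ch_psi {m : ℕ} (h1 : 1 < m) (h2 : m % 2 = 1) (hsq : Squarefree m) : Ch (psi m) m := by
  obtain ⟨a, ha⟩ := exists_neg h1 h2 hsq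
  have hcop : a.Coprime m := by
    by_contra hcon
    have h3 : jacobiSym (a : ℤ) m = 0 := by
      refine jacobiSym.eq_zero_iff.2 ⟨by omega, ?_⟩
      rw [Int.gcd_natCast_natCast]
      exact hcon
    rw [h3] at ha
    norm_num at ha
  have hab : ∀ n, |psi m n| ≤ 1 := by
    intro n
    rcases psi_val m n with h | h | h <;> rw [h] <;> norm_num
  refine ⟨?_, ?_, psi_mul m, psi_val m, fun N => sum_bound (by omega) (psi_mul m) hab (psi_per m)
    (a := a) ?_ hcop N⟩
  · unfold psi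
    rw [Nat.cast_zero, jacobiSym.zero_left h1]
    norm_num
  · unfold psi
    rw [Nat.cast_one, jacobiSym.one_left]
    norm_num
  · unfold psi
    rw [ha]
    norm_num

theorem psi_mul_right (p m m' : ℕ) (hm : m ≠ 0) (hm' : m' ≠ 0) :
    psi (m * m') p = psi m p * psi m' p := by
  unfold psi
  rw [jacobiSym.mul_right' _ hm hm']
  push_cast
  rfl

theorem ch_small {D : ℤ} (hD : Small D) : Ch (chi D) 12 := by
  rcases hD with rfl | rfl | rfl | rfl
  · refine (ch_of_neg (D := -1) (a := 3) (by norm_num) ?_).mono (by norm_num)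
    rw [chi_odd (by norm_num)]
    norm_num
  · refine (ch_of_neg (D := 2) (a := 3) (by norm_num) ?_).mono (by norm_num)
    rw [chi_odd (by norm_num)]
    norm_num
  · refine (ch_of_neg (D := -2) (a := 5) (by norm_num) ?_).mono (by norm_num)
    rw [chi_odd (by norm_num)]
    norm_num
  · exact ch_three

theorem ch_two : Ch (chi 2) 8 ∧ Ch (chi 3) 12 ∧ Ch (chi (-6)) 24 ∧ Ch (chi (-9)) 36 := by
  refine ⟨?_, ?_, ?_, ?_⟩
  · refine (ch_of_neg (D := 2) (a := 3) (by norm_num) ?_).mono (by norm_num)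
    rw [chi_odd (by norm_num)]
    norm_num
  · refine (ch_of_neg (D := 3) (a := 5) (by norm_num) ?_).mono (by norm_num)
    rw [chi_odd (by norm_num)]
    norm_num
  · refine (ch_of_neg (D := -6) (a := 13) (by norm_num) ?_).mono (by norm_num)
    rw [chi_odd (by norm_num)]
    norm_num
  · refine (ch_of_neg (D := -9) (a := 7) (by norm_num) ?_).mono (by norm_num)
    rw [chi_odd (by norm_num)]
    norm_num

end Pool.Agent.PPD
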