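import Pool.Agent.PPD.Jac

/-!
# Module PPD/RecipP: fixed witnesses for planes

PROOF. `v = n² + n + 1` is odd and coprime to `n`. Let `l ≥ 5` be a prime divisor of `n`. If `n % 4 = 1` or `2` then `v % 4 = 3`; `jacobiSym l v = 1` by
`jac_one` and `Adm`. If `chi (-1) l = -1` then `l % 4 = 3` (`jacobiSym.at_neg_one`, `ZMod.χ₄_nat_three_mod_four` etc.) and
by `jacobiSym.quadratic_reciprocity_three_mod_four` `jacobiSym l v = - jacobiSym v l = - jacobiSym 1 l = -1` (`v ≡ 1 (mod l)`, `jacobiSym.mod_left`). So `D = -1`.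
If `n % 3 = 1` then `3 ∣ v`, so `RP 3 n`, `miss_three`, `D = -3`.
-/

set_option autoImplicit false

namespace Pool.Agent.PPD

open Finset Classical Pool.Agent.PPC

theorem recip_plane {n : ℕ} (hadm : Adm RP n) (h : n % 4 = 1 ∨ n % 4 = 2 ∨ n % 3 = 1) :
    ∃ D : ℤ, Small D ∧ Miss D n := by
  by_cases h3 : n % 3 = 1
  · refine ⟨-3, by unfold Small; simp, miss_three hadm ?_⟩
    unfold RP
    have : (n ^ 2 + n + 1) % 3 = 0 := by
      rw [Nat.add_mod, Nat.add_mod (n ^ 2), Nat.pow_mod, h3]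
    exact Nat.dvd_of_mod_eq_zero this
  have h' : n % 4 = 1 ∨ n % 4 = 2 := by tauto
  refine ⟨-1, by unfold Small; simp, ?_⟩
  intro l hl h5 hln
  have hodd : l % 2 = 1 := by
    rcases hl.eq_two_or_odd with h | h
    · omega
    · exact h
  have hv3 : (n ^ 2 + n + 1) % 4 = 3 := by
    rcases h' with h1 | h1
    · rw [Nat.add_mod, Nat.add_mod (n ^ 2), Nat.pow_mod, h1]
    · rw [Nat.add_mod, Nat.add_mod (n ^ 2), Nat.pow_mod, h1]
  have hjac : jacobiSym (l : ℤ) (n ^ 2 + n + 1) = 1 := by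
    apply jac_one (by omega)
    intro r hr hrv
    refine ⟨?_, hadm l r hl hr hln hrv⟩
    intro hrl
    have hrl' : r = l := (Nat.prime_dvd_prime_iff_eq hr hl).1 hrl
    rw [hrl'] at hrv
    have h1 : l ∣ n ^ 2 + n := by
      obtain ⟨c, rfl⟩ := hln
      exact ⟨l * c ^ 2 + c, by ring⟩
    have h2 : l ∣ 1 := (Nat.dvd_add_right h1).1 hrv
    exact hl.one_lt.ne' (Nat.dvd_one.1 h2)
  have hchi : chi (-1) l = (jacobiSym (-1) l : ℝ) := by
    unfold chi
    rw [if_neg (by omega)]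
  have hm1 : jacobiSym (-1) l = ZMod.χ₄ l := jacobiSym.at_neg_one (Nat.odd_iff.2 hodd)
  rcases (show l % 4 = 1 ∨ l % 4 = 3 by omega) with hl1 | hl3
  · rw [hchi, hm1, ZMod.χ₄_nat_one_mod_four hl1]
    norm_num
  · exfalso
    have h1 : jacobiSym (l : ℤ) (n ^ 2 + n + 1) = -jacobiSym ((n ^ 2 + n + 1 : ℕ) : ℤ) l :=
      jacobiSym.quadratic_reciprocity_three_mod_four hl3 hv3
    have h2 : jacobiSym ((n ^ 2 + n + 1 : ℕ) : ℤ) l = 1 := by
      have h3 : ((n ^ 2 + n + 1 : ℕ) : ℤ) % (l : ℤ) = 1 % (l : ℤ) := by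
        obtain ⟨c, rfl⟩ := hln
        have h4 : (((l * c) ^ 2 + l * c + 1 : ℕ) : ℤ) = 1 + (l : ℤ) * (l * c ^ 2 + c) := by
          push_cast; ring
        rw [h4]
        exact Int.add_mul_emod_self_left _ _ _
      rw [jacobiSym.mod_left, h3, ← jacobiSym.mod_left, jacobiSym.one_left]
    rw [hjac, h2] at h1
    norm_num at h1

end Pool.Agent.PPD
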