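import Pool.Agent.PPD.Psi

/-!
# Module PPD/SM1: second moment of character sums over a dyadic block, first form

PROOF. Expand the square and exchange: the sum is `∑_{r, r'} a r a r' / (r r') ∑_n psi r n psi r' n`
(primes in `(Y, v]`, all odd as `Y ≥ 5`). `r = r'`: the inner sum is at most `2 ^ i` (`|psi| ≤ 1`,
`#(Ico (2^i) (2^(i+1))) = 2^i`), and `∑ 4 / r² ≤ 4 / Y` (`1/r² ≤ 1/(r-1) - 1/r`, telescoping). `r ≠ r'`: `psi r n psi r' n = psi (r r') n`
and `ch_psi` gives `|∑_{n ∈ Ico (2^i) (2^(i+1))} psi (r r') n| ≤ 2 r r'` (difference of two sums over `range`); so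
every such pair contributes at most `4 / (r r') * 2 r r' = 8`, and there are at most `v²` pairs.
-/

set_option autoImplicit false

namespace Pool.Agent.PPD

open Finset Classical Pool.Agent.PPC

theorem psi_pair {r r' : ℕ} (hr : r.Prime) (hr' : r'.Prime) (h2 : 5 ≤ r) (h2' : 5 ≤ r')
    (hne : r ≠ r') (i : ℕ) :
    |∑ n ∈ Ico (2 ^ i) (2 ^ (i + 1)), psi r n * psi r' n| ≤ 2 * (r * r') := by
  have hodd : ∀ q : ℕ, q.Prime → 5 ≤ q → q % 2 = 1 := by
    intro q hq h5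
    rcases hq.eq_two_or_odd with h | h
    · omega
    · exact h
  have h1 : 1 < r * r' := by nlinarith
  have h3 : (r * r') % 2 = 1 := by
    rw [Nat.mul_mod, hodd r hr h2, hodd r' hr' h2']
  have hsq : Squarefree (r * r') :=
    (Nat.squarefree_mul ((Nat.coprime_primes hr hr').2 hne)).2
      ⟨hr.prime.squarefree, hr'.prime.squarefree⟩
  have hch := ch_psi h1 h3 hsq
  have h4 : ∑ n ∈ Ico (2 ^ i) (2 ^ (i + 1)), psi r n * psi r' n =
      ∑ n ∈ range (2 ^ (i + 1)), psi (r * r') n - ∑ n ∈ range (2 ^ i), psi (r * r') n := by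
    rw [← Finset.sum_Ico_eq_sub _ (Nat.pow_le_pow_right (by norm_num) (Nat.le_succ i))]
    refine Finset.sum_congr rfl fun n _ => ?_
    rw [psi_mul_right n r r' hr.ne_zero hr'.ne_zero]
  rw [h4]
  have h5 := hch.bd (2 ^ (i + 1))
  have h6 := hch.bd (2 ^ i)
  push_cast at h5 h6
  calc |∑ n ∈ range (2 ^ (i + 1)), psi (r * r') n - ∑ n ∈ range (2 ^ i), psi (r * r') n|
      ≤ |∑ n ∈ range (2 ^ (i + 1)), psi (r * r') n| + |∑ n ∈ range (2 ^ i), psi (r * r') n| :=
        abs_sub _ _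
    _ ≤ _ := by linarith

theorem sm1 (a : ℕ → ℝ) (ha : ∀ r, |a r| ≤ 2) (Y v i : ℕ) (hY : 5 ≤ Y) :
    ∑ n ∈ Ico (2 ^ i) (2 ^ (i + 1)),
      (∑ r ∈ (Ioc Y v).filter Nat.Prime, a r * psi r n / r) ^ 2 ≤
      4 * 2 ^ i / Y + 8 * (v : ℝ) ^ 2 := by
  set S := (Ioc Y v).filter Nat.Prime with hS
  have hmem : ∀ r ∈ S, r.Prime ∧ Y < r ∧ r ≤ v := by
    intro r hr
    rw [hS, mem_filter, mem_Ioc] at hr
    exact ⟨hr.2, hr.1⟩
  have hpsi : ∀ r n, |psi r n| ≤ 1 := by
    intro r n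
    rcases psi_val r n with h | h | h <;> rw [h] <;> norm_num
  have hexp : ∑ n ∈ Ico (2 ^ i) (2 ^ (i + 1)), (∑ r ∈ S, a r * psi r n / r) ^ 2 =
      ∑ r ∈ S, ∑ r' ∈ S, ∑ n ∈ Ico (2 ^ i) (2 ^ (i + 1)),
        (a r * psi r n / r) * (a r' * psi r' n / r') := by
    rw [Finset.sum_congr rfl (fun n _ => by rw [pow_two, Finset.sum_mul_sum]), Finset.sum_comm]
    refine Finset.sum_congr rfl fun r _ => ?_
    rw [Finset.sum_comm]
  rw [hexp]
  have hT : ∀ r ∈ S, ∀ r' ∈ S, ∑ n ∈ Ico (2 ^ i) (2 ^ (i + 1)),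
      (a r * psi r n / r) * (a r' * psi r' n / r') ≤
      (if r = r' then 4 * 2 ^ i * ((r : ℝ) ^ 2)⁻¹ else 0) + 8 := by
    intro r hr r' hr'
    obtain ⟨hrp, hrY, -⟩ := hmem r hr
    obtain ⟨hrp', hrY', -⟩ := hmem r' hr'
    have hr0 : (0 : ℝ) < r := by exact_mod_cast hrp.pos
    have hr0' : (0 : ℝ) < r' := by exact_mod_cast hrp'.pos
    split_ifs with h
    · subst h
      have h1 : ∀ n ∈ Ico (2 ^ i) (2 ^ (i + 1)),
          (a r * psi r n / r) * (a r * psi r n / r) ≤ 4 * ((r : ℝ) ^ 2)⁻¹ := by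
        intro n _
        have h2 : (a r * psi r n / r) * (a r * psi r n / r) =
            (a r * psi r n) ^ 2 * ((r : ℝ) ^ 2)⁻¹ := by
          field_simp
        rw [h2]
        have h3 : |a r * psi r n| ≤ 2 := by
          rw [abs_mul]
          calc |a r| * |psi r n| ≤ 2 * 1 :=
                mul_le_mul (ha r) (hpsi r n) (abs_nonneg _) (by norm_num)
            _ = 2 := by norm_num
        have h4 : (a r * psi r n) ^ 2 ≤ 4 := by
          rw [← sq_abs]
          nlinarith [abs_nonneg (a r * psi r n)]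
        exact mul_le_mul_of_nonneg_right h4 (by positivity)
      refine (Finset.sum_le_sum h1).trans ?_
      rw [Finset.sum_const, Nat.card_Ico, nsmul_eq_mul]
      have h5 : ((2 ^ (i + 1) - 2 ^ i : ℕ) : ℝ) = 2 ^ i := by
        have h6 : 2 ^ (i + 1) - 2 ^ i = 2 ^ i := by
          rw [pow_succ]
          omega
        rw [h6]
        push_cast
        rfl
      rw [h5]
      have : (0 : ℝ) ≤ ((r : ℝ) ^ 2)⁻¹ := by positivity
      nlinarith
    · have h1 : ∑ n ∈ Ico (2 ^ i) (2 ^ (i + 1)), (a r * psi r n / r) * (a r' * psi r' n / r') =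
          (a r * a r' / (r * r')) * ∑ n ∈ Ico (2 ^ i) (2 ^ (i + 1)), psi r n * psi r' n := by
        rw [Finset.mul_sum]
        refine Finset.sum_congr rfl fun n _ => ?_
        field_simp
      rw [h1, zero_add]
      refine (le_abs_self _).trans ?_
      rw [abs_mul, abs_div, abs_mul, abs_of_pos (mul_pos hr0 hr0')]
      have h2 := psi_pair hrp hrp' (by omega) (by omega) h i
      have h3 : |a r| * |a r'| ≤ 4 := by
        calc |a r| * |a r'| ≤ 2 * 2 := mul_le_mul (ha r) (ha r') (abs_nonneg _) (by norm_num)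
          _ = 4 := by norm_num
      have hrr : (0 : ℝ) < r * r' := mul_pos hr0 hr0'
      calc |a r| * |a r'| / (r * r') * |∑ n ∈ Ico (2 ^ i) (2 ^ (i + 1)), psi r n * psi r' n|
          ≤ 4 / (r * r') * (2 * (r * r')) := by
            refine mul_le_mul ?_ h2 (abs_nonneg _) (by positivity)
            exact div_le_div_of_nonneg_right h3 hrr.le
        _ = 8 := by
            field_simp
            norm_num
  refine (Finset.sum_le_sum fun r hr => Finset.sum_le_sum (hT r hr)).trans ?_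
  have hsum : ∀ r ∈ S, ∑ r' ∈ S, ((if r = r' then 4 * 2 ^ i * ((r : ℝ) ^ 2)⁻¹ else 0) + 8) =
      4 * 2 ^ i * ((r : ℝ) ^ 2)⁻¹ + 8 * (S.card : ℝ) := by
    intro r hr
    rw [Finset.sum_add_distrib, Finset.sum_ite_eq, if_pos hr, Finset.sum_const, nsmul_eq_mul]
    ring
  rw [Finset.sum_congr rfl hsum, Finset.sum_add_distrib, Finset.sum_const, nsmul_eq_mul,
    ← Finset.mul_sum]
  have hcard : (S.card : ℝ) ≤ v := by
    have h1 : S.card ≤ v := by
      calc S.card ≤ (Ioc Y v).card := Finset.card_filter_le _ _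
        _ = v - Y := Nat.card_Ioc _ _
        _ ≤ v := Nat.sub_le _ _
    exact_mod_cast h1
  have hinv : ∑ r ∈ S, ((r : ℝ) ^ 2)⁻¹ ≤ (Y : ℝ)⁻¹ := by
    have h1 : ∑ r ∈ S, ((r : ℝ) ^ 2)⁻¹ ≤ ∑ r ∈ Ioc Y v, ((r : ℝ) ^ 2)⁻¹ :=
      Finset.sum_le_sum_of_subset_of_nonneg (Finset.filter_subset _ _)
        (fun r _ _ => by positivity)
    refine h1.trans ?_
    rcases le_total Y v with h | h
    · have h2 := sum_Ioc_inv_sq_le_sub (α := ℝ) (k := Y) (n := v) (by omega) h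
      have h3 : (0 : ℝ) ≤ (v : ℝ)⁻¹ := by positivity
      linarith
    · rw [Finset.Ioc_eq_empty (by omega), Finset.sum_empty]
      positivity
  have hpow : (0 : ℝ) < 4 * 2 ^ i := by positivity
  have e1 : 4 * 2 ^ i * ∑ r ∈ S, ((r : ℝ) ^ 2)⁻¹ ≤ 4 * 2 ^ i / Y := by
    rw [div_eq_mul_inv]
    exact mul_le_mul_of_nonneg_left hinv hpow.le
  have hc0 : (0 : ℝ) ≤ S.card := Nat.cast_nonneg _
  have e2 : (S.card : ℝ) * (8 * S.card) ≤ 8 * (v : ℝ) ^ 2 := by nlinarith
  linarith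

end Pool.Agent.PPD
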