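import Pool.Agent.PPD.FinalG

/-!
# Module PPD/Wrap2: from `Adm` to orders, general form

PROOF. The squares in `[2, x]` are at most `√x ≤ C x / (log x) ^ θ`, the other `n ≤ x` with `P n` are counted by `final_G`
(`Wit R ⌊n ^ (1 - δ)⌋₊ n` gives `Wit R ⌊x ^ (1 - δ)⌋₊ n`; if `δ ≥ 1` there is no prime `5 ≤ r ≤ n ^ (1 - δ)`).
-/

set_option autoImplicit false

namespace Pool.Agent.PPD

open Finset Classical Pool.Agent.PPC

private lemma w2_card_sq_le (x : ℕ) :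
    (#((Icc 2 x).filter IsSquare) : ℝ) ≤ Real.sqrt x := by
  have h1 : #((Icc 2 x).filter IsSquare) ≤ Nat.sqrt x := by
    calc #((Icc 2 x).filter IsSquare) ≤ #((Icc 1 (Nat.sqrt x)).image (fun m => m * m)) := by
          apply card_le_card
          intro n hn
          rw [mem_filter, mem_Icc] at hn
          obtain ⟨⟨h2, h3⟩, m, rfl⟩ := hn
          rw [mem_image]
          refine ⟨m, ?_, rfl⟩
          rw [mem_Icc]
          constructor
          · by_contra h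
            have : m = 0 := by omega
            subst this
            omega
          · exact Nat.le_sqrt.mpr h3
      _ ≤ #(Icc 1 (Nat.sqrt x)) := card_image_le
      _ = Nat.sqrt x := by simp
  calc (#((Icc 2 x).filter IsSquare) : ℝ) ≤ (Nat.sqrt x : ℝ) := by exact_mod_cast h1
    _ ≤ Real.sqrt x := Real.nat_sqrt_le_real_sqrt

private lemma w2_log_rpow_le (θ : ℝ) : ∃ C : ℝ, 0 < C ∧ ∀ x : ℕ, 2 ≤ x →
    (Real.log x) ^ θ ≤ C * Real.sqrt x := by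
  have hl2 : 0 < Real.log 2 := Real.log_pos (by norm_num)
  rcases le_or_gt θ 0 with h | h
  · refine ⟨(Real.log 2) ^ θ, Real.rpow_pos_of_pos hl2 _, fun x hx => ?_⟩
    have hx1 : (1 : ℝ) ≤ x := by exact_mod_cast (by omega : 1 ≤ x)
    have hs1 : 1 ≤ Real.sqrt x := by
      rw [← Real.sqrt_one]
      exact Real.sqrt_le_sqrt hx1
    have h2 : (Real.log x) ^ θ ≤ (Real.log 2) ^ θ :=
      Real.rpow_le_rpow_of_nonpos hl2 (Real.log_le_log (by norm_num) (by exact_mod_cast hx)) h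
    have h3 := Real.rpow_pos_of_pos hl2 θ
    nlinarith
  · refine ⟨(2 * θ) ^ θ, Real.rpow_pos_of_pos (by linarith) _, fun x hx => ?_⟩
    have hx0 : (0 : ℝ) < x := by exact_mod_cast (by omega : 0 < x)
    have hL : 0 ≤ Real.log x := Real.log_natCast_nonneg x
    have h2 : Real.log x ≤ (x : ℝ) ^ (1 / (2 * θ)) / (1 / (2 * θ)) :=
      Real.log_le_rpow_div hx0.le (by positivity)
    have h3 : (x : ℝ) ^ (1 / (2 * θ)) / (1 / (2 * θ)) = (2 * θ) * (x : ℝ) ^ (1 / (2 * θ)) := by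
      field_simp
    rw [h3] at h2
    calc (Real.log x) ^ θ ≤ ((2 * θ) * (x : ℝ) ^ (1 / (2 * θ))) ^ θ :=
          Real.rpow_le_rpow hL h2 h.le
      _ = (2 * θ) ^ θ * Real.sqrt x := by
          rw [Real.mul_rpow (by positivity) (by positivity), ← Real.rpow_mul hx0.le,
            Real.sqrt_eq_rpow]
          congr 2
          field_simp

/-- The squares are negligible. -/
theorem sq_negl (θ : ℝ) : ∃ C : ℝ, 0 < C ∧ ∀ x : ℕ, 2 ≤ x →
    (#((Icc 2 x).filter IsSquare) : ℝ) ≤ C * x / (Real.log x) ^ θ := by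
  obtain ⟨C, hC, H⟩ := w2_log_rpow_le θ
  refine ⟨C, hC, fun x hx => ?_⟩
  have hL : 0 < Real.log x := Real.log_pos (by exact_mod_cast (by omega : 1 < x))
  rw [le_div_iff₀ (Real.rpow_pos_of_pos hL _)]
  calc (#((Icc 2 x).filter IsSquare) : ℝ) * (Real.log x) ^ θ
      ≤ Real.sqrt x * (C * Real.sqrt x) :=
        mul_le_mul (w2_card_sq_le x) (H x hx) (Real.rpow_pos_of_pos hL _).le (Real.sqrt_nonneg _)
    _ = C * (Real.sqrt x * Real.sqrt x) := by ring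
    _ = C * x := by rw [Real.mul_self_sqrt (Nat.cast_nonneg x)]

theorem wrap_G2 {R : ℕ → ℕ → Prop} {ρ : ℕ → ℕ} (hc : Cond2 R ρ) {P : ℕ → Prop}
    {ε δ : ℝ} (hε : 0 < ε) (hδ : 0 < δ)
    (hP : ∀ n : ℕ, 2 ≤ n → ¬ IsSquare n → P n → Adm R n ∧ ¬ IsPrimePow n ∧
      ((∃ D : ℤ, Small D ∧ Miss D n) ∨
        ∃ r : ℕ, r.Prime ∧ 5 ≤ r ∧ (r : ℝ) ≤ (n : ℝ) ^ (1 - δ) ∧ R r n)) :
    ∃ C : ℝ, ∀ x : ℕ, 2 ≤ x →
      (#((Icc 2 x).filter P) : ℝ) ≤ C * x / (Real.log x) ^ (3 / 2 - ε) := by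
  obtain ⟨C, hC⟩ := final_G hc hε hδ
  obtain ⟨C', hC', hC2⟩ := sq_negl (3 / 2 - ε)
  refine ⟨C + C', fun x hx => ?_⟩
  have h1 : #((Icc 2 x).filter P) ≤
      #((Icc 1 x).filter (fun n => Adm R n ∧ ¬ IsPrimePow n ∧ Wit R ⌊(x : ℝ) ^ (1 - δ)⌋₊ n)) +
      #((Icc 2 x).filter IsSquare) := by
    refine (card_le_card ?_).trans (card_union_le _ _)
    intro n hn
    simp only [mem_filter, mem_Icc] at hn
    simp only [mem_union, mem_filter, mem_Icc]
    by_cases hsq : IsSquare n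
    · exact Or.inr ⟨hn.1, hsq⟩
    · left
      obtain ⟨h2, h3, h4⟩ := hP n hn.1.1 hsq hn.2
      refine ⟨⟨by omega, hn.1.2⟩, h2, h3, ?_⟩
      rcases h4 with h4 | ⟨r, hr, hr5, hrn, hR⟩
      · exact Or.inl h4
      · refine Or.inr ⟨r, hr, hr5, ?_, hR⟩
        have hn1 : (1 : ℝ) ≤ n := by exact_mod_cast (by omega : 1 ≤ n)
        rcases le_or_gt δ 1 with hδ1 | hδ1
        · refine Nat.le_floor (hrn.trans ?_)
          exact Real.rpow_le_rpow (by linarith) (by exact_mod_cast hn.1.2) (by linarith)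
        · exfalso
          have h5 : (n : ℝ) ^ (1 - δ) ≤ 1 := Real.rpow_le_one_of_one_le_of_nonpos hn1 (by linarith)
          have h6 : (5 : ℝ) ≤ r := by exact_mod_cast hr5
          linarith
  have h2 : (#((Icc 2 x).filter P) : ℝ) ≤
      #((Icc 1 x).filter (fun n => Adm R n ∧ ¬ IsPrimePow n ∧ Wit R ⌊(x : ℝ) ^ (1 - δ)⌋₊ n)) +
      #((Icc 2 x).filter IsSquare) := by exact_mod_cast h1
  have h3 := hC x hx
  have h4 := hC2 x hx
  rw [add_mul, add_div]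
  linarith

/-- `wrap_G2` for an arbitrary decidability instance. -/
theorem wrap_G3 {R : ℕ → ℕ → Prop} {ρ : ℕ → ℕ} (hc : Cond2 R ρ) {P : ℕ → Prop}
    [inst : DecidablePred P] {ε δ : ℝ} (hε : 0 < ε) (hδ : 0 < δ)
    (hP : ∀ n : ℕ, 2 ≤ n → ¬ IsSquare n → P n → Adm R n ∧ ¬ IsPrimePow n ∧
      ((∃ D : ℤ, Small D ∧ Miss D n) ∨
        ∃ r : ℕ, r.Prime ∧ 5 ≤ r ∧ (r : ℝ) ≤ (n : ℝ) ^ (1 - δ) ∧ R r n)) :
    ∃ C : ℝ, ∀ x : ℕ, 2 ≤ x →
      (((Icc 2 x).filter P).card : ℝ) ≤ C * x / (Real.log x) ^ (3 / 2 - ε) := by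
  obtain ⟨C, hC⟩ := wrap_G2 hc hε hδ hP
  refine ⟨C, fun x hx => le_trans (le_of_eq ?_) (hC x hx)⟩
  congr 2
  ext n
  simp only [mem_filter]

end Pool.Agent.PPD
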